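import Pool.Agent.J6H81.Cube.Rel

/-! Certificate for class 0 (support for MP_416390_gt). -/

namespace Pool.Agent.J6H81.Cube.C0

open Pool.Agent.J6H81.Cube

/-- Signs of the class. -/
def chi : List ℤ :=
  [.ofNat 1, .ofNat 1, .ofNat 1, .ofNat 1, .ofNat 1, .ofNat 1, .ofNat 1, .ofNat 1, .ofNat 1, .ofNat 1,
  .ofNat 1, .ofNat 1, .ofNat 1, .ofNat 1, .ofNat 1, .ofNat 1, .ofNat 1, .ofNat 1, .negSucc 0, .negSucc
  0, .ofNat 1, .ofNat 1, .ofNat 1, .ofNat 1, .ofNat 1, .ofNat 1, .ofNat 1, .ofNat 1, .ofNat 1,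
  .negSucc 0, .ofNat 1, .ofNat 1, .ofNat 1, .ofNat 1, .ofNat 1]

/-- Multipliers of the relations. -/
def mu : List ℤ :=
  [.negSucc 2177, .negSucc 3043, .negSucc 2422, .negSucc 2889, .negSucc 2557, .negSucc 1932, .negSucc
  2076, .negSucc 1781, .negSucc 1950, .negSucc 1875, .negSucc 3164, .negSucc 2872, .negSucc 2809,
  .negSucc 2670, .negSucc 1645, .ofNat 1876, .ofNat 1951, .ofNat 1933, .ofNat 1782, .ofNat 2558,
  .ofNat 2423, .ofNat 2077, .ofNat 2890, .ofNat 3044, .ofNat 2178, .negSucc 1645, .negSucc 2670,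
  .negSucc 2809, .negSucc 2872, .negSucc 3164, .negSucc 2209, .negSucc 1444, .negSucc 2576, .ofNat
  2581, .negSucc 2674, .negSucc 3843, .negSucc 1381, .ofNat 2795, .ofNat 2959, .negSucc 1547, .negSucc
  770, .ofNat 1765, .ofNat 1378, .negSucc 1322, .ofNat 692, .ofNat 2983, .ofNat 2202, .ofNat 4037,
  .ofNat 3874, .ofNat 2502, .negSucc 3952, .ofNat 2024, .ofNat 1578, .negSucc 1316, .ofNat 805, .ofNat
  1277, .ofNat 2208, .negSucc 301, .ofNat 1572, .ofNat 636, .negSucc 4688, .negSucc 2661, .ofNat 4555,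
  .negSucc 3549, .negSucc 2661, .negSucc 4688, .ofNat 2227, .negSucc 481, .ofNat 1698, .negSucc 1298,
  .ofNat 1299, .negSucc 1697, .ofNat 482, .negSucc 2226, .ofNat 738, .negSucc 3952, .ofNat 2502,
  .ofNat 4037, .ofNat 3874, .ofNat 2202, .ofNat 2983, .negSucc 1571, .ofNat 302, .negSucc 2207,
  .negSucc 1276, .negSucc 804, .ofNat 1317, .negSucc 1577, .negSucc 2023, .ofNat 635, .negSucc 3843,
  .negSucc 2674, .negSucc 2576, .ofNat 2581, .negSucc 1444, .negSucc 2209, .ofNat 1323, .negSucc 1377,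
  .negSucc 1764, .ofNat 771, .ofNat 1548, .negSucc 2958, .negSucc 2794, .ofNat 1382, .ofNat 692]

/-- Multipliers of the norm conditions. -/
def nu : List ℤ :=
  [.ofNat 141, .ofNat 141, .ofNat 0, .negSucc 41, .negSucc 42, .negSucc 41, .ofNat 0]

/-- The table. -/
def tab : List (List ℤ) :=
  [[.ofNat 57782, .negSucc 1999, .negSucc 1999, .negSucc 1999, .negSucc 1999, .negSucc 1999, .negSucc
  1999, .ofNat 178, .negSucc 123, .ofNat 210, .negSucc 1999, .negSucc 1999, .negSucc 1999, .ofNat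
  1044, .negSucc 48, .negSucc 554, .ofNat 890, .negSucc 217, .negSucc 580, .ofNat 2000, .negSucc 1999,
  .negSucc 1999, .negSucc 1999, .ofNat 423, .negSucc 66, .ofNat 577, .ofNat 558, .ofNat 558, .ofNat
  675, .ofNat 2000, .negSucc 66, .ofNat 423, .ofNat 1844, .negSucc 1999, .negSucc 1999],
   [.negSucc 1999, .ofNat 58370, .negSucc 1999, .negSucc 1999, .negSucc 1999, .negSucc 4177, .negSucc
  3875, .negSucc 1999, .negSucc 1999, .ofNat 983, .negSucc 1999, .negSucc 5043, .negSucc 3950,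
  .negSucc 1999, .negSucc 1999, .ofNat 202, .ofNat 77, .ofNat 77, .ofNat 2000, .negSucc 1873, .negSucc
  1999, .negSucc 4422, .negSucc 3932, .negSucc 1999, .negSucc 1999, .ofNat 2037, .negSucc 217, .ofNat
  890, .negSucc 1999, .negSucc 501, .negSucc 48, .ofNat 1044, .negSucc 1999, .ofNat 1953, .negSucc
  1999],
   [.negSucc 1999, .negSucc 1999, .ofNat 60344, .negSucc 1999, .ofNat 178, .negSucc 1999, .negSucc
  4209, .negSucc 1999, .negSucc 4982, .negSucc 1999, .ofNat 1044, .negSucc 1999, .negSucc 3444,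
  .negSucc 1999, .negSucc 4201, .negSucc 1999, .ofNat 1165, .negSucc 1999, .ofNat 618, .negSucc 23,
  .ofNat 423, .negSucc 1999, .negSucc 4576, .negSucc 1999, .negSucc 6036, .negSucc 1999, .ofNat 873,
  .negSucc 1999, .ofNat 795, .ofNat 422, .ofNat 810, .negSucc 1999, .ofNat 959, .negSucc 682, .negSucc
  1999],
   [.negSucc 1999, .negSucc 1999, .negSucc 1999, .ofNat 60344, .negSucc 123, .ofNat 210, .negSucc 1999,
  .ofNat 983, .negSucc 1999, .negSucc 1999, .negSucc 48, .negSucc 554, .negSucc 1999, .ofNat 202,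
  .negSucc 1999, .negSucc 1999, .negSucc 1999, .negSucc 353, .ofNat 1229, .ofNat 723, .negSucc 66,
  .ofNat 577, .negSucc 1999, .ofNat 2037, .negSucc 1999, .negSucc 1999, .negSucc 1999, .ofNat 671,
  .negSucc 234, .negSucc 207, .negSucc 1999, .ofNat 810, .negSucc 621, .negSucc 1697, .negSucc 1999],
   [.negSucc 1999, .negSucc 1999, .ofNat 178, .negSucc 123, .ofNat 58384, .negSucc 1999, .negSucc 1999,
  .negSucc 1999, .negSucc 1999, .ofNat 2689, .negSucc 1999, .negSucc 4889, .negSucc 3781, .negSucc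
  4076, .negSucc 4076, .negSucc 1999, .negSucc 1999, .negSucc 1999, .negSucc 661, .negSucc 1549,
  .negSucc 1999, .negSucc 4557, .negSucc 4557, .negSucc 3781, .negSucc 4889, .negSucc 1999, .negSucc
  1999, .negSucc 1999, .ofNat 2555, .negSucc 661, .negSucc 123, .ofNat 178, .negSucc 1999, .negSucc
  1999, .ofNat 2689],
   [.negSucc 1999, .negSucc 4177, .negSucc 1999, .ofNat 210, .negSucc 1999, .ofNat 60358, .negSucc
  1999, .negSucc 1999, .negSucc 6688, .negSucc 1999, .ofNat 890, .negSucc 1999, .ofNat 581, .negSucc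
  5164, .negSucc 1999, .negSucc 617, .negSucc 1999, .ofNat 662, .ofNat 2000, .ofNat 4227, .ofNat 558,
  .negSucc 1999, .negSucc 4674, .negSucc 4872, .negSucc 1999, .negSucc 4794, .negSucc 1999, .negSucc
  6554, .negSucc 1999, .ofNat 1518, .ofNat 671, .negSucc 1999, .negSucc 3547, .negSucc 1999, .negSucc
  3697],
   [.negSucc 1999, .negSucc 3875, .negSucc 4209, .negSucc 1999, .negSucc 1999, .negSucc 1999, .ofNat
  60358, .ofNat 2689, .negSucc 1999, .negSucc 1999, .negSucc 217, .negSucc 4580, .negSucc 1999,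
  .negSucc 1999, .negSucc 3645, .negSucc 1228, .negSucc 4661, .negSucc 1999, .ofNat 2000, .ofNat 3299,
  .ofNat 558, .ofNat 675, .negSucc 1999, .negSucc 1999, .negSucc 4670, .negSucc 3764, .ofNat 2555,
  .negSucc 1999, .negSucc 1999, .ofNat 302, .negSucc 1999, .ofNat 873, .negSucc 3322, .negSucc 1999,
  .negSucc 2481],
   [.ofNat 178, .negSucc 1999, .negSucc 1999, .ofNat 983, .negSucc 1999, .negSucc 1999, .ofNat 2689,
  .ofNat 60946, .negSucc 1999, .negSucc 1999, .ofNat 77, .ofNat 1165, .negSucc 1999, .negSucc 1999,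
  .ofNat 1874, .ofNat 24, .negSucc 1999, .ofNat 1550, .negSucc 226, .ofNat 2000, .negSucc 217, .ofNat
  873, .negSucc 1999, .negSucc 1999, .ofNat 502, .negSucc 421, .negSucc 1999, .ofNat 662, .negSucc
  1517, .ofNat 2000, .negSucc 353, .negSucc 1999, .negSucc 1999, .negSucc 1194, .negSucc 700],
   [.negSucc 123, .negSucc 1999, .negSucc 4982, .negSucc 1999, .negSucc 1999, .negSucc 6688, .negSucc
  1999, .negSucc 1999, .ofNat 60946, .negSucc 1999, .ofNat 77, .negSucc 1999, .negSucc 353, .negSucc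
  5873, .negSucc 1999, .negSucc 722, .negSucc 5549, .negSucc 1999, .ofNat 701, .ofNat 2000, .ofNat
  890, .negSucc 1999, .ofNat 671, .negSucc 4501, .negSucc 1999, .ofNat 208, .negSucc 4661, .negSucc
  1999, .negSucc 301, .ofNat 2000, .negSucc 1999, .ofNat 1165, .negSucc 1999, .negSucc 427, .ofNat
  227],
   [.ofNat 210, .ofNat 983, .negSucc 1999, .negSucc 1999, .ofNat 2689, .negSucc 1999, .negSucc 1999,
  .negSucc 1999, .negSucc 1999, .ofNat 62920, .negSucc 1999, .negSucc 3381, .negSucc 2770, .negSucc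
  4023, .negSucc 3276, .negSucc 1999, .ofNat 227, .negSucc 700, .ofNat 2000, .ofNat 2000, .negSucc
  1999, .ofNat 795, .negSucc 234, .negSucc 3577, .negSucc 4207, .negSucc 1999, .negSucc 2481, .negSucc
  3697, .negSucc 1999, .ofNat 2000, .negSucc 1999, .negSucc 1999, .negSucc 2691, .negSucc 1363,
  .negSucc 2737],
   [.negSucc 1999, .negSucc 1999, .ofNat 1044, .negSucc 48, .negSucc 1999, .ofNat 890, .negSucc 217,
  .ofNat 77, .ofNat 77, .negSucc 1999, .ofNat 58370, .negSucc 1999, .negSucc 1999, .negSucc 1999,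
  .negSucc 1999, .ofNat 1953, .negSucc 1999, .negSucc 1999, .negSucc 501, .negSucc 1873, .negSucc
  1999, .negSucc 3932, .negSucc 4422, .negSucc 3950, .negSucc 5043, .negSucc 1999, .negSucc 3875,
  .negSucc 4177, .negSucc 1999, .ofNat 2000, .negSucc 1999, .negSucc 1999, .ofNat 2037, .ofNat 202,
  .ofNat 983],
   [.negSucc 1999, .negSucc 5043, .negSucc 1999, .negSucc 554, .negSucc 4889, .negSucc 1999, .negSucc
  4580, .ofNat 1165, .negSucc 1999, .negSucc 3381, .negSucc 1999, .ofNat 60344, .negSucc 1999,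
  .negSucc 1999, .negSucc 5952, .negSucc 1999, .negSucc 1999, .ofNat 502, .ofNat 2000, .ofNat 3572,
  .negSucc 66, .negSucc 1999, .negSucc 5843, .negSucc 4809, .negSucc 1999, .negSucc 4958, .negSucc
  4670, .negSucc 1999, .negSucc 451, .ofNat 2000, .negSucc 1999, .negSucc 6036, .negSucc 1999,
  .negSucc 1697, .negSucc 4207],
   [.negSucc 1999, .negSucc 3950, .negSucc 3444, .negSucc 1999, .negSucc 3781, .ofNat 581, .negSucc
  1999, .negSucc 1999, .negSucc 353, .negSucc 2770, .negSucc 1999, .negSucc 1999, .ofNat 60344, .ofNat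
  1953, .negSucc 1999, .negSucc 1999, .negSucc 4501, .negSucc 1999, .ofNat 2000, .ofNat 2805, .ofNat
  423, .ofNat 1844, .negSucc 1999, .negSucc 1999, .negSucc 4809, .negSucc 3377, .negSucc 1999,
  .negSucc 4872, .negSucc 676, .ofNat 2000, .ofNat 2037, .negSucc 1999, .negSucc 1999, .negSucc 682,
  .negSucc 3577],
   [.ofNat 1044, .negSucc 1999, .negSucc 1999, .ofNat 202, .negSucc 4076, .negSucc 5164, .negSucc 1999,
  .negSucc 1999, .negSucc 5873, .negSucc 4023, .negSucc 1999, .negSucc 1999, .ofNat 1953, .ofNat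
  60932, .negSucc 1999, .negSucc 1999, .negSucc 1999, .ofNat 1874, .ofNat 428, .ofNat 2000, .negSucc
  48, .ofNat 810, .negSucc 1999, .negSucc 1999, .negSucc 5952, .negSucc 3316, .negSucc 3645, .negSucc
  1999, .negSucc 1999, .ofNat 1195, .negSucc 1999, .negSucc 4201, .negSucc 2301, .negSucc 1999,
  .negSucc 3276],
   [.negSucc 48, .negSucc 1999, .negSucc 4201, .negSucc 1999, .negSucc 4076, .negSucc 1999, .negSucc
  3645, .ofNat 1874, .negSucc 1999, .negSucc 3276, .negSucc 1999, .negSucc 5952, .negSucc 1999,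
  .negSucc 1999, .ofNat 60932, .negSucc 1999, .negSucc 5873, .negSucc 1999, .ofNat 1195, .ofNat 2000,
  .ofNat 1044, .negSucc 1999, .ofNat 810, .ofNat 1953, .negSucc 1999, .negSucc 2301, .negSucc 1999,
  .negSucc 5164, .negSucc 1999, .ofNat 428, .ofNat 202, .negSucc 1999, .negSucc 3316, .negSucc 1999,
  .negSucc 4023],
   [.negSucc 554, .ofNat 202, .negSucc 1999, .negSucc 1999, .negSucc 1999, .negSucc 617, .negSucc 1228,
  .ofNat 24, .negSucc 722, .negSucc 1999, .ofNat 1953, .negSucc 1999, .negSucc 1999, .negSucc 1999,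
  .negSucc 1999, .ofNat 62906, .negSucc 427, .negSucc 1194, .ofNat 2000, .ofNat 2000, .negSucc 1999,
  .ofNat 959, .negSucc 621, .negSucc 682, .negSucc 1697, .negSucc 1999, .negSucc 1999, .negSucc 1999,
  .negSucc 1307, .ofNat 1364, .negSucc 1697, .negSucc 682, .negSucc 1999, .negSucc 1999, .negSucc
  1364],
   [.ofNat 890, .ofNat 77, .ofNat 1165, .negSucc 1999, .negSucc 1999, .negSucc 1999, .negSucc 4661,
  .negSucc 1999, .negSucc 5549, .ofNat 227, .negSucc 1999, .negSucc 1999, .negSucc 4501, .negSucc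
  1999, .negSucc 5873, .negSucc 427, .ofNat 60946, .negSucc 1999, .ofNat 2000, .ofNat 2000, .negSucc
  123, .ofNat 671, .negSucc 1999, .negSucc 353, .negSucc 1999, .negSucc 1999, .negSucc 1999, .negSucc
  6688, .negSucc 301, .ofNat 701, .negSucc 1999, .negSucc 4982, .ofNat 208, .negSucc 722, .negSucc
  1999],
   [.negSucc 217, .ofNat 77, .negSucc 1999, .negSucc 353, .negSucc 1999, .ofNat 662, .negSucc 1999,
  .ofNat 1550, .negSucc 1999, .negSucc 700, .negSucc 1999, .ofNat 502, .negSucc 1999, .ofNat 1874,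
  .negSucc 1999, .negSucc 1194, .negSucc 1999, .ofNat 60946, .ofNat 2000, .ofNat 2000, .ofNat 178,
  .negSucc 1999, .ofNat 873, .negSucc 1999, .ofNat 1165, .negSucc 1999, .ofNat 2689, .negSucc 1999,
  .negSucc 1517, .negSucc 226, .ofNat 983, .negSucc 1999, .negSucc 421, .ofNat 24, .negSucc 1999],
   [.negSucc 580, .ofNat 2000, .ofNat 618, .ofNat 1229, .negSucc 661, .ofNat 2000, .ofNat 2000,
  .negSucc 226, .ofNat 701, .ofNat 2000, .negSucc 501, .ofNat 2000, .ofNat 2000, .ofNat 428, .ofNat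
  1195, .ofNat 2000, .ofNat 2000, .ofNat 2000, .ofNat 62920, .negSucc 1999, .ofNat 2000, .ofNat 452,
  .ofNat 677, .ofNat 2000, .ofNat 2000, .ofNat 1308, .ofNat 302, .ofNat 1518, .ofNat 2000, .negSucc
  1261, .negSucc 207, .ofNat 422, .ofNat 2000, .ofNat 1365, .ofNat 2000],
   [.ofNat 2000, .negSucc 1873, .negSucc 23, .ofNat 723, .negSucc 1549, .ofNat 4227, .ofNat 3299,
  .ofNat 2000, .ofNat 2000, .ofNat 2000, .negSucc 1873, .ofNat 3572, .ofNat 2805, .ofNat 2000, .ofNat
  2000, .ofNat 2000, .ofNat 2000, .ofNat 2000, .negSucc 1999, .ofNat 63508, .ofNat 2000, .ofNat 2000,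
  .ofNat 2000, .ofNat 2805, .ofNat 3572, .ofNat 2636, .ofNat 3299, .ofNat 4227, .ofNat 1262, .negSucc
  1999, .ofNat 723, .negSucc 23, .ofNat 2635, .ofNat 2000, .ofNat 2000],
   [.negSucc 1999, .negSucc 1999, .ofNat 423, .negSucc 66, .negSucc 1999, .ofNat 558, .ofNat 558,
  .negSucc 217, .ofNat 890, .negSucc 1999, .negSucc 1999, .negSucc 66, .ofNat 423, .negSucc 48, .ofNat
  1044, .negSucc 1999, .negSucc 123, .ofNat 178, .ofNat 2000, .ofNat 2000, .ofNat 57782, .negSucc
  1999, .negSucc 1999, .negSucc 1999, .negSucc 1999, .ofNat 1844, .negSucc 1999, .negSucc 1999, .ofNat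
  675, .negSucc 580, .negSucc 1999, .negSucc 1999, .ofNat 577, .negSucc 554, .ofNat 210],
   [.negSucc 1999, .negSucc 4422, .negSucc 1999, .ofNat 577, .negSucc 4557, .negSucc 1999, .ofNat 675,
  .ofNat 873, .negSucc 1999, .ofNat 795, .negSucc 3932, .negSucc 1999, .ofNat 1844, .ofNat 810,
  .negSucc 1999, .ofNat 959, .ofNat 671, .negSucc 1999, .ofNat 452, .ofNat 2000, .negSucc 1999, .ofNat
  59756, .negSucc 1999, .negSucc 1999, .negSucc 5843, .negSucc 1999, .negSucc 1999, .negSucc 4674,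
  .negSucc 1999, .ofNat 677, .negSucc 1999, .negSucc 4576, .negSucc 1999, .negSucc 621, .negSucc 234],
   [.negSucc 1999, .negSucc 3932, .negSucc 4576, .negSucc 1999, .negSucc 4557, .negSucc 4674, .negSucc
  1999, .negSucc 1999, .ofNat 671, .negSucc 234, .negSucc 4422, .negSucc 5843, .negSucc 1999, .negSucc
  1999, .ofNat 810, .negSucc 621, .negSucc 1999, .ofNat 873, .ofNat 677, .ofNat 2000, .negSucc 1999,
  .negSucc 1999, .ofNat 59756, .ofNat 1844, .negSucc 1999, .negSucc 1999, .ofNat 675, .negSucc 1999,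
  .negSucc 1999, .ofNat 452, .ofNat 577, .negSucc 1999, .negSucc 1999, .ofNat 959, .ofNat 795],
   [.ofNat 423, .negSucc 1999, .negSucc 1999, .ofNat 2037, .negSucc 3781, .negSucc 4872, .negSucc 1999,
  .negSucc 1999, .negSucc 4501, .negSucc 3577, .negSucc 3950, .negSucc 4809, .negSucc 1999, .negSucc
  1999, .ofNat 1953, .negSucc 682, .negSucc 353, .negSucc 1999, .ofNat 2000, .ofNat 2805, .negSucc
  1999, .negSucc 1999, .ofNat 1844, .ofNat 60344, .negSucc 1999, .negSucc 1999, .negSucc 1999, .ofNat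
  581, .negSucc 676, .ofNat 2000, .negSucc 1999, .negSucc 3444, .negSucc 3377, .negSucc 1999, .negSucc
  2770],
   [.negSucc 66, .negSucc 1999, .negSucc 6036, .negSucc 1999, .negSucc 4889, .negSucc 1999, .negSucc
  4670, .ofNat 502, .negSucc 1999, .negSucc 4207, .negSucc 5043, .negSucc 1999, .negSucc 4809,
  .negSucc 5952, .negSucc 1999, .negSucc 1697, .negSucc 1999, .ofNat 1165, .ofNat 2000, .ofNat 3572,
  .negSucc 1999, .negSucc 5843, .negSucc 1999, .negSucc 1999, .ofNat 60344, .negSucc 1999, .negSucc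
  4580, .negSucc 1999, .negSucc 451, .ofNat 2000, .negSucc 554, .negSucc 1999, .negSucc 4958, .negSucc
  1999, .negSucc 3381],
   [.ofNat 577, .ofNat 2037, .negSucc 1999, .negSucc 1999, .negSucc 1999, .negSucc 4794, .negSucc 3764,
  .negSucc 421, .ofNat 208, .negSucc 1999, .negSucc 1999, .negSucc 4958, .negSucc 3377, .negSucc 3316,
  .negSucc 2301, .negSucc 1999, .negSucc 1999, .negSucc 1999, .ofNat 1308, .ofNat 2636, .ofNat 1844,
  .negSucc 1999, .negSucc 1999, .negSucc 1999, .negSucc 1999, .ofNat 62318, .negSucc 3322, .negSucc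
  3547, .negSucc 1999, .ofNat 2000, .negSucc 621, .ofNat 959, .negSucc 1999, .negSucc 1999, .negSucc
  2691],
   [.ofNat 558, .negSucc 217, .ofNat 873, .negSucc 1999, .negSucc 1999, .negSucc 1999, .ofNat 2555,
  .negSucc 1999, .negSucc 4661, .negSucc 2481, .negSucc 3875, .negSucc 4670, .negSucc 1999, .negSucc
  3645, .negSucc 1999, .negSucc 1999, .negSucc 1999, .ofNat 2689, .ofNat 302, .ofNat 3299, .negSucc
  1999, .negSucc 1999, .ofNat 675, .negSucc 1999, .negSucc 4580, .negSucc 3322, .ofNat 60358, .negSucc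
  1999, .negSucc 1999, .ofNat 2000, .negSucc 1999, .negSucc 4209, .negSucc 3764, .negSucc 1228,
  .negSucc 1999],
   [.ofNat 558, .ofNat 890, .negSucc 1999, .ofNat 671, .negSucc 1999, .negSucc 6554, .negSucc 1999,
  .ofNat 662, .negSucc 1999, .negSucc 3697, .negSucc 4177, .negSucc 1999, .negSucc 4872, .negSucc
  1999, .negSucc 5164, .negSucc 1999, .negSucc 6688, .negSucc 1999, .ofNat 1518, .ofNat 4227, .negSucc
  1999, .negSucc 4674, .negSucc 1999, .ofNat 581, .negSucc 1999, .negSucc 3547, .negSucc 1999, .ofNat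
  60358, .negSucc 1999, .ofNat 2000, .ofNat 210, .negSucc 1999, .negSucc 4794, .negSucc 617, .negSucc
  1999],
   [.ofNat 675, .negSucc 1999, .ofNat 795, .negSucc 234, .ofNat 2555, .negSucc 1999, .negSucc 1999,
  .negSucc 1517, .negSucc 301, .negSucc 1999, .negSucc 1999, .negSucc 451, .negSucc 676, .negSucc
  1999, .negSucc 1999, .negSucc 1307, .negSucc 301, .negSucc 1517, .ofNat 2000, .ofNat 1262, .ofNat
  675, .negSucc 1999, .negSucc 1999, .negSucc 676, .negSucc 451, .negSucc 1999, .negSucc 1999,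
  .negSucc 1999, .ofNat 62332, .ofNat 2000, .negSucc 234, .ofNat 795, .negSucc 1999, .negSucc 1307,
  .negSucc 1999],
   [.ofNat 2000, .negSucc 501, .ofNat 422, .negSucc 207, .negSucc 661, .ofNat 1518, .ofNat 302, .ofNat
  2000, .ofNat 2000, .ofNat 2000, .ofNat 2000, .ofNat 2000, .ofNat 2000, .ofNat 1195, .ofNat 428,
  .ofNat 1364, .ofNat 701, .negSucc 226, .negSucc 1261, .negSucc 1999, .negSucc 580, .ofNat 677,
  .ofNat 452, .ofNat 2000, .ofNat 2000, .ofNat 2000, .ofNat 2000, .ofNat 2000, .ofNat 2000, .ofNat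
  62920, .ofNat 1229, .ofNat 618, .ofNat 1308, .ofNat 2000, .ofNat 2000],
   [.negSucc 66, .negSucc 48, .ofNat 810, .negSucc 1999, .negSucc 123, .ofNat 671, .negSucc 1999,
  .negSucc 353, .negSucc 1999, .negSucc 1999, .negSucc 1999, .negSucc 1999, .ofNat 2037, .negSucc
  1999, .ofNat 202, .negSucc 1697, .negSucc 1999, .ofNat 983, .negSucc 207, .ofNat 723, .negSucc 1999,
  .negSucc 1999, .ofNat 577, .negSucc 1999, .negSucc 554, .negSucc 621, .negSucc 1999, .ofNat 210,
  .negSucc 234, .ofNat 1229, .ofNat 60344, .negSucc 1999, .negSucc 1999, .negSucc 1999, .negSucc 1999],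
   [.ofNat 423, .ofNat 1044, .negSucc 1999, .ofNat 810, .ofNat 178, .negSucc 1999, .ofNat 873, .negSucc
  1999, .ofNat 1165, .negSucc 1999, .negSucc 1999, .negSucc 6036, .negSucc 1999, .negSucc 4201,
  .negSucc 1999, .negSucc 682, .negSucc 4982, .negSucc 1999, .ofNat 422, .negSucc 23, .negSucc 1999,
  .negSucc 4576, .negSucc 1999, .negSucc 3444, .negSucc 1999, .ofNat 959, .negSucc 4209, .negSucc
  1999, .ofNat 795, .ofNat 618, .negSucc 1999, .ofNat 60344, .negSucc 1999, .negSucc 1999, .negSucc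
  1999],
   [.ofNat 1844, .negSucc 1999, .ofNat 959, .negSucc 621, .negSucc 1999, .negSucc 3547, .negSucc 3322,
  .negSucc 1999, .negSucc 1999, .negSucc 2691, .ofNat 2037, .negSucc 1999, .negSucc 1999, .negSucc
  2301, .negSucc 3316, .negSucc 1999, .ofNat 208, .negSucc 421, .ofNat 2000, .ofNat 2635, .ofNat 577,
  .negSucc 1999, .negSucc 1999, .negSucc 3377, .negSucc 4958, .negSucc 1999, .negSucc 3764, .negSucc
  4794, .negSucc 1999, .ofNat 1308, .negSucc 1999, .negSucc 1999, .ofNat 62318, .negSucc 1999,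
  .negSucc 1999],
   [.negSucc 1999, .ofNat 1953, .negSucc 682, .negSucc 1697, .negSucc 1999, .negSucc 1999, .negSucc
  1999, .negSucc 1194, .negSucc 427, .negSucc 1363, .ofNat 202, .negSucc 1697, .negSucc 682, .negSucc
  1999, .negSucc 1999, .negSucc 1999, .negSucc 722, .ofNat 24, .ofNat 1365, .ofNat 2000, .negSucc 554,
  .negSucc 621, .ofNat 959, .negSucc 1999, .negSucc 1999, .negSucc 1999, .negSucc 1228, .negSucc 617,
  .negSucc 1307, .ofNat 2000, .negSucc 1999, .negSucc 1999, .negSucc 1999, .ofNat 62906, .negSucc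
  1999],
   [.negSucc 1999, .negSucc 1999, .negSucc 1999, .negSucc 1999, .ofNat 2689, .negSucc 3697, .negSucc
  2481, .negSucc 700, .ofNat 227, .negSucc 2737, .ofNat 983, .negSucc 4207, .negSucc 3577, .negSucc
  3276, .negSucc 4023, .negSucc 1364, .negSucc 1999, .negSucc 1999, .ofNat 2000, .ofNat 2000, .ofNat
  210, .negSucc 234, .ofNat 795, .negSucc 2770, .negSucc 3381, .negSucc 2691, .negSucc 1999, .negSucc
  1999, .negSucc 1999, .ofNat 2000, .negSucc 1999, .negSucc 1999, .negSucc 1999, .negSucc 1999, .ofNat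
  62920]]

/-- The Cholesky columns. -/
def cols : List (List ℤ) :=
  [[.ofNat 33988],
   [.negSucc 1176, .ofNat 34140],
   [.negSucc 1176, .negSucc 1211, .ofNat 34692],
   [.negSucc 1176, .negSucc 1211, .negSucc 1234, .ofNat 34670],
   [.negSucc 1176, .negSucc 1211, .ofNat 20, .negSucc 152, .ofNat 34122],
   [.negSucc 1176, .negSucc 2487, .negSucc 1279, .negSucc 50, .negSucc 1300, .ofNat 34580],
   [.negSucc 1176, .negSucc 2310, .negSucc 2547, .negSucc 1364, .negSucc 1299, .negSucc 1507, .ofNat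
  34462],
   [.ofNat 105, .negSucc 1167, .negSucc 1189, .ofNat 487, .negSucc 1206, .negSucc 1325, .ofNat 1314,
  .ofNat 34792],
   [.negSucc 72, .negSucc 1173, .negSucc 2915, .negSucc 1300, .negSucc 1220, .negSucc 4110, .negSucc
  1734, .negSucc 1403, .ofNat 34402],
   [.ofNat 124, .ofNat 580, .negSucc 1128, .negSucc 1168, .ofNat 1596, .negSucc 1093, .negSucc 1234,
  .negSucc 1091, .negSucc 1463, .ofNat 35304],
   [.negSucc 1176, .negSucc 1211, .ofNat 520, .negSucc 91, .negSucc 1256, .ofNat 359, .negSucc 244,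
  .ofNat 6, .ofNat 28, .negSucc 1034, .ofNat 34073],
   [.negSucc 1176, .negSucc 2994, .negSucc 1297, .negSucc 510, .negSucc 3014, .negSucc 1573, .negSucc
  3197, .ofNat 492, .negSucc 1832, .negSucc 2005, .negSucc 1479, .ofNat 34096],
   [.negSucc 1176, .negSucc 2354, .negSucc 2107, .negSucc 1350, .negSucc 2345, .negSucc 41, .negSucc
  1657, .negSucc 1298, .negSucc 742, .negSucc 1662, .negSucc 1417, .negSucc 2066, .ofNat 34259],
   [.ofNat 614, .negSucc 1149, .negSucc 1171, .ofNat 55, .negSucc 2407, .negSucc 3182, .negSucc 1530,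
  .negSucc 1377, .negSucc 4148, .negSucc 2556, .negSucc 1315, .negSucc 2210, .ofNat 315, .ofNat 34124],
   [.negSucc 28, .negSucc 1172, .negSucc 2463, .negSucc 1283, .negSucc 2436, .negSucc 1426, .negSucc
  2582, .ofNat 930, .negSucc 1809, .negSucc 2028, .negSucc 1335, .negSucc 4520, .negSucc 2175,
  .negSucc 2373, .ofNat 33965],
   [.negSucc 326, .ofNat 107, .negSucc 1159, .negSucc 1201, .negSucc 1183, .negSucc 449, .negSucc 914,
  .negSucc 27, .negSucc 703, .negSucc 1232, .ofNat 1071, .negSucc 1511, .negSucc 1538, .negSucc 1588,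
  .negSucc 1956, .ofNat 35187],
   [.ofNat 524, .ofNat 63, .ofNat 692, .negSucc 1108, .negSucc 1156, .negSucc 1153, .negSucc 2769,
  .negSucc 1088, .negSucc 3569, .negSucc 150, .negSucc 1218, .negSucc 1792, .negSucc 3106, .negSucc
  2091, .negSucc 4590, .negSucc 982, .ofNat 33932],
   [.negSucc 127, .ofNat 41, .negSucc 1155, .negSucc 247, .negSucc 1175, .ofNat 294, .negSucc 1288,
  .ofNat 876, .negSucc 1304, .negSucc 451, .negSucc 1228, .negSucc 127, .negSucc 1467, .ofNat 750,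
  .negSucc 1666, .negSucc 928, .negSucc 1799, .ofNat 34643],
   [.negSucc 341, .ofNat 1160, .ofNat 385, .ofNat 752, .negSucc 354, .ofNat 1231, .ofNat 1326, .negSucc
  102, .ofNat 705, .ofNat 1279, .negSucc 246, .ofNat 1543, .ofNat 1487, .ofNat 711, .ofNat 1384,
  .ofNat 1513, .ofNat 1897, .ofNat 1493, .ofNat 35143],
   [.ofNat 1177, .negSucc 1056, .negSucc 10, .ofNat 420, .negSucc 903, .ofNat 2375, .ofNat 1970, .ofNat
  1089, .ofNat 1540, .ofNat 1441, .negSucc 1097, .ofNat 2368, .ofNat 1900, .ofNat 1793, .ofNat 1999,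
  .ofNat 1709, .ofNat 2281, .ofNat 1507, .negSucc 1914, .ofNat 34919],
   [.negSucc 1176, .negSucc 1211, .ofNat 162, .negSucc 114, .negSucc 1256, .ofNat 154, .ofNat 169,
  .negSucc 198, .ofNat 457, .negSucc 1026, .negSucc 1338, .negSucc 360, .negSucc 73, .negSucc 212,
  .ofNat 357, .negSucc 1172, .negSucc 118, .ofNat 8, .ofNat 1227, .ofNat 1235, .ofNat 33806],
   [.negSucc 1176, .negSucc 2631, .negSucc 1284, .ofNat 155, .negSucc 2803, .negSucc 1538, .negSucc 86,
  .ofNat 218, .negSucc 1636, .ofNat 477, .negSucc 2494, .negSucc 1989, .ofNat 357, .negSucc 365,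
  .negSucc 2059, .ofNat 248, .negSucc 324, .negSucc 1525, .ofNat 603, .ofNat 1468, .negSucc 1537,
  .ofNat 33903],
   [.negSucc 1176, .negSucc 2344, .negSucc 2759, .negSucc 1373, .negSucc 2799, .negSucc 3121, .negSucc
  1858, .negSucc 1445, .negSucc 603, .negSucc 328, .negSucc 2774, .negSucc 4517, .negSucc 2349,
  .negSucc 2428, .negSucc 1373, .negSucc 1100, .negSucc 2530, .negSucc 116, .ofNat 1252, .ofNat 2303,
  .negSucc 1731, .negSucc 2670, .ofNat 32994],
   [.ofNat 249, .negSucc 1162, .negSucc 1184, .ofNat 1101, .negSucc 2243, .negSucc 3019, .negSucc 1490,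
  .negSucc 1381, .negSucc 3286, .negSucc 2233, .negSucc 2456, .negSucc 3815, .negSucc 2061, .negSucc
  2710, .negSucc 531, .negSucc 1012, .negSucc 1598, .negSucc 1673, .ofNat 1965, .ofNat 2858, .negSucc
  1670, .negSucc 2518, .negSucc 1538, .ofNat 33255],
   [.negSucc 38, .negSucc 1172, .negSucc 3522, .negSucc 1321, .negSucc 2912, .negSucc 1483, .negSucc
  3277, .ofNat 113, .negSucc 1992, .negSucc 2628, .negSucc 3146, .negSucc 2464, .negSucc 3963,
  .negSucc 4816, .negSucc 3352, .negSucc 2044, .negSucc 3198, .negSucc 340, .ofNat 2284, .ofNat 3602,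
  .negSucc 1802, .negSucc 4943, .negSucc 4803, .negSucc 4744, .ofNat 31407],
   [.ofNat 340, .ofNat 1205, .negSucc 1098, .negSucc 1138, .negSucc 1121, .negSucc 2759, .negSucc 2381,
  .negSucc 278, .negSucc 474, .negSucc 1372, .negSucc 1175, .negSucc 3453, .negSucc 2529, .negSucc
  2806, .negSucc 2777, .negSucc 1909, .negSucc 2652, .negSucc 1754, .ofNat 1695, .ofNat 3001, .ofNat
  769, .negSucc 2013, .negSucc 3523, .negSucc 3570, .negSucc 5694, .ofNat 33195],
   [.ofNat 328, .negSucc 115, .ofNat 510, .negSucc 1127, .negSucc 1169, .negSucc 1180, .ofNat 1383,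
  .negSucc 1258, .negSucc 2876, .negSucc 1519, .negSucc 2342, .negSucc 3091, .negSucc 1658, .negSucc
  3047, .negSucc 2247, .negSucc 1681, .negSucc 2487, .ofNat 1107, .ofNat 783, .ofNat 2841, .negSucc
  1566, .negSucc 2084, .negSucc 1626, .negSucc 3349, .negSucc 6537, .negSucc 5431, .ofNat 32314],
   [.ofNat 328, .ofNat 533, .negSucc 1122, .ofNat 377, .negSucc 1139, .negSucc 3825, .negSucc 1391,
  .ofNat 221, .negSucc 1783, .negSucc 2310, .negSucc 2483, .negSucc 1902, .negSucc 3360, .negSucc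
  2267, .negSucc 4401, .negSucc 1899, .negSucc 5674, .negSucc 2095, .ofNat 2054, .ofNat 4167, .negSucc
  1614, .negSucc 4051, .negSucc 4170, .negSucc 2858, .negSucc 6894, .negSucc 7159, .negSucc 6968,
  .ofNat 29649],
   [.ofNat 397, .negSucc 1157, .ofNat 431, .negSucc 146, .ofNat 1469, .negSucc 1155, .negSucc 1193,
  .negSucc 843, .negSucc 363, .negSucc 1291, .negSucc 1188, .negSucc 508, .negSucc 581, .negSucc 1509,
  .negSucc 1555, .negSucc 941, .negSucc 806, .negSucc 1031, .ofNat 1589, .ofNat 1382, .ofNat 205,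
  .negSucc 1514, .negSucc 2111, .negSucc 1511, .negSucc 2296, .negSucc 3009, .negSucc 3294, .negSucc
  5390, .ofNat 34058],
   [.ofNat 1177, .negSucc 253, .ofNat 274, .negSucc 78, .negSucc 356, .ofNat 896, .ofNat 241, .ofNat
  1161, .ofNat 1331, .ofNat 1283, .ofNat 1218, .ofNat 1416, .ofNat 1464, .ofNat 1180, .ofNat 820,
  .ofNat 1058, .ofNat 1075, .ofNat 118, .negSucc 1093, .negSucc 1854, .negSucc 90, .ofNat 805, .ofNat
  1345, .ofNat 2417, .ofNat 3366, .ofNat 3248, .ofNat 3835, .ofNat 5822, .ofNat 3691, .ofNat 33817],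
   [.negSucc 38, .negSucc 29, .ofNat 465, .negSucc 1139, .negSucc 79, .ofNat 397, .negSucc 1160,
  .negSucc 115, .negSucc 1185, .negSucc 1232, .negSucc 1237, .negSucc 1462, .ofNat 879, .negSucc 1566,
  .negSucc 398, .negSucc 1163, .negSucc 1668, .ofNat 352, .ofNat 190, .ofNat 848, .negSucc 1365,
  .negSucc 1512, .negSucc 535, .negSucc 2104, .negSucc 2118, .negSucc 1788, .negSucc 3170, .negSucc
  3005, .negSucc 1746, .ofNat 2744, .ofNat 33796],
   [.ofNat 249, .ofNat 620, .negSucc 1122, .ofNat 457, .ofNat 138, .negSucc 1138, .ofNat 447, .negSucc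
  1229, .ofNat 462, .negSucc 1209, .negSucc 1141, .negSucc 3590, .negSucc 1496, .negSucc 2908,
  .negSucc 2059, .negSucc 872, .negSucc 3748, .negSucc 1495, .ofNat 937, .ofNat 1074, .negSucc 1386,
  .negSucc 3337, .negSucc 3132, .negSucc 4024, .negSucc 5008, .negSucc 2895, .negSucc 6370, .negSucc
  8430, .negSucc 3244, .ofNat 4912, .negSucc 4591, .ofNat 30193],
   [.ofNat 1085, .negSucc 1133, .ofNat 550, .negSucc 341, .negSucc 1176, .negSucc 2120, .negSucc 2077,
  .negSucc 1210, .negSucc 1614, .negSucc 1693, .ofNat 1098, .negSucc 1737, .negSucc 1593, .negSucc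
  2188, .negSucc 2892, .negSucc 1767, .negSucc 1188, .negSucc 609, .ofNat 1895, .ofNat 2664, .ofNat
  81, .negSucc 1827, .negSucc 2833, .negSucc 3927, .negSucc 6685, .negSucc 4876, .negSucc 6523,
  .negSucc 10812, .negSucc 5631, .ofNat 6289, .negSucc 5114, .negSucc 11851, .ofNat 26413],
   [.negSucc 1176, .ofNat 1104, .negSucc 394, .negSucc 994, .negSucc 1177, .negSucc 1177, .negSucc
  1290, .negSucc 682, .negSucc 559, .negSucc 904, .ofNat 53, .negSucc 1320, .negSucc 730, .negSucc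
  1616, .negSucc 1837, .negSucc 1594, .negSucc 1233, .negSucc 299, .ofNat 1217, .ofNat 1994, .negSucc
  567, .negSucc 838, .negSucc 645, .negSucc 2367, .negSucc 3534, .negSucc 3459, .negSucc 3391,
  .negSucc 4986, .negSucc 3054, .ofNat 4240, .negSucc 3489, .negSucc 7284, .negSucc 13217, .ofNat
  29913],
   [.negSucc 1176, .negSucc 1211, .negSucc 1234, .negSucc 1279, .ofNat 1487, .negSucc 2257, .negSucc
  1746, .negSucc 432, .negSucc 387, .negSucc 1836, .ofNat 519, .negSucc 2917, .negSucc 2592, .negSucc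
  2511, .negSucc 3499, .negSucc 1526, .negSucc 2451, .negSucc 1615, .ofNat 2138, .ofNat 2667, .negSucc
  168, .negSucc 879, .negSucc 1496, .negSucc 3527, .negSucc 5721, .negSucc 5275, .negSucc 5251,
  .negSucc 8697, .negSucc 5200, .ofNat 6214, .negSucc 4724, .negSucc 11005, .negSucc 20025, .negSucc
  19747, .ofNat 1295]]

theorem chk : certChk 1000 31400 20000 chi mu nu tab cols = true := by decide +kernel

end Pool.Agent.J6H81.Cube.C0
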