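import Pool.Agent.J6H81.Cube.Rel

/-! Certificate for class 1 (support for MP_416390_gt). -/

namespace Pool.Agent.J6H81.Cube.C1

open Pool.Agent.J6H81.Cube

/-- Signs of the class. -/
def chi : List ℤ :=
  [.ofNat 1, .ofNat 1, .ofNat 1, .ofNat 1, .ofNat 1, .ofNat 1, .ofNat 1, .ofNat 1, .ofNat 1, .ofNat 1,
  .ofNat 1, .ofNat 1, .ofNat 1, .ofNat 1, .ofNat 1, .ofNat 1, .ofNat 1, .ofNat 1, .ofNat 1, .negSucc
  0, .ofNat 1, .ofNat 1, .ofNat 1, .ofNat 1, .ofNat 1, .ofNat 1, .ofNat 1, .ofNat 1, .negSucc 0,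
  .negSucc 0, .ofNat 1, .negSucc 0, .negSucc 0, .negSucc 0, .negSucc 0]

/-- Multipliers of the relations. -/
def mu : List ℤ :=
  [.negSucc 19, .negSucc 25, .negSucc 31, .negSucc 25, .negSucc 35, .negSucc 19, .negSucc 25, .negSucc
  25, .negSucc 25, .negSucc 31, .negSucc 31, .negSucc 35, .negSucc 25, .negSucc 35, .negSucc 19,
  .ofNat 21, .ofNat 30, .ofNat 22, .ofNat 40, .ofNat 20, .negSucc 26, .ofNat 44, .ofNat 21, .negSucc
  32, .negSucc 18, .negSucc 24, .negSucc 15, .ofNat 19, .ofNat 14, .ofNat 14, .negSucc 19, .negSucc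
  30, .negSucc 12, .negSucc 35, .ofNat 25, .ofNat 46, .ofNat 35, .negSucc 17, .negSucc 33, .ofNat 21,
  .ofNat 17, .negSucc 10, .negSucc 14, .ofNat 13, .negSucc 8, .ofNat 27, .ofNat 33, .ofNat 19, .ofNat
  30, .ofNat 40, .ofNat 44, .ofNat 22, .ofNat 20, .ofNat 21, .negSucc 20, .ofNat 19, .ofNat 14, .ofNat
  14, .negSucc 24, .negSucc 15, .negSucc 45, .ofNat 34, .negSucc 20, .negSucc 30, .negSucc 35, .ofNat
  35, .negSucc 12, .ofNat 25, .negSucc 17, .ofNat 20, .negSucc 14, .ofNat 13, .negSucc 8, .ofNat 17,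
  .negSucc 10, .negSucc 43, .negSucc 20, .ofNat 21, .ofNat 33, .ofNat 30, .ofNat 22, .ofNat 19, .ofNat
  40, .ofNat 20, .negSucc 26, .ofNat 14, .negSucc 24, .negSucc 15, .ofNat 19, .ofNat 14, .negSucc 34,
  .ofNat 18, .negSucc 19, .ofNat 34, .negSucc 30, .negSucc 12, .negSucc 20, .negSucc 35, .ofNat 25,
  .ofNat 46, .negSucc 8, .ofNat 17, .negSucc 10, .negSucc 14, .ofNat 13]

/-- Multipliers of the norm conditions. -/
def nu : List ℤ :=
  [.ofNat 0, .ofNat 0, .ofNat 0, .ofNat 0, .ofNat 0, .ofNat 0, .ofNat 0]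

/-- The table. -/
def tab : List (List ℤ) :=
  [[.ofNat 608, .negSucc 19, .negSucc 19, .negSucc 19, .negSucc 19, .negSucc 19, .negSucc 19, .ofNat 0,
  .ofNat 1, .ofNat 0, .negSucc 19, .negSucc 19, .negSucc 19, .ofNat 6, .ofNat 10, .ofNat 11, .ofNat 6,
  .ofNat 20, .ofNat 16, .ofNat 20, .negSucc 19, .negSucc 19, .negSucc 19, .ofNat 12, .ofNat 2,
  .negSucc 6, .ofNat 16, .ofNat 0, .negSucc 4, .ofNat 20, .ofNat 0, .negSucc 6, .negSucc 25, .ofNat
  20, .ofNat 20],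
   [.negSucc 19, .ofNat 608, .negSucc 19, .negSucc 19, .negSucc 19, .negSucc 39, .negSucc 40, .negSucc
  19, .negSucc 19, .ofNat 7, .negSucc 19, .negSucc 45, .negSucc 49, .negSucc 19, .negSucc 19, .ofNat
  13, .ofNat 6, .ofNat 24, .negSucc 19, .negSucc 9, .negSucc 19, .negSucc 51, .negSucc 41, .negSucc
  19, .negSucc 19, .negSucc 0, .ofNat 6, .ofNat 1, .ofNat 20, .negSucc 19, .ofNat 6, .negSucc 12,
  .ofNat 20, .negSucc 23, .ofNat 20],
   [.negSucc 19, .negSucc 19, .ofNat 608, .negSucc 19, .ofNat 0, .negSucc 19, .negSucc 39, .negSucc 19,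
  .negSucc 46, .negSucc 19, .ofNat 6, .negSucc 19, .negSucc 50, .negSucc 19, .negSucc 52, .negSucc 19,
  .ofNat 12, .negSucc 19, .ofNat 15, .negSucc 1, .ofNat 12, .negSucc 19, .negSucc 32, .negSucc 19,
  .negSucc 38, .negSucc 19, .ofNat 16, .negSucc 19, .ofNat 2, .ofNat 0, .ofNat 6, .ofNat 20, .negSucc
  13, .negSucc 0, .ofNat 20],
   [.negSucc 19, .negSucc 19, .negSucc 19, .ofNat 608, .ofNat 1, .ofNat 0, .negSucc 19, .ofNat 7,
  .negSucc 19, .negSucc 19, .ofNat 10, .ofNat 11, .negSucc 19, .ofNat 13, .negSucc 19, .negSucc 19,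
  .negSucc 19, .ofNat 5, .negSucc 2, .ofNat 1, .ofNat 2, .negSucc 6, .negSucc 19, .negSucc 0, .negSucc
  19, .negSucc 19, .negSucc 19, .negSucc 3, .ofNat 9, .ofNat 6, .negSucc 19, .ofNat 1, .ofNat 5,
  .ofNat 6, .ofNat 20],
   [.negSucc 19, .negSucc 19, .ofNat 0, .ofNat 1, .ofNat 608, .negSucc 19, .negSucc 19, .negSucc 19,
  .negSucc 19, .ofNat 26, .negSucc 19, .negSucc 45, .negSucc 59, .negSucc 45, .negSucc 63, .negSucc
  19, .negSucc 19, .negSucc 19, .ofNat 14, .negSucc 10, .negSucc 19, .negSucc 55, .negSucc 39,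
  .negSucc 45, .negSucc 40, .negSucc 19, .negSucc 19, .negSucc 19, .negSucc 0, .negSucc 15, .ofNat 12,
  .ofNat 1, .ofNat 20, .ofNat 20, .negSucc 14],
   [.negSucc 19, .negSucc 39, .negSucc 19, .ofNat 0, .negSucc 19, .ofNat 608, .negSucc 19, .negSucc 19,
  .negSucc 65, .negSucc 19, .ofNat 6, .negSucc 19, .negSucc 55, .negSucc 51, .negSucc 19, .negSucc 54,
  .negSucc 19, .negSucc 53, .negSucc 19, .ofNat 7, .ofNat 16, .negSucc 19, .ofNat 5, .negSucc 55,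
  .negSucc 19, .negSucc 1, .negSucc 19, .ofNat 1, .ofNat 20, .ofNat 45, .ofNat 16, .ofNat 20, .ofNat
  41, .ofNat 20, .ofNat 38],
   [.negSucc 19, .negSucc 40, .negSucc 39, .negSucc 19, .negSucc 19, .negSucc 19, .ofNat 608, .ofNat
  26, .negSucc 19, .negSucc 19, .ofNat 20, .ofNat 16, .negSucc 19, .negSucc 19, .negSucc 44, .negSucc
  36, .ofNat 14, .negSucc 19, .negSucc 19, .ofNat 5, .ofNat 0, .negSucc 44, .negSucc 19, .negSucc 19,
  .negSucc 35, .negSucc 8, .negSucc 40, .negSucc 19, .ofNat 20, .ofNat 33, .negSucc 19, .ofNat 6,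
  .ofNat 33, .ofNat 20, .ofNat 29],
   [.ofNat 0, .negSucc 19, .negSucc 19, .ofNat 7, .negSucc 19, .negSucc 19, .ofNat 26, .ofNat 608,
  .negSucc 19, .negSucc 19, .ofNat 6, .ofNat 12, .negSucc 19, .negSucc 19, .ofNat 10, .ofNat 2,
  .negSucc 19, .ofNat 11, .negSucc 6, .ofNat 20, .ofNat 6, .ofNat 16, .negSucc 19, .negSucc 19, .ofNat
  20, .ofNat 0, .negSucc 19, .ofNat 16, .negSucc 4, .ofNat 20, .ofNat 0, .ofNat 20, .ofNat 20,
  .negSucc 0, .ofNat 0],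
   [.ofNat 1, .negSucc 19, .negSucc 46, .negSucc 19, .negSucc 19, .negSucc 65, .negSucc 19, .negSucc
  19, .ofNat 608, .negSucc 19, .ofNat 24, .negSucc 19, .ofNat 5, .negSucc 49, .negSucc 19, .negSucc 0,
  .negSucc 50, .negSucc 19, .negSucc 4, .ofNat 20, .ofNat 1, .negSucc 19, .negSucc 3, .negSucc 59,
  .negSucc 19, .negSucc 5, .negSucc 55, .negSucc 19, .ofNat 7, .ofNat 20, .negSucc 19, .ofNat 6,
  .ofNat 20, .negSucc 4, .ofNat 3],
   [.ofNat 0, .ofNat 7, .negSucc 19, .negSucc 19, .ofNat 26, .negSucc 19, .negSucc 19, .negSucc 19,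
  .negSucc 19, .ofNat 608, .negSucc 19, .ofNat 15, .negSucc 2, .negSucc 41, .negSucc 38, .negSucc 19,
  .negSucc 32, .negSucc 34, .negSucc 19, .ofNat 20, .negSucc 19, .negSucc 37, .negSucc 30, .negSucc
  39, .negSucc 33, .negSucc 19, .ofNat 5, .negSucc 6, .ofNat 20, .ofNat 20, .negSucc 19, .ofNat 20,
  .ofNat 29, .ofNat 4, .ofNat 31],
   [.negSucc 19, .negSucc 19, .ofNat 6, .ofNat 10, .negSucc 19, .ofNat 6, .ofNat 20, .ofNat 6, .ofNat
  24, .negSucc 19, .ofNat 608, .negSucc 19, .negSucc 19, .negSucc 19, .negSucc 19, .ofNat 24, .negSucc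
  19, .negSucc 19, .ofNat 1, .negSucc 12, .negSucc 19, .negSucc 39, .ofNat 7, .negSucc 45, .ofNat 13,
  .negSucc 19, .negSucc 51, .negSucc 0, .ofNat 20, .ofNat 20, .negSucc 19, .ofNat 20, .ofNat 41,
  .ofNat 50, .ofNat 42],
   [.negSucc 19, .negSucc 45, .negSucc 19, .ofNat 11, .negSucc 45, .negSucc 19, .ofNat 16, .ofNat 12,
  .negSucc 19, .ofNat 15, .negSucc 19, .ofNat 608, .negSucc 19, .negSucc 19, .negSucc 63, .negSucc 19,
  .negSucc 19, .negSucc 40, .negSucc 19, .ofNat 1, .ofNat 0, .negSucc 19, .ofNat 26, .negSucc 45,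
  .negSucc 19, .ofNat 14, .negSucc 55, .negSucc 19, .negSucc 0, .ofNat 20, .negSucc 19, .negSucc 0,
  .ofNat 20, .ofNat 60, .ofNat 40],
   [.negSucc 19, .negSucc 49, .negSucc 50, .negSucc 19, .negSucc 59, .negSucc 55, .negSucc 19, .negSucc
  19, .ofNat 5, .negSucc 2, .negSucc 19, .negSucc 19, .ofNat 608, .ofNat 24, .negSucc 19, .negSucc 19,
  .ofNat 1, .negSucc 19, .negSucc 19, .ofNat 6, .negSucc 46, .negSucc 65, .negSucc 19, .negSucc 19,
  .negSucc 0, .negSucc 4, .negSucc 19, .negSucc 5, .ofNat 7, .ofNat 20, .ofNat 1, .ofNat 20, .ofNat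
  20, .negSucc 4, .ofNat 4],
   [.ofNat 6, .negSucc 19, .negSucc 19, .ofNat 13, .negSucc 45, .negSucc 51, .negSucc 19, .negSucc 19,
  .negSucc 49, .negSucc 41, .negSucc 19, .negSucc 19, .ofNat 24, .ofNat 608, .negSucc 19, .negSucc 19,
  .negSucc 19, .ofNat 13, .negSucc 0, .ofNat 20, .ofNat 6, .ofNat 6, .negSucc 19, .negSucc 19, .ofNat
  24, .ofNat 1, .negSucc 39, .negSucc 19, .ofNat 20, .ofNat 41, .negSucc 19, .negSucc 9, .negSucc 19,
  .ofNat 20, .negSucc 6],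
   [.ofNat 10, .negSucc 19, .negSucc 52, .negSucc 19, .negSucc 63, .negSucc 19, .negSucc 44, .ofNat 10,
  .negSucc 19, .negSucc 38, .negSucc 19, .negSucc 63, .negSucc 19, .negSucc 19, .ofNat 608, .negSucc
  19, .negSucc 52, .negSucc 19, .negSucc 5, .ofNat 20, .negSucc 52, .negSucc 19, .negSucc 38, .negSucc
  63, .negSucc 19, .negSucc 5, .negSucc 19, .negSucc 5, .ofNat 20, .ofNat 45, .ofNat 10, .ofNat 20,
  .ofNat 45, .ofNat 20, .ofNat 39],
   [.ofNat 11, .ofNat 13, .negSucc 19, .negSucc 19, .negSucc 19, .negSucc 54, .negSucc 36, .ofNat 2,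
  .negSucc 0, .negSucc 19, .ofNat 24, .negSucc 19, .negSucc 19, .negSucc 19, .negSucc 19, .ofNat 608,
  .negSucc 38, .negSucc 33, .negSucc 19, .ofNat 20, .negSucc 19, .negSucc 53, .negSucc 34, .negSucc
  40, .negSucc 33, .negSucc 19, .negSucc 19, .negSucc 19, .ofNat 11, .ofNat 36, .ofNat 20, .negSucc 4,
  .ofNat 20, .ofNat 20, .ofNat 34],
   [.ofNat 6, .ofNat 6, .ofNat 12, .negSucc 19, .negSucc 19, .negSucc 19, .ofNat 14, .negSucc 19,
  .negSucc 50, .negSucc 32, .negSucc 19, .negSucc 19, .ofNat 1, .negSucc 19, .negSucc 52, .negSucc 38,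
  .ofNat 608, .negSucc 19, .negSucc 19, .ofNat 20, .ofNat 12, .ofNat 16, .negSucc 19, .ofNat 0,
  .negSucc 19, .negSucc 19, .negSucc 19, .ofNat 15, .ofNat 2, .ofNat 40, .negSucc 19, .negSucc 1,
  .ofNat 0, .ofNat 47, .ofNat 20],
   [.ofNat 20, .ofNat 24, .negSucc 19, .ofNat 5, .negSucc 19, .negSucc 53, .negSucc 19, .ofNat 11,
  .negSucc 19, .negSucc 34, .negSucc 19, .negSucc 40, .negSucc 19, .ofNat 13, .negSucc 19, .negSucc
  33, .negSucc 19, .ofNat 608, .negSucc 19, .ofNat 20, .negSucc 38, .negSucc 19, .negSucc 33, .negSucc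
  19, .negSucc 33, .negSucc 19, .negSucc 54, .negSucc 19, .ofNat 11, .ofNat 37, .ofNat 2, .ofNat 20,
  .ofNat 36, .ofNat 1, .ofNat 20],
   [.ofNat 16, .negSucc 19, .ofNat 15, .negSucc 2, .ofNat 14, .negSucc 19, .negSucc 19, .negSucc 6,
  .negSucc 4, .negSucc 19, .ofNat 1, .negSucc 19, .negSucc 19, .negSucc 0, .negSucc 5, .negSucc 19,
  .negSucc 19, .negSucc 19, .ofNat 608, .ofNat 20, .negSucc 19, .ofNat 1, .negSucc 6, .negSucc 19,
  .negSucc 19, .negSucc 10, .negSucc 1, .negSucc 10, .ofNat 20, .ofNat 9, .ofNat 0, .ofNat 4, .ofNat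
  20, .ofNat 6, .ofNat 20],
   [.ofNat 20, .negSucc 9, .negSucc 1, .ofNat 1, .negSucc 10, .ofNat 7, .ofNat 5, .ofNat 20, .ofNat 20,
  .ofNat 20, .negSucc 12, .ofNat 1, .ofNat 6, .ofNat 20, .ofNat 20, .ofNat 20, .ofNat 20, .ofNat 20,
  .ofNat 20, .ofNat 608, .ofNat 20, .ofNat 20, .ofNat 20, .negSucc 0, .negSucc 4, .ofNat 4, .ofNat 0,
  .ofNat 3, .negSucc 8, .negSucc 19, .negSucc 6, .negSucc 0, .negSucc 5, .negSucc 19, .negSucc 19],
   [.negSucc 19, .negSucc 19, .ofNat 12, .ofNat 2, .negSucc 19, .ofNat 16, .ofNat 0, .ofNat 6, .ofNat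
  1, .negSucc 19, .negSucc 19, .ofNat 0, .negSucc 46, .ofNat 6, .negSucc 52, .negSucc 19, .ofNat 12,
  .negSucc 38, .negSucc 19, .ofNat 20, .ofNat 608, .negSucc 19, .negSucc 19, .negSucc 19, .negSucc 19,
  .ofNat 15, .negSucc 19, .negSucc 19, .ofNat 2, .negSucc 13, .negSucc 19, .ofNat 20, .ofNat 40,
  .ofNat 51, .ofNat 33],
   [.negSucc 19, .negSucc 51, .negSucc 19, .negSucc 6, .negSucc 55, .negSucc 19, .negSucc 44, .ofNat
  16, .negSucc 19, .negSucc 37, .negSucc 39, .negSucc 19, .negSucc 65, .ofNat 6, .negSucc 19, .negSucc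
  53, .ofNat 16, .negSucc 19, .ofNat 1, .ofNat 20, .negSucc 19, .ofNat 608, .negSucc 19, .negSucc 19,
  .negSucc 54, .negSucc 19, .negSucc 19, .negSucc 1, .ofNat 20, .ofNat 41, .negSucc 19, .ofNat 0,
  .ofNat 20, .ofNat 56, .negSucc 4],
   [.negSucc 19, .negSucc 41, .negSucc 32, .negSucc 19, .negSucc 39, .ofNat 5, .negSucc 19, .negSucc
  19, .negSucc 3, .negSucc 30, .ofNat 7, .ofNat 26, .negSucc 19, .negSucc 19, .negSucc 38, .negSucc
  34, .negSucc 19, .negSucc 33, .negSucc 6, .ofNat 20, .negSucc 19, .negSucc 19, .ofNat 608, .ofNat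
  15, .negSucc 19, .negSucc 19, .negSucc 37, .negSucc 19, .ofNat 20, .ofNat 29, .ofNat 0, .ofNat 20,
  .ofNat 20, .ofNat 3, .ofNat 31],
   [.ofNat 12, .negSucc 19, .negSucc 19, .negSucc 0, .negSucc 45, .negSucc 55, .negSucc 19, .negSucc
  19, .negSucc 59, .negSucc 39, .negSucc 45, .negSucc 45, .negSucc 19, .negSucc 19, .negSucc 63,
  .negSucc 40, .ofNat 0, .negSucc 19, .negSucc 19, .negSucc 0, .negSucc 19, .negSucc 19, .ofNat 15,
  .ofNat 608, .negSucc 19, .negSucc 19, .negSucc 19, .ofNat 14, .negSucc 0, .ofNat 20, .negSucc 19,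
  .negSucc 10, .negSucc 15, .ofNat 20, .negSucc 25],
   [.ofNat 2, .negSucc 19, .negSucc 38, .negSucc 19, .negSucc 40, .negSucc 19, .negSucc 35, .ofNat 20,
  .negSucc 19, .negSucc 33, .ofNat 13, .negSucc 19, .negSucc 0, .ofNat 24, .negSucc 19, .negSucc 33,
  .negSucc 19, .negSucc 33, .negSucc 19, .negSucc 4, .negSucc 19, .negSucc 54, .negSucc 19, .negSucc
  19, .ofNat 608, .negSucc 19, .negSucc 53, .negSucc 19, .ofNat 11, .ofNat 20, .ofNat 11, .ofNat 20,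
  .ofNat 37, .ofNat 20, .ofNat 35],
   [.negSucc 6, .negSucc 0, .negSucc 19, .negSucc 19, .negSucc 19, .negSucc 1, .negSucc 8, .ofNat 0,
  .negSucc 5, .negSucc 19, .negSucc 19, .ofNat 14, .negSucc 4, .ofNat 1, .negSucc 5, .negSucc 19,
  .negSucc 19, .negSucc 19, .negSucc 10, .ofNat 4, .ofNat 15, .negSucc 19, .negSucc 19, .negSucc 19,
  .negSucc 19, .ofNat 608, .ofNat 1, .negSucc 10, .ofNat 20, .ofNat 20, .ofNat 16, .ofNat 3, .ofNat
  20, .ofNat 20, .ofNat 7],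
   [.ofNat 16, .ofNat 6, .ofNat 16, .negSucc 19, .negSucc 19, .negSucc 19, .negSucc 40, .negSucc 19,
  .negSucc 55, .ofNat 5, .negSucc 51, .negSucc 55, .negSucc 19, .negSucc 39, .negSucc 19, .negSucc 19,
  .negSucc 19, .negSucc 54, .negSucc 1, .ofNat 0, .negSucc 19, .negSucc 19, .negSucc 37, .negSucc 19,
  .negSucc 53, .ofNat 1, .ofNat 608, .negSucc 19, .ofNat 20, .ofNat 20, .negSucc 19, .ofNat 7, .ofNat
  45, .ofNat 66, .ofNat 20],
   [.ofNat 0, .ofNat 1, .negSucc 19, .negSucc 3, .negSucc 19, .ofNat 1, .negSucc 19, .ofNat 16,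
  .negSucc 19, .negSucc 6, .negSucc 0, .negSucc 19, .negSucc 5, .negSucc 19, .negSucc 5, .negSucc 19,
  .ofNat 15, .negSucc 19, .negSucc 10, .ofNat 3, .negSucc 19, .negSucc 1, .negSucc 19, .ofNat 14,
  .negSucc 19, .negSucc 10, .negSucc 19, .ofNat 608, .ofNat 20, .ofNat 20, .negSucc 6, .ofNat 20,
  .ofNat 9, .ofNat 5, .ofNat 20],
   [.negSucc 4, .ofNat 20, .ofNat 2, .ofNat 9, .negSucc 0, .ofNat 20, .ofNat 20, .negSucc 4, .ofNat 7,
  .ofNat 20, .ofNat 20, .negSucc 0, .ofNat 7, .ofNat 20, .ofNat 20, .ofNat 11, .ofNat 2, .ofNat 11,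
  .ofNat 20, .negSucc 8, .ofNat 2, .ofNat 20, .ofNat 20, .negSucc 0, .ofNat 11, .ofNat 20, .ofNat 20,
  .ofNat 20, .ofNat 608, .negSucc 19, .negSucc 4, .negSucc 8, .negSucc 19, .negSucc 6, .negSucc 19],
   [.ofNat 20, .negSucc 19, .ofNat 0, .ofNat 6, .negSucc 15, .ofNat 45, .ofNat 33, .ofNat 20, .ofNat
  20, .ofNat 20, .ofNat 20, .ofNat 20, .ofNat 20, .ofNat 41, .ofNat 45, .ofNat 36, .ofNat 40, .ofNat
  37, .ofNat 9, .negSucc 19, .negSucc 13, .ofNat 41, .ofNat 29, .ofNat 20, .ofNat 20, .ofNat 20,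
  .ofNat 20, .ofNat 20, .negSucc 19, .ofNat 608, .negSucc 25, .negSucc 4, .negSucc 32, .negSucc 19,
  .negSucc 19],
   [.ofNat 0, .ofNat 6, .ofNat 6, .negSucc 19, .ofNat 12, .ofNat 16, .negSucc 19, .ofNat 0, .negSucc
  19, .negSucc 19, .negSucc 19, .negSucc 19, .ofNat 1, .negSucc 19, .ofNat 10, .ofNat 20, .negSucc 19,
  .ofNat 2, .ofNat 0, .negSucc 6, .negSucc 19, .negSucc 19, .ofNat 0, .negSucc 19, .ofNat 11, .ofNat
  16, .negSucc 19, .negSucc 6, .negSucc 4, .negSucc 25, .ofNat 608, .ofNat 20, .ofNat 20, .ofNat 20,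
  .ofNat 20],
   [.negSucc 6, .negSucc 12, .ofNat 20, .ofNat 1, .ofNat 1, .ofNat 20, .ofNat 6, .ofNat 20, .ofNat 6,
  .ofNat 20, .ofNat 20, .negSucc 0, .ofNat 20, .negSucc 9, .ofNat 20, .negSucc 4, .negSucc 1, .ofNat
  20, .ofNat 4, .negSucc 0, .ofNat 20, .ofNat 0, .ofNat 20, .negSucc 10, .ofNat 20, .ofNat 3, .ofNat
  7, .ofNat 20, .negSucc 8, .negSucc 4, .ofNat 20, .ofNat 608, .negSucc 19, .negSucc 19, .negSucc 19],
   [.negSucc 25, .ofNat 20, .negSucc 13, .ofNat 5, .ofNat 20, .ofNat 41, .ofNat 33, .ofNat 20, .ofNat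
  20, .ofNat 29, .ofNat 41, .ofNat 20, .ofNat 20, .negSucc 19, .ofNat 45, .ofNat 20, .ofNat 0, .ofNat
  36, .ofNat 20, .negSucc 5, .ofNat 40, .ofNat 20, .ofNat 20, .negSucc 15, .ofNat 37, .ofNat 20,
  .ofNat 45, .ofNat 9, .negSucc 19, .negSucc 32, .ofNat 20, .negSucc 19, .ofNat 608, .negSucc 19,
  .negSucc 19],
   [.ofNat 20, .negSucc 23, .negSucc 0, .ofNat 6, .ofNat 20, .ofNat 20, .ofNat 20, .negSucc 0, .negSucc
  4, .ofNat 4, .ofNat 50, .ofNat 60, .negSucc 4, .ofNat 20, .ofNat 20, .ofNat 20, .ofNat 47, .ofNat 1,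
  .ofNat 6, .negSucc 19, .ofNat 51, .ofNat 56, .ofNat 3, .ofNat 20, .ofNat 20, .ofNat 20, .ofNat 66,
  .ofNat 5, .negSucc 6, .negSucc 19, .ofNat 20, .negSucc 19, .negSucc 19, .ofNat 608, .negSucc 19],
   [.ofNat 20, .ofNat 20, .ofNat 20, .ofNat 20, .negSucc 14, .ofNat 38, .ofNat 29, .ofNat 0, .ofNat 3,
  .ofNat 31, .ofNat 42, .ofNat 40, .ofNat 4, .negSucc 6, .ofNat 39, .ofNat 34, .ofNat 20, .ofNat 20,
  .ofNat 20, .negSucc 19, .ofNat 33, .negSucc 4, .ofNat 31, .negSucc 25, .ofNat 35, .ofNat 7, .ofNat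
  20, .ofNat 20, .negSucc 19, .negSucc 19, .ofNat 20, .negSucc 19, .negSucc 19, .negSucc 19, .ofNat
  608]]

/-- The Cholesky columns. -/
def cols : List (List ℤ) :=
  [[.ofNat 1096],
   [.negSucc 36, .ofNat 1095],
   [.negSucc 36, .negSucc 37, .ofNat 1094],
   [.negSucc 36, .negSucc 37, .negSucc 38, .ofNat 1094],
   [.negSucc 36, .negSucc 37, .negSucc 2, .negSucc 0, .ofNat 1094],
   [.negSucc 36, .negSucc 73, .negSucc 39, .negSucc 4, .negSucc 39, .ofNat 1091],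
   [.negSucc 36, .negSucc 75, .negSucc 76, .negSucc 42, .negSucc 40, .negSucc 47, .ofNat 1087],
   [.ofNat 0, .negSucc 36, .negSucc 37, .ofNat 10, .negSucc 37, .negSucc 41, .ofNat 40, .ofNat 1092],
   [.ofNat 2, .negSucc 35, .negSucc 86, .negSucc 40, .negSucc 37, .negSucc 127, .negSucc 53, .negSucc
  44, .ofNat 1080],
   [.ofNat 0, .ofNat 13, .negSucc 35, .negSucc 36, .ofNat 48, .negSucc 35, .negSucc 39, .negSucc 34,
  .negSucc 46, .ofNat 1090],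
   [.negSucc 36, .negSucc 37, .ofNat 8, .ofNat 16, .negSucc 38, .ofNat 6, .ofNat 33, .ofNat 8, .ofNat
  46, .negSucc 29, .ofNat 1092],
   [.negSucc 36, .negSucc 84, .negSucc 40, .ofNat 15, .negSucc 87, .negSucc 47, .ofNat 15, .ofNat 12,
  .negSucc 49, .ofNat 29, .negSucc 40, .ofNat 1084],
   [.negSucc 36, .negSucc 92, .negSucc 97, .negSucc 43, .negSucc 113, .negSucc 117, .negSucc 62,
  .negSucc 48, .negSucc 26, .negSucc 12, .negSucc 39, .negSucc 63, .ofNat 1067],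
   [.ofNat 11, .negSucc 35, .negSucc 36, .ofNat 22, .negSucc 84, .negSucc 101, .negSucc 47, .negSucc
  43, .negSucc 114, .negSucc 84, .negSucc 35, .negSucc 55, .ofNat 6, .ofNat 1072],
   [.ofNat 18, .negSucc 35, .negSucc 96, .negSucc 40, .negSucc 117, .negSucc 46, .negSucc 99, .ofNat
  12, .negSucc 61, .negSucc 77, .negSucc 35, .negSucc 135, .negSucc 85, .negSucc 79, .ofNat 1057],
   [.ofNat 20, .ofNat 24, .negSucc 34, .negSucc 35, .negSucc 34, .negSucc 100, .negSucc 74, .ofNat 1,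
  .negSucc 21, .negSucc 44, .ofNat 48, .negSucc 39, .negSucc 59, .negSucc 58, .negSucc 74, .ofNat
  1077],
   [.ofNat 11, .ofNat 11, .ofNat 23, .negSucc 34, .negSucc 35, .negSucc 35, .ofNat 24, .negSucc 38,
  .negSucc 98, .negSucc 64, .negSucc 34, .negSucc 42, .negSucc 11, .negSucc 61, .negSucc 124, .negSucc
  93, .ofNat 1072],
   [.ofNat 37, .ofNat 45, .negSucc 33, .ofNat 11, .negSucc 33, .negSucc 96, .negSucc 39, .ofNat 17,
  .negSucc 51, .negSucc 69, .negSucc 32, .negSucc 80, .negSucc 58, .negSucc 4, .negSucc 76, .negSucc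
  92, .negSucc 70, .ofNat 1070],
   [.ofNat 29, .negSucc 35, .ofNat 27, .negSucc 4, .ofNat 25, .negSucc 35, .negSucc 36, .negSucc 11,
  .negSucc 13, .negSucc 39, .ofNat 3, .negSucc 35, .negSucc 43, .negSucc 11, .negSucc 25, .negSucc 49,
  .negSucc 51, .negSucc 57, .ofNat 1086],
   [.ofNat 37, .negSucc 16, .negSucc 2, .ofNat 2, .negSucc 18, .ofNat 12, .ofNat 9, .ofNat 35, .ofNat
  39, .ofNat 41, .negSucc 24, .ofNat 0, .ofNat 13, .ofNat 44, .ofNat 44, .ofNat 48, .ofNat 55, .ofNat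
  53, .ofNat 49, .ofNat 1086],
   [.negSucc 36, .negSucc 37, .ofNat 19, .ofNat 2, .negSucc 38, .ofNat 25, .negSucc 2, .ofNat 10,
  .ofNat 4, .negSucc 32, .negSucc 41, .negSucc 5, .negSucc 93, .ofNat 7, .negSucc 113, .negSucc 46,
  .ofNat 2, .negSucc 89, .negSucc 49, .ofNat 50, .ofNat 1075],
   [.negSucc 36, .negSucc 95, .negSucc 40, .negSucc 18, .negSucc 106, .negSucc 49, .negSucc 100, .ofNat
  23, .negSucc 57, .negSucc 72, .negSucc 76, .negSucc 60, .negSucc 168, .negSucc 25, .negSucc 103,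
  .negSucc 135, .negSucc 12, .negSucc 88, .negSucc 27, .ofNat 58, .negSucc 92, .ofNat 1032],
   [.negSucc 36, .negSucc 77, .negSucc 63, .negSucc 42, .negSucc 76, .negSucc 2, .negSucc 52, .negSucc
  41, .negSucc 23, .negSucc 60, .ofNat 9, .ofNat 34, .negSucc 65, .negSucc 55, .negSucc 106, .negSucc
  88, .negSucc 67, .negSucc 90, .negSucc 32, .ofNat 61, .negSucc 75, .negSucc 119, .ofNat 1052],
   [.ofNat 22, .negSucc 35, .negSucc 36, .negSucc 3, .negSucc 84, .negSucc 108, .negSucc 48, .negSucc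
  43, .negSucc 135, .negSucc 82, .negSucc 81, .negSucc 105, .negSucc 82, .negSucc 89, .negSucc 188,
  .negSucc 122, .negSucc 69, .negSucc 107, .negSucc 72, .ofNat 34, .negSucc 88, .negSucc 159, .negSucc
  72, .ofNat 1002],
   [.ofNat 4, .negSucc 35, .negSucc 71, .negSucc 39, .negSucc 75, .negSucc 44, .negSucc 79, .ofNat 32,
  .negSucc 55, .negSucc 67, .ofNat 24, .negSucc 48, .negSucc 33, .ofNat 16, .negSucc 80, .negSucc 91,
  .negSucc 64, .negSucc 103, .negSucc 59, .ofNat 12, .negSucc 67, .negSucc 184, .negSucc 117, .negSucc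
  166, .ofNat 1025],
   [.negSucc 12, .negSucc 1, .negSucc 36, .negSucc 37, .negSucc 36, .negSucc 6, .negSucc 22, .negSucc
  1, .negSucc 18, .negSucc 39, .negSucc 36, .ofNat 20, .negSucc 21, .negSucc 8, .negSucc 27, .negSucc
  45, .negSucc 50, .negSucc 53, .negSucc 28, .ofNat 19, .ofNat 11, .negSucc 71, .negSucc 75, .negSucc
  94, .negSucc 103, .ofNat 1073],
   [.ofNat 29, .ofNat 12, .ofNat 31, .negSucc 33, .negSucc 34, .negSucc 34, .negSucc 75, .negSucc 34,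
  .negSucc 112, .ofNat 1, .negSucc 86, .negSucc 110, .negSucc 60, .negSucc 103, .negSucc 84, .negSucc
  64, .negSucc 80, .negSucc 146, .negSucc 33, .ofNat 27, .negSucc 71, .negSucc 119, .negSucc 138,
  .negSucc 183, .negSucc 229, .negSucc 79, .ofNat 983],
   [.ofNat 0, .ofNat 2, .negSucc 35, .negSucc 8, .negSucc 36, .negSucc 0, .negSucc 40, .ofNat 28,
  .negSucc 41, .negSucc 14, .ofNat 0, .negSucc 41, .negSucc 23, .negSucc 49, .negSucc 37, .negSucc 52,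
  .ofNat 10, .negSucc 55, .negSucc 28, .ofNat 16, .negSucc 53, .negSucc 46, .negSucc 71, .negSucc 33,
  .negSucc 94, .negSucc 51, .negSucc 127, .ofNat 1068],
   [.negSucc 8, .ofNat 36, .ofNat 5, .ofNat 18, .negSucc 0, .ofNat 39, .ofNat 42, .negSucc 7, .ofNat
  22, .ofNat 41, .ofNat 36, .ofNat 3, .ofNat 26, .ofNat 50, .ofNat 58, .ofNat 36, .ofNat 23, .ofNat
  40, .ofNat 51, .negSucc 28, .ofNat 23, .ofNat 80, .ofNat 78, .ofNat 68, .ofNat 85, .ofNat 76, .ofNat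
  137, .ofNat 91, .ofNat 1059],
   [.ofNat 37, .negSucc 34, .ofNat 0, .ofNat 11, .negSucc 28, .ofNat 80, .ofNat 62, .ofNat 35, .ofNat
  49, .ofNat 47, .ofNat 32, .ofNat 37, .ofNat 52, .ofNat 96, .ofNat 113, .ofNat 97, .ofNat 114, .ofNat
  114, .ofNat 46, .negSucc 70, .ofNat 9, .ofNat 147, .ofNat 128, .ofNat 172, .ofNat 160, .ofNat 114,
  .ofNat 236, .ofNat 133, .negSucc 166, .ofNat 950],
   [.ofNat 0, .ofNat 11, .ofNat 11, .negSucc 35, .ofNat 22, .ofNat 31, .negSucc 33, .ofNat 4, .negSucc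
  33, .negSucc 39, .negSucc 33, .negSucc 32, .ofNat 2, .negSucc 41, .ofNat 6, .ofNat 33, .negSucc 42,
  .negSucc 0, .negSucc 3, .negSucc 7, .negSucc 36, .negSucc 45, .negSucc 10, .negSucc 62, .negSucc 4,
  .ofNat 16, .negSucc 79, .negSucc 32, .ofNat 18, .ofNat 4, .ofNat 1082],
   [.negSucc 12, .negSucc 23, .ofNat 35, .ofNat 2, .ofNat 1, .ofNat 36, .ofNat 13, .ofNat 38, .ofNat
  20, .ofNat 42, .ofNat 35, .negSucc 0, .ofNat 47, .negSucc 5, .ofNat 52, .ofNat 3, .ofNat 10, .ofNat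
  55, .ofNat 16, .negSucc 10, .ofNat 52, .ofNat 31, .ofNat 65, .ofNat 30, .ofNat 80, .ofNat 33, .ofNat
  84, .ofNat 74, .negSucc 64, .negSucc 117, .ofNat 54, .ofNat 1065],
   [.negSucc 46, .ofNat 35, .negSucc 25, .ofNat 8, .ofNat 36, .ofNat 76, .ofNat 65, .ofNat 39, .ofNat
  52, .ofNat 59, .ofNat 73, .ofNat 46, .ofNat 62, .negSucc 6, .ofNat 118, .ofNat 63, .ofNat 37, .ofNat
  108, .ofNat 64, .negSucc 30, .ofNat 113, .ofNat 121, .ofNat 106, .ofNat 100, .ofNat 182, .ofNat 102,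
  .ofNat 269, .ofNat 114, .negSucc 161, .negSucc 339, .ofNat 85, .negSucc 178, .ofNat 879],
   [.ofNat 37, .negSucc 42, .negSucc 1, .ofNat 11, .ofNat 36, .ofNat 36, .ofNat 38, .negSucc 1,
  .negSucc 2, .ofNat 9, .ofNat 92, .ofNat 116, .ofNat 9, .ofNat 53, .ofNat 68, .ofNat 54, .ofNat 113,
  .ofNat 38, .ofNat 27, .negSucc 52, .ofNat 117, .ofNat 165, .ofNat 61, .ofNat 148, .ofNat 140, .ofNat
  96, .ofNat 299, .ofNat 102, .negSucc 127, .negSucc 307, .ofNat 96, .negSucc 159, .negSucc 481,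
  .ofNat 754],
   [.ofNat 37, .ofNat 38, .ofNat 39, .ofNat 40, .negSucc 24, .ofNat 74, .ofNat 64, .ofNat 2, .ofNat 23,
  .ofNat 66, .ofNat 76, .ofNat 82, .ofNat 36, .ofNat 11, .ofNat 109, .ofNat 88, .ofNat 71, .ofNat 80,
  .ofNat 63, .negSucc 59, .ofNat 97, .ofNat 71, .ofNat 123, .ofNat 67, .ofNat 167, .ofNat 74, .ofNat
  196, .ofNat 122, .negSucc 145, .negSucc 283, .ofNat 79, .negSucc 158, .negSucc 453, .negSucc 781,
  .ofNat 235]]

theorem chk : certChk 10 314 2000 chi mu nu tab cols = true := by decide +kernel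

end Pool.Agent.J6H81.Cube.C1
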