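import Pool.Agent.J6H81.Cube.Rel

/-! Certificate for class 10 (support for MP_416390_gt). -/

namespace Pool.Agent.J6H81.Cube.C10

open Pool.Agent.J6H81.Cube

/-- Signs of the class. -/
def chi : List ℤ :=
  [.ofNat 1, .ofNat 1, .ofNat 1, .ofNat 1, .ofNat 1, .ofNat 1, .ofNat 1, .ofNat 1, .ofNat 1, .ofNat 1,
  .ofNat 1, .ofNat 1, .ofNat 1, .ofNat 1, .ofNat 1, .ofNat 1, .ofNat 1, .ofNat 1, .ofNat 1, .ofNat 1,
  .ofNat 1, .ofNat 1, .ofNat 1, .ofNat 1, .ofNat 1, .ofNat 1, .ofNat 1, .ofNat 1, .ofNat 1, .negSucc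
  0, .ofNat 1, .ofNat 1, .ofNat 1, .negSucc 0, .negSucc 0]

/-- Multipliers of the relations. -/
def mu : List ℤ :=
  [.negSucc 30, .negSucc 23, .negSucc 23, .negSucc 13, .negSucc 28, .negSucc 23, .negSucc 22, .negSucc
  19, .negSucc 28, .negSucc 23, .negSucc 34, .negSucc 33, .negSucc 36, .negSucc 38, .negSucc 36,
  .ofNat 23, .ofNat 22, .ofNat 17, .ofNat 22, .ofNat 24, .ofNat 22, .ofNat 39, .ofNat 36, .ofNat 36,
  .ofNat 26, .negSucc 31, .negSucc 32, .negSucc 28, .negSucc 33, .negSucc 53, .negSucc 20, .negSucc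
  25, .negSucc 22, .negSucc 28, .negSucc 27, .negSucc 21, .ofNat 54, .ofNat 34, .ofNat 23, .ofNat 43,
  .ofNat 29, .ofNat 23, .ofNat 14, .ofNat 28, .negSucc 33, .ofNat 23, .ofNat 35, .ofNat 37, .negSucc
  30, .ofNat 20, .ofNat 34, .negSucc 23, .ofNat 29, .ofNat 37, .ofNat 24, .negSucc 13, .ofNat 24,
  .ofNat 39, .ofNat 29, .ofNat 24, .negSucc 38, .ofNat 32, .ofNat 54, .ofNat 23, .negSucc 35, .ofNat
  33, .ofNat 22, .negSucc 35, .ofNat 29, .negSucc 16, .ofNat 22, .negSucc 25, .ofNat 34, .negSucc 23,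
  .negSucc 21, .negSucc 53, .negSucc 28, .ofNat 34, .negSucc 20, .negSucc 33, .negSucc 22, .negSucc
  25, .negSucc 22, .negSucc 13, .ofNat 23, .negSucc 28, .negSucc 42, .negSucc 27, .ofNat 28, .ofNat
  22, .negSucc 36, .negSucc 31, .negSucc 20, .ofNat 35, .ofNat 29, .ofNat 20, .ofNat 29, .ofNat 24,
  .ofNat 30, .ofNat 37, .ofNat 20, .ofNat 30, .ofNat 32, .ofNat 32, .ofNat 21]

/-- Multipliers of the norm conditions. -/
def nu : List ℤ :=
  [.ofNat 0, .ofNat 0, .ofNat 0, .ofNat 0, .ofNat 0, .ofNat 0, .ofNat 0]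

/-- The table. -/
def tab : List (List ℤ) :=
  [[.ofNat 608, .negSucc 19, .negSucc 19, .negSucc 19, .negSucc 19, .negSucc 19, .negSucc 19, .ofNat
  11, .ofNat 3, .ofNat 1, .negSucc 19, .negSucc 19, .negSucc 19, .ofNat 4, .ofNat 2, .ofNat 6,
  .negSucc 5, .ofNat 2, .ofNat 9, .negSucc 19, .negSucc 19, .negSucc 19, .negSucc 19, .ofNat 4,
  .negSucc 2, .ofNat 3, .ofNat 9, .ofNat 4, .ofNat 8, .ofNat 20, .ofNat 4, .ofNat 2, .ofNat 2, .ofNat
  20, .ofNat 20],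
   [.negSucc 19, .ofNat 608, .negSucc 19, .negSucc 19, .negSucc 19, .negSucc 50, .negSucc 42, .negSucc
  19, .negSucc 19, .ofNat 3, .negSucc 19, .negSucc 43, .negSucc 41, .negSucc 19, .negSucc 19, .ofNat
  15, .ofNat 3, .ofNat 19, .negSucc 19, .ofNat 11, .negSucc 19, .negSucc 43, .negSucc 36, .negSucc 19,
  .negSucc 19, .ofNat 17, .ofNat 0, .ofNat 16, .negSucc 19, .ofNat 0, .ofNat 9, .ofNat 16, .negSucc
  19, .negSucc 13, .ofNat 20],
   [.negSucc 19, .negSucc 19, .ofNat 608, .negSucc 19, .ofNat 11, .negSucc 19, .negSucc 40, .negSucc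
  19, .negSucc 42, .negSucc 19, .ofNat 4, .negSucc 19, .negSucc 45, .negSucc 19, .negSucc 54, .negSucc
  19, .ofNat 15, .negSucc 19, .ofNat 34, .ofNat 4, .ofNat 4, .negSucc 19, .negSucc 42, .negSucc 19,
  .negSucc 56, .negSucc 19, .ofNat 14, .negSucc 19, .ofNat 14, .negSucc 8, .ofNat 17, .negSucc 19,
  .ofNat 3, .negSucc 16, .ofNat 20],
   [.negSucc 19, .negSucc 19, .negSucc 19, .ofNat 608, .ofNat 3, .ofNat 1, .negSucc 19, .ofNat 3,
  .negSucc 19, .negSucc 19, .ofNat 2, .ofNat 6, .negSucc 19, .ofNat 15, .negSucc 19, .negSucc 19,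
  .negSucc 19, .ofNat 12, .ofNat 9, .negSucc 5, .negSucc 2, .ofNat 3, .negSucc 19, .ofNat 17, .negSucc
  19, .negSucc 19, .negSucc 19, .ofNat 13, .ofNat 3, .negSucc 3, .negSucc 19, .ofNat 9, .negSucc 5,
  .negSucc 18, .ofNat 20],
   [.negSucc 19, .negSucc 19, .ofNat 11, .ofNat 3, .ofNat 608, .negSucc 19, .negSucc 19, .negSucc 19,
  .negSucc 19, .ofNat 19, .negSucc 19, .negSucc 33, .negSucc 41, .negSucc 42, .negSucc 58, .negSucc
  19, .negSucc 19, .negSucc 19, .ofNat 12, .ofNat 3, .negSucc 19, .negSucc 48, .negSucc 43, .negSucc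
  39, .negSucc 55, .negSucc 19, .negSucc 19, .negSucc 19, .ofNat 34, .negSucc 15, .ofNat 4, .ofNat 6,
  .negSucc 19, .ofNat 20, .negSucc 12],
   [.negSucc 19, .negSucc 50, .negSucc 19, .ofNat 1, .negSucc 19, .ofNat 608, .negSucc 19, .negSucc 19,
  .negSucc 58, .negSucc 19, .negSucc 5, .negSucc 19, .negSucc 48, .negSucc 54, .negSucc 19, .negSucc
  73, .negSucc 19, .negSucc 51, .negSucc 19, .ofNat 2, .ofNat 9, .negSucc 19, .negSucc 47, .negSucc
  53, .negSucc 19, .negSucc 53, .negSucc 19, .negSucc 73, .negSucc 19, .negSucc 15, .ofNat 19,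
  .negSucc 19, .ofNat 23, .ofNat 20, .negSucc 8],
   [.negSucc 19, .negSucc 42, .negSucc 40, .negSucc 19, .negSucc 19, .negSucc 19, .ofNat 608, .ofNat
  19, .negSucc 19, .negSucc 19, .ofNat 2, .ofNat 9, .negSucc 19, .negSucc 19, .negSucc 51, .negSucc
  48, .ofNat 12, .negSucc 19, .negSucc 19, .ofNat 2, .ofNat 4, .ofNat 8, .negSucc 19, .negSucc 19,
  .negSucc 52, .negSucc 42, .ofNat 34, .negSucc 19, .negSucc 19, .negSucc 5, .negSucc 19, .ofNat 14,
  .ofNat 8, .ofNat 20, .negSucc 13],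
   [.ofNat 11, .negSucc 19, .negSucc 19, .ofNat 3, .negSucc 19, .negSucc 19, .ofNat 19, .ofNat 608,
  .negSucc 19, .negSucc 19, .ofNat 3, .ofNat 15, .negSucc 19, .negSucc 19, .negSucc 50, .negSucc 43,
  .negSucc 19, .negSucc 42, .negSucc 41, .negSucc 19, .ofNat 0, .ofNat 14, .negSucc 19, .negSucc 19,
  .ofNat 0, .ofNat 9, .negSucc 19, .ofNat 16, .ofNat 16, .ofNat 20, .ofNat 17, .negSucc 19, .negSucc
  19, .ofNat 44, .ofNat 37],
   [.ofNat 3, .negSucc 19, .negSucc 42, .negSucc 19, .negSucc 19, .negSucc 58, .negSucc 19, .negSucc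
  19, .ofNat 608, .negSucc 19, .ofNat 19, .negSucc 19, .ofNat 12, .ofNat 11, .negSucc 19, .negSucc 33,
  .ofNat 3, .negSucc 19, .negSucc 41, .negSucc 19, .ofNat 16, .negSucc 19, .ofNat 13, .negSucc 39,
  .negSucc 19, .ofNat 4, .negSucc 55, .negSucc 19, .ofNat 6, .ofNat 20, .negSucc 19, .ofNat 34,
  .negSucc 19, .ofNat 49, .ofNat 44],
   [.ofNat 1, .ofNat 3, .negSucc 19, .negSucc 19, .ofNat 19, .negSucc 19, .negSucc 19, .negSucc 19,
  .negSucc 19, .ofNat 608, .negSucc 19, .ofNat 34, .ofNat 9, .ofNat 4, .negSucc 5, .negSucc 19, .ofNat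
  2, .ofNat 2, .negSucc 19, .negSucc 19, .negSucc 19, .ofNat 14, .ofNat 3, .negSucc 48, .negSucc 43,
  .negSucc 19, .negSucc 55, .negSucc 45, .negSucc 19, .ofNat 20, .negSucc 19, .negSucc 19, .ofNat 14,
  .ofNat 44, .ofNat 42],
   [.negSucc 19, .negSucc 19, .ofNat 4, .ofNat 2, .negSucc 19, .negSucc 5, .ofNat 2, .ofNat 3, .ofNat
  19, .negSucc 19, .ofNat 608, .negSucc 19, .negSucc 19, .negSucc 19, .negSucc 19, .ofNat 34, .negSucc
  19, .negSucc 19, .ofNat 9, .ofNat 1, .negSucc 19, .negSucc 43, .negSucc 41, .negSucc 48, .negSucc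
  55, .negSucc 19, .negSucc 43, .negSucc 45, .negSucc 19, .ofNat 20, .negSucc 19, .negSucc 19, .ofNat
  14, .negSucc 13, .negSucc 2],
   [.negSucc 19, .negSucc 43, .negSucc 19, .ofNat 6, .negSucc 33, .negSucc 19, .ofNat 9, .ofNat 15,
  .negSucc 19, .ofNat 34, .negSucc 19, .ofNat 608, .negSucc 19, .negSucc 19, .negSucc 73, .negSucc 19,
  .negSucc 19, .negSucc 48, .negSucc 19, .ofNat 6, .ofNat 4, .negSucc 19, .negSucc 41, .negSucc 56,
  .negSucc 19, .negSucc 42, .negSucc 58, .negSucc 19, .negSucc 62, .ofNat 20, .negSucc 19, .negSucc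
  53, .negSucc 19, .negSucc 2, .ofNat 6],
   [.negSucc 19, .negSucc 41, .negSucc 45, .negSucc 19, .negSucc 41, .negSucc 48, .negSucc 19, .negSucc
  19, .ofNat 12, .ofNat 9, .negSucc 19, .negSucc 19, .ofNat 608, .ofNat 34, .negSucc 19, .negSucc 19,
  .ofNat 9, .negSucc 19, .negSucc 19, .ofNat 9, .ofNat 2, .ofNat 2, .negSucc 19, .negSucc 19, .negSucc
  48, .negSucc 33, .negSucc 19, .negSucc 53, .negSucc 47, .ofNat 20, .ofNat 14, .negSucc 19, .negSucc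
  19, .negSucc 22, .negSucc 7],
   [.ofNat 4, .negSucc 19, .negSucc 19, .ofNat 15, .negSucc 42, .negSucc 54, .negSucc 19, .negSucc 19,
  .ofNat 11, .ofNat 4, .negSucc 19, .negSucc 19, .ofNat 34, .ofNat 608, .negSucc 19, .negSucc 19,
  .negSucc 19, .negSucc 40, .negSucc 45, .negSucc 19, .ofNat 9, .ofNat 17, .negSucc 19, .negSucc 19,
  .ofNat 14, .ofNat 17, .negSucc 56, .negSucc 19, .negSucc 19, .negSucc 3, .negSucc 19, .ofNat 14,
  .ofNat 3, .ofNat 20, .ofNat 43],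
   [.ofNat 2, .negSucc 19, .negSucc 54, .negSucc 19, .negSucc 58, .negSucc 19, .negSucc 51, .negSucc
  50, .negSucc 19, .negSucc 5, .negSucc 19, .negSucc 73, .negSucc 19, .negSucc 19, .ofNat 608,
  .negSucc 19, .ofNat 1, .negSucc 19, .negSucc 48, .negSucc 19, .ofNat 16, .negSucc 19, .ofNat 9,
  .negSucc 53, .negSucc 19, .ofNat 19, .negSucc 19, .negSucc 73, .negSucc 19, .negSucc 8, .negSucc 53,
  .negSucc 19, .ofNat 23, .ofNat 20, .ofNat 48],
   [.ofNat 6, .ofNat 15, .negSucc 19, .negSucc 19, .negSucc 19, .negSucc 73, .negSucc 48, .negSucc 43,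
  .negSucc 33, .negSucc 19, .ofNat 34, .negSucc 19, .negSucc 19, .negSucc 19, .negSucc 19, .ofNat 608,
  .ofNat 6, .ofNat 9, .negSucc 19, .negSucc 19, .negSucc 19, .ofNat 3, .negSucc 5, .negSucc 56,
  .negSucc 58, .negSucc 19, .negSucc 19, .negSucc 19, .negSucc 53, .negSucc 3, .negSucc 42, .negSucc
  62, .negSucc 19, .ofNat 20, .ofNat 42],
   [.negSucc 5, .ofNat 3, .ofNat 15, .negSucc 19, .negSucc 19, .negSucc 19, .ofNat 12, .negSucc 19,
  .ofNat 3, .ofNat 2, .negSucc 19, .negSucc 19, .ofNat 9, .negSucc 19, .ofNat 1, .ofNat 6, .ofNat 608,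
  .negSucc 19, .negSucc 19, .negSucc 19, .ofNat 4, .ofNat 19, .negSucc 19, .ofNat 17, .negSucc 19,
  .negSucc 19, .negSucc 19, .ofNat 13, .ofNat 9, .ofNat 3, .negSucc 19, .ofNat 3, .negSucc 5, .negSucc
  2, .ofNat 20],
   [.ofNat 2, .ofNat 19, .negSucc 19, .ofNat 12, .negSucc 19, .negSucc 51, .negSucc 19, .negSucc 42,
  .negSucc 19, .ofNat 2, .negSucc 19, .negSucc 48, .negSucc 19, .negSucc 40, .negSucc 19, .ofNat 9,
  .negSucc 19, .ofNat 608, .negSucc 19, .negSucc 19, .ofNat 6, .negSucc 19, .ofNat 14, .negSucc 19,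
  .ofNat 34, .negSucc 19, .negSucc 52, .negSucc 19, .ofNat 14, .negSucc 3, .negSucc 42, .negSucc 19,
  .ofNat 8, .negSucc 7, .ofNat 20],
   [.ofNat 9, .negSucc 19, .ofNat 34, .ofNat 9, .ofNat 12, .negSucc 19, .negSucc 19, .negSucc 41,
  .negSucc 41, .negSucc 19, .ofNat 9, .negSucc 19, .negSucc 19, .negSucc 45, .negSucc 48, .negSucc 19,
  .negSucc 19, .negSucc 19, .ofNat 608, .negSucc 19, .negSucc 19, .ofNat 23, .ofNat 8, .negSucc 19,
  .negSucc 19, .ofNat 14, .negSucc 48, .negSucc 53, .negSucc 19, .negSucc 1, .negSucc 33, .negSucc 47,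
  .negSucc 19, .negSucc 1, .ofNat 20],
   [.negSucc 19, .ofNat 11, .ofNat 4, .negSucc 5, .ofNat 3, .ofNat 2, .ofNat 2, .negSucc 19, .negSucc
  19, .negSucc 19, .ofNat 1, .ofNat 6, .ofNat 9, .negSucc 19, .negSucc 19, .negSucc 19, .negSucc 19,
  .negSucc 19, .negSucc 19, .ofNat 608, .negSucc 19, .negSucc 19, .negSucc 19, .ofNat 4, .ofNat 9,
  .ofNat 4, .negSucc 2, .ofNat 4, .ofNat 2, .ofNat 20, .ofNat 3, .ofNat 8, .ofNat 2, .ofNat 20, .ofNat
  20],
   [.negSucc 19, .negSucc 19, .ofNat 4, .negSucc 2, .negSucc 19, .ofNat 9, .ofNat 4, .ofNat 0, .ofNat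
  16, .negSucc 19, .negSucc 19, .ofNat 4, .ofNat 2, .ofNat 9, .ofNat 16, .negSucc 19, .ofNat 4, .ofNat
  6, .negSucc 19, .negSucc 19, .ofNat 608, .negSucc 19, .negSucc 19, .negSucc 19, .negSucc 19, .ofNat
  17, .negSucc 19, .negSucc 19, .ofNat 12, .negSucc 14, .negSucc 19, .negSucc 19, .ofNat 1, .negSucc
  8, .ofNat 0],
   [.negSucc 19, .negSucc 43, .negSucc 19, .ofNat 3, .negSucc 48, .negSucc 19, .ofNat 8, .ofNat 14,
  .negSucc 19, .ofNat 14, .negSucc 43, .negSucc 19, .ofNat 2, .ofNat 17, .negSucc 19, .ofNat 3, .ofNat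
  19, .negSucc 19, .ofNat 23, .negSucc 19, .negSucc 19, .ofNat 608, .negSucc 19, .negSucc 19, .negSucc
  56, .negSucc 19, .negSucc 19, .negSucc 51, .negSucc 19, .negSucc 8, .negSucc 19, .negSucc 40,
  .negSucc 19, .negSucc 3, .negSucc 9],
   [.negSucc 19, .negSucc 36, .negSucc 42, .negSucc 19, .negSucc 43, .negSucc 47, .negSucc 19, .negSucc
  19, .ofNat 13, .ofNat 3, .negSucc 41, .negSucc 41, .negSucc 19, .negSucc 19, .ofNat 9, .negSucc 5,
  .negSucc 19, .ofNat 14, .ofNat 8, .negSucc 19, .negSucc 19, .negSucc 19, .ofNat 608, .ofNat 17,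
  .negSucc 19, .negSucc 19, .ofNat 12, .negSucc 19, .negSucc 19, .ofNat 0, .ofNat 1, .negSucc 19,
  .negSucc 19, .negSucc 9, .negSucc 11],
   [.ofNat 4, .negSucc 19, .negSucc 19, .ofNat 17, .negSucc 39, .negSucc 53, .negSucc 19, .negSucc 19,
  .negSucc 39, .negSucc 48, .negSucc 48, .negSucc 56, .negSucc 19, .negSucc 19, .negSucc 53, .negSucc
  56, .ofNat 17, .negSucc 19, .negSucc 19, .ofNat 4, .negSucc 19, .negSucc 19, .ofNat 17, .ofNat 608,
  .negSucc 19, .negSucc 19, .negSucc 19, .ofNat 15, .ofNat 9, .ofNat 20, .negSucc 19, .ofNat 9, .ofNat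
  4, .ofNat 20, .negSucc 16],
   [.negSucc 2, .negSucc 19, .negSucc 56, .negSucc 19, .negSucc 55, .negSucc 19, .negSucc 52, .ofNat 0,
  .negSucc 19, .negSucc 43, .negSucc 55, .negSucc 19, .negSucc 48, .ofNat 14, .negSucc 19, .negSucc
  58, .negSucc 19, .ofNat 34, .negSucc 19, .ofNat 9, .negSucc 19, .negSucc 56, .negSucc 19, .negSucc
  19, .ofNat 608, .negSucc 19, .negSucc 54, .negSucc 19, .ofNat 0, .ofNat 20, .negSucc 48, .negSucc
  19, .ofNat 10, .ofNat 20, .negSucc 11],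
   [.ofNat 3, .ofNat 17, .negSucc 19, .negSucc 19, .negSucc 19, .negSucc 53, .negSucc 42, .ofNat 9,
  .ofNat 4, .negSucc 19, .negSucc 19, .negSucc 42, .negSucc 33, .ofNat 17, .ofNat 19, .negSucc 19,
  .negSucc 19, .negSucc 19, .ofNat 14, .ofNat 4, .ofNat 17, .negSucc 19, .negSucc 19, .negSucc 19,
  .negSucc 19, .ofNat 608, .negSucc 48, .negSucc 39, .negSucc 19, .ofNat 20, .negSucc 43, .negSucc 49,
  .negSucc 19, .ofNat 20, .negSucc 0],
   [.ofNat 9, .ofNat 0, .ofNat 14, .negSucc 19, .negSucc 19, .negSucc 19, .ofNat 34, .negSucc 19,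
  .negSucc 55, .negSucc 55, .negSucc 43, .negSucc 58, .negSucc 19, .negSucc 56, .negSucc 19, .negSucc
  19, .negSucc 19, .negSucc 52, .negSucc 48, .negSucc 2, .negSucc 19, .negSucc 19, .ofNat 12, .negSucc
  19, .negSucc 54, .negSucc 48, .ofNat 608, .negSucc 19, .negSucc 19, .ofNat 20, .negSucc 19, .ofNat
  0, .ofNat 10, .ofNat 57, .ofNat 20],
   [.ofNat 4, .ofNat 16, .negSucc 19, .ofNat 13, .negSucc 19, .negSucc 73, .negSucc 19, .ofNat 16,
  .negSucc 19, .negSucc 45, .negSucc 45, .negSucc 19, .negSucc 53, .negSucc 19, .negSucc 73, .negSucc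
  19, .ofNat 13, .negSucc 19, .negSucc 53, .ofNat 4, .negSucc 19, .negSucc 51, .negSucc 19, .ofNat 15,
  .negSucc 19, .negSucc 39, .negSucc 19, .ofNat 608, .negSucc 19, .ofNat 20, .negSucc 39, .negSucc 19,
  .ofNat 12, .ofNat 52, .ofNat 20],
   [.ofNat 8, .negSucc 19, .ofNat 14, .ofNat 3, .ofNat 34, .negSucc 19, .negSucc 19, .ofNat 16, .ofNat
  6, .negSucc 19, .negSucc 19, .negSucc 62, .negSucc 47, .negSucc 19, .negSucc 19, .negSucc 53, .ofNat
  9, .ofNat 14, .negSucc 19, .ofNat 2, .ofNat 12, .negSucc 19, .negSucc 19, .ofNat 9, .ofNat 0,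
  .negSucc 19, .negSucc 19, .negSucc 19, .ofNat 608, .ofNat 20, .negSucc 49, .negSucc 51, .negSucc 19,
  .ofNat 41, .ofNat 20],
   [.ofNat 20, .ofNat 0, .negSucc 8, .negSucc 3, .negSucc 15, .negSucc 15, .negSucc 5, .ofNat 20,
  .ofNat 20, .ofNat 20, .ofNat 20, .ofNat 20, .ofNat 20, .negSucc 3, .negSucc 8, .negSucc 3, .ofNat 3,
  .negSucc 3, .negSucc 1, .ofNat 20, .negSucc 14, .negSucc 8, .ofNat 0, .ofNat 20, .ofNat 20, .ofNat
  20, .ofNat 20, .ofNat 20, .ofNat 20, .ofNat 608, .negSucc 16, .negSucc 11, .negSucc 0, .negSucc 19,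
  .negSucc 19],
   [.ofNat 4, .ofNat 9, .ofNat 17, .negSucc 19, .ofNat 4, .ofNat 19, .negSucc 19, .ofNat 17, .negSucc
  19, .negSucc 19, .negSucc 19, .negSucc 19, .ofNat 14, .negSucc 19, .negSucc 53, .negSucc 42,
  .negSucc 19, .negSucc 42, .negSucc 33, .ofNat 3, .negSucc 19, .negSucc 19, .ofNat 1, .negSucc 19,
  .negSucc 48, .negSucc 43, .negSucc 19, .negSucc 39, .negSucc 49, .negSucc 16, .ofNat 608, .negSucc
  19, .negSucc 19, .ofNat 20, .ofNat 20],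
   [.ofNat 2, .ofNat 16, .negSucc 19, .ofNat 9, .ofNat 6, .negSucc 19, .ofNat 14, .negSucc 19, .ofNat
  34, .negSucc 19, .negSucc 19, .negSucc 53, .negSucc 19, .ofNat 14, .negSucc 19, .negSucc 62, .ofNat
  3, .negSucc 19, .negSucc 47, .ofNat 8, .negSucc 19, .negSucc 40, .negSucc 19, .ofNat 9, .negSucc 19,
  .negSucc 49, .ofNat 0, .negSucc 19, .negSucc 51, .negSucc 11, .negSucc 19, .ofNat 608, .negSucc 19,
  .ofNat 20, .ofNat 20],
   [.ofNat 2, .negSucc 19, .ofNat 3, .negSucc 5, .negSucc 19, .ofNat 23, .ofNat 8, .negSucc 19,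
  .negSucc 19, .ofNat 14, .ofNat 14, .negSucc 19, .negSucc 19, .ofNat 3, .ofNat 23, .negSucc 19,
  .negSucc 5, .ofNat 8, .negSucc 19, .ofNat 2, .ofNat 1, .negSucc 19, .negSucc 19, .ofNat 4, .ofNat
  10, .negSucc 19, .ofNat 10, .ofNat 12, .negSucc 19, .negSucc 0, .negSucc 19, .negSucc 19, .ofNat
  608, .ofNat 20, .ofNat 20],
   [.ofNat 20, .negSucc 13, .negSucc 16, .negSucc 18, .ofNat 20, .ofNat 20, .ofNat 20, .ofNat 44,
  .ofNat 49, .ofNat 44, .negSucc 13, .negSucc 2, .negSucc 22, .ofNat 20, .ofNat 20, .ofNat 20,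
  .negSucc 2, .negSucc 7, .negSucc 1, .ofNat 20, .negSucc 8, .negSucc 3, .negSucc 9, .ofNat 20, .ofNat
  20, .ofNat 20, .ofNat 57, .ofNat 52, .ofNat 41, .negSucc 19, .ofNat 20, .ofNat 20, .ofNat 20, .ofNat
  608, .negSucc 19],
   [.ofNat 20, .ofNat 20, .ofNat 20, .ofNat 20, .negSucc 12, .negSucc 8, .negSucc 13, .ofNat 37, .ofNat
  44, .ofNat 42, .negSucc 2, .ofNat 6, .negSucc 7, .ofNat 43, .ofNat 48, .ofNat 42, .ofNat 20, .ofNat
  20, .ofNat 20, .ofNat 20, .ofNat 0, .negSucc 9, .negSucc 11, .negSucc 16, .negSucc 11, .negSucc 0,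
  .ofNat 20, .ofNat 20, .ofNat 20, .negSucc 19, .ofNat 20, .ofNat 20, .ofNat 20, .negSucc 19, .ofNat
  608]]

/-- The Cholesky columns. -/
def cols : List (List ℤ) :=
  [[.ofNat 540],
   [.negSucc 18, .ofNat 540],
   [.negSucc 18, .negSucc 18, .ofNat 539],
   [.negSucc 18, .negSucc 18, .negSucc 19, .ofNat 539],
   [.negSucc 18, .negSucc 18, .ofNat 9, .ofNat 2, .ofNat 539],
   [.negSucc 18, .negSucc 47, .negSucc 20, .negSucc 1, .negSucc 20, .ofNat 537],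
   [.negSucc 18, .negSucc 39, .negSucc 39, .negSucc 21, .negSucc 19, .negSucc 24, .ofNat 535],
   [.ofNat 10, .negSucc 17, .negSucc 18, .ofNat 2, .negSucc 18, .negSucc 20, .ofNat 14, .ofNat 538],
   [.ofNat 3, .negSucc 17, .negSucc 39, .negSucc 20, .negSucc 17, .negSucc 58, .negSucc 26, .negSucc
  22, .ofNat 533],
   [.ofNat 1, .ofNat 3, .negSucc 17, .negSucc 18, .ofNat 18, .negSucc 17, .negSucc 20, .negSucc 18,
  .negSucc 23, .ofNat 537],
   [.negSucc 18, .negSucc 18, .ofNat 2, .ofNat 1, .negSucc 19, .negSucc 8, .negSucc 0, .ofNat 2, .ofNat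
  16, .negSucc 16, .ofNat 538],
   [.negSucc 18, .negSucc 40, .negSucc 20, .ofNat 3, .negSucc 32, .negSucc 24, .ofNat 1, .ofNat 10,
  .negSucc 24, .ofNat 31, .negSucc 20, .ofNat 534],
   [.negSucc 18, .negSucc 39, .negSucc 44, .negSucc 21, .negSucc 39, .negSucc 52, .negSucc 30, .negSucc
  23, .negSucc 3, .ofNat 4, .negSucc 21, .negSucc 29, .ofNat 529],
   [.ofNat 4, .negSucc 17, .negSucc 18, .ofNat 13, .negSucc 39, .negSucc 54, .negSucc 24, .negSucc 22,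
  .negSucc 0, .ofNat 1, .negSucc 20, .negSucc 25, .ofNat 16, .ofNat 532],
   [.ofNat 2, .negSucc 17, .negSucc 51, .negSucc 20, .negSucc 53, .negSucc 23, .negSucc 57, .negSucc
  50, .negSucc 33, .negSucc 12, .negSucc 20, .negSucc 77, .negSucc 42, .negSucc 35, .ofNat 517],
   [.ofNat 6, .ofNat 14, .negSucc 17, .negSucc 18, .negSucc 17, .negSucc 68, .negSucc 50, .negSucc 42,
  .negSucc 45, .negSucc 26, .ofNat 31, .negSucc 20, .negSucc 32, .negSucc 29, .negSucc 46, .ofNat 522],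
   [.negSucc 5, .ofNat 3, .ofNat 14, .negSucc 17, .negSucc 18, .negSucc 18, .ofNat 10, .negSucc 18,
  .ofNat 0, .ofNat 1, .negSucc 19, .negSucc 20, .ofNat 3, .negSucc 22, .negSucc 6, .ofNat 0, .ofNat
  537],
   [.ofNat 2, .ofNat 18, .negSucc 17, .ofNat 11, .negSucc 17, .negSucc 47, .negSucc 20, .negSucc 41,
  .negSucc 27, .negSucc 2, .negSucc 17, .negSucc 49, .negSucc 31, .negSucc 49, .negSucc 46, .negSucc
  16, .negSucc 25, .ofNat 525],
   [.ofNat 8, .negSucc 17, .ofNat 31, .ofNat 9, .ofNat 10, .negSucc 17, .negSucc 17, .negSucc 38,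
  .negSucc 41, .negSucc 21, .ofNat 9, .negSucc 18, .negSucc 21, .negSucc 46, .negSucc 60, .negSucc 39,
  .negSucc 22, .negSucc 39, .ofNat 524],
   [.negSucc 18, .ofNat 10, .ofNat 3, .negSucc 5, .ofNat 2, .ofNat 2, .ofNat 2, .negSucc 17, .negSucc
  18, .negSucc 19, .ofNat 1, .ofNat 7, .ofNat 9, .negSucc 17, .negSucc 20, .negSucc 24, .negSucc 19,
  .negSucc 24, .negSucc 29, .ofNat 535],
   [.negSucc 18, .negSucc 18, .ofNat 2, .negSucc 3, .negSucc 19, .ofNat 5, .ofNat 1, .negSucc 0, .ofNat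
  14, .negSucc 16, .negSucc 21, .ofNat 2, .negSucc 1, .ofNat 7, .ofNat 13, .negSucc 14, .ofNat 3,
  .ofNat 8, .negSucc 15, .negSucc 19, .ofNat 537],
   [.negSucc 18, .negSucc 40, .negSucc 20, .ofNat 0, .negSucc 46, .negSucc 25, .negSucc 0, .ofNat 9,
  .negSucc 25, .ofNat 12, .negSucc 43, .negSucc 30, .negSucc 12, .ofNat 5, .negSucc 36, .negSucc 4,
  .ofNat 13, .negSucc 29, .ofNat 14, .negSucc 18, .negSucc 21, .ofNat 528],
   [.negSucc 18, .negSucc 34, .negSucc 41, .negSucc 21, .negSucc 41, .negSucc 51, .negSucc 29, .negSucc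
  23, .negSucc 2, .negSucc 1, .negSucc 42, .negSucc 49, .negSucc 41, .negSucc 34, .negSucc 25,
  .negSucc 26, .negSucc 26, .negSucc 11, .negSucc 6, .negSucc 22, .negSucc 23, .negSucc 40, .ofNat
  519],
   [.ofNat 4, .negSucc 17, .negSucc 18, .ofNat 15, .negSucc 36, .negSucc 53, .negSucc 24, .negSucc 22,
  .negSucc 48, .negSucc 49, .negSucc 47, .negSucc 60, .negSucc 36, .negSucc 34, .negSucc 86, .negSucc
  85, .ofNat 7, .negSucc 54, .negSucc 54, .negSucc 11, .negSucc 22, .negSucc 45, .negSucc 27, .ofNat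
  497],
   [.negSucc 2, .negSucc 18, .negSucc 53, .negSucc 20, .negSucc 51, .negSucc 24, .negSucc 58, .negSucc
  3, .negSucc 31, .negSucc 45, .negSucc 54, .negSucc 26, .negSucc 66, .ofNat 0, .negSucc 54, .negSucc
  81, .negSucc 22, .ofNat 6, .negSucc 38, .negSucc 0, .negSucc 25, .negSucc 75, .negSucc 64, .negSucc
  91, .ofNat 488],
   [.ofNat 3, .ofNat 16, .negSucc 17, .negSucc 18, .negSucc 17, .negSucc 49, .negSucc 43, .ofNat 7,
  .negSucc 5, .negSucc 22, .negSucc 19, .negSucc 42, .negSucc 44, .ofNat 7, .negSucc 3, .negSucc 36,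
  .negSucc 21, .negSucc 35, .ofNat 2, .ofNat 0, .ofNat 15, .negSucc 28, .negSucc 43, .negSucc 55,
  .negSucc 72, .ofNat 516],
   [.ofNat 8, .ofNat 0, .ofNat 13, .negSucc 17, .negSucc 17, .negSucc 18, .ofNat 31, .negSucc 19,
  .negSucc 53, .negSucc 53, .negSucc 41, .negSucc 56, .negSucc 25, .negSucc 58, .negSucc 40, .negSucc
  36, .negSucc 28, .negSucc 75, .negSucc 76, .negSucc 20, .negSucc 21, .negSucc 34, .negSucc 18,
  .negSucc 85, .negSucc 117, .negSucc 95, .ofNat 475],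
   [.ofNat 4, .ofNat 15, .negSucc 17, .ofNat 12, .negSucc 17, .negSucc 68, .negSucc 21, .ofNat 12,
  .negSucc 27, .negSucc 46, .negSucc 44, .negSucc 22, .negSucc 62, .negSucc 28, .negSucc 93, .negSucc
  47, .ofNat 6, .negSucc 48, .negSucc 79, .negSucc 9, .negSucc 20, .negSucc 69, .negSucc 56, .negSucc
  65, .negSucc 105, .negSucc 96, .negSucc 142, .ofNat 448],
   [.ofNat 7, .negSucc 17, .ofNat 13, .ofNat 3, .ofNat 31, .negSucc 17, .negSucc 17, .ofNat 15, .ofNat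
  5, .negSucc 19, .negSucc 18, .negSucc 57, .negSucc 48, .negSucc 20, .negSucc 31, .negSucc 61, .ofNat
  6, .negSucc 0, .negSucc 35, .negSucc 2, .ofNat 9, .negSucc 24, .negSucc 37, .negSucc 30, .negSucc
  43, .negSucc 49, .negSucc 77, .negSucc 117, .ofNat 498],
   [.ofNat 19, .ofNat 1, .negSucc 7, .negSucc 2, .negSucc 13, .negSucc 14, .negSucc 6, .ofNat 17,
  .ofNat 16, .ofNat 19, .ofNat 19, .ofNat 18, .ofNat 18, .negSucc 4, .negSucc 4, .negSucc 3, .ofNat 4,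
  .negSucc 0, .ofNat 1, .ofNat 20, .negSucc 11, .negSucc 6, .ofNat 2, .ofNat 24, .ofNat 27, .ofNat 27,
  .ofNat 45, .ofNat 54, .ofNat 50, .ofNat 528],
   [.ofNat 4, .ofNat 8, .ofNat 16, .negSucc 17, .ofNat 4, .ofNat 19, .negSucc 15, .ofNat 18, .negSucc
  15, .negSucc 18, .negSucc 17, .negSucc 16, .ofNat 15, .negSucc 16, .negSucc 53, .negSucc 45,
  .negSucc 20, .negSucc 48, .negSucc 48, .negSucc 8, .negSucc 19, .negSucc 24, .negSucc 9, .negSucc
  55, .negSucc 87, .negSucc 71, .negSucc 103, .negSucc 160, .negSucc 140, .ofNat 34, .ofNat 450],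
   [.ofNat 2, .ofNat 15, .negSucc 17, .ofNat 8, .ofNat 6, .negSucc 17, .ofNat 13, .negSucc 19, .ofNat
  29, .negSucc 18, .negSucc 18, .negSucc 47, .negSucc 23, .ofNat 9, .negSucc 28, .negSucc 65, .ofNat
  0, .negSucc 31, .negSucc 56, .negSucc 0, .negSucc 21, .negSucc 44, .negSucc 38, .negSucc 34,
  .negSucc 66, .negSucc 81, .negSucc 74, .negSucc 134, .negSucc 139, .ofNat 33, .negSucc 187, .ofNat
  424],
   [.ofNat 2, .negSucc 17, .ofNat 2, .negSucc 5, .negSucc 18, .ofNat 19, .ofNat 6, .negSucc 18,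
  .negSucc 18, .ofNat 13, .ofNat 13, .negSucc 20, .negSucc 20, .ofNat 2, .ofNat 14, .negSucc 19,
  .negSucc 5, .ofNat 5, .negSucc 21, .ofNat 0, .negSucc 0, .negSucc 20, .negSucc 25, .negSucc 5,
  .negSucc 4, .negSucc 25, .negSucc 7, .negSucc 3, .negSucc 32, .ofNat 7, .negSucc 45, .negSucc 73,
  .ofNat 526],
   [.ofNat 19, .negSucc 11, .negSucc 15, .negSucc 17, .ofNat 19, .ofNat 18, .ofNat 18, .ofNat 41,
  .ofNat 49, .ofNat 44, .negSucc 11, .negSucc 2, .negSucc 18, .ofNat 24, .ofNat 29, .ofNat 36, .ofNat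
  1, .ofNat 6, .ofNat 16, .ofNat 29, .negSucc 6, .ofNat 0, .negSucc 1, .ofNat 48, .ofNat 45, .ofNat
  37, .ofNat 110, .ofNat 141, .ofNat 108, .negSucc 62, .ofNat 170, .ofNat 230, .ofNat 81, .ofNat 370],
   [.ofNat 19, .ofNat 19, .ofNat 20, .ofNat 21, .negSucc 10, .negSucc 5, .negSucc 8, .ofNat 35, .ofNat
  44, .ofNat 43, .negSucc 1, .ofNat 6, .negSucc 2, .ofNat 41, .ofNat 58, .ofNat 56, .ofNat 22, .ofNat
  35, .ofNat 44, .ofNat 35, .ofNat 3, .negSucc 0, .ofNat 6, .ofNat 25, .ofNat 21, .ofNat 13, .ofNat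
  76, .ofNat 96, .ofNat 76, .negSucc 49, .ofNat 137, .ofNat 187, .ofNat 71, .negSucc 347, .ofNat 259]]

theorem chk : certChk 10 314 500 chi mu nu tab cols = true := by decide +kernel

end Pool.Agent.J6H81.Cube.C10
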