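import Pool.Agent.J6H81.Cube.Rel

/-! Certificate for class 2 (support for MP_416390_gt). -/

namespace Pool.Agent.J6H81.Cube.C2

open Pool.Agent.J6H81.Cube

/-- Signs of the class. -/
def chi : List ℤ :=
  [.ofNat 1, .ofNat 1, .ofNat 1, .ofNat 1, .ofNat 1, .ofNat 1, .ofNat 1, .ofNat 1, .ofNat 1, .ofNat 1,
  .ofNat 1, .ofNat 1, .ofNat 1, .ofNat 1, .ofNat 1, .ofNat 1, .ofNat 1, .ofNat 1, .negSucc 0, .negSucc
  0, .ofNat 1, .ofNat 1, .ofNat 1, .ofNat 1, .ofNat 1, .ofNat 1, .ofNat 1, .ofNat 1, .negSucc 0,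
  .negSucc 0, .ofNat 1, .ofNat 1, .ofNat 1, .ofNat 1, .ofNat 1]

/-- Multipliers of the relations. -/
def mu : List ℤ :=
  [.negSucc 26, .negSucc 30, .negSucc 20, .negSucc 22, .negSucc 18, .negSucc 14, .negSucc 20, .negSucc
  20, .negSucc 20, .negSucc 17, .negSucc 41, .negSucc 39, .negSucc 34, .negSucc 25, .negSucc 12,
  .ofNat 18, .ofNat 21, .ofNat 15, .ofNat 21, .ofNat 19, .ofNat 21, .ofNat 21, .ofNat 23, .ofNat 31,
  .ofNat 27, .negSucc 12, .negSucc 25, .negSucc 34, .negSucc 39, .negSucc 41, .negSucc 17, .negSucc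
  14, .negSucc 20, .ofNat 26, .ofNat 13, .negSucc 34, .negSucc 22, .negSucc 20, .ofNat 31, .ofNat 42,
  .negSucc 18, .negSucc 20, .ofNat 21, .ofNat 40, .negSucc 26, .ofNat 27, .ofNat 21, .ofNat 31, .ofNat
  40, .ofNat 42, .negSucc 34, .ofNat 21, .ofNat 21, .negSucc 20, .ofNat 13, .ofNat 19, .ofNat 23,
  .negSucc 14, .ofNat 26, .ofNat 18, .negSucc 48, .negSucc 34, .negSucc 15, .negSucc 31, .negSucc 34,
  .negSucc 48, .ofNat 35, .ofNat 32, .negSucc 34, .negSucc 15, .ofNat 16, .ofNat 35, .negSucc 31,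
  .negSucc 34, .negSucc 48, .negSucc 34, .ofNat 42, .ofNat 31, .ofNat 40, .ofNat 21, .ofNat 27,
  .negSucc 25, .ofNat 15, .negSucc 22, .negSucc 18, .negSucc 12, .ofNat 21, .negSucc 20, .negSucc 20,
  .ofNat 18, .negSucc 34, .ofNat 13, .negSucc 20, .ofNat 26, .negSucc 14, .negSucc 17, .negSucc 39,
  .negSucc 20, .ofNat 21, .ofNat 19, .negSucc 41, .negSucc 30, .ofNat 21, .ofNat 23, .negSucc 26]

/-- Multipliers of the norm conditions. -/
def nu : List ℤ :=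
  [.ofNat 0, .ofNat 0, .ofNat 0, .ofNat 0, .ofNat 0, .ofNat 0, .ofNat 0]

/-- The table. -/
def tab : List (List ℤ) :=
  [[.ofNat 608, .negSucc 19, .negSucc 19, .negSucc 19, .negSucc 19, .negSucc 19, .negSucc 19, .ofNat 7,
  .negSucc 1, .negSucc 1, .negSucc 19, .negSucc 19, .negSucc 19, .ofNat 11, .ofNat 1, .negSucc 4,
  .ofNat 3, .ofNat 1, .negSucc 5, .ofNat 20, .negSucc 19, .negSucc 19, .negSucc 19, .ofNat 1, .negSucc
  4, .ofNat 1, .negSucc 0, .negSucc 0, .ofNat 7, .ofNat 20, .negSucc 4, .ofNat 1, .ofNat 15, .negSucc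
  19, .negSucc 19],
   [.negSucc 19, .ofNat 608, .negSucc 19, .negSucc 19, .negSucc 19, .negSucc 46, .negSucc 37, .negSucc
  19, .negSucc 19, .ofNat 7, .negSucc 19, .negSucc 50, .negSucc 40, .negSucc 19, .negSucc 19, .ofNat
  1, .ofNat 1, .ofNat 1, .ofNat 20, .negSucc 19, .negSucc 19, .negSucc 40, .negSucc 34, .negSucc 19,
  .negSucc 19, .ofNat 11, .ofNat 1, .ofNat 3, .ofNat 20, .negSucc 21, .ofNat 1, .ofNat 11, .negSucc
  19, .ofNat 15, .negSucc 19],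
   [.negSucc 19, .negSucc 19, .ofNat 608, .negSucc 19, .ofNat 7, .negSucc 19, .negSucc 37, .negSucc 19,
  .negSucc 46, .negSucc 19, .ofNat 11, .negSucc 19, .negSucc 34, .negSucc 19, .negSucc 40, .negSucc
  19, .ofNat 22, .negSucc 19, .negSucc 2, .negSucc 0, .ofNat 1, .negSucc 19, .negSucc 40, .negSucc 19,
  .negSucc 50, .negSucc 19, .ofNat 20, .negSucc 19, .negSucc 0, .negSucc 0, .ofNat 15, .negSucc 19,
  .ofNat 11, .ofNat 1, .negSucc 19],
   [.negSucc 19, .negSucc 19, .negSucc 19, .ofNat 608, .negSucc 1, .negSucc 1, .negSucc 19, .ofNat 7,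
  .negSucc 19, .negSucc 19, .ofNat 1, .negSucc 4, .negSucc 19, .ofNat 1, .negSucc 19, .negSucc 19,
  .negSucc 19, .negSucc 6, .ofNat 1, .ofNat 1, .negSucc 4, .ofNat 1, .negSucc 19, .ofNat 11, .negSucc
  19, .negSucc 19, .negSucc 19, .ofNat 6, .negSucc 0, .negSucc 2, .negSucc 19, .ofNat 15, .ofNat 1,
  .negSucc 4, .negSucc 19],
   [.negSucc 19, .negSucc 19, .ofNat 7, .negSucc 1, .ofNat 608, .negSucc 19, .negSucc 19, .negSucc 19,
  .negSucc 19, .ofNat 29, .negSucc 19, .negSucc 42, .negSucc 40, .negSucc 40, .negSucc 40, .negSucc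
  19, .negSucc 19, .negSucc 19, .negSucc 14, .negSucc 11, .negSucc 19, .negSucc 38, .negSucc 38,
  .negSucc 40, .negSucc 42, .negSucc 19, .negSucc 19, .negSucc 19, .ofNat 4, .negSucc 14, .negSucc 1,
  .ofNat 7, .negSucc 19, .negSucc 19, .ofNat 29],
   [.negSucc 19, .negSucc 46, .negSucc 19, .negSucc 1, .negSucc 19, .ofNat 608, .negSucc 19, .negSucc
  19, .negSucc 68, .negSucc 19, .ofNat 3, .negSucc 19, .ofNat 6, .negSucc 61, .negSucc 19, .ofNat 3,
  .negSucc 19, .ofNat 15, .ofNat 20, .ofNat 55, .negSucc 0, .negSucc 19, .negSucc 6, .negSucc 59,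
  .negSucc 19, .ofNat 1, .negSucc 19, .negSucc 3, .ofNat 20, .ofNat 52, .ofNat 6, .negSucc 19, .ofNat
  22, .negSucc 19, .ofNat 15],
   [.negSucc 19, .negSucc 37, .negSucc 37, .negSucc 19, .negSucc 19, .negSucc 19, .ofNat 608, .ofNat
  29, .negSucc 19, .negSucc 19, .ofNat 1, .negSucc 45, .negSucc 19, .negSucc 19, .negSucc 32, .negSucc
  0, .negSucc 54, .negSucc 19, .ofNat 20, .ofNat 36, .negSucc 0, .negSucc 32, .negSucc 19, .negSucc
  19, .negSucc 45, .ofNat 1, .negSucc 35, .negSucc 19, .ofNat 20, .ofNat 55, .negSucc 19, .ofNat 20,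
  .ofNat 20, .negSucc 19, .ofNat 12],
   [.ofNat 7, .negSucc 19, .negSucc 19, .ofNat 7, .negSucc 19, .negSucc 19, .ofNat 29, .ofNat 608,
  .negSucc 19, .negSucc 19, .ofNat 1, .ofNat 22, .negSucc 19, .negSucc 19, .ofNat 20, .ofNat 1,
  .negSucc 19, .ofNat 12, .negSucc 14, .ofNat 20, .ofNat 1, .ofNat 20, .negSucc 19, .negSucc 19,
  .ofNat 22, .ofNat 1, .negSucc 19, .ofNat 15, .negSucc 11, .ofNat 20, .negSucc 6, .negSucc 19,
  .negSucc 19, .negSucc 6, .negSucc 3],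
   [.negSucc 1, .negSucc 19, .negSucc 46, .negSucc 19, .negSucc 19, .negSucc 68, .negSucc 19, .negSucc
  19, .ofNat 608, .negSucc 19, .ofNat 1, .negSucc 19, .negSucc 6, .negSucc 59, .negSucc 19, .negSucc
  0, .negSucc 51, .negSucc 19, .ofNat 4, .ofNat 20, .ofNat 3, .negSucc 19, .ofNat 6, .negSucc 61,
  .negSucc 19, .ofNat 3, .negSucc 54, .negSucc 19, .negSucc 14, .ofNat 20, .negSucc 19, .ofNat 22,
  .negSucc 19, .ofNat 6, .ofNat 15],
   [.negSucc 1, .ofNat 7, .negSucc 19, .negSucc 19, .ofNat 29, .negSucc 19, .negSucc 19, .negSucc 19,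
  .negSucc 19, .ofNat 608, .negSucc 19, .negSucc 42, .negSucc 38, .negSucc 40, .negSucc 38, .negSucc
  19, .ofNat 15, .negSucc 3, .ofNat 20, .ofNat 20, .negSucc 19, .negSucc 40, .negSucc 40, .negSucc 40,
  .negSucc 42, .negSucc 19, .ofNat 12, .ofNat 15, .ofNat 20, .ofNat 20, .negSucc 19, .negSucc 19,
  .ofNat 7, .negSucc 1, .ofNat 29],
   [.negSucc 19, .negSucc 19, .ofNat 11, .ofNat 1, .negSucc 19, .ofNat 3, .ofNat 1, .ofNat 1, .ofNat 1,
  .negSucc 19, .ofNat 608, .negSucc 19, .negSucc 19, .negSucc 19, .negSucc 19, .ofNat 15, .negSucc 19,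
  .negSucc 19, .negSucc 21, .negSucc 19, .negSucc 19, .negSucc 34, .negSucc 40, .negSucc 40, .negSucc
  50, .negSucc 19, .negSucc 37, .negSucc 46, .ofNat 20, .ofNat 20, .negSucc 19, .negSucc 19, .ofNat
  11, .ofNat 1, .ofNat 7],
   [.negSucc 19, .negSucc 50, .negSucc 19, .negSucc 4, .negSucc 42, .negSucc 19, .negSucc 45, .ofNat
  22, .negSucc 19, .negSucc 42, .negSucc 19, .ofNat 608, .negSucc 19, .negSucc 19, .negSucc 54,
  .negSucc 19, .negSucc 19, .ofNat 22, .ofNat 20, .ofNat 46, .negSucc 4, .negSucc 19, .negSucc 54,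
  .negSucc 54, .negSucc 19, .negSucc 50, .negSucc 45, .negSucc 19, .negSucc 21, .ofNat 20, .negSucc
  19, .negSucc 50, .negSucc 19, .negSucc 4, .negSucc 42],
   [.negSucc 19, .negSucc 40, .negSucc 34, .negSucc 19, .negSucc 40, .ofNat 6, .negSucc 19, .negSucc
  19, .negSucc 6, .negSucc 38, .negSucc 19, .negSucc 19, .ofNat 608, .ofNat 15, .negSucc 19, .negSucc
  19, .negSucc 61, .negSucc 19, .ofNat 20, .ofNat 33, .ofNat 1, .ofNat 15, .negSucc 19, .negSucc 19,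
  .negSucc 54, .negSucc 40, .negSucc 19, .negSucc 59, .negSucc 19, .ofNat 20, .ofNat 11, .negSucc 19,
  .negSucc 19, .ofNat 1, .negSucc 40],
   [.ofNat 11, .negSucc 19, .negSucc 19, .ofNat 1, .negSucc 40, .negSucc 61, .negSucc 19, .negSucc 19,
  .negSucc 59, .negSucc 40, .negSucc 19, .negSucc 19, .ofNat 15, .ofNat 608, .negSucc 19, .negSucc 19,
  .negSucc 19, .ofNat 20, .negSucc 5, .ofNat 20, .ofNat 1, .ofNat 15, .negSucc 19, .negSucc 19,
  .negSucc 54, .negSucc 40, .negSucc 32, .negSucc 19, .ofNat 20, .ofNat 7, .negSucc 19, .negSucc 40,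
  .negSucc 34, .negSucc 19, .negSucc 38],
   [.ofNat 1, .negSucc 19, .negSucc 40, .negSucc 19, .negSucc 40, .negSucc 19, .negSucc 32, .ofNat 20,
  .negSucc 19, .negSucc 38, .negSucc 19, .negSucc 54, .negSucc 19, .negSucc 19, .ofNat 608, .negSucc
  19, .negSucc 59, .negSucc 19, .ofNat 7, .ofNat 20, .ofNat 11, .negSucc 19, .ofNat 15, .ofNat 15,
  .negSucc 19, .negSucc 34, .negSucc 19, .negSucc 61, .ofNat 20, .negSucc 5, .ofNat 1, .negSucc 19,
  .negSucc 40, .negSucc 19, .negSucc 40],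
   [.negSucc 4, .ofNat 1, .negSucc 19, .negSucc 19, .negSucc 19, .ofNat 3, .negSucc 0, .ofNat 1,
  .negSucc 0, .negSucc 19, .ofNat 15, .negSucc 19, .negSucc 19, .negSucc 19, .negSucc 19, .ofNat 608,
  .ofNat 6, .negSucc 6, .ofNat 20, .ofNat 20, .negSucc 19, .ofNat 11, .ofNat 1, .ofNat 1, .negSucc 4,
  .negSucc 19, .negSucc 19, .negSucc 19, .negSucc 6, .ofNat 2, .negSucc 4, .ofNat 1, .negSucc 19,
  .negSucc 19, .negSucc 1],
   [.ofNat 3, .ofNat 1, .ofNat 22, .negSucc 19, .negSucc 19, .negSucc 19, .negSucc 54, .negSucc 19,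
  .negSucc 51, .ofNat 15, .negSucc 19, .negSucc 19, .negSucc 61, .negSucc 19, .negSucc 59, .ofNat 6,
  .ofNat 608, .negSucc 19, .ofNat 20, .ofNat 20, .negSucc 1, .ofNat 6, .negSucc 19, .negSucc 6,
  .negSucc 19, .negSucc 19, .negSucc 19, .negSucc 68, .negSucc 14, .ofNat 4, .negSucc 19, .negSucc 46,
  .ofNat 3, .negSucc 0, .negSucc 19],
   [.ofNat 1, .ofNat 1, .negSucc 19, .negSucc 6, .negSucc 19, .ofNat 15, .negSucc 19, .ofNat 12,
  .negSucc 19, .negSucc 3, .negSucc 19, .ofNat 22, .negSucc 19, .ofNat 20, .negSucc 19, .negSucc 6,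
  .negSucc 19, .ofNat 608, .ofNat 20, .ofNat 20, .ofNat 7, .negSucc 19, .ofNat 20, .negSucc 19, .ofNat
  22, .negSucc 19, .ofNat 29, .negSucc 19, .negSucc 11, .negSucc 14, .ofNat 7, .negSucc 19, .ofNat 1,
  .ofNat 1, .negSucc 19],
   [.negSucc 5, .ofNat 20, .negSucc 2, .ofNat 1, .negSucc 14, .ofNat 20, .ofNat 20, .negSucc 14, .ofNat
  4, .ofNat 20, .negSucc 21, .ofNat 20, .ofNat 20, .negSucc 5, .ofNat 7, .ofNat 20, .ofNat 20, .ofNat
  20, .ofNat 608, .negSucc 19, .ofNat 20, .ofNat 62, .ofNat 60, .ofNat 20, .ofNat 20, .ofNat 47,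
  .ofNat 55, .ofNat 52, .negSucc 19, .negSucc 68, .negSucc 2, .negSucc 0, .ofNat 20, .ofNat 2, .ofNat
  20],
   [.ofNat 20, .negSucc 19, .negSucc 0, .ofNat 1, .negSucc 11, .ofNat 55, .ofNat 36, .ofNat 20, .ofNat
  20, .ofNat 20, .negSucc 19, .ofNat 46, .ofNat 33, .ofNat 20, .ofNat 20, .ofNat 20, .ofNat 20, .ofNat
  20, .negSucc 19, .ofNat 608, .ofNat 20, .ofNat 20, .ofNat 20, .ofNat 33, .ofNat 46, .ofNat 38,
  .ofNat 36, .ofNat 55, .ofNat 29, .negSucc 19, .ofNat 1, .negSucc 0, .ofNat 38, .ofNat 20, .ofNat 20],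
   [.negSucc 19, .negSucc 19, .ofNat 1, .negSucc 4, .negSucc 19, .negSucc 0, .negSucc 0, .ofNat 1,
  .ofNat 3, .negSucc 19, .negSucc 19, .negSucc 4, .ofNat 1, .ofNat 1, .ofNat 11, .negSucc 19, .negSucc
  1, .ofNat 7, .ofNat 20, .ofNat 20, .ofNat 608, .negSucc 19, .negSucc 19, .negSucc 19, .negSucc 19,
  .ofNat 15, .negSucc 19, .negSucc 19, .ofNat 7, .negSucc 5, .negSucc 19, .negSucc 19, .ofNat 1,
  .negSucc 4, .negSucc 1],
   [.negSucc 19, .negSucc 40, .negSucc 19, .ofNat 1, .negSucc 38, .negSucc 19, .negSucc 32, .ofNat 20,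
  .negSucc 19, .negSucc 40, .negSucc 34, .negSucc 19, .ofNat 15, .ofNat 15, .negSucc 19, .ofNat 11,
  .ofNat 6, .negSucc 19, .ofNat 62, .ofNat 20, .negSucc 19, .ofNat 608, .negSucc 19, .negSucc 19,
  .negSucc 54, .negSucc 19, .negSucc 19, .negSucc 6, .ofNat 20, .ofNat 60, .negSucc 19, .negSucc 40,
  .negSucc 19, .ofNat 1, .negSucc 40],
   [.negSucc 19, .negSucc 34, .negSucc 40, .negSucc 19, .negSucc 38, .negSucc 6, .negSucc 19, .negSucc
  19, .ofNat 6, .negSucc 40, .negSucc 40, .negSucc 54, .negSucc 19, .negSucc 19, .ofNat 15, .ofNat 1,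
  .negSucc 19, .ofNat 20, .ofNat 60, .ofNat 20, .negSucc 19, .negSucc 19, .ofNat 608, .ofNat 15,
  .negSucc 19, .negSucc 19, .negSucc 32, .negSucc 19, .ofNat 20, .ofNat 62, .ofNat 1, .negSucc 19,
  .negSucc 19, .ofNat 11, .negSucc 40],
   [.ofNat 1, .negSucc 19, .negSucc 19, .ofNat 11, .negSucc 40, .negSucc 59, .negSucc 19, .negSucc 19,
  .negSucc 61, .negSucc 40, .negSucc 40, .negSucc 54, .negSucc 19, .negSucc 19, .ofNat 15, .ofNat 1,
  .negSucc 6, .negSucc 19, .ofNat 20, .ofNat 33, .negSucc 19, .negSucc 19, .ofNat 15, .ofNat 608,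
  .negSucc 19, .negSucc 19, .negSucc 19, .ofNat 6, .negSucc 19, .ofNat 20, .negSucc 19, .negSucc 34,
  .negSucc 40, .negSucc 19, .negSucc 38],
   [.negSucc 4, .negSucc 19, .negSucc 50, .negSucc 19, .negSucc 42, .negSucc 19, .negSucc 45, .ofNat
  22, .negSucc 19, .negSucc 42, .negSucc 50, .negSucc 19, .negSucc 54, .negSucc 54, .negSucc 19,
  .negSucc 4, .negSucc 19, .ofNat 22, .ofNat 20, .ofNat 46, .negSucc 19, .negSucc 54, .negSucc 19,
  .negSucc 19, .ofNat 608, .negSucc 19, .negSucc 45, .negSucc 19, .negSucc 21, .ofNat 20, .negSucc 4,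
  .negSucc 19, .negSucc 50, .negSucc 19, .negSucc 42],
   [.ofNat 1, .ofNat 11, .negSucc 19, .negSucc 19, .negSucc 19, .ofNat 1, .ofNat 1, .ofNat 1, .ofNat 3,
  .negSucc 19, .negSucc 19, .negSucc 50, .negSucc 40, .negSucc 40, .negSucc 34, .negSucc 19, .negSucc
  19, .negSucc 19, .ofNat 47, .ofNat 38, .ofNat 15, .negSucc 19, .negSucc 19, .negSucc 19, .negSucc
  19, .ofNat 608, .ofNat 20, .ofNat 22, .ofNat 20, .ofNat 20, .ofNat 1, .ofNat 11, .negSucc 19,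
  .negSucc 19, .ofNat 7],
   [.negSucc 0, .ofNat 1, .ofNat 20, .negSucc 19, .negSucc 19, .negSucc 19, .negSucc 35, .negSucc 19,
  .negSucc 54, .ofNat 12, .negSucc 37, .negSucc 45, .negSucc 19, .negSucc 32, .negSucc 19, .negSucc
  19, .negSucc 19, .ofNat 29, .ofNat 55, .ofNat 36, .negSucc 19, .negSucc 19, .negSucc 32, .negSucc
  19, .negSucc 45, .ofNat 20, .ofNat 608, .negSucc 19, .ofNat 20, .ofNat 20, .negSucc 19, .negSucc 37,
  .ofNat 1, .negSucc 0, .negSucc 19],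
   [.negSucc 0, .ofNat 3, .negSucc 19, .ofNat 6, .negSucc 19, .negSucc 3, .negSucc 19, .ofNat 15,
  .negSucc 19, .ofNat 15, .negSucc 46, .negSucc 19, .negSucc 59, .negSucc 19, .negSucc 61, .negSucc
  19, .negSucc 68, .negSucc 19, .ofNat 52, .ofNat 55, .negSucc 19, .negSucc 6, .negSucc 19, .ofNat 6,
  .negSucc 19, .ofNat 22, .negSucc 19, .ofNat 608, .ofNat 20, .ofNat 20, .negSucc 1, .negSucc 19,
  .ofNat 1, .ofNat 3, .negSucc 19],
   [.ofNat 7, .ofNat 20, .negSucc 0, .negSucc 0, .ofNat 4, .ofNat 20, .ofNat 20, .negSucc 11, .negSucc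
  14, .ofNat 20, .ofNat 20, .negSucc 21, .negSucc 19, .ofNat 20, .ofNat 20, .negSucc 6, .negSucc 14,
  .negSucc 11, .negSucc 19, .ofNat 29, .ofNat 7, .ofNat 20, .ofNat 20, .negSucc 19, .negSucc 21,
  .ofNat 20, .ofNat 20, .ofNat 20, .ofNat 608, .negSucc 19, .negSucc 0, .negSucc 0, .ofNat 20,
  .negSucc 6, .ofNat 20],
   [.ofNat 20, .negSucc 21, .negSucc 0, .negSucc 2, .negSucc 14, .ofNat 52, .ofNat 55, .ofNat 20,
  .ofNat 20, .ofNat 20, .ofNat 20, .ofNat 20, .ofNat 20, .ofNat 7, .negSucc 5, .ofNat 2, .ofNat 4,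
  .negSucc 14, .negSucc 68, .negSucc 19, .negSucc 5, .ofNat 60, .ofNat 62, .ofNat 20, .ofNat 20,
  .ofNat 20, .ofNat 20, .ofNat 20, .negSucc 19, .ofNat 608, .ofNat 1, .negSucc 2, .ofNat 47, .ofNat
  20, .ofNat 20],
   [.negSucc 4, .ofNat 1, .ofNat 15, .negSucc 19, .negSucc 1, .ofNat 6, .negSucc 19, .negSucc 6,
  .negSucc 19, .negSucc 19, .negSucc 19, .negSucc 19, .ofNat 11, .negSucc 19, .ofNat 1, .negSucc 4,
  .negSucc 19, .ofNat 7, .negSucc 2, .ofNat 1, .negSucc 19, .negSucc 19, .ofNat 1, .negSucc 19,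
  .negSucc 4, .ofNat 1, .negSucc 19, .negSucc 1, .negSucc 0, .ofNat 1, .ofNat 608, .negSucc 19,
  .negSucc 19, .negSucc 19, .negSucc 19],
   [.ofNat 1, .ofNat 11, .negSucc 19, .ofNat 15, .ofNat 7, .negSucc 19, .ofNat 20, .negSucc 19, .ofNat
  22, .negSucc 19, .negSucc 19, .negSucc 50, .negSucc 19, .negSucc 40, .negSucc 19, .ofNat 1, .negSucc
  46, .negSucc 19, .negSucc 0, .negSucc 0, .negSucc 19, .negSucc 40, .negSucc 19, .negSucc 34,
  .negSucc 19, .ofNat 11, .negSucc 37, .negSucc 19, .negSucc 0, .negSucc 2, .negSucc 19, .ofNat 608,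
  .negSucc 19, .negSucc 19, .negSucc 19],
   [.ofNat 15, .negSucc 19, .ofNat 11, .ofNat 1, .negSucc 19, .ofNat 22, .ofNat 20, .negSucc 19,
  .negSucc 19, .ofNat 7, .ofNat 11, .negSucc 19, .negSucc 19, .negSucc 34, .negSucc 40, .negSucc 19,
  .ofNat 3, .ofNat 1, .ofNat 20, .ofNat 38, .ofNat 1, .negSucc 19, .negSucc 19, .negSucc 40, .negSucc
  50, .negSucc 19, .ofNat 1, .ofNat 1, .ofNat 20, .ofNat 47, .negSucc 19, .negSucc 19, .ofNat 608,
  .negSucc 19, .negSucc 19],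
   [.negSucc 19, .ofNat 15, .ofNat 1, .negSucc 4, .negSucc 19, .negSucc 19, .negSucc 19, .negSucc 6,
  .ofNat 6, .negSucc 1, .ofNat 1, .negSucc 4, .ofNat 1, .negSucc 19, .negSucc 19, .negSucc 19,
  .negSucc 0, .ofNat 1, .ofNat 2, .ofNat 20, .negSucc 4, .ofNat 1, .ofNat 11, .negSucc 19, .negSucc
  19, .negSucc 19, .negSucc 0, .ofNat 3, .negSucc 6, .ofNat 20, .negSucc 19, .negSucc 19, .negSucc 19,
  .ofNat 608, .negSucc 19],
   [.negSucc 19, .negSucc 19, .negSucc 19, .negSucc 19, .ofNat 29, .ofNat 15, .ofNat 12, .negSucc 3,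
  .ofNat 15, .ofNat 29, .ofNat 7, .negSucc 42, .negSucc 40, .negSucc 38, .negSucc 40, .negSucc 1,
  .negSucc 19, .negSucc 19, .ofNat 20, .ofNat 20, .negSucc 1, .negSucc 40, .negSucc 40, .negSucc 38,
  .negSucc 42, .ofNat 7, .negSucc 19, .negSucc 19, .ofNat 20, .ofNat 20, .negSucc 19, .negSucc 19,
  .negSucc 19, .negSucc 19, .ofNat 608]]

/-- The Cholesky columns. -/
def cols : List (List ℤ) :=
  [[.ofNat 546],
   [.negSucc 17, .ofNat 545],
   [.negSucc 17, .negSucc 18, .ofNat 545],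
   [.negSucc 17, .negSucc 18, .negSucc 19, .ofNat 545],
   [.negSucc 17, .negSucc 18, .ofNat 5, .negSucc 2, .ofNat 545],
   [.negSucc 17, .negSucc 43, .negSucc 19, .negSucc 4, .negSucc 19, .ofNat 543],
   [.negSucc 17, .negSucc 34, .negSucc 36, .negSucc 21, .negSucc 19, .negSucc 23, .ofNat 541],
   [.ofNat 6, .negSucc 17, .negSucc 18, .ofNat 5, .negSucc 18, .negSucc 20, .ofNat 23, .ofNat 544],
   [.negSucc 1, .negSucc 17, .negSucc 43, .negSucc 20, .negSucc 18, .negSucc 67, .negSucc 26, .negSucc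
  21, .ofNat 537],
   [.negSucc 1, .ofNat 6, .negSucc 17, .negSucc 18, .ofNat 27, .negSucc 17, .negSucc 19, .negSucc 17,
  .negSucc 23, .ofNat 543],
   [.negSucc 17, .negSucc 18, .ofNat 9, .ofNat 0, .negSucc 19, .ofNat 0, .negSucc 0, .ofNat 0, .ofNat
  0, .negSucc 16, .ofNat 544],
   [.negSucc 17, .negSucc 46, .negSucc 20, .negSucc 7, .negSucc 41, .negSucc 24, .negSucc 50, .ofNat
  18, .negSucc 28, .negSucc 40, .negSucc 22, .ofNat 535],
   [.negSucc 17, .negSucc 37, .negSucc 33, .negSucc 21, .negSucc 38, .negSucc 0, .negSucc 25, .negSucc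
  20, .negSucc 14, .negSucc 37, .negSucc 21, .negSucc 33, .ofNat 537],
   [.ofNat 10, .negSucc 17, .negSucc 18, .ofNat 0, .negSucc 37, .negSucc 59, .negSucc 24, .negSucc 21,
  .negSucc 68, .negSucc 42, .negSucc 20, .negSucc 35, .negSucc 0, .ofNat 531],
   [.ofNat 1, .negSucc 17, .negSucc 37, .negSucc 19, .negSucc 37, .negSucc 22, .negSucc 36, .ofNat 16,
  .negSucc 28, .negSucc 38, .negSucc 20, .negSucc 67, .negSucc 35, .negSucc 39, .ofNat 531],
   [.negSucc 4, .ofNat 1, .negSucc 17, .negSucc 18, .negSucc 17, .ofNat 1, .negSucc 3, .ofNat 0,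
  .negSucc 3, .negSucc 18, .ofNat 13, .negSucc 22, .negSucc 24, .negSucc 23, .negSucc 29, .ofNat 542],
   [.ofNat 3, .ofNat 1, .ofNat 20, .negSucc 17, .negSucc 18, .negSucc 17, .negSucc 50, .negSucc 16,
  .negSucc 53, .ofNat 9, .negSucc 18, .negSucc 27, .negSucc 64, .negSucc 33, .negSucc 73, .negSucc 4,
  .ofNat 528],
   [.ofNat 1, .ofNat 1, .negSucc 17, .negSucc 6, .negSucc 17, .ofNat 12, .negSucc 19, .ofNat 11,
  .negSucc 19, .negSucc 3, .negSucc 18, .ofNat 15, .negSucc 22, .ofNat 15, .negSucc 23, .negSucc 8,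
  .negSucc 26, .ofNat 541],
   [.negSucc 4, .ofNat 18, .negSucc 1, .ofNat 1, .negSucc 12, .ofNat 19, .ofNat 20, .negSucc 13, .ofNat
  7, .ofNat 20, .negSucc 19, .ofNat 23, .ofNat 21, .ofNat 0, .ofNat 14, .ofNat 22, .ofNat 26, .ofNat
  21, .ofNat 541],
   [.ofNat 18, .negSucc 17, .negSucc 0, .ofNat 1, .negSucc 10, .ofNat 49, .ofNat 34, .ofNat 18, .ofNat
  26, .ofNat 24, .negSucc 17, .ofNat 49, .ofNat 36, .ofNat 33, .ofNat 35, .ofNat 27, .ofNat 40, .ofNat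
  22, .negSucc 30, .ofNat 531],
   [.negSucc 17, .negSucc 18, .ofNat 0, .negSucc 5, .negSucc 19, .negSucc 3, .negSucc 3, .ofNat 0,
  .ofNat 0, .negSucc 17, .negSucc 20, .negSucc 10, .negSucc 5, .negSucc 3, .ofNat 3, .negSucc 19,
  .negSucc 4, .ofNat 5, .ofNat 20, .ofNat 23, .ofNat 542],
   [.negSucc 17, .negSucc 37, .negSucc 19, .negSucc 1, .negSucc 37, .negSucc 23, .negSucc 37, .ofNat
  16, .negSucc 26, .negSucc 38, .negSucc 35, .negSucc 37, .negSucc 1, .negSucc 4, .negSucc 39, .ofNat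
  3, .negSucc 9, .negSucc 24, .ofNat 65, .ofNat 35, .negSucc 28, .ofNat 527],
   [.negSucc 17, .negSucc 32, .negSucc 38, .negSucc 21, .negSucc 36, .negSucc 12, .negSucc 26, .negSucc
  20, .negSucc 4, .negSucc 39, .negSucc 40, .negSucc 66, .negSucc 38, .negSucc 36, .negSucc 13,
  .negSucc 9, .negSucc 36, .ofNat 12, .ofNat 63, .ofNat 40, .negSucc 31, .negSucc 52, .ofNat 519],
   [.ofNat 1, .negSucc 17, .negSucc 18, .ofNat 9, .negSucc 37, .negSucc 58, .negSucc 24, .negSucc 21,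
  .negSucc 69, .negSucc 42, .negSucc 40, .negSucc 69, .negSucc 36, .negSucc 50, .negSucc 17, .negSucc
  9, .negSucc 33, .negSucc 24, .ofNat 29, .ofNat 60, .negSucc 29, .negSucc 54, .negSucc 34, .ofNat
  512],
   [.negSucc 4, .negSucc 17, .negSucc 47, .negSucc 20, .negSucc 39, .negSucc 23, .negSucc 49, .ofNat
  18, .negSucc 29, .negSucc 42, .negSucc 49, .negSucc 38, .negSucc 69, .negSucc 72, .negSucc 53,
  .negSucc 19, .negSucc 50, .ofNat 7, .ofNat 30, .ofNat 72, .negSucc 31, .negSucc 89, .negSucc 79,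
  .negSucc 90, .ofNat 487],
   [.ofNat 1, .ofNat 10, .negSucc 17, .negSucc 18, .negSucc 17, .ofNat 0, .negSucc 0, .ofNat 0, .ofNat
  0, .negSucc 18, .negSucc 18, .negSucc 50, .negSucc 45, .negSucc 45, .negSucc 50, .negSucc 29,
  .negSucc 38, .negSucc 24, .ofNat 52, .ofNat 59, .ofNat 5, .negSucc 42, .negSucc 56, .negSucc 62,
  .negSucc 96, .ofNat 509],
   [.negSucc 0, .ofNat 1, .ofNat 18, .negSucc 17, .negSucc 18, .negSucc 18, .negSucc 33, .negSucc 16,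
  .negSucc 55, .ofNat 7, .negSucc 35, .negSucc 50, .negSucc 27, .negSucc 47, .negSucc 37, .negSucc 25,
  .negSucc 46, .ofNat 20, .ofNat 58, .ofNat 59, .negSucc 28, .negSucc 46, .negSucc 73, .negSucc 73,
  .negSucc 132, .negSucc 60, .ofNat 488],
   [.negSucc 0, .ofNat 3, .negSucc 17, .ofNat 5, .negSucc 17, .negSucc 4, .negSucc 19, .ofNat 13,
  .negSucc 21, .ofNat 13, .negSucc 42, .negSucc 24, .negSucc 61, .negSucc 26, .negSucc 73, .negSucc
  26, .negSucc 91, .negSucc 31, .ofNat 59, .ofNat 78, .negSucc 27, .negSucc 38, .negSucc 61, .negSucc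
  45, .negSucc 106, .negSucc 59, .negSucc 125, .ofNat 473],
   [.ofNat 6, .ofNat 19, .ofNat 0, .ofNat 0, .ofNat 5, .ofNat 20, .ofNat 21, .negSucc 9, .negSucc 9,
  .ofNat 19, .ofNat 20, .negSucc 12, .negSucc 14, .ofNat 23, .ofNat 23, .negSucc 4, .negSucc 9,
  .negSucc 9, .negSucc 18, .ofNat 25, .ofNat 8, .ofNat 27, .ofNat 27, .negSucc 11, .negSucc 7, .ofNat
  22, .ofNat 29, .ofNat 35, .ofNat 537],
   [.ofNat 18, .negSucc 19, .negSucc 0, .negSucc 2, .negSucc 13, .ofNat 46, .ofNat 52, .ofNat 17,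
  .ofNat 26, .ofNat 24, .ofNat 19, .ofNat 27, .ofNat 25, .ofNat 21, .ofNat 8, .ofNat 6, .ofNat 20,
  .negSucc 10, .negSucc 69, .negSucc 41, .ofNat 2, .ofNat 79, .ofNat 95, .ofNat 66, .ofNat 97, .ofNat
  86, .ofNat 122, .ofNat 143, .negSucc 47, .ofNat 455],
   [.negSucc 4, .ofNat 1, .ofNat 14, .negSucc 17, .negSucc 1, .ofNat 6, .negSucc 17, .negSucc 4,
  .negSucc 18, .negSucc 19, .negSucc 18, .negSucc 22, .ofNat 5, .negSucc 24, .negSucc 7, .negSucc 7,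
  .negSucc 26, .ofNat 4, .ofNat 0, .ofNat 9, .negSucc 21, .negSucc 27, .negSucc 14, .negSucc 38,
  .negSucc 37, .negSucc 24, .negSucc 61, .negSucc 51, .ofNat 9, .ofNat 71, .ofNat 526],
   [.ofNat 1, .ofNat 10, .negSucc 17, .ofNat 14, .ofNat 7, .negSucc 17, .ofNat 18, .negSucc 19, .ofNat
  18, .negSucc 18, .negSucc 17, .negSucc 45, .negSucc 21, .negSucc 43, .negSucc 29, .negSucc 4,
  .negSucc 52, .negSucc 19, .ofNat 5, .ofNat 16, .negSucc 21, .negSucc 49, .negSucc 44, .negSucc 66,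
  .negSucc 76, .negSucc 43, .negSucc 105, .negSucc 117, .ofNat 17, .ofNat 129, .negSucc 84, .ofNat
  468],
   [.ofNat 14, .negSucc 17, .ofNat 10, .ofNat 1, .negSucc 18, .ofNat 19, .ofNat 19, .negSucc 19,
  .negSucc 15, .ofNat 8, .ofNat 9, .negSucc 16, .negSucc 20, .negSucc 34, .negSucc 42, .negSucc 23,
  .negSucc 9, .negSucc 0, .ofNat 21, .ofNat 44, .negSucc 2, .negSucc 27, .negSucc 35, .negSucc 61,
  .negSucc 96, .negSucc 71, .negSucc 72, .negSucc 86, .ofNat 30, .ofNat 165, .negSucc 80, .negSucc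
  169, .ofNat 437],
   [.negSucc 17, .ofNat 13, .ofNat 1, .negSucc 4, .negSucc 18, .negSucc 18, .negSucc 19, .negSucc 5,
  .ofNat 2, .negSucc 2, .ofNat 0, .negSucc 7, .negSucc 1, .negSucc 22, .negSucc 24, .negSucc 21,
  .negSucc 9, .negSucc 0, .ofNat 5, .ofNat 29, .negSucc 7, .negSucc 7, .negSucc 1, .negSucc 33,
  .negSucc 46, .negSucc 45, .negSucc 40, .negSucc 44, .ofNat 1, .ofNat 84, .negSucc 52, .negSucc 100,
  .negSucc 150, .ofNat 491],
   [.negSucc 17, .negSucc 18, .negSucc 19, .negSucc 19, .ofNat 25, .ofNat 12, .ofNat 9, .negSucc 3,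
  .ofNat 14, .ofNat 25, .ofNat 7, .negSucc 36, .negSucc 39, .negSucc 32, .negSucc 44, .negSucc 8,
  .negSucc 30, .negSucc 20, .ofNat 25, .ofNat 33, .negSucc 4, .negSucc 48, .negSucc 62, .negSucc 61,
  .negSucc 99, .negSucc 54, .negSucc 97, .negSucc 125, .ofNat 36, .ofNat 165, .negSucc 88, .negSucc
  196, .negSucc 286, .negSucc 233, .ofNat 156]]

theorem chk : certChk 10 314 500 chi mu nu tab cols = true := by decide +kernel

end Pool.Agent.J6H81.Cube.C2
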