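import Pool.Agent.J6H81.Cube.Rel

/-! Certificate for class 3 (support for MP_416390_gt). -/

namespace Pool.Agent.J6H81.Cube.C3

open Pool.Agent.J6H81.Cube

/-- Signs of the class. -/
def chi : List ℤ :=
  [.ofNat 1, .ofNat 1, .ofNat 1, .ofNat 1, .ofNat 1, .ofNat 1, .ofNat 1, .ofNat 1, .ofNat 1, .ofNat 1,
  .ofNat 1, .ofNat 1, .ofNat 1, .ofNat 1, .ofNat 1, .ofNat 1, .ofNat 1, .ofNat 1, .ofNat 1, .ofNat 1,
  .ofNat 1, .ofNat 1, .ofNat 1, .ofNat 1, .ofNat 1, .ofNat 1, .ofNat 1, .ofNat 1, .ofNat 1, .negSucc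
  0, .ofNat 1, .ofNat 1, .negSucc 0, .negSucc 0, .negSucc 0]

/-- Multipliers of the relations. -/
def mu : List ℤ :=
  [.negSucc 32, .negSucc 24, .negSucc 19, .negSucc 14, .negSucc 18, .negSucc 18, .negSucc 22, .negSucc
  22, .negSucc 26, .negSucc 23, .negSucc 28, .negSucc 51, .negSucc 41, .negSucc 35, .negSucc 32,
  .ofNat 25, .ofNat 17, .ofNat 14, .ofNat 21, .ofNat 18, .ofNat 15, .ofNat 42, .ofNat 35, .ofNat 23,
  .ofNat 20, .negSucc 43, .negSucc 44, .negSucc 23, .negSucc 25, .negSucc 31, .negSucc 22, .negSucc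
  20, .negSucc 22, .negSucc 34, .negSucc 20, .ofNat 20, .ofNat 52, .ofNat 33, .negSucc 26, .negSucc
  20, .ofNat 36, .ofNat 26, .negSucc 19, .negSucc 16, .ofNat 20, .ofNat 23, .ofNat 29, .ofNat 33,
  .negSucc 32, .ofNat 23, .ofNat 52, .negSucc 24, .ofNat 27, .ofNat 42, .ofNat 20, .negSucc 14, .ofNat
  24, .ofNat 36, .ofNat 19, .ofNat 19, .negSucc 41, .ofNat 44, .ofNat 32, .ofNat 25, .negSucc 34,
  .ofNat 45, .ofNat 17, .negSucc 22, .ofNat 24, .negSucc 13, .ofNat 21, .negSucc 19, .ofNat 26,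
  .negSucc 17, .negSucc 14, .negSucc 51, .negSucc 35, .negSucc 19, .negSucc 22, .negSucc 32, .negSucc
  25, .negSucc 20, .ofNat 27, .ofNat 20, .ofNat 23, .negSucc 34, .ofNat 21, .ofNat 17, .ofNat 21,
  .negSucc 19, .negSucc 35, .negSucc 20, .ofNat 15, .ofNat 37, .ofNat 27, .ofNat 20, .ofNat 27,
  .negSucc 26, .negSucc 16, .ofNat 36, .ofNat 20, .negSucc 16, .negSucc 11, .ofNat 21, .negSucc 14]

/-- Multipliers of the norm conditions. -/
def nu : List ℤ :=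
  [.ofNat 0, .ofNat 0, .ofNat 0, .ofNat 0, .ofNat 0, .ofNat 0, .ofNat 0]

/-- The table. -/
def tab : List (List ℤ) :=
  [[.ofNat 608, .negSucc 19, .negSucc 19, .negSucc 19, .negSucc 19, .negSucc 19, .negSucc 19, .ofNat
  13, .ofNat 5, .ofNat 3, .negSucc 19, .negSucc 19, .negSucc 19, .ofNat 5, .negSucc 2, .ofNat 1,
  .negSucc 4, .ofNat 1, .ofNat 15, .negSucc 19, .negSucc 19, .negSucc 19, .negSucc 19, .ofNat 0,
  .negSucc 5, .ofNat 3, .negSucc 0, .negSucc 1, .ofNat 1, .ofNat 20, .negSucc 0, .negSucc 4, .ofNat 0,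
  .ofNat 20, .ofNat 20],
   [.negSucc 19, .ofNat 608, .negSucc 19, .negSucc 19, .negSucc 19, .negSucc 52, .negSucc 44, .negSucc
  19, .negSucc 19, .ofNat 3, .negSucc 19, .negSucc 44, .negSucc 36, .negSucc 19, .negSucc 19, .ofNat
  9, .ofNat 3, .ofNat 22, .negSucc 19, .ofNat 13, .negSucc 19, .negSucc 39, .negSucc 33, .negSucc 19,
  .negSucc 19, .ofNat 13, .ofNat 3, .ofNat 15, .negSucc 19, .negSucc 2, .ofNat 7, .ofNat 3, .ofNat 20,
  .negSucc 31, .ofNat 20],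
   [.negSucc 19, .negSucc 19, .ofNat 608, .negSucc 19, .ofNat 13, .negSucc 19, .negSucc 42, .negSucc
  19, .negSucc 42, .negSucc 19, .ofNat 5, .negSucc 19, .negSucc 40, .negSucc 19, .negSucc 48, .negSucc
  19, .ofNat 9, .negSucc 19, .ofNat 32, .ofNat 5, .ofNat 0, .negSucc 19, .negSucc 42, .negSucc 19,
  .negSucc 52, .negSucc 19, .ofNat 32, .negSucc 19, .ofNat 13, .negSucc 6, .ofNat 22, .negSucc 19,
  .negSucc 6, .negSucc 21, .ofNat 20],
   [.negSucc 19, .negSucc 19, .negSucc 19, .ofNat 608, .ofNat 5, .ofNat 3, .negSucc 19, .ofNat 3,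
  .negSucc 19, .negSucc 19, .negSucc 2, .ofNat 1, .negSucc 19, .ofNat 9, .negSucc 19, .negSucc 19,
  .negSucc 19, .ofNat 24, .ofNat 16, .negSucc 4, .negSucc 5, .ofNat 3, .negSucc 19, .ofNat 13,
  .negSucc 19, .negSucc 19, .negSucc 19, .ofNat 25, .ofNat 6, .negSucc 3, .negSucc 19, .ofNat 4,
  .ofNat 0, .negSucc 15, .ofNat 20],
   [.negSucc 19, .negSucc 19, .ofNat 13, .ofNat 5, .ofNat 608, .negSucc 19, .negSucc 19, .negSucc 19,
  .negSucc 19, .ofNat 22, .negSucc 19, .negSucc 34, .negSucc 40, .negSucc 42, .negSucc 61, .negSucc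
  19, .negSucc 19, .negSucc 19, .ofNat 24, .ofNat 5, .negSucc 19, .negSucc 38, .negSucc 37, .negSucc
  42, .negSucc 54, .negSucc 19, .negSucc 19, .negSucc 19, .ofNat 12, .negSucc 14, .ofNat 4, .ofNat 0,
  .ofNat 20, .ofNat 20, .negSucc 24],
   [.negSucc 19, .negSucc 52, .negSucc 19, .ofNat 3, .negSucc 19, .ofNat 608, .negSucc 19, .negSucc 19,
  .negSucc 61, .negSucc 19, .negSucc 4, .negSucc 19, .negSucc 54, .negSucc 48, .negSucc 19, .negSucc
  71, .negSucc 19, .negSucc 63, .negSucc 19, .negSucc 2, .negSucc 0, .negSucc 19, .negSucc 40,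
  .negSucc 71, .negSucc 19, .negSucc 52, .negSucc 19, .negSucc 51, .negSucc 19, .negSucc 2, .ofNat 16,
  .negSucc 19, .negSucc 0, .ofNat 20, .negSucc 3],
   [.negSucc 19, .negSucc 44, .negSucc 42, .negSucc 19, .negSucc 19, .negSucc 19, .ofNat 608, .ofNat
  22, .negSucc 19, .negSucc 19, .ofNat 1, .ofNat 15, .negSucc 19, .negSucc 19, .negSucc 63, .negSucc
  55, .ofNat 24, .negSucc 19, .negSucc 19, .ofNat 1, .negSucc 1, .ofNat 1, .negSucc 19, .negSucc 19,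
  .negSucc 64, .negSucc 45, .ofNat 12, .negSucc 19, .negSucc 19, .ofNat 0, .negSucc 19, .ofNat 6,
  .ofNat 3, .ofNat 20, .negSucc 5],
   [.ofNat 13, .negSucc 19, .negSucc 19, .ofNat 3, .negSucc 19, .negSucc 19, .ofNat 22, .ofNat 608,
  .negSucc 19, .negSucc 19, .ofNat 3, .ofNat 9, .negSucc 19, .negSucc 19, .negSucc 52, .negSucc 44,
  .negSucc 19, .negSucc 44, .negSucc 36, .negSucc 19, .ofNat 3, .ofNat 32, .negSucc 19, .negSucc 19,
  .ofNat 3, .ofNat 7, .negSucc 19, .ofNat 15, .ofNat 3, .ofNat 20, .ofNat 13, .negSucc 19, .ofNat 20,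
  .ofNat 40, .ofNat 34],
   [.ofNat 5, .negSucc 19, .negSucc 42, .negSucc 19, .negSucc 19, .negSucc 61, .negSucc 19, .negSucc
  19, .ofNat 608, .negSucc 19, .ofNat 22, .negSucc 19, .ofNat 24, .ofNat 13, .negSucc 19, .negSucc 34,
  .ofNat 5, .negSucc 19, .negSucc 40, .negSucc 19, .ofNat 15, .negSucc 19, .ofNat 25, .negSucc 42,
  .negSucc 19, .ofNat 4, .negSucc 54, .negSucc 19, .ofNat 0, .ofNat 20, .negSucc 19, .ofNat 12, .ofNat
  20, .ofNat 39, .ofNat 38],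
   [.ofNat 3, .ofNat 3, .negSucc 19, .negSucc 19, .ofNat 22, .negSucc 19, .negSucc 19, .negSucc 19,
  .negSucc 19, .ofNat 608, .negSucc 19, .ofNat 32, .ofNat 16, .ofNat 5, .negSucc 4, .negSucc 19,
  .negSucc 2, .ofNat 1, .negSucc 19, .negSucc 19, .negSucc 19, .ofNat 13, .ofNat 6, .negSucc 46,
  .negSucc 43, .negSucc 19, .negSucc 42, .negSucc 39, .negSucc 19, .ofNat 20, .negSucc 19, .negSucc
  19, .ofNat 0, .ofNat 39, .ofNat 35],
   [.negSucc 19, .negSucc 19, .ofNat 5, .negSucc 2, .negSucc 19, .negSucc 4, .ofNat 1, .ofNat 3, .ofNat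
  22, .negSucc 19, .ofNat 608, .negSucc 19, .negSucc 19, .negSucc 19, .negSucc 19, .ofNat 32, .negSucc
  19, .negSucc 19, .ofNat 16, .ofNat 3, .negSucc 19, .negSucc 38, .negSucc 34, .negSucc 46, .negSucc
  42, .negSucc 19, .negSucc 43, .negSucc 39, .negSucc 19, .ofNat 20, .negSucc 19, .negSucc 19, .ofNat
  0, .negSucc 12, .negSucc 5],
   [.negSucc 19, .negSucc 44, .negSucc 19, .ofNat 1, .negSucc 34, .negSucc 19, .ofNat 15, .ofNat 9,
  .negSucc 19, .ofNat 32, .negSucc 19, .ofNat 608, .negSucc 19, .negSucc 19, .negSucc 71, .negSucc 19,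
  .negSucc 19, .negSucc 55, .negSucc 19, .ofNat 1, .negSucc 0, .negSucc 19, .ofNat 0, .negSucc 61,
  .negSucc 19, .ofNat 7, .negSucc 55, .negSucc 19, .ofNat 1, .ofNat 20, .negSucc 19, .ofNat 0, .ofNat
  20, .ofNat 47, .ofNat 40],
   [.negSucc 19, .negSucc 36, .negSucc 40, .negSucc 19, .negSucc 40, .negSucc 54, .negSucc 19, .negSucc
  19, .ofNat 24, .ofNat 16, .negSucc 19, .negSucc 19, .ofNat 608, .ofNat 32, .negSucc 19, .negSucc 19,
  .ofNat 16, .negSucc 19, .negSucc 19, .ofNat 15, .negSucc 4, .negSucc 39, .negSucc 19, .negSucc 19,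
  .negSucc 43, .ofNat 0, .negSucc 19, .negSucc 45, .negSucc 2, .ofNat 20, .negSucc 39, .negSucc 19,
  .ofNat 20, .ofNat 41, .ofNat 37],
   [.ofNat 5, .negSucc 19, .negSucc 19, .ofNat 9, .negSucc 42, .negSucc 48, .negSucc 19, .negSucc 19,
  .ofNat 13, .ofNat 5, .negSucc 19, .negSucc 19, .ofNat 32, .ofNat 608, .negSucc 19, .negSucc 19,
  .negSucc 19, .negSucc 42, .negSucc 40, .negSucc 19, .ofNat 7, .ofNat 22, .negSucc 19, .negSucc 19,
  .ofNat 32, .ofNat 22, .negSucc 52, .negSucc 19, .negSucc 19, .ofNat 0, .negSucc 19, .ofNat 13,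
  .negSucc 6, .ofNat 20, .ofNat 43],
   [.negSucc 2, .negSucc 19, .negSucc 48, .negSucc 19, .negSucc 61, .negSucc 19, .negSucc 63, .negSucc
  52, .negSucc 19, .negSucc 4, .negSucc 19, .negSucc 71, .negSucc 19, .negSucc 19, .ofNat 608,
  .negSucc 19, .ofNat 3, .negSucc 19, .negSucc 54, .negSucc 19, .ofNat 3, .negSucc 19, .ofNat 4,
  .negSucc 71, .negSucc 19, .ofNat 16, .negSucc 19, .negSucc 51, .negSucc 19, .ofNat 1, .negSucc 52,
  .negSucc 19, .negSucc 0, .ofNat 20, .ofNat 41],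
   [.ofNat 1, .ofNat 9, .negSucc 19, .negSucc 19, .negSucc 19, .negSucc 71, .negSucc 55, .negSucc 44,
  .negSucc 34, .negSucc 19, .ofNat 32, .negSucc 19, .negSucc 19, .negSucc 19, .negSucc 19, .ofNat 608,
  .ofNat 1, .ofNat 15, .negSucc 19, .negSucc 19, .negSucc 19, .negSucc 46, .negSucc 39, .negSucc 61,
  .negSucc 55, .negSucc 19, .negSucc 19, .negSucc 19, .ofNat 0, .ofNat 1, .ofNat 7, .ofNat 1, .ofNat
  20, .ofNat 20, .ofNat 0],
   [.negSucc 4, .ofNat 3, .ofNat 9, .negSucc 19, .negSucc 19, .negSucc 19, .ofNat 24, .negSucc 19,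
  .ofNat 5, .negSucc 2, .negSucc 19, .negSucc 19, .ofNat 16, .negSucc 19, .ofNat 3, .ofNat 1, .ofNat
  608, .negSucc 19, .negSucc 19, .negSucc 19, .ofNat 4, .ofNat 16, .negSucc 19, .ofNat 13, .negSucc
  19, .negSucc 19, .negSucc 19, .ofNat 25, .ofNat 4, .ofNat 6, .negSucc 19, .ofNat 6, .ofNat 0,
  .negSucc 2, .ofNat 20],
   [.ofNat 1, .ofNat 22, .negSucc 19, .ofNat 24, .negSucc 19, .negSucc 63, .negSucc 19, .negSucc 44,
  .negSucc 19, .ofNat 1, .negSucc 19, .negSucc 55, .negSucc 19, .negSucc 42, .negSucc 19, .ofNat 15,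
  .negSucc 19, .ofNat 608, .negSucc 19, .negSucc 19, .ofNat 0, .negSucc 19, .ofNat 6, .negSucc 19,
  .ofNat 12, .negSucc 19, .negSucc 64, .negSucc 19, .ofNat 6, .ofNat 2, .negSucc 45, .negSucc 19,
  .ofNat 3, .negSucc 0, .ofNat 20],
   [.ofNat 15, .negSucc 19, .ofNat 32, .ofNat 16, .ofNat 24, .negSucc 19, .negSucc 19, .negSucc 36,
  .negSucc 40, .negSucc 19, .ofNat 16, .negSucc 19, .negSucc 19, .negSucc 40, .negSucc 54, .negSucc
  19, .negSucc 19, .negSucc 19, .ofNat 608, .negSucc 19, .negSucc 19, .negSucc 40, .negSucc 36,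
  .negSucc 19, .negSucc 19, .negSucc 39, .negSucc 43, .negSucc 45, .negSucc 19, .ofNat 5, .ofNat 0,
  .negSucc 2, .ofNat 20, .ofNat 40, .ofNat 20],
   [.negSucc 19, .ofNat 13, .ofNat 5, .negSucc 4, .ofNat 5, .negSucc 2, .ofNat 1, .negSucc 19, .negSucc
  19, .negSucc 19, .ofNat 3, .ofNat 1, .ofNat 15, .negSucc 19, .negSucc 19, .negSucc 19, .negSucc 19,
  .negSucc 19, .negSucc 19, .ofNat 608, .negSucc 19, .negSucc 19, .negSucc 19, .ofNat 0, .negSucc 0,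
  .negSucc 0, .negSucc 5, .negSucc 1, .negSucc 4, .ofNat 20, .ofNat 3, .ofNat 1, .ofNat 0, .ofNat 20,
  .ofNat 20],
   [.negSucc 19, .negSucc 19, .ofNat 0, .negSucc 5, .negSucc 19, .negSucc 0, .negSucc 1, .ofNat 3,
  .ofNat 15, .negSucc 19, .negSucc 19, .negSucc 0, .negSucc 4, .ofNat 7, .ofNat 3, .negSucc 19, .ofNat
  4, .ofNat 0, .negSucc 19, .negSucc 19, .ofNat 608, .negSucc 19, .negSucc 19, .negSucc 19, .negSucc
  19, .ofNat 16, .negSucc 19, .negSucc 19, .ofNat 1, .negSucc 16, .negSucc 19, .negSucc 19, .ofNat 5,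
  .negSucc 6, .ofNat 0],
   [.negSucc 19, .negSucc 39, .negSucc 19, .ofNat 3, .negSucc 38, .negSucc 19, .ofNat 1, .ofNat 32,
  .negSucc 19, .ofNat 13, .negSucc 38, .negSucc 19, .negSucc 39, .ofNat 22, .negSucc 19, .negSucc 46,
  .ofNat 16, .negSucc 19, .negSucc 40, .negSucc 19, .negSucc 19, .ofNat 608, .negSucc 19, .negSucc 19,
  .negSucc 55, .negSucc 19, .negSucc 19, .negSucc 40, .negSucc 19, .negSucc 6, .negSucc 19, .negSucc
  4, .ofNat 20, .ofNat 47, .ofNat 37],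
   [.negSucc 19, .negSucc 33, .negSucc 42, .negSucc 19, .negSucc 37, .negSucc 40, .negSucc 19, .negSucc
  19, .ofNat 25, .ofNat 6, .negSucc 34, .ofNat 0, .negSucc 19, .negSucc 19, .ofNat 4, .negSucc 39,
  .negSucc 19, .ofNat 6, .negSucc 36, .negSucc 19, .negSucc 19, .negSucc 19, .ofNat 608, .ofNat 16,
  .negSucc 19, .negSucc 19, .ofNat 1, .negSucc 19, .negSucc 19, .ofNat 0, .negSucc 34, .negSucc 19,
  .ofNat 20, .ofNat 37, .ofNat 32],
   [.ofNat 0, .negSucc 19, .negSucc 19, .ofNat 13, .negSucc 42, .negSucc 71, .negSucc 19, .negSucc 19,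
  .negSucc 42, .negSucc 46, .negSucc 46, .negSucc 61, .negSucc 19, .negSucc 19, .negSucc 71, .negSucc
  61, .ofNat 13, .negSucc 19, .negSucc 19, .ofNat 0, .negSucc 19, .negSucc 19, .ofNat 16, .ofNat 608,
  .negSucc 19, .negSucc 19, .negSucc 19, .ofNat 17, .ofNat 7, .ofNat 20, .negSucc 19, .ofNat 7,
  .negSucc 6, .ofNat 20, .negSucc 15],
   [.negSucc 5, .negSucc 19, .negSucc 52, .negSucc 19, .negSucc 54, .negSucc 19, .negSucc 64, .ofNat 3,
  .negSucc 19, .negSucc 43, .negSucc 42, .negSucc 19, .negSucc 43, .ofNat 32, .negSucc 19, .negSucc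
  55, .negSucc 19, .ofNat 12, .negSucc 19, .negSucc 0, .negSucc 19, .negSucc 55, .negSucc 19, .negSucc
  19, .ofNat 608, .negSucc 19, .negSucc 56, .negSucc 19, .ofNat 0, .ofNat 20, .negSucc 46, .negSucc
  19, .ofNat 3, .ofNat 20, .negSucc 0],
   [.ofNat 3, .ofNat 13, .negSucc 19, .negSucc 19, .negSucc 19, .negSucc 52, .negSucc 45, .ofNat 7,
  .ofNat 4, .negSucc 19, .negSucc 19, .ofNat 7, .ofNat 0, .ofNat 22, .ofNat 16, .negSucc 19, .negSucc
  19, .negSucc 19, .negSucc 39, .negSucc 0, .ofNat 16, .negSucc 19, .negSucc 19, .negSucc 19, .negSucc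
  19, .ofNat 608, .negSucc 46, .negSucc 39, .negSucc 19, .ofNat 20, .ofNat 7, .negSucc 2, .ofNat 20,
  .ofNat 20, .ofNat 35],
   [.negSucc 0, .ofNat 3, .ofNat 32, .negSucc 19, .negSucc 19, .negSucc 19, .ofNat 12, .negSucc 19,
  .negSucc 54, .negSucc 42, .negSucc 43, .negSucc 55, .negSucc 19, .negSucc 52, .negSucc 19, .negSucc
  19, .negSucc 19, .negSucc 64, .negSucc 43, .negSucc 5, .negSucc 19, .negSucc 19, .ofNat 1, .negSucc
  19, .negSucc 56, .negSucc 46, .ofNat 608, .negSucc 19, .negSucc 19, .ofNat 20, .negSucc 19, .ofNat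
  0, .ofNat 3, .ofNat 56, .ofNat 20],
   [.negSucc 1, .ofNat 15, .negSucc 19, .ofNat 25, .negSucc 19, .negSucc 51, .negSucc 19, .ofNat 15,
  .negSucc 19, .negSucc 39, .negSucc 39, .negSucc 19, .negSucc 45, .negSucc 19, .negSucc 51, .negSucc
  19, .ofNat 25, .negSucc 19, .negSucc 45, .negSucc 1, .negSucc 19, .negSucc 40, .negSucc 19, .ofNat
  17, .negSucc 19, .negSucc 39, .negSucc 19, .ofNat 608, .negSucc 19, .ofNat 20, .negSucc 39, .negSucc
  19, .ofNat 8, .ofNat 41, .ofNat 20],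
   [.ofNat 1, .negSucc 19, .ofNat 13, .ofNat 6, .ofNat 12, .negSucc 19, .negSucc 19, .ofNat 3, .ofNat
  0, .negSucc 19, .negSucc 19, .ofNat 1, .negSucc 2, .negSucc 19, .negSucc 19, .ofNat 0, .ofNat 4,
  .ofNat 6, .negSucc 19, .negSucc 4, .ofNat 1, .negSucc 19, .negSucc 19, .ofNat 7, .ofNat 0, .negSucc
  19, .negSucc 19, .negSucc 19, .ofNat 608, .ofNat 20, .negSucc 2, .negSucc 7, .ofNat 20, .ofNat 5,
  .ofNat 20],
   [.ofNat 20, .negSucc 2, .negSucc 6, .negSucc 3, .negSucc 14, .negSucc 2, .ofNat 0, .ofNat 20, .ofNat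
  20, .ofNat 20, .ofNat 20, .ofNat 20, .ofNat 20, .ofNat 0, .ofNat 1, .ofNat 1, .ofNat 6, .ofNat 2,
  .ofNat 5, .ofNat 20, .negSucc 16, .negSucc 6, .ofNat 0, .ofNat 20, .ofNat 20, .ofNat 20, .ofNat 20,
  .ofNat 20, .ofNat 20, .ofNat 608, .negSucc 15, .negSucc 0, .negSucc 4, .negSucc 19, .negSucc 19],
   [.negSucc 0, .ofNat 7, .ofNat 22, .negSucc 19, .ofNat 4, .ofNat 16, .negSucc 19, .ofNat 13, .negSucc
  19, .negSucc 19, .negSucc 19, .negSucc 19, .negSucc 39, .negSucc 19, .negSucc 52, .ofNat 7, .negSucc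
  19, .negSucc 45, .ofNat 0, .ofNat 3, .negSucc 19, .negSucc 19, .negSucc 34, .negSucc 19, .negSucc
  46, .ofNat 7, .negSucc 19, .negSucc 39, .negSucc 2, .negSucc 15, .ofNat 608, .negSucc 19, .ofNat 20,
  .ofNat 20, .ofNat 20],
   [.negSucc 4, .ofNat 3, .negSucc 19, .ofNat 4, .ofNat 0, .negSucc 19, .ofNat 6, .negSucc 19, .ofNat
  12, .negSucc 19, .negSucc 19, .ofNat 0, .negSucc 19, .ofNat 13, .negSucc 19, .ofNat 1, .ofNat 6,
  .negSucc 19, .negSucc 2, .ofNat 1, .negSucc 19, .negSucc 4, .negSucc 19, .ofNat 7, .negSucc 19,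
  .negSucc 2, .ofNat 0, .negSucc 19, .negSucc 7, .negSucc 0, .negSucc 19, .ofNat 608, .ofNat 20,
  .ofNat 20, .ofNat 20],
   [.ofNat 0, .ofNat 20, .negSucc 6, .ofNat 0, .ofNat 20, .negSucc 0, .ofNat 3, .ofNat 20, .ofNat 20,
  .ofNat 0, .ofNat 0, .ofNat 20, .ofNat 20, .negSucc 6, .negSucc 0, .ofNat 20, .ofNat 0, .ofNat 3,
  .ofNat 20, .ofNat 0, .ofNat 5, .ofNat 20, .ofNat 20, .negSucc 6, .ofNat 3, .ofNat 20, .ofNat 3,
  .ofNat 8, .ofNat 20, .negSucc 4, .ofNat 20, .ofNat 20, .ofNat 608, .negSucc 19, .negSucc 19],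
   [.ofNat 20, .negSucc 31, .negSucc 21, .negSucc 15, .ofNat 20, .ofNat 20, .ofNat 20, .ofNat 40,
  .ofNat 39, .ofNat 39, .negSucc 12, .ofNat 47, .ofNat 41, .ofNat 20, .ofNat 20, .ofNat 20, .negSucc
  2, .negSucc 0, .ofNat 40, .ofNat 20, .negSucc 6, .ofNat 47, .ofNat 37, .ofNat 20, .ofNat 20, .ofNat
  20, .ofNat 56, .ofNat 41, .ofNat 5, .negSucc 19, .ofNat 20, .ofNat 20, .negSucc 19, .ofNat 608,
  .negSucc 19],
   [.ofNat 20, .ofNat 20, .ofNat 20, .ofNat 20, .negSucc 24, .negSucc 3, .negSucc 5, .ofNat 34, .ofNat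
  38, .ofNat 35, .negSucc 5, .ofNat 40, .ofNat 37, .ofNat 43, .ofNat 41, .ofNat 0, .ofNat 20, .ofNat
  20, .ofNat 20, .ofNat 20, .ofNat 0, .ofNat 37, .ofNat 32, .negSucc 15, .negSucc 0, .ofNat 35, .ofNat
  20, .ofNat 20, .ofNat 20, .negSucc 19, .ofNat 20, .ofNat 20, .negSucc 19, .negSucc 19, .ofNat 608]]

/-- The Cholesky columns. -/
def cols : List (List ℤ) :=
  [[.ofNat 544],
   [.negSucc 17, .ofNat 544],
   [.negSucc 17, .negSucc 18, .ofNat 544],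
   [.negSucc 17, .negSucc 18, .negSucc 19, .ofNat 543],
   [.negSucc 17, .negSucc 18, .ofNat 11, .ofNat 4, .ofNat 544],
   [.negSucc 17, .negSucc 48, .negSucc 20, .ofNat 0, .negSucc 19, .ofNat 541],
   [.negSucc 17, .negSucc 41, .negSucc 41, .negSucc 21, .negSucc 19, .negSucc 24, .ofNat 539],
   [.ofNat 12, .negSucc 17, .negSucc 18, .ofNat 2, .negSucc 17, .negSucc 20, .ofNat 16, .ofNat 543],
   [.ofNat 5, .negSucc 17, .negSucc 39, .negSucc 19, .negSucc 17, .negSucc 60, .negSucc 26, .negSucc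
  22, .ofNat 537],
   [.ofNat 3, .ofNat 3, .negSucc 17, .negSucc 18, .ofNat 21, .negSucc 17, .negSucc 19, .negSucc 17,
  .negSucc 23, .ofNat 542],
   [.negSucc 17, .negSucc 18, .ofNat 3, .negSucc 3, .negSucc 19, .negSucc 7, .negSucc 1, .ofNat 2,
  .ofNat 19, .negSucc 16, .ofNat 543],
   [.negSucc 17, .negSucc 41, .negSucc 19, .negSucc 1, .negSucc 33, .negSucc 24, .ofNat 6, .ofNat 4,
  .negSucc 24, .ofNat 29, .negSucc 19, .ofNat 539],
   [.negSucc 17, .negSucc 34, .negSucc 39, .negSucc 21, .negSucc 38, .negSucc 57, .negSucc 29, .negSucc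
  22, .ofNat 7, .ofNat 11, .negSucc 21, .negSucc 28, .ofNat 534],
   [.ofNat 5, .negSucc 17, .negSucc 18, .ofNat 7, .negSucc 39, .negSucc 48, .negSucc 24, .negSucc 21,
  .ofNat 1, .ofNat 3, .negSucc 20, .negSucc 25, .ofNat 15, .ofNat 538],
   [.negSucc 2, .negSucc 17, .negSucc 45, .negSucc 20, .negSucc 56, .negSucc 23, .negSucc 67, .negSucc
  51, .negSucc 33, .negSucc 10, .negSucc 20, .negSucc 74, .negSucc 40, .negSucc 34, .ofNat 521],
   [.ofNat 1, .ofNat 8, .negSucc 17, .negSucc 18, .negSucc 17, .negSucc 66, .negSucc 56, .negSucc 42,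
  .negSucc 46, .negSucc 26, .ofNat 29, .negSucc 21, .negSucc 32, .negSucc 28, .negSucc 47, .ofNat 526],
   [.negSucc 4, .ofNat 3, .ofNat 8, .negSucc 17, .negSucc 17, .negSucc 18, .ofNat 21, .negSucc 19,
  .ofNat 2, .negSucc 2, .negSucc 19, .negSucc 20, .ofNat 10, .negSucc 22, .negSucc 3, .negSucc 2,
  .ofNat 541],
   [.ofNat 1, .ofNat 20, .negSucc 17, .ofNat 22, .negSucc 16, .negSucc 58, .negSucc 20, .negSucc 43,
  .negSucc 28, .negSucc 3, .negSucc 17, .negSucc 55, .negSucc 31, .negSucc 51, .negSucc 47, .negSucc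
  12, .negSucc 25, .ofNat 527],
   [.ofNat 14, .negSucc 17, .ofNat 29, .ofNat 16, .ofNat 21, .negSucc 17, .negSucc 16, .negSucc 33,
  .negSucc 39, .negSucc 21, .ofNat 16, .negSucc 16, .negSucc 18, .negSucc 39, .negSucc 62, .negSucc
  38, .negSucc 20, .negSucc 38, .ofNat 530],
   [.negSucc 17, .ofNat 11, .ofNat 4, .negSucc 4, .ofNat 4, .negSucc 1, .ofNat 1, .negSucc 16, .negSucc
  18, .negSucc 19, .ofNat 3, .ofNat 2, .ofNat 15, .negSucc 17, .negSucc 20, .negSucc 24, .negSucc 20,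
  .negSucc 25, .negSucc 29, .ofNat 540],
   [.negSucc 17, .negSucc 18, .negSucc 0, .negSucc 6, .negSucc 19, .negSucc 3, .negSucc 4, .ofNat 2,
  .ofNat 12, .negSucc 17, .negSucc 21, .negSucc 3, .negSucc 9, .ofNat 3, .negSucc 2, .negSucc 19,
  .ofNat 2, .negSucc 1, .negSucc 18, .negSucc 19, .ofNat 541],
   [.negSucc 17, .negSucc 36, .negSucc 19, .ofNat 0, .negSucc 36, .negSucc 24, .negSucc 6, .ofNat 26,
  .negSucc 24, .ofNat 12, .negSucc 37, .negSucc 29, .negSucc 49, .ofNat 13, .negSucc 35, .negSucc 53,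
  .ofNat 13, .negSucc 31, .negSucc 47, .negSucc 22, .negSucc 28, .ofNat 526],
   [.negSucc 17, .negSucc 31, .negSucc 40, .negSucc 21, .negSucc 35, .negSucc 43, .negSucc 28, .negSucc
  21, .ofNat 10, .ofNat 2, .negSucc 35, .negSucc 9, .negSucc 37, .negSucc 29, .negSucc 20, .negSucc
  54, .negSucc 23, .negSucc 13, .negSucc 45, .negSucc 25, .negSucc 28, .negSucc 46, .ofNat 524],
   [.ofNat 0, .negSucc 17, .negSucc 18, .ofNat 11, .negSucc 39, .negSucc 69, .negSucc 25, .negSucc 22,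
  .negSucc 52, .negSucc 47, .negSucc 45, .negSucc 66, .negSucc 37, .negSucc 34, .negSucc 105, .negSucc
  94, .ofNat 3, .negSucc 60, .negSucc 55, .negSucc 17, .negSucc 30, .negSucc 65, .negSucc 34, .ofNat
  489],
   [.negSucc 5, .negSucc 18, .negSucc 49, .negSucc 20, .negSucc 49, .negSucc 23, .negSucc 69, .ofNat 0,
  .negSucc 31, .negSucc 45, .negSucc 42, .negSucc 25, .negSucc 58, .ofNat 18, .negSucc 52, .negSucc
  78, .negSucc 19, .negSucc 11, .negSucc 34, .negSucc 8, .negSucc 30, .negSucc 90, .negSucc 64,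
  .negSucc 103, .ofNat 490],
   [.ofNat 3, .ofNat 12, .negSucc 17, .negSucc 18, .negSucc 16, .negSucc 48, .negSucc 46, .ofNat 5,
  .negSucc 5, .negSucc 22, .negSucc 19, .ofNat 4, .negSucc 9, .ofNat 13, .ofNat 3, .negSucc 31,
  .negSucc 18, .negSucc 27, .negSucc 42, .negSucc 6, .ofNat 9, .negSucc 33, .negSucc 40, .negSucc 55,
  .negSucc 71, .ofNat 523],
   [.negSucc 0, .ofNat 3, .ofNat 29, .negSucc 16, .negSucc 18, .negSucc 17, .ofNat 11, .negSucc 18,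
  .negSucc 51, .negSucc 41, .negSucc 40, .negSucc 53, .negSucc 23, .negSucc 53, .negSucc 39, .negSucc
  36, .negSucc 27, .negSucc 86, .negSucc 68, .negSucc 22, .negSucc 26, .negSucc 46, .negSucc 29,
  .negSucc 94, .negSucc 124, .negSucc 93, .ofNat 477],
   [.negSucc 1, .ofNat 14, .negSucc 17, .ofNat 23, .negSucc 17, .negSucc 47, .negSucc 20, .ofNat 12,
  .negSucc 24, .negSucc 38, .negSucc 37, .negSucc 21, .negSucc 50, .negSucc 25, .negSucc 68, .negSucc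
  40, .ofNat 20, .negSucc 43, .negSucc 63, .negSucc 12, .negSucc 26, .negSucc 71, .negSucc 53,
  .negSucc 62, .negSucc 97, .negSucc 86, .negSucc 130, .ofNat 474],
   [.ofNat 1, .negSucc 17, .ofNat 11, .ofNat 5, .ofNat 10, .negSucc 18, .negSucc 18, .ofNat 3, .negSucc
  1, .negSucc 19, .negSucc 19, .ofNat 0, .negSucc 5, .negSucc 20, .negSucc 23, .negSucc 6, .ofNat 3,
  .negSucc 0, .negSucc 26, .negSucc 7, .negSucc 2, .negSucc 26, .negSucc 30, .negSucc 17, .negSucc 23,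
  .negSucc 34, .negSucc 55, .negSucc 72, .ofNat 529],
   [.ofNat 18, .negSucc 1, .negSucc 5, .negSucc 2, .negSucc 12, .negSucc 2, .negSucc 0, .ofNat 17,
  .ofNat 18, .ofNat 20, .ofNat 18, .ofNat 18, .ofNat 19, .ofNat 0, .ofNat 7, .ofNat 5, .ofNat 7,
  .ofNat 8, .ofNat 11, .ofNat 22, .negSucc 12, .negSucc 0, .ofNat 5, .ofNat 34, .ofNat 36, .ofNat 31,
  .ofNat 57, .ofNat 64, .ofNat 42, .ofNat 529],
   [.negSucc 0, .ofNat 6, .ofNat 20, .negSucc 16, .ofNat 4, .ofNat 16, .negSucc 15, .ofNat 14, .negSucc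
  15, .negSucc 18, .negSucc 17, .negSucc 16, .negSucc 35, .negSucc 15, .negSucc 57, .negSucc 1,
  .negSucc 18, .negSucc 52, .negSucc 15, .negSucc 3, .negSucc 20, .negSucc 32, .negSucc 45, .negSucc
  58, .negSucc 91, .negSucc 23, .negSucc 97, .negSucc 133, .negSucc 49, .ofNat 33, .ofNat 488],
   [.negSucc 4, .ofNat 3, .negSucc 17, .ofNat 3, .ofNat 0, .negSucc 18, .ofNat 3, .negSucc 19, .ofNat
  7, .negSucc 19, .negSucc 18, .negSucc 0, .negSucc 22, .ofNat 9, .negSucc 24, .negSucc 5, .ofNat 4,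
  .negSucc 26, .negSucc 8, .negSucc 1, .negSucc 20, .negSucc 13, .negSucc 30, .negSucc 17, .negSucc
  44, .negSucc 19, .negSucc 35, .negSucc 67, .negSucc 30, .ofNat 22, .negSucc 73, .ofNat 524],
   [.ofNat 0, .ofNat 18, .negSucc 5, .ofNat 0, .ofNat 19, .ofNat 1, .ofNat 5, .ofNat 19, .ofNat 21,
  .ofNat 1, .ofNat 1, .ofNat 22, .ofNat 23, .negSucc 2, .ofNat 10, .ofNat 26, .ofNat 2, .ofNat 11,
  .ofNat 27, .ofNat 4, .ofNat 8, .ofNat 32, .ofNat 33, .ofNat 22, .ofNat 35, .ofNat 36, .ofNat 46,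
  .ofNat 60, .ofNat 43, .negSucc 29, .ofNat 75, .ofNat 56, .ofNat 519],
   [.ofNat 18, .negSucc 28, .negSucc 20, .negSucc 15, .ofNat 19, .ofNat 16, .ofNat 16, .ofNat 36,
  .ofNat 38, .ofNat 38, .negSucc 11, .ofNat 42, .ofNat 41, .ofNat 22, .ofNat 38, .ofNat 40, .ofNat 1,
  .ofNat 22, .ofNat 59, .ofNat 31, .ofNat 0, .ofNat 64, .ofNat 59, .ofNat 82, .ofNat 86, .ofNat 61,
  .ofNat 159, .ofNat 178, .ofNat 72, .negSucc 88, .ofNat 171, .ofNat 111, .negSucc 135, .ofNat 349],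
   [.ofNat 18, .ofNat 19, .ofNat 20, .ofNat 20, .negSucc 21, .negSucc 0, .negSucc 1, .ofNat 31, .ofNat
  38, .ofNat 37, .negSucc 4, .ofNat 38, .ofNat 39, .ofNat 41, .ofNat 57, .ofNat 20, .ofNat 22, .ofNat
  39, .ofNat 42, .ofNat 31, .ofNat 5, .ofNat 53, .ofNat 56, .ofNat 41, .ofNat 52, .ofNat 61, .ofNat
  104, .ofNat 122, .ofNat 70, .negSucc 70, .ofNat 135, .ofNat 91, .negSucc 108, .negSucc 400, .ofNat
  169]]

theorem chk : certChk 10 314 500 chi mu nu tab cols = true := by decide +kernel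

end Pool.Agent.J6H81.Cube.C3
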