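import Pool.Agent.J6H81.Cube.Rel

/-! Certificate for class 4 (support for MP_416390_gt). -/

namespace Pool.Agent.J6H81.Cube.C4

open Pool.Agent.J6H81.Cube

/-- Signs of the class. -/
def chi : List ℤ :=
  [.ofNat 1, .ofNat 1, .ofNat 1, .ofNat 1, .ofNat 1, .ofNat 1, .ofNat 1, .ofNat 1, .ofNat 1, .ofNat 1,
  .ofNat 1, .ofNat 1, .ofNat 1, .ofNat 1, .ofNat 1, .ofNat 1, .ofNat 1, .ofNat 1, .ofNat 1, .ofNat 1,
  .ofNat 1, .ofNat 1, .ofNat 1, .ofNat 1, .ofNat 1, .ofNat 1, .ofNat 1, .ofNat 1, .ofNat 1, .ofNat 1,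
  .ofNat 1, .ofNat 1, .ofNat 1, .negSucc 0, .negSucc 0]

/-- Multipliers of the relations. -/
def mu : List ℤ :=
  [.negSucc 33, .negSucc 26, .negSucc 24, .negSucc 11, .negSucc 22, .negSucc 23, .negSucc 29, .negSucc
  18, .negSucc 28, .negSucc 26, .negSucc 42, .negSucc 38, .negSucc 35, .negSucc 41, .negSucc 49,
  .ofNat 19, .ofNat 20, .ofNat 18, .ofNat 21, .ofNat 21, .ofNat 23, .ofNat 34, .ofNat 32, .ofNat 37,
  .ofNat 28, .negSucc 29, .negSucc 30, .negSucc 27, .negSucc 31, .negSucc 45, .negSucc 12, .negSucc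
  21, .negSucc 22, .negSucc 31, .negSucc 31, .negSucc 23, .ofNat 36, .ofNat 30, .ofNat 25, .ofNat 36,
  .ofNat 19, .ofNat 20, .ofNat 17, .ofNat 22, .negSucc 16, .ofNat 21, .ofNat 34, .ofNat 38, .negSucc
  32, .negSucc 32, .ofNat 20, .negSucc 18, .negSucc 16, .ofNat 25, .negSucc 17, .negSucc 16, .negSucc
  13, .ofNat 27, .negSucc 21, .negSucc 15, .negSucc 36, .ofNat 31, .ofNat 54, .ofNat 28, .ofNat 20,
  .ofNat 42, .ofNat 15, .ofNat 14, .ofNat 42, .ofNat 27, .ofNat 27, .ofNat 22, .ofNat 42, .ofNat 27,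
  .ofNat 20, .negSucc 54, .negSucc 28, .ofNat 35, .negSucc 38, .negSucc 21, .negSucc 27, .negSucc 37,
  .negSucc 18, .negSucc 15, .ofNat 26, .negSucc 50, .negSucc 27, .negSucc 30, .ofNat 28, .ofNat 19,
  .negSucc 38, .negSucc 31, .negSucc 21, .negSucc 2, .ofNat 25, .ofNat 20, .negSucc 23, .ofNat 20,
  .ofNat 22, .negSucc 17, .negSucc 38, .ofNat 24, .ofNat 29, .negSucc 23, .negSucc 14]

/-- Multipliers of the norm conditions. -/
def nu : List ℤ :=
  [.ofNat 0, .ofNat 0, .ofNat 0, .ofNat 0, .ofNat 0, .ofNat 0, .ofNat 0]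

/-- The table. -/
def tab : List (List ℤ) :=
  [[.ofNat 608, .negSucc 19, .negSucc 19, .negSucc 19, .negSucc 19, .negSucc 19, .negSucc 19, .ofNat
  14, .negSucc 0, .negSucc 6, .negSucc 19, .negSucc 19, .negSucc 19, .ofNat 7, .ofNat 0, .ofNat 2,
  .negSucc 7, .ofNat 1, .ofNat 12, .negSucc 19, .negSucc 19, .negSucc 19, .negSucc 19, .ofNat 5,
  .negSucc 1, .ofNat 3, .ofNat 3, .ofNat 1, .ofNat 12, .negSucc 19, .ofNat 4, .ofNat 3, .ofNat 4,
  .ofNat 20, .ofNat 20],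
   [.negSucc 19, .ofNat 608, .negSucc 19, .negSucc 19, .negSucc 19, .negSucc 53, .negSucc 38, .negSucc
  19, .negSucc 19, .ofNat 1, .negSucc 19, .negSucc 46, .negSucc 39, .negSucc 19, .negSucc 19, .ofNat
  14, .ofNat 10, .ofNat 14, .negSucc 19, .ofNat 13, .negSucc 19, .negSucc 44, .negSucc 37, .negSucc
  19, .negSucc 19, .ofNat 18, .negSucc 0, .ofNat 12, .negSucc 19, .ofNat 13, .ofNat 9, .ofNat 17,
  .negSucc 19, .ofNat 0, .ofNat 20],
   [.negSucc 19, .negSucc 19, .ofNat 608, .negSucc 19, .ofNat 14, .negSucc 19, .negSucc 32, .negSucc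
  19, .negSucc 40, .negSucc 19, .ofNat 7, .negSucc 19, .negSucc 41, .negSucc 19, .negSucc 53, .negSucc
  19, .ofNat 23, .negSucc 19, .ofNat 16, .negSucc 0, .ofNat 5, .negSucc 19, .negSucc 42, .negSucc 19,
  .negSucc 57, .negSucc 19, .ofNat 19, .negSucc 19, .ofNat 10, .negSucc 2, .ofNat 16, .negSucc 19,
  .ofNat 5, .negSucc 4, .ofNat 20],
   [.negSucc 19, .negSucc 19, .negSucc 19, .ofNat 608, .negSucc 0, .negSucc 6, .negSucc 19, .ofNat 1,
  .negSucc 19, .negSucc 19, .ofNat 0, .ofNat 2, .negSucc 19, .ofNat 14, .negSucc 19, .negSucc 19,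
  .negSucc 19, .ofNat 10, .negSucc 0, .negSucc 2, .negSucc 1, .ofNat 3, .negSucc 19, .ofNat 18,
  .negSucc 19, .negSucc 19, .negSucc 19, .ofNat 11, .ofNat 0, .negSucc 5, .negSucc 19, .ofNat 8,
  .negSucc 2, .negSucc 6, .ofNat 20],
   [.negSucc 19, .negSucc 19, .ofNat 14, .negSucc 0, .ofNat 608, .negSucc 19, .negSucc 19, .negSucc 19,
  .negSucc 19, .ofNat 17, .negSucc 19, .negSucc 31, .negSucc 40, .negSucc 49, .negSucc 53, .negSucc
  19, .negSucc 19, .negSucc 19, .ofNat 11, .ofNat 8, .negSucc 19, .negSucc 42, .negSucc 40, .negSucc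
  38, .negSucc 51, .negSucc 19, .negSucc 19, .negSucc 19, .ofNat 34, .ofNat 0, .ofNat 7, .ofNat 8,
  .negSucc 19, .ofNat 20, .negSucc 21],
   [.negSucc 19, .negSucc 53, .negSucc 19, .negSucc 6, .negSucc 19, .ofNat 608, .negSucc 19, .negSucc
  19, .negSucc 56, .negSucc 19, .negSucc 7, .negSucc 19, .negSucc 51, .negSucc 62, .negSucc 19,
  .negSucc 55, .negSucc 19, .negSucc 50, .negSucc 19, .negSucc 4, .ofNat 3, .negSucc 19, .negSucc 51,
  .negSucc 58, .negSucc 19, .negSucc 49, .negSucc 19, .negSucc 73, .negSucc 19, .negSucc 5, .ofNat 22,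
  .negSucc 19, .ofNat 16, .ofNat 20, .negSucc 21],
   [.negSucc 19, .negSucc 38, .negSucc 32, .negSucc 19, .negSucc 19, .negSucc 19, .ofNat 608, .ofNat
  17, .negSucc 19, .negSucc 19, .ofNat 1, .ofNat 12, .negSucc 19, .negSucc 19, .negSucc 49, .negSucc
  38, .ofNat 11, .negSucc 19, .negSucc 19, .ofNat 7, .ofNat 1, .ofNat 12, .negSucc 19, .negSucc 19,
  .negSucc 50, .negSucc 39, .ofNat 34, .negSucc 19, .negSucc 19, .ofNat 2, .negSucc 19, .ofNat 12,
  .ofNat 2, .ofNat 20, .negSucc 21],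
   [.ofNat 14, .negSucc 19, .negSucc 19, .ofNat 1, .negSucc 19, .negSucc 19, .ofNat 17, .ofNat 608,
  .negSucc 19, .negSucc 19, .ofNat 10, .ofNat 23, .negSucc 19, .negSucc 19, .negSucc 52, .negSucc 38,
  .negSucc 19, .negSucc 47, .negSucc 34, .negSucc 19, .negSucc 0, .ofNat 19, .negSucc 19, .negSucc 19,
  .negSucc 52, .negSucc 36, .negSucc 19, .negSucc 39, .negSucc 33, .negSucc 19, .ofNat 30, .negSucc
  19, .negSucc 19, .ofNat 2, .negSucc 6],
   [.negSucc 0, .negSucc 19, .negSucc 40, .negSucc 19, .negSucc 19, .negSucc 56, .negSucc 19, .negSucc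
  19, .ofNat 608, .negSucc 19, .ofNat 14, .negSucc 19, .ofNat 10, .ofNat 13, .negSucc 19, .negSucc 36,
  .ofNat 8, .negSucc 19, .negSucc 46, .negSucc 19, .ofNat 12, .negSucc 19, .ofNat 11, .ofNat 13,
  .negSucc 19, .negSucc 33, .ofNat 0, .negSucc 19, .negSucc 41, .negSucc 19, .negSucc 19, .ofNat 26,
  .negSucc 19, .negSucc 1, .negSucc 6],
   [.negSucc 6, .ofNat 1, .negSucc 19, .negSucc 19, .ofNat 17, .negSucc 19, .negSucc 19, .negSucc 19,
  .negSucc 19, .ofNat 608, .negSucc 19, .ofNat 16, .negSucc 0, .negSucc 0, .negSucc 2, .negSucc 19,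
  .negSucc 4, .ofNat 7, .negSucc 19, .negSucc 19, .negSucc 19, .ofNat 10, .ofNat 0, .negSucc 2,
  .negSucc 5, .negSucc 19, .negSucc 5, .ofNat 2, .negSucc 19, .negSucc 19, .negSucc 19, .negSucc 19,
  .negSucc 2, .ofNat 4, .ofNat 0],
   [.negSucc 19, .negSucc 19, .ofNat 7, .ofNat 0, .negSucc 19, .negSucc 7, .ofNat 1, .ofNat 10, .ofNat
  14, .negSucc 19, .ofNat 608, .negSucc 19, .negSucc 19, .negSucc 19, .negSucc 19, .ofNat 35, .negSucc
  19, .negSucc 19, .ofNat 9, .ofNat 19, .negSucc 19, .negSucc 43, .negSucc 42, .negSucc 48, .negSucc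
  56, .negSucc 19, .negSucc 46, .negSucc 47, .negSucc 19, .negSucc 19, .negSucc 19, .negSucc 19,
  .ofNat 15, .negSucc 1, .negSucc 7],
   [.negSucc 19, .negSucc 46, .negSucc 19, .ofNat 2, .negSucc 31, .negSucc 19, .ofNat 12, .ofNat 23,
  .negSucc 19, .ofNat 16, .negSucc 19, .ofNat 608, .negSucc 19, .negSucc 19, .negSucc 74, .negSucc 19,
  .negSucc 19, .negSucc 48, .negSucc 19, .ofNat 18, .ofNat 4, .negSucc 19, .negSucc 43, .negSucc 55,
  .negSucc 19, .negSucc 44, .negSucc 61, .negSucc 19, .negSucc 55, .negSucc 19, .negSucc 19, .negSucc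
  54, .negSucc 19, .ofNat 1, .ofNat 4],
   [.negSucc 19, .negSucc 39, .negSucc 41, .negSucc 19, .negSucc 40, .negSucc 51, .negSucc 19, .negSucc
  19, .ofNat 10, .negSucc 0, .negSucc 19, .negSucc 19, .ofNat 608, .ofNat 35, .negSucc 19, .negSucc
  19, .ofNat 9, .negSucc 19, .negSucc 19, .ofNat 31, .ofNat 3, .ofNat 4, .negSucc 19, .negSucc 19,
  .negSucc 47, .negSucc 36, .negSucc 19, .negSucc 51, .negSucc 41, .negSucc 19, .ofNat 15, .negSucc
  19, .negSucc 19, .negSucc 7, .negSucc 10],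
   [.ofNat 7, .negSucc 19, .negSucc 19, .ofNat 14, .negSucc 49, .negSucc 62, .negSucc 19, .negSucc 19,
  .ofNat 13, .negSucc 0, .negSucc 19, .negSucc 19, .ofNat 35, .ofNat 608, .negSucc 19, .negSucc 19,
  .negSucc 19, .negSucc 58, .negSucc 57, .negSucc 19, .ofNat 9, .ofNat 16, .negSucc 19, .negSucc 19,
  .ofNat 0, .ofNat 5, .negSucc 69, .negSucc 19, .negSucc 19, .negSucc 1, .negSucc 19, .ofNat 2,
  .negSucc 0, .ofNat 20, .ofNat 46],
   [.ofNat 0, .negSucc 19, .negSucc 53, .negSucc 19, .negSucc 53, .negSucc 19, .negSucc 49, .negSucc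
  52, .negSucc 19, .negSucc 2, .negSucc 19, .negSucc 74, .negSucc 19, .negSucc 19, .ofNat 608,
  .negSucc 19, .ofNat 19, .negSucc 19, .negSucc 70, .negSucc 19, .ofNat 17, .negSucc 19, .ofNat 8,
  .negSucc 39, .negSucc 19, .ofNat 7, .negSucc 19, .negSucc 65, .negSucc 19, .ofNat 2, .negSucc 41,
  .negSucc 19, .ofNat 8, .ofNat 20, .ofNat 48],
   [.ofNat 2, .ofNat 14, .negSucc 19, .negSucc 19, .negSucc 19, .negSucc 55, .negSucc 38, .negSucc 38,
  .negSucc 36, .negSucc 19, .ofNat 35, .negSucc 19, .negSucc 19, .negSucc 19, .negSucc 19, .ofNat 608,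
  .ofNat 18, .ofNat 31, .negSucc 19, .negSucc 19, .negSucc 19, .ofNat 5, .negSucc 2, .negSucc 44,
  .negSucc 46, .negSucc 19, .negSucc 19, .negSucc 19, .negSucc 36, .negSucc 3, .negSucc 38, .negSucc
  47, .negSucc 19, .ofNat 20, .ofNat 39],
   [.negSucc 7, .ofNat 10, .ofNat 23, .negSucc 19, .negSucc 19, .negSucc 19, .ofNat 11, .negSucc 19,
  .ofNat 8, .negSucc 4, .negSucc 19, .negSucc 19, .ofNat 9, .negSucc 19, .ofNat 19, .ofNat 18, .ofNat
  608, .negSucc 19, .negSucc 19, .negSucc 19, .ofNat 7, .ofNat 22, .negSucc 19, .ofNat 30, .negSucc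
  19, .negSucc 19, .negSucc 19, .ofNat 22, .ofNat 22, .ofNat 7, .negSucc 19, .ofNat 8, .negSucc 3,
  .negSucc 5, .ofNat 20],
   [.ofNat 1, .ofNat 14, .negSucc 19, .ofNat 10, .negSucc 19, .negSucc 50, .negSucc 19, .negSucc 47,
  .negSucc 19, .ofNat 7, .negSucc 19, .negSucc 48, .negSucc 19, .negSucc 58, .negSucc 19, .ofNat 31,
  .negSucc 19, .ofNat 608, .negSucc 19, .negSucc 19, .ofNat 8, .negSucc 19, .ofNat 12, .negSucc 19,
  .ofNat 26, .negSucc 19, .negSucc 61, .negSucc 19, .ofNat 22, .ofNat 7, .negSucc 47, .negSucc 19,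
  .ofNat 11, .negSucc 7, .ofNat 20],
   [.ofNat 12, .negSucc 19, .ofNat 16, .negSucc 0, .ofNat 11, .negSucc 19, .negSucc 19, .negSucc 34,
  .negSucc 46, .negSucc 19, .ofNat 9, .negSucc 19, .negSucc 19, .negSucc 57, .negSucc 70, .negSucc 19,
  .negSucc 19, .negSucc 19, .ofNat 608, .negSucc 19, .negSucc 19, .ofNat 16, .ofNat 2, .negSucc 19,
  .negSucc 19, .negSucc 2, .negSucc 61, .negSucc 61, .negSucc 19, .ofNat 0, .negSucc 35, .negSucc 50,
  .negSucc 19, .ofNat 1, .ofNat 20],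
   [.negSucc 19, .ofNat 13, .negSucc 0, .negSucc 2, .ofNat 8, .negSucc 4, .ofNat 7, .negSucc 19,
  .negSucc 19, .negSucc 19, .ofNat 19, .ofNat 18, .ofNat 31, .negSucc 19, .negSucc 19, .negSucc 19,
  .negSucc 19, .negSucc 19, .negSucc 19, .ofNat 608, .negSucc 19, .negSucc 19, .negSucc 19, .negSucc
  37, .negSucc 41, .negSucc 35, .negSucc 46, .negSucc 46, .negSucc 39, .negSucc 19, .ofNat 6, .ofNat
  8, .negSucc 0, .ofNat 20, .ofNat 20],
   [.negSucc 19, .negSucc 19, .ofNat 5, .negSucc 1, .negSucc 19, .ofNat 3, .ofNat 1, .negSucc 0, .ofNat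
  12, .negSucc 19, .negSucc 19, .ofNat 4, .ofNat 3, .ofNat 9, .ofNat 17, .negSucc 19, .ofNat 7, .ofNat
  8, .negSucc 19, .negSucc 19, .ofNat 608, .negSucc 19, .negSucc 19, .negSucc 19, .negSucc 19, .ofNat
  19, .negSucc 19, .negSucc 19, .ofNat 12, .negSucc 16, .negSucc 19, .negSucc 19, .ofNat 2, .negSucc
  4, .ofNat 0],
   [.negSucc 19, .negSucc 44, .negSucc 19, .ofNat 3, .negSucc 42, .negSucc 19, .ofNat 12, .ofNat 19,
  .negSucc 19, .ofNat 10, .negSucc 43, .negSucc 19, .ofNat 4, .ofNat 16, .negSucc 19, .ofNat 5, .ofNat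
  22, .negSucc 19, .ofNat 16, .negSucc 19, .negSucc 19, .ofNat 608, .negSucc 19, .negSucc 19, .negSucc
  58, .negSucc 19, .negSucc 19, .negSucc 51, .negSucc 19, .ofNat 4, .negSucc 19, .negSucc 41, .negSucc
  19, .ofNat 0, .negSucc 1],
   [.negSucc 19, .negSucc 37, .negSucc 42, .negSucc 19, .negSucc 40, .negSucc 51, .negSucc 19, .negSucc
  19, .ofNat 11, .ofNat 0, .negSucc 42, .negSucc 43, .negSucc 19, .negSucc 19, .ofNat 8, .negSucc 2,
  .negSucc 19, .ofNat 12, .ofNat 2, .negSucc 19, .negSucc 19, .negSucc 19, .ofNat 608, .ofNat 19,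
  .negSucc 19, .negSucc 19, .ofNat 12, .negSucc 19, .negSucc 19, .ofNat 19, .ofNat 2, .negSucc 19,
  .negSucc 19, .negSucc 3, .negSucc 8],
   [.ofNat 5, .negSucc 19, .negSucc 19, .ofNat 18, .negSucc 38, .negSucc 58, .negSucc 19, .negSucc 19,
  .ofNat 13, .negSucc 2, .negSucc 48, .negSucc 55, .negSucc 19, .negSucc 19, .negSucc 39, .negSucc 44,
  .ofNat 30, .negSucc 19, .negSucc 19, .negSucc 37, .negSucc 19, .negSucc 19, .ofNat 19, .ofNat 608,
  .negSucc 19, .negSucc 19, .negSucc 19, .negSucc 22, .negSucc 43, .negSucc 19, .negSucc 19, .ofNat 5,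
  .ofNat 0, .ofNat 20, .ofNat 38],
   [.negSucc 1, .negSucc 19, .negSucc 57, .negSucc 19, .negSucc 51, .negSucc 19, .negSucc 50, .negSucc
  52, .negSucc 19, .negSucc 5, .negSucc 56, .negSucc 19, .negSucc 47, .ofNat 0, .negSucc 19, .negSucc
  46, .negSucc 19, .ofNat 26, .negSucc 19, .negSucc 41, .negSucc 19, .negSucc 58, .negSucc 19,
  .negSucc 19, .ofNat 608, .negSucc 19, .negSucc 16, .negSucc 19, .negSucc 58, .negSucc 19, .negSucc
  44, .negSucc 19, .ofNat 4, .ofNat 20, .ofNat 44],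
   [.ofNat 3, .ofNat 18, .negSucc 19, .negSucc 19, .negSucc 19, .negSucc 49, .negSucc 39, .negSucc 36,
  .negSucc 33, .negSucc 19, .negSucc 19, .negSucc 44, .negSucc 36, .ofNat 5, .ofNat 7, .negSucc 19,
  .negSucc 19, .negSucc 19, .negSucc 2, .negSucc 35, .ofNat 19, .negSucc 19, .negSucc 19, .negSucc 19,
  .negSucc 19, .ofNat 608, .ofNat 4, .ofNat 19, .negSucc 19, .negSucc 19, .negSucc 39, .negSucc 43,
  .negSucc 19, .ofNat 20, .ofNat 35],
   [.ofNat 3, .negSucc 0, .ofNat 19, .negSucc 19, .negSucc 19, .negSucc 19, .ofNat 34, .negSucc 19,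
  .ofNat 0, .negSucc 5, .negSucc 46, .negSucc 61, .negSucc 19, .negSucc 69, .negSucc 19, .negSucc 19,
  .negSucc 19, .negSucc 61, .negSucc 61, .negSucc 46, .negSucc 19, .negSucc 19, .ofNat 12, .negSucc
  19, .negSucc 16, .ofNat 4, .ofNat 608, .negSucc 19, .negSucc 19, .negSucc 19, .negSucc 19, .ofNat 0,
  .ofNat 2, .ofNat 2, .ofNat 20],
   [.ofNat 1, .ofNat 12, .negSucc 19, .ofNat 11, .negSucc 19, .negSucc 73, .negSucc 19, .negSucc 39,
  .negSucc 19, .ofNat 2, .negSucc 47, .negSucc 19, .negSucc 51, .negSucc 19, .negSucc 65, .negSucc 19,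
  .ofNat 22, .negSucc 19, .negSucc 61, .negSucc 46, .negSucc 19, .negSucc 51, .negSucc 19, .negSucc
  22, .negSucc 19, .ofNat 19, .negSucc 19, .ofNat 608, .negSucc 19, .negSucc 19, .negSucc 39, .negSucc
  19, .ofNat 9, .negSucc 3, .ofNat 20],
   [.ofNat 12, .negSucc 19, .ofNat 10, .ofNat 0, .ofNat 34, .negSucc 19, .negSucc 19, .negSucc 33,
  .negSucc 41, .negSucc 19, .negSucc 19, .negSucc 55, .negSucc 41, .negSucc 19, .negSucc 19, .negSucc
  36, .ofNat 22, .ofNat 22, .negSucc 19, .negSucc 39, .ofNat 12, .negSucc 19, .negSucc 19, .negSucc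
  43, .negSucc 58, .negSucc 19, .negSucc 19, .negSucc 19, .ofNat 608, .negSucc 19, .negSucc 41,
  .negSucc 48, .negSucc 19, .ofNat 5, .ofNat 20],
   [.negSucc 19, .ofNat 13, .negSucc 2, .negSucc 5, .ofNat 0, .negSucc 5, .ofNat 2, .negSucc 19,
  .negSucc 19, .negSucc 19, .negSucc 19, .negSucc 19, .negSucc 19, .negSucc 1, .ofNat 2, .negSucc 3,
  .ofNat 7, .ofNat 7, .ofNat 0, .negSucc 19, .negSucc 16, .ofNat 4, .ofNat 19, .negSucc 19, .negSucc
  19, .negSucc 19, .negSucc 19, .negSucc 19, .negSucc 19, .ofNat 608, .negSucc 1, .ofNat 4, .negSucc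
  4, .ofNat 20, .ofNat 20],
   [.ofNat 4, .ofNat 9, .ofNat 16, .negSucc 19, .ofNat 7, .ofNat 22, .negSucc 19, .ofNat 30, .negSucc
  19, .negSucc 19, .negSucc 19, .negSucc 19, .ofNat 15, .negSucc 19, .negSucc 41, .negSucc 38,
  .negSucc 19, .negSucc 47, .negSucc 35, .ofNat 6, .negSucc 19, .negSucc 19, .ofNat 2, .negSucc 19,
  .negSucc 44, .negSucc 39, .negSucc 19, .negSucc 39, .negSucc 41, .negSucc 1, .ofNat 608, .negSucc
  19, .negSucc 19, .ofNat 20, .ofNat 20],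
   [.ofNat 3, .ofNat 17, .negSucc 19, .ofNat 8, .ofNat 8, .negSucc 19, .ofNat 12, .negSucc 19, .ofNat
  26, .negSucc 19, .negSucc 19, .negSucc 54, .negSucc 19, .ofNat 2, .negSucc 19, .negSucc 47, .ofNat
  8, .negSucc 19, .negSucc 50, .ofNat 8, .negSucc 19, .negSucc 41, .negSucc 19, .ofNat 5, .negSucc 19,
  .negSucc 43, .ofNat 0, .negSucc 19, .negSucc 48, .ofNat 4, .negSucc 19, .ofNat 608, .negSucc 19,
  .ofNat 20, .ofNat 20],
   [.ofNat 4, .negSucc 19, .ofNat 5, .negSucc 2, .negSucc 19, .ofNat 16, .ofNat 2, .negSucc 19,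
  .negSucc 19, .negSucc 2, .ofNat 15, .negSucc 19, .negSucc 19, .negSucc 0, .ofNat 8, .negSucc 19,
  .negSucc 3, .ofNat 11, .negSucc 19, .negSucc 0, .ofNat 2, .negSucc 19, .negSucc 19, .ofNat 0, .ofNat
  4, .negSucc 19, .ofNat 2, .ofNat 9, .negSucc 19, .negSucc 4, .negSucc 19, .negSucc 19, .ofNat 608,
  .ofNat 20, .ofNat 20],
   [.ofNat 20, .ofNat 0, .negSucc 4, .negSucc 6, .ofNat 20, .ofNat 20, .ofNat 20, .ofNat 2, .negSucc 1,
  .ofNat 4, .negSucc 1, .ofNat 1, .negSucc 7, .ofNat 20, .ofNat 20, .ofNat 20, .negSucc 5, .negSucc 7,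
  .ofNat 1, .ofNat 20, .negSucc 4, .ofNat 0, .negSucc 3, .ofNat 20, .ofNat 20, .ofNat 20, .ofNat 2,
  .negSucc 3, .ofNat 5, .ofNat 20, .ofNat 20, .ofNat 20, .ofNat 20, .ofNat 608, .negSucc 19],
   [.ofNat 20, .ofNat 20, .ofNat 20, .ofNat 20, .negSucc 21, .negSucc 21, .negSucc 21, .negSucc 6,
  .negSucc 6, .ofNat 0, .negSucc 7, .ofNat 4, .negSucc 10, .ofNat 46, .ofNat 48, .ofNat 39, .ofNat 20,
  .ofNat 20, .ofNat 20, .ofNat 20, .ofNat 0, .negSucc 1, .negSucc 8, .ofNat 38, .ofNat 44, .ofNat 35,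
  .ofNat 20, .ofNat 20, .ofNat 20, .ofNat 20, .ofNat 20, .ofNat 20, .ofNat 20, .negSucc 19, .ofNat
  608]]

/-- The Cholesky columns. -/
def cols : List (List ℤ) :=
  [[.ofNat 543],
   [.negSucc 17, .ofNat 543],
   [.negSucc 17, .negSucc 18, .ofNat 542],
   [.negSucc 17, .negSucc 18, .negSucc 19, .ofNat 542],
   [.negSucc 17, .negSucc 18, .ofNat 12, .negSucc 1, .ofNat 542],
   [.negSucc 17, .negSucc 49, .negSucc 20, .negSucc 9, .negSucc 19, .ofNat 539],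
   [.negSucc 17, .negSucc 36, .negSucc 31, .negSucc 21, .negSucc 19, .negSucc 24, .ofNat 539],
   [.ofNat 13, .negSucc 17, .negSucc 18, .ofNat 0, .negSucc 17, .negSucc 20, .ofNat 12, .ofNat 541],
   [.negSucc 0, .negSucc 17, .negSucc 37, .negSucc 20, .negSucc 17, .negSucc 56, .negSucc 25, .negSucc
  22, .ofNat 536],
   [.negSucc 5, .ofNat 1, .negSucc 18, .negSucc 18, .ofNat 16, .negSucc 18, .negSucc 20, .negSucc 18,
  .negSucc 23, .ofNat 540],
   [.negSucc 17, .negSucc 18, .ofNat 5, .negSucc 0, .negSucc 19, .negSucc 9, .negSucc 1, .ofNat 8,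
  .ofNat 11, .negSucc 17, .ofNat 541],
   [.negSucc 17, .negSucc 43, .negSucc 20, .negSucc 0, .negSucc 30, .negSucc 24, .ofNat 4, .ofNat 17,
  .negSucc 24, .ofNat 14, .negSucc 20, .ofNat 537],
   [.negSucc 17, .negSucc 36, .negSucc 40, .negSucc 21, .negSucc 38, .negSucc 55, .negSucc 28, .negSucc
  23, .negSucc 4, .negSucc 5, .negSucc 21, .negSucc 28, .ofNat 532],
   [.ofNat 6, .negSucc 17, .negSucc 18, .ofNat 12, .negSucc 45, .negSucc 61, .negSucc 24, .negSucc 22,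
  .ofNat 0, .negSucc 3, .negSucc 20, .negSucc 25, .ofNat 16, .ofNat 534],
   [.ofNat 0, .negSucc 17, .negSucc 49, .negSucc 20, .negSucc 48, .negSucc 23, .negSucc 53, .negSucc
  52, .negSucc 32, .negSucc 9, .negSucc 19, .negSucc 76, .negSucc 41, .negSucc 35, .ofNat 522],
   [.ofNat 2, .ofNat 13, .negSucc 17, .negSucc 18, .negSucc 17, .negSucc 51, .negSucc 39, .negSucc 37,
  .negSucc 45, .negSucc 25, .ofNat 32, .negSucc 19, .negSucc 30, .negSucc 28, .negSucc 42, .ofNat 529],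
   [.negSucc 6, .ofNat 9, .ofNat 21, .negSucc 17, .negSucc 18, .negSucc 17, .ofNat 10, .negSucc 18,
  .ofNat 6, .negSucc 4, .negSucc 19, .negSucc 18, .ofNat 4, .negSucc 22, .ofNat 12, .ofNat 15, .ofNat
  539],
   [.ofNat 1, .ofNat 13, .negSucc 17, .ofNat 9, .negSucc 17, .negSucc 46, .negSucc 20, .negSucc 46,
  .negSucc 27, .ofNat 1, .negSucc 17, .negSucc 48, .negSucc 31, .negSucc 67, .negSucc 47, .ofNat 6,
  .negSucc 24, .ofNat 526],
   [.ofNat 11, .negSucc 17, .ofNat 14, .negSucc 0, .ofNat 10, .negSucc 18, .negSucc 18, .negSucc 32,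
  .negSucc 46, .negSucc 22, .ofNat 9, .negSucc 19, .negSucc 23, .negSucc 57, .negSucc 84, .negSucc 40,
  .negSucc 18, .negSucc 43, .ofNat 523],
   [.negSucc 17, .ofNat 11, .negSucc 0, .negSucc 2, .ofNat 7, .negSucc 3, .ofNat 7, .negSucc 17,
  .negSucc 18, .negSucc 19, .ofNat 18, .ofNat 18, .ofNat 30, .negSucc 17, .negSucc 16, .negSucc 23,
  .negSucc 17, .negSucc 21, .negSucc 28, .ofNat 537],
   [.negSucc 17, .negSucc 18, .ofNat 3, .negSucc 2, .negSucc 19, .ofNat 0, .negSucc 1, .negSucc 1,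
  .ofNat 10, .negSucc 17, .negSucc 20, .ofNat 1, .negSucc 1, .ofNat 5, .ofNat 13, .negSucc 16, .ofNat
  5, .ofNat 9, .negSucc 15, .negSucc 18, .ofNat 540],
   [.negSucc 17, .negSucc 41, .negSucc 20, .ofNat 0, .negSucc 40, .negSucc 24, .ofNat 4, .ofNat 13,
  .negSucc 24, .ofNat 8, .negSucc 43, .negSucc 30, .negSucc 9, .ofNat 4, .negSucc 33, .negSucc 0,
  .ofNat 18, .negSucc 28, .ofNat 6, .negSucc 15, .negSucc 21, .ofNat 532],
   [.negSucc 17, .negSucc 35, .negSucc 41, .negSucc 21, .negSucc 38, .negSucc 55, .negSucc 28, .negSucc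
  22, .negSucc 3, .negSucc 4, .negSucc 43, .negSucc 51, .negSucc 41, .negSucc 35, .negSucc 25,
  .negSucc 20, .negSucc 23, .negSucc 14, .negSucc 16, .negSucc 18, .negSucc 23, .negSucc 38, .ofNat
  522],
   [.ofNat 5, .negSucc 17, .negSucc 18, .ofNat 15, .negSucc 35, .negSucc 57, .negSucc 23, .negSucc 22,
  .ofNat 1, .negSucc 4, .negSucc 47, .negSucc 59, .negSucc 36, .negSucc 35, .negSucc 66, .negSucc 61,
  .ofNat 24, .negSucc 46, .negSucc 48, .negSucc 39, .negSucc 24, .negSucc 42, .negSucc 23, .ofNat 511],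
   [.negSucc 1, .negSucc 17, .negSucc 53, .negSucc 20, .negSucc 47, .negSucc 24, .negSucc 55, .negSucc
  52, .negSucc 32, .negSucc 12, .negSucc 53, .negSucc 26, .negSucc 66, .negSucc 14, .negSucc 57,
  .negSucc 68, .negSucc 19, .negSucc 4, .negSucc 47, .negSucc 43, .negSucc 26, .negSucc 75, .negSucc
  67, .negSucc 80, .ofNat 492],
   [.ofNat 3, .ofNat 17, .negSucc 17, .negSucc 17, .negSucc 16, .negSucc 45, .negSucc 39, .negSucc 35,
  .negSucc 41, .negSucc 25, .negSucc 18, .negSucc 44, .negSucc 48, .negSucc 6, .negSucc 21, .negSucc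
  41, .negSucc 21, .negSucc 42, .negSucc 26, .negSucc 38, .ofNat 15, .negSucc 29, .negSucc 49,
  .negSucc 60, .negSucc 86, .ofNat 509],
   [.ofNat 3, .negSucc 0, .ofNat 18, .negSucc 17, .negSucc 18, .negSucc 18, .ofNat 30, .negSucc 19,
  .negSucc 0, .negSucc 4, .negSucc 43, .negSucc 59, .negSucc 25, .negSucc 71, .negSucc 37, .negSucc
  28, .negSucc 26, .negSucc 82, .negSucc 87, .negSucc 53, .negSucc 22, .negSucc 34, .negSucc 22,
  .negSucc 71, .negSucc 76, .negSucc 54, .ofNat 494],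
   [.ofNat 1, .ofNat 11, .negSucc 17, .ofNat 10, .negSucc 17, .negSucc 68, .negSucc 21, .negSucc 39,
  .negSucc 29, .negSucc 3, .negSucc 44, .negSucc 23, .negSucc 63, .negSucc 32, .negSucc 89, .negSucc
  44, .ofNat 17, .negSucc 51, .negSucc 94, .negSucc 52, .negSucc 22, .negSucc 69, .negSucc 62,
  .negSucc 94, .negSucc 118, .negSucc 67, .negSucc 126, .ofNat 447],
   [.ofNat 11, .negSucc 17, .ofNat 9, .ofNat 0, .ofNat 31, .negSucc 17, .negSucc 18, .negSucc 30,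
  .negSucc 41, .negSucc 22, .negSucc 17, .negSucc 52, .negSucc 45, .negSucc 22, .negSucc 38, .negSucc
  51, .ofNat 20, .ofNat 2, .negSucc 44, .negSucc 40, .ofNat 8, .negSucc 26, .negSucc 41, .negSucc 81,
  .negSucc 120, .negSucc 84, .negSucc 94, .negSucc 169, .ofNat 454],
   [.negSucc 17, .ofNat 11, .negSucc 2, .negSucc 5, .ofNat 0, .negSucc 4, .ofNat 1, .negSucc 17,
  .negSucc 19, .negSucc 20, .negSucc 18, .negSucc 18, .negSucc 22, .negSucc 3, .negSucc 6, .negSucc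
  10, .ofNat 4, .negSucc 0, .negSucc 6, .negSucc 19, .negSucc 17, .negSucc 1, .ofNat 8, .negSucc 31,
  .negSucc 40, .negSucc 41, .negSucc 47, .negSucc 77, .negSucc 97, .ofNat 518],
   [.ofNat 4, .ofNat 8, .ofNat 15, .negSucc 16, .ofNat 6, .ofNat 22, .negSucc 15, .ofNat 30, .negSucc
  14, .negSucc 17, .negSucc 17, .negSucc 17, .ofNat 16, .negSucc 15, .negSucc 40, .negSucc 38,
  .negSucc 17, .negSucc 48, .negSucc 50, .negSucc 2, .negSucc 19, .negSucc 23, .negSucc 6, .negSucc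
  40, .negSucc 72, .negSucc 70, .negSucc 75, .negSucc 135, .negSucc 169, .negSucc 78, .ofNat 458],
   [.ofNat 3, .ofNat 16, .negSucc 17, .ofNat 7, .ofNat 8, .negSucc 16, .ofNat 11, .negSucc 18, .ofNat
  22, .negSucc 18, .negSucc 17, .negSucc 48, .negSucc 23, .negSucc 2, .negSucc 29, .negSucc 51, .ofNat
  6, .negSucc 29, .negSucc 61, .ofNat 2, .negSucc 20, .negSucc 45, .negSucc 39, .negSucc 32, .negSucc
  64, .negSucc 83, .negSucc 61, .negSucc 130, .negSucc 184, .negSucc 77, .negSucc 198, .ofNat 404],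
   [.ofNat 4, .negSucc 17, .ofNat 4, .negSucc 2, .negSucc 18, .ofNat 13, .ofNat 1, .negSucc 18,
  .negSucc 18, .negSucc 2, .ofNat 13, .negSucc 19, .negSucc 20, .negSucc 1, .negSucc 0, .negSucc 23,
  .negSucc 3, .ofNat 6, .negSucc 25, .negSucc 2, .ofNat 0, .negSucc 20, .negSucc 27, .negSucc 11,
  .negSucc 18, .negSucc 36, .negSucc 18, .negSucc 27, .negSucc 65, .negSucc 30, .negSucc 78, .negSucc
  136, .ofNat 506],
   [.ofNat 18, .ofNat 1, .negSucc 3, .negSucc 5, .ofNat 19, .ofNat 20, .ofNat 20, .ofNat 2, .ofNat 2,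
  .ofNat 5, .ofNat 0, .ofNat 3, .negSucc 1, .ofNat 24, .ofNat 26, .ofNat 26, .negSucc 3, .ofNat 1,
  .ofNat 11, .ofNat 22, .negSucc 1, .ofNat 5, .ofNat 7, .ofNat 36, .ofNat 43, .ofNat 42, .ofNat 31,
  .ofNat 51, .ofNat 69, .ofNat 55, .ofNat 101, .ofNat 165, .ofNat 105, .ofNat 475],
   [.ofNat 18, .ofNat 19, .ofNat 20, .ofNat 20, .negSucc 18, .negSucc 17, .negSucc 17, .negSucc 6,
  .negSucc 6, .ofNat 0, .negSucc 6, .ofNat 4, .negSucc 10, .ofNat 39, .ofNat 46, .ofNat 39, .ofNat 17,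
  .ofNat 24, .ofNat 34, .ofNat 27, .ofNat 1, .ofNat 2, .ofNat 0, .ofNat 53, .ofNat 69, .ofNat 60,
  .ofNat 70, .ofNat 102, .ofNat 127, .ofNat 81, .ofNat 167, .ofNat 268, .ofNat 160, .negSucc 249,
  .ofNat 217]]

theorem chk : certChk 10 314 500 chi mu nu tab cols = true := by decide +kernel

end Pool.Agent.J6H81.Cube.C4
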