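import Pool.Agent.J6H81.Cube.Rel

/-! Certificate for class 5 (support for MP_416390_gt). -/

namespace Pool.Agent.J6H81.Cube.C5

open Pool.Agent.J6H81.Cube

/-- Signs of the class. -/
def chi : List ℤ :=
  [.ofNat 1, .ofNat 1, .ofNat 1, .ofNat 1, .ofNat 1, .ofNat 1, .ofNat 1, .ofNat 1, .ofNat 1, .ofNat 1,
  .ofNat 1, .ofNat 1, .ofNat 1, .ofNat 1, .ofNat 1, .ofNat 1, .ofNat 1, .ofNat 1, .negSucc 0, .negSucc
  0, .ofNat 1, .ofNat 1, .ofNat 1, .ofNat 1, .ofNat 1, .ofNat 1, .ofNat 1, .ofNat 1, .ofNat 1,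
  .negSucc 0, .ofNat 1, .ofNat 1, .ofNat 1, .negSucc 0, .ofNat 1]

/-- Multipliers of the relations. -/
def mu : List ℤ :=
  [.negSucc 19, .negSucc 25, .negSucc 23, .negSucc 24, .negSucc 27, .negSucc 28, .negSucc 28, .negSucc
  15, .negSucc 23, .negSucc 27, .negSucc 43, .negSucc 30, .negSucc 33, .negSucc 42, .negSucc 29,
  .ofNat 19, .ofNat 23, .ofNat 17, .ofNat 19, .ofNat 26, .ofNat 29, .ofNat 22, .ofNat 30, .ofNat 35,
  .ofNat 24, .negSucc 12, .negSucc 31, .negSucc 34, .negSucc 29, .negSucc 34, .negSucc 23, .negSucc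
  24, .negSucc 23, .ofNat 20, .negSucc 21, .negSucc 29, .negSucc 20, .ofNat 33, .ofNat 32, .negSucc
  24, .negSucc 15, .ofNat 18, .ofNat 17, .negSucc 21, .ofNat 19, .ofNat 28, .ofNat 26, .ofNat 36,
  .ofNat 39, .ofNat 34, .ofNat 20, .ofNat 33, .ofNat 21, .ofNat 35, .negSucc 24, .ofNat 17, .ofNat 29,
  .ofNat 34, .negSucc 42, .negSucc 48, .negSucc 44, .negSucc 23, .ofNat 45, .negSucc 26, .negSucc 40,
  .negSucc 33, .ofNat 24, .negSucc 3, .ofNat 25, .negSucc 19, .ofNat 21, .negSucc 27, .ofNat 13,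
  .negSucc 23, .ofNat 17, .negSucc 44, .ofNat 26, .ofNat 43, .ofNat 29, .negSucc 26, .ofNat 27,
  .negSucc 21, .negSucc 46, .negSucc 27, .ofNat 29, .negSucc 20, .negSucc 39, .negSucc 18, .ofNat 18,
  .negSucc 25, .negSucc 35, .negSucc 25, .negSucc 25, .ofNat 38, .ofNat 22, .negSucc 23, .ofNat 21,
  .ofNat 32, .negSucc 24, .negSucc 41, .ofNat 25, .ofNat 24, .negSucc 30, .negSucc 43, .negSucc 24]

/-- Multipliers of the norm conditions. -/
def nu : List ℤ :=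
  [.ofNat 0, .ofNat 0, .ofNat 0, .ofNat 0, .ofNat 0, .ofNat 0, .ofNat 0]

/-- The table. -/
def tab : List (List ℤ) :=
  [[.ofNat 608, .negSucc 19, .negSucc 19, .negSucc 19, .negSucc 19, .negSucc 19, .negSucc 19, .ofNat 0,
  .negSucc 0, .ofNat 4, .negSucc 19, .negSucc 19, .negSucc 19, .ofNat 6, .ofNat 3, .ofNat 5, .ofNat 5,
  .negSucc 0, .ofNat 0, .ofNat 20, .negSucc 19, .negSucc 19, .negSucc 19, .ofNat 4, .negSucc 2, .ofNat
  4, .ofNat 8, .ofNat 6, .ofNat 2, .ofNat 20, .ofNat 9, .ofNat 9, .ofNat 10, .ofNat 20, .negSucc 19],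
   [.negSucc 19, .ofNat 608, .negSucc 19, .negSucc 19, .negSucc 19, .negSucc 39, .negSucc 38, .negSucc
  19, .negSucc 19, .ofNat 8, .negSucc 19, .negSucc 45, .negSucc 42, .negSucc 19, .negSucc 19, .ofNat
  6, .ofNat 9, .ofNat 2, .ofNat 20, .negSucc 18, .negSucc 19, .negSucc 43, .negSucc 36, .negSucc 19,
  .negSucc 19, .ofNat 16, .negSucc 3, .ofNat 10, .negSucc 19, .negSucc 13, .ofNat 4, .ofNat 15,
  .negSucc 19, .ofNat 0, .negSucc 19],
   [.negSucc 19, .negSucc 19, .ofNat 608, .negSucc 19, .ofNat 0, .negSucc 19, .negSucc 43, .negSucc 19,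
  .negSucc 47, .negSucc 19, .ofNat 6, .negSucc 19, .negSucc 44, .negSucc 19, .negSucc 45, .negSucc 19,
  .ofNat 24, .negSucc 19, .negSucc 0, .negSucc 12, .ofNat 4, .negSucc 19, .negSucc 43, .negSucc 19,
  .negSucc 55, .negSucc 19, .ofNat 11, .negSucc 19, .ofNat 13, .negSucc 0, .ofNat 14, .negSucc 19,
  .ofNat 12, .negSucc 14, .negSucc 19],
   [.negSucc 19, .negSucc 19, .negSucc 19, .ofNat 608, .negSucc 0, .ofNat 4, .negSucc 19, .ofNat 8,
  .negSucc 19, .negSucc 19, .ofNat 3, .ofNat 5, .negSucc 19, .ofNat 6, .negSucc 19, .negSucc 19,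
  .negSucc 19, .negSucc 6, .ofNat 4, .ofNat 3, .negSucc 2, .ofNat 4, .negSucc 19, .ofNat 16, .negSucc
  19, .negSucc 19, .negSucc 19, .ofNat 12, .negSucc 1, .negSucc 8, .negSucc 19, .ofNat 15, .negSucc 2,
  .negSucc 13, .negSucc 19],
   [.negSucc 19, .negSucc 19, .ofNat 0, .negSucc 0, .ofNat 608, .negSucc 19, .negSucc 19, .negSucc 19,
  .negSucc 19, .ofNat 25, .negSucc 19, .negSucc 44, .negSucc 38, .negSucc 48, .negSucc 41, .negSucc
  19, .negSucc 19, .negSucc 19, .negSucc 3, .negSucc 6, .negSucc 19, .negSucc 47, .negSucc 45,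
  .negSucc 35, .negSucc 49, .negSucc 19, .negSucc 19, .negSucc 19, .ofNat 25, .negSucc 20, .ofNat 8,
  .ofNat 4, .negSucc 19, .ofNat 20, .ofNat 14],
   [.negSucc 19, .negSucc 39, .negSucc 19, .ofNat 4, .negSucc 19, .ofNat 608, .negSucc 19, .negSucc 19,
  .negSucc 64, .negSucc 19, .ofNat 5, .negSucc 19, .ofNat 0, .negSucc 63, .negSucc 19, .ofNat 1,
  .negSucc 19, .ofNat 4, .ofNat 20, .ofNat 44, .ofNat 8, .negSucc 19, .negSucc 41, .negSucc 50,
  .negSucc 19, .negSucc 52, .negSucc 19, .negSucc 64, .negSucc 19, .ofNat 16, .ofNat 23, .negSucc 19,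
  .negSucc 44, .ofNat 20, .negSucc 44],
   [.negSucc 19, .negSucc 38, .negSucc 43, .negSucc 19, .negSucc 19, .negSucc 19, .ofNat 608, .ofNat
  25, .negSucc 19, .negSucc 19, .negSucc 0, .negSucc 39, .negSucc 19, .negSucc 19, .negSucc 32,
  .negSucc 3, .negSucc 43, .negSucc 19, .ofNat 20, .ofNat 41, .ofNat 6, .ofNat 2, .negSucc 19,
  .negSucc 19, .negSucc 51, .negSucc 37, .ofNat 25, .negSucc 19, .negSucc 19, .negSucc 7, .negSucc 19,
  .ofNat 10, .negSucc 41, .ofNat 20, .negSucc 32],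
   [.ofNat 0, .negSucc 19, .negSucc 19, .ofNat 8, .negSucc 19, .negSucc 19, .ofNat 25, .ofNat 608,
  .negSucc 19, .negSucc 19, .ofNat 9, .ofNat 24, .negSucc 19, .negSucc 19, .ofNat 19, .ofNat 13,
  .negSucc 19, .ofNat 7, .negSucc 3, .ofNat 20, .negSucc 3, .ofNat 11, .negSucc 19, .negSucc 19,
  .ofNat 14, .ofNat 1, .negSucc 19, .ofNat 21, .negSucc 15, .ofNat 20, .ofNat 10, .negSucc 19,
  .negSucc 19, .negSucc 4, .ofNat 0],
   [.negSucc 0, .negSucc 19, .negSucc 47, .negSucc 19, .negSucc 19, .negSucc 64, .negSucc 19, .negSucc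
  19, .ofNat 608, .negSucc 19, .ofNat 2, .negSucc 19, .negSucc 6, .negSucc 58, .negSucc 19, .negSucc
  2, .negSucc 46, .negSucc 19, .negSucc 0, .ofNat 20, .ofNat 10, .negSucc 19, .ofNat 12, .negSucc 53,
  .negSucc 19, .ofNat 9, .negSucc 60, .negSucc 19, .ofNat 8, .ofNat 20, .negSucc 19, .ofNat 15,
  .negSucc 19, .negSucc 22, .ofNat 4],
   [.ofNat 4, .ofNat 8, .negSucc 19, .negSucc 19, .ofNat 25, .negSucc 19, .negSucc 19, .negSucc 19,
  .negSucc 19, .ofNat 608, .negSucc 19, .negSucc 40, .negSucc 35, .negSucc 52, .negSucc 36, .negSucc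
  19, .ofNat 4, .ofNat 1, .ofNat 20, .ofNat 20, .negSucc 19, .ofNat 13, .negSucc 1, .negSucc 40,
  .negSucc 48, .negSucc 19, .negSucc 23, .negSucc 47, .negSucc 19, .ofNat 20, .negSucc 19, .negSucc
  19, .negSucc 38, .negSucc 28, .negSucc 36],
   [.negSucc 19, .negSucc 19, .ofNat 6, .ofNat 3, .negSucc 19, .ofNat 5, .negSucc 0, .ofNat 9, .ofNat
  2, .negSucc 19, .ofNat 608, .negSucc 19, .negSucc 19, .negSucc 19, .negSucc 19, .ofNat 25, .negSucc
  19, .negSucc 19, .negSucc 5, .negSucc 8, .negSucc 19, .negSucc 48, .negSucc 48, .negSucc 43,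
  .negSucc 54, .negSucc 19, .negSucc 47, .negSucc 43, .negSucc 19, .ofNat 20, .negSucc 19, .negSucc
  19, .ofNat 23, .negSucc 6, .ofNat 7],
   [.negSucc 19, .negSucc 45, .negSucc 19, .ofNat 5, .negSucc 44, .negSucc 19, .negSucc 39, .ofNat 24,
  .negSucc 19, .negSucc 40, .negSucc 19, .ofNat 608, .negSucc 19, .negSucc 19, .negSucc 64, .negSucc
  19, .negSucc 19, .ofNat 6, .ofNat 20, .ofNat 42, .ofNat 9, .negSucc 19, .negSucc 49, .negSucc 53,
  .negSucc 19, .negSucc 51, .negSucc 62, .negSucc 19, .ofNat 5, .ofNat 20, .negSucc 19, .negSucc 62,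
  .negSucc 19, .negSucc 26, .negSucc 47],
   [.negSucc 19, .negSucc 42, .negSucc 44, .negSucc 19, .negSucc 38, .ofNat 0, .negSucc 19, .negSucc
  19, .negSucc 6, .negSucc 35, .negSucc 19, .negSucc 19, .ofNat 608, .ofNat 25, .negSucc 19, .negSucc
  19, .negSucc 45, .negSucc 19, .ofNat 20, .ofNat 41, .ofNat 9, .ofNat 10, .negSucc 19, .negSucc 19,
  .negSucc 54, .negSucc 36, .negSucc 19, .negSucc 49, .ofNat 2, .ofNat 20, .ofNat 23, .negSucc 19,
  .negSucc 19, .negSucc 19, .negSucc 38],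
   [.ofNat 6, .negSucc 19, .negSucc 19, .ofNat 6, .negSucc 48, .negSucc 63, .negSucc 19, .negSucc 19,
  .negSucc 58, .negSucc 52, .negSucc 19, .negSucc 19, .ofNat 25, .ofNat 608, .negSucc 19, .negSucc 19,
  .negSucc 19, .ofNat 9, .negSucc 1, .ofNat 20, .ofNat 4, .ofNat 14, .negSucc 19, .negSucc 19, .ofNat
  0, .ofNat 15, .negSucc 49, .negSucc 19, .negSucc 19, .ofNat 45, .negSucc 19, .ofNat 7, .ofNat 27,
  .ofNat 20, .ofNat 9],
   [.ofNat 3, .negSucc 19, .negSucc 45, .negSucc 19, .negSucc 41, .negSucc 19, .negSucc 32, .ofNat 19,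
  .negSucc 19, .negSucc 36, .negSucc 19, .negSucc 64, .negSucc 19, .negSucc 19, .ofNat 608, .negSucc
  19, .negSucc 48, .negSucc 19, .negSucc 0, .ofNat 20, .ofNat 15, .negSucc 19, .ofNat 15, .negSucc 39,
  .negSucc 19, .ofNat 14, .negSucc 19, .negSucc 54, .negSucc 19, .ofNat 63, .negSucc 46, .negSucc 19,
  .ofNat 20, .ofNat 20, .negSucc 1],
   [.ofNat 5, .ofNat 6, .negSucc 19, .negSucc 19, .negSucc 19, .ofNat 1, .negSucc 3, .ofNat 13,
  .negSucc 2, .negSucc 19, .ofNat 25, .negSucc 19, .negSucc 19, .negSucc 19, .negSucc 19, .ofNat 608,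
  .ofNat 2, .ofNat 1, .ofNat 20, .ofNat 20, .negSucc 19, .ofNat 12, .negSucc 2, .negSucc 54, .negSucc
  53, .negSucc 19, .negSucc 19, .negSucc 19, .negSucc 0, .ofNat 69, .negSucc 66, .negSucc 59, .negSucc
  19, .ofNat 20, .negSucc 45],
   [.ofNat 5, .ofNat 9, .ofNat 24, .negSucc 19, .negSucc 19, .negSucc 19, .negSucc 43, .negSucc 19,
  .negSucc 46, .ofNat 4, .negSucc 19, .negSucc 19, .negSucc 45, .negSucc 19, .negSucc 48, .ofNat 2,
  .ofNat 608, .negSucc 19, .ofNat 20, .ofNat 20, .ofNat 8, .ofNat 23, .negSucc 19, .ofNat 10, .negSucc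
  19, .negSucc 19, .negSucc 19, .negSucc 53, .ofNat 5, .ofNat 0, .negSucc 19, .negSucc 46, .ofNat 8,
  .negSucc 8, .negSucc 19],
   [.negSucc 0, .ofNat 2, .negSucc 19, .negSucc 6, .negSucc 19, .ofNat 4, .negSucc 19, .ofNat 7,
  .negSucc 19, .ofNat 1, .negSucc 19, .ofNat 6, .negSucc 19, .ofNat 9, .negSucc 19, .ofNat 1, .negSucc
  19, .ofNat 608, .ofNat 20, .ofNat 20, .ofNat 4, .negSucc 19, .ofNat 10, .negSucc 19, .ofNat 15,
  .negSucc 19, .ofNat 14, .negSucc 19, .negSucc 6, .negSucc 3, .ofNat 7, .negSucc 19, .negSucc 0,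
  .ofNat 2, .negSucc 19],
   [.ofNat 0, .ofNat 20, .negSucc 0, .ofNat 4, .negSucc 3, .ofNat 20, .ofNat 20, .negSucc 3, .negSucc
  0, .ofNat 20, .negSucc 5, .ofNat 20, .ofNat 20, .negSucc 1, .negSucc 0, .ofNat 20, .ofNat 20, .ofNat
  20, .ofNat 608, .negSucc 19, .ofNat 20, .negSucc 4, .negSucc 1, .ofNat 20, .ofNat 20, .ofNat 1,
  .negSucc 4, .ofNat 7, .ofNat 20, .negSucc 2, .negSucc 7, .ofNat 1, .ofNat 20, .ofNat 6, .ofNat 20],
   [.ofNat 20, .negSucc 18, .negSucc 12, .ofNat 3, .negSucc 6, .ofNat 44, .ofNat 41, .ofNat 20, .ofNat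
  20, .ofNat 20, .negSucc 8, .ofNat 42, .ofNat 41, .ofNat 20, .ofNat 20, .ofNat 20, .ofNat 20, .ofNat
  20, .negSucc 19, .ofNat 608, .ofNat 20, .ofNat 20, .ofNat 20, .negSucc 4, .negSucc 22, .negSucc 28,
  .ofNat 40, .ofNat 44, .ofNat 3, .negSucc 19, .ofNat 49, .ofNat 38, .negSucc 5, .negSucc 19, .ofNat
  20],
   [.negSucc 19, .negSucc 19, .ofNat 4, .negSucc 2, .negSucc 19, .ofNat 8, .ofNat 6, .negSucc 3, .ofNat
  10, .negSucc 19, .negSucc 19, .ofNat 9, .ofNat 9, .ofNat 4, .ofNat 15, .negSucc 19, .ofNat 8, .ofNat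
  4, .ofNat 20, .ofNat 20, .ofNat 608, .negSucc 19, .negSucc 19, .negSucc 19, .negSucc 19, .ofNat 16,
  .negSucc 19, .negSucc 19, .ofNat 6, .negSucc 17, .negSucc 19, .negSucc 19, .ofNat 6, .negSucc 1,
  .ofNat 4],
   [.negSucc 19, .negSucc 43, .negSucc 19, .ofNat 4, .negSucc 47, .negSucc 19, .ofNat 2, .ofNat 11,
  .negSucc 19, .ofNat 13, .negSucc 48, .negSucc 19, .ofNat 10, .ofNat 14, .negSucc 19, .ofNat 12,
  .ofNat 23, .negSucc 19, .negSucc 4, .ofNat 20, .negSucc 19, .ofNat 608, .negSucc 19, .negSucc 19,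
  .negSucc 55, .negSucc 19, .negSucc 19, .negSucc 45, .negSucc 19, .negSucc 0, .negSucc 19, .negSucc
  45, .negSucc 19, .negSucc 11, .ofNat 5],
   [.negSucc 19, .negSucc 36, .negSucc 43, .negSucc 19, .negSucc 45, .negSucc 41, .negSucc 19, .negSucc
  19, .ofNat 12, .negSucc 1, .negSucc 48, .negSucc 49, .negSucc 19, .negSucc 19, .ofNat 15, .negSucc
  2, .negSucc 19, .ofNat 10, .negSucc 1, .ofNat 20, .negSucc 19, .negSucc 19, .ofNat 608, .ofNat 16,
  .negSucc 19, .negSucc 19, .ofNat 6, .negSucc 19, .negSucc 19, .negSucc 4, .ofNat 6, .negSucc 19,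
  .negSucc 19, .negSucc 3, .ofNat 11],
   [.ofNat 4, .negSucc 19, .negSucc 19, .ofNat 16, .negSucc 35, .negSucc 50, .negSucc 19, .negSucc 19,
  .negSucc 53, .negSucc 40, .negSucc 43, .negSucc 53, .negSucc 19, .negSucc 19, .negSucc 39, .negSucc
  54, .ofNat 10, .negSucc 19, .ofNat 20, .negSucc 4, .negSucc 19, .negSucc 19, .ofNat 16, .ofNat 608,
  .negSucc 19, .negSucc 19, .negSucc 19, .ofNat 18, .ofNat 1, .ofNat 20, .negSucc 19, .ofNat 2, .ofNat
  12, .ofNat 20, .ofNat 22],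
   [.negSucc 2, .negSucc 19, .negSucc 55, .negSucc 19, .negSucc 49, .negSucc 19, .negSucc 51, .ofNat
  14, .negSucc 19, .negSucc 48, .negSucc 54, .negSucc 19, .negSucc 54, .ofNat 0, .negSucc 19, .negSucc
  53, .negSucc 19, .ofNat 15, .ofNat 20, .negSucc 22, .negSucc 19, .negSucc 55, .negSucc 19, .negSucc
  19, .ofNat 608, .negSucc 19, .negSucc 57, .negSucc 19, .ofNat 5, .ofNat 20, .negSucc 41, .negSucc
  19, .ofNat 4, .ofNat 20, .ofNat 24],
   [.ofNat 4, .ofNat 16, .negSucc 19, .negSucc 19, .negSucc 19, .negSucc 52, .negSucc 37, .ofNat 1,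
  .ofNat 9, .negSucc 19, .negSucc 19, .negSucc 51, .negSucc 36, .ofNat 15, .ofNat 14, .negSucc 19,
  .negSucc 19, .negSucc 19, .ofNat 1, .negSucc 28, .ofNat 16, .negSucc 19, .negSucc 19, .negSucc 19,
  .negSucc 19, .ofNat 608, .negSucc 40, .negSucc 44, .negSucc 19, .ofNat 20, .negSucc 51, .negSucc 43,
  .negSucc 19, .ofNat 20, .ofNat 5],
   [.ofNat 8, .negSucc 3, .ofNat 11, .negSucc 19, .negSucc 19, .negSucc 19, .ofNat 25, .negSucc 19,
  .negSucc 60, .negSucc 23, .negSucc 47, .negSucc 62, .negSucc 19, .negSucc 49, .negSucc 19, .negSucc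
  19, .negSucc 19, .ofNat 14, .negSucc 4, .ofNat 40, .negSucc 19, .negSucc 19, .ofNat 6, .negSucc 19,
  .negSucc 57, .negSucc 40, .ofNat 608, .negSucc 19, .negSucc 19, .ofNat 20, .negSucc 19, .negSucc 43,
  .negSucc 44, .negSucc 21, .negSucc 19],
   [.ofNat 6, .ofNat 10, .negSucc 19, .ofNat 12, .negSucc 19, .negSucc 64, .negSucc 19, .ofNat 21,
  .negSucc 19, .negSucc 47, .negSucc 43, .negSucc 19, .negSucc 49, .negSucc 19, .negSucc 54, .negSucc
  19, .negSucc 53, .negSucc 19, .ofNat 7, .ofNat 44, .negSucc 19, .negSucc 45, .negSucc 19, .ofNat 18,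
  .negSucc 19, .negSucc 44, .negSucc 19, .ofNat 608, .negSucc 19, .ofNat 20, .ofNat 4, .negSucc 19,
  .negSucc 50, .negSucc 23, .negSucc 19],
   [.ofNat 2, .negSucc 19, .ofNat 13, .negSucc 1, .ofNat 25, .negSucc 19, .negSucc 19, .negSucc 15,
  .ofNat 8, .negSucc 19, .negSucc 19, .ofNat 5, .ofNat 2, .negSucc 19, .negSucc 19, .negSucc 0, .ofNat
  5, .negSucc 6, .ofNat 20, .ofNat 3, .ofNat 6, .negSucc 19, .negSucc 19, .ofNat 1, .ofNat 5, .negSucc
  19, .negSucc 19, .negSucc 19, .ofNat 608, .ofNat 20, .ofNat 5, .ofNat 11, .negSucc 19, .negSucc 4,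
  .negSucc 19],
   [.ofNat 20, .negSucc 13, .negSucc 0, .negSucc 8, .negSucc 20, .ofNat 16, .negSucc 7, .ofNat 20,
  .ofNat 20, .ofNat 20, .ofNat 20, .ofNat 20, .ofNat 20, .ofNat 45, .ofNat 63, .ofNat 69, .ofNat 0,
  .negSucc 3, .negSucc 2, .negSucc 19, .negSucc 17, .negSucc 0, .negSucc 4, .ofNat 20, .ofNat 20,
  .ofNat 20, .ofNat 20, .ofNat 20, .ofNat 20, .ofNat 608, .ofNat 62, .ofNat 64, .ofNat 45, .negSucc
  19, .ofNat 20],
   [.ofNat 9, .ofNat 4, .ofNat 14, .negSucc 19, .ofNat 8, .ofNat 23, .negSucc 19, .ofNat 10, .negSucc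
  19, .negSucc 19, .negSucc 19, .negSucc 19, .ofNat 23, .negSucc 19, .negSucc 46, .negSucc 66,
  .negSucc 19, .ofNat 7, .negSucc 7, .ofNat 49, .negSucc 19, .negSucc 19, .ofNat 6, .negSucc 19,
  .negSucc 41, .negSucc 51, .negSucc 19, .ofNat 4, .ofNat 5, .ofNat 62, .ofNat 608, .negSucc 19,
  .negSucc 19, .ofNat 20, .negSucc 19],
   [.ofNat 9, .ofNat 15, .negSucc 19, .ofNat 15, .ofNat 4, .negSucc 19, .ofNat 10, .negSucc 19, .ofNat
  15, .negSucc 19, .negSucc 19, .negSucc 62, .negSucc 19, .ofNat 7, .negSucc 19, .negSucc 59, .negSucc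
  46, .negSucc 19, .ofNat 1, .ofNat 38, .negSucc 19, .negSucc 45, .negSucc 19, .ofNat 2, .negSucc 19,
  .negSucc 43, .negSucc 43, .negSucc 19, .ofNat 11, .ofNat 64, .negSucc 19, .ofNat 608, .negSucc 19,
  .ofNat 20, .negSucc 19],
   [.ofNat 10, .negSucc 19, .ofNat 12, .negSucc 2, .negSucc 19, .negSucc 44, .negSucc 41, .negSucc 19,
  .negSucc 19, .negSucc 38, .ofNat 23, .negSucc 19, .negSucc 19, .ofNat 27, .ofNat 20, .negSucc 19,
  .ofNat 8, .negSucc 0, .ofNat 20, .negSucc 5, .ofNat 6, .negSucc 19, .negSucc 19, .ofNat 12, .ofNat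
  4, .negSucc 19, .negSucc 44, .negSucc 50, .negSucc 19, .ofNat 45, .negSucc 19, .negSucc 19, .ofNat
  608, .ofNat 20, .negSucc 19],
   [.ofNat 20, .ofNat 0, .negSucc 14, .negSucc 13, .ofNat 20, .ofNat 20, .ofNat 20, .negSucc 4,
  .negSucc 22, .negSucc 28, .negSucc 6, .negSucc 26, .negSucc 19, .ofNat 20, .ofNat 20, .ofNat 20,
  .negSucc 8, .ofNat 2, .ofNat 6, .negSucc 19, .negSucc 1, .negSucc 11, .negSucc 3, .ofNat 20, .ofNat
  20, .ofNat 20, .negSucc 21, .negSucc 23, .negSucc 4, .negSucc 19, .ofNat 20, .ofNat 20, .ofNat 20,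
  .ofNat 608, .ofNat 20],
   [.negSucc 19, .negSucc 19, .negSucc 19, .negSucc 19, .ofNat 14, .negSucc 44, .negSucc 32, .ofNat 0,
  .ofNat 4, .negSucc 36, .ofNat 7, .negSucc 47, .negSucc 38, .ofNat 9, .negSucc 1, .negSucc 45,
  .negSucc 19, .negSucc 19, .ofNat 20, .ofNat 20, .ofNat 4, .ofNat 5, .ofNat 11, .ofNat 22, .ofNat 24,
  .ofNat 5, .negSucc 19, .negSucc 19, .negSucc 19, .ofNat 20, .negSucc 19, .negSucc 19, .negSucc 19,
  .ofNat 20, .ofNat 608]]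

/-- The Cholesky columns. -/
def cols : List (List ℤ) :=
  [[.ofNat 542],
   [.negSucc 17, .ofNat 542],
   [.negSucc 17, .negSucc 18, .ofNat 542],
   [.negSucc 17, .negSucc 18, .negSucc 19, .ofNat 541],
   [.negSucc 17, .negSucc 18, .negSucc 0, .negSucc 1, .ofNat 542],
   [.negSucc 17, .negSucc 37, .negSucc 19, .ofNat 1, .negSucc 19, .ofNat 540],
   [.negSucc 17, .negSucc 36, .negSucc 42, .negSucc 21, .negSucc 20, .negSucc 23, .ofNat 538],
   [.ofNat 0, .negSucc 17, .negSucc 18, .ofNat 6, .negSucc 18, .negSucc 20, .ofNat 19, .ofNat 541],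
   [.negSucc 0, .negSucc 17, .negSucc 44, .negSucc 20, .negSucc 18, .negSucc 63, .negSucc 27, .negSucc
  22, .ofNat 535],
   [.ofNat 4, .ofNat 8, .negSucc 17, .negSucc 18, .ofNat 23, .negSucc 17, .negSucc 19, .negSucc 17,
  .negSucc 23, .ofNat 540],
   [.negSucc 17, .negSucc 18, .ofNat 4, .ofNat 2, .negSucc 19, .ofNat 2, .negSucc 2, .ofNat 7, .ofNat
  1, .negSucc 16, .ofNat 541],
   [.negSucc 17, .negSucc 42, .negSucc 20, .ofNat 2, .negSucc 43, .negSucc 24, .negSucc 44, .ofNat 19,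
  .negSucc 27, .negSucc 38, .negSucc 23, .ofNat 533],
   [.negSucc 17, .negSucc 39, .negSucc 43, .negSucc 21, .negSucc 37, .negSucc 5, .negSucc 27, .negSucc
  21, .negSucc 16, .negSucc 35, .negSucc 21, .negSucc 33, .ofNat 533],
   [.ofNat 6, .negSucc 17, .negSucc 18, .ofNat 4, .negSucc 45, .negSucc 62, .negSucc 25, .negSucc 22,
  .negSucc 68, .negSucc 53, .negSucc 21, .negSucc 36, .ofNat 5, .ofNat 526],
   [.ofNat 3, .negSucc 17, .negSucc 42, .negSucc 20, .negSucc 39, .negSucc 22, .negSucc 38, .ofNat 15,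
  .negSucc 28, .negSucc 36, .negSucc 21, .negSucc 76, .negSucc 37, .negSucc 41, .ofNat 525],
   [.ofNat 5, .ofNat 6, .negSucc 17, .negSucc 18, .negSucc 17, .ofNat 0, .negSucc 5, .ofNat 11,
  .negSucc 4, .negSucc 18, .ofNat 22, .negSucc 21, .negSucc 23, .negSucc 23, .negSucc 30, .ofNat 538],
   [.ofNat 5, .ofNat 8, .ofNat 23, .negSucc 16, .negSucc 17, .negSucc 17, .negSucc 40, .negSucc 16,
  .negSucc 47, .ofNat 0, .negSucc 18, .negSucc 24, .negSucc 49, .negSucc 32, .negSucc 62, .negSucc 6,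
  .ofNat 529],
   [.negSucc 0, .ofNat 2, .negSucc 17, .negSucc 6, .negSucc 17, .ofNat 2, .negSucc 20, .ofNat 6,
  .negSucc 21, .negSucc 0, .negSucc 18, .ofNat 0, .negSucc 23, .ofNat 3, .negSucc 26, .negSucc 2,
  .negSucc 27, .ofNat 539],
   [.ofNat 0, .ofNat 18, .ofNat 0, .ofNat 4, .negSucc 2, .ofNat 20, .ofNat 21, .negSucc 2, .ofNat 3,
  .ofNat 20, .negSucc 3, .ofNat 24, .ofNat 24, .ofNat 5, .ofNat 9, .ofNat 22, .ofNat 26, .ofNat 22,
  .ofNat 538],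
   [.ofNat 18, .negSucc 16, .negSucc 11, .ofNat 2, .negSucc 5, .ofNat 39, .ofNat 38, .ofNat 17, .ofNat
  24, .ofNat 23, .negSucc 7, .ofNat 45, .ofNat 45, .ofNat 32, .ofNat 36, .ofNat 27, .ofNat 39, .ofNat
  26, .negSucc 30, .ofNat 528],
   [.negSucc 17, .negSucc 18, .ofNat 2, .negSucc 3, .negSucc 19, .ofNat 5, .ofNat 3, .negSucc 4, .ofNat
  9, .negSucc 16, .negSucc 20, .ofNat 4, .ofNat 3, .ofNat 1, .ofNat 12, .negSucc 16, .ofNat 9, .ofNat
  4, .ofNat 19, .ofNat 18, .ofNat 539],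
   [.negSucc 17, .negSucc 40, .negSucc 20, .ofNat 1, .negSucc 45, .negSucc 24, .negSucc 5, .ofNat 6,
  .negSucc 26, .ofNat 12, .negSucc 47, .negSucc 31, .negSucc 3, .negSucc 1, .negSucc 34, .ofNat 8,
  .ofNat 11, .negSucc 24, .negSucc 0, .ofNat 25, .negSucc 22, .ofNat 531],
   [.negSucc 17, .negSucc 34, .negSucc 41, .negSucc 21, .negSucc 43, .negSucc 44, .negSucc 29, .negSucc
  22, .negSucc 3, .negSucc 4, .negSucc 47, .negSucc 61, .negSucc 38, .negSucc 39, .negSucc 15,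
  .negSucc 10, .negSucc 35, .negSucc 0, .ofNat 9, .ofNat 39, .negSucc 23, .negSucc 41, .ofNat 520],
   [.ofNat 4, .negSucc 17, .negSucc 18, .ofNat 14, .negSucc 33, .negSucc 49, .negSucc 23, .negSucc 21,
  .negSucc 61, .negSucc 41, .negSucc 42, .negSucc 66, .negSucc 36, .negSucc 49, .negSucc 70, .negSucc
  62, .negSucc 20, .negSucc 30, .ofNat 34, .ofNat 29, .negSucc 22, .negSucc 43, .negSucc 27, .ofNat
  507],
   [.negSucc 2, .negSucc 18, .negSucc 51, .negSucc 20, .negSucc 46, .negSucc 23, .negSucc 57, .ofNat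
  10, .negSucc 31, .negSucc 49, .negSucc 54, .negSucc 39, .negSucc 73, .negSucc 24, .negSucc 54,
  .negSucc 63, .negSucc 45, .negSucc 3, .ofNat 35, .ofNat 8, .negSucc 23, .negSucc 73, .negSucc 66,
  .negSucc 86, .ofNat 492],
   [.ofNat 4, .ofNat 15, .negSucc 17, .negSucc 17, .negSucc 17, .negSucc 48, .negSucc 38, .ofNat 0,
  .negSucc 1, .negSucc 21, .negSucc 18, .negSucc 57, .negSucc 45, .negSucc 1, .negSucc 8, .negSucc 25,
  .negSucc 33, .negSucc 26, .ofNat 13, .negSucc 4, .ofNat 15, .negSucc 27, .negSucc 45, .negSucc 54,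
  .negSucc 74, .ofNat 518],
   [.ofNat 7, .negSucc 2, .ofNat 10, .negSucc 17, .negSucc 17, .negSucc 18, .ofNat 22, .negSucc 19,
  .negSucc 59, .negSucc 24, .negSucc 44, .negSucc 64, .negSucc 29, .negSucc 66, .negSucc 42, .negSucc
  27, .negSucc 42, .ofNat 4, .ofNat 5, .ofNat 61, .negSucc 21, .negSucc 36, .negSucc 30, .negSucc 72,
  .negSucc 120, .negSucc 86, .ofNat 488],
   [.ofNat 6, .ofNat 9, .negSucc 17, .ofNat 11, .negSucc 17, .negSucc 60, .negSucc 21, .ofNat 17,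
  .negSucc 27, .negSucc 47, .negSucc 41, .negSucc 31, .negSucc 56, .negSucc 40, .negSucc 77, .negSucc
  29, .negSucc 76, .negSucc 33, .ofNat 23, .ofNat 75, .negSucc 20, .negSucc 63, .negSucc 62, .negSucc
  49, .negSucc 104, .negSucc 102, .negSucc 129, .ofNat 457],
   [.ofNat 2, .negSucc 17, .ofNat 11, .negSucc 1, .ofNat 23, .negSucc 17, .negSucc 18, .negSucc 13,
  .ofNat 5, .negSucc 20, .negSucc 18, .ofNat 2, .negSucc 0, .negSucc 22, .negSucc 22, .negSucc 1,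
  .negSucc 1, .negSucc 6, .ofNat 22, .ofNat 11, .ofNat 4, .negSucc 21, .negSucc 27, .negSucc 14,
  .negSucc 14, .negSucc 30, .negSucc 43, .negSucc 67, .ofNat 530],
   [.ofNat 18, .negSucc 11, .negSucc 0, .negSucc 7, .negSucc 18, .ofNat 14, .negSucc 7, .ofNat 18,
  .ofNat 19, .ofNat 21, .ofNat 18, .ofNat 19, .ofNat 21, .ofNat 49, .ofNat 69, .ofNat 71, .ofNat 17,
  .ofNat 2, .negSucc 10, .negSucc 38, .negSucc 13, .ofNat 6, .ofNat 12, .ofNat 57, .ofNat 61, .ofNat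
  48, .ofNat 86, .ofNat 119, .ofNat 57, .ofNat 492],
   [.ofNat 8, .ofNat 4, .ofNat 13, .negSucc 17, .ofNat 8, .ofNat 23, .negSucc 15, .ofNat 12, .negSucc
  14, .negSucc 18, .negSucc 18, .negSucc 20, .ofNat 19, .negSucc 21, .negSucc 50, .negSucc 66,
  .negSucc 29, .ofNat 1, .negSucc 1, .ofNat 57, .negSucc 20, .negSucc 24, .negSucc 7, .negSucc 47,
  .negSucc 78, .negSucc 74, .negSucc 89, .negSucc 96, .negSucc 29, .ofNat 154, .ofNat 471],
   [.ofNat 8, .ofNat 14, .negSucc 17, .ofNat 14, .ofNat 4, .negSucc 17, .ofNat 9, .negSucc 19, .ofNat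
  11, .negSucc 18, .negSucc 17, .negSucc 58, .negSucc 23, .negSucc 0, .negSucc 30, .negSucc 60,
  .negSucc 52, .negSucc 23, .ofNat 11, .ofNat 55, .negSucc 20, .negSucc 51, .negSucc 45, .negSucc 38,
  .negSucc 71, .negSucc 82, .negSucc 120, .negSucc 152, .negSucc 36, .ofNat 176, .negSucc 191, .ofNat
  388],
   [.ofNat 9, .negSucc 17, .ofNat 11, .negSucc 2, .negSucc 18, .negSucc 42, .negSucc 41, .negSucc 19,
  .negSucc 26, .negSucc 39, .ofNat 19, .negSucc 28, .negSucc 28, .ofNat 7, .ofNat 4, .negSucc 22,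
  .negSucc 3, .negSucc 3, .ofNat 28, .ofNat 11, .ofNat 3, .negSucc 23, .negSucc 35, .negSucc 15,
  .negSucc 29, .negSucc 45, .negSucc 80, .negSucc 126, .negSucc 53, .ofNat 116, .negSucc 124, .negSucc
  258, .ofNat 395],
   [.ofNat 18, .ofNat 1, .negSucc 12, .negSucc 12, .ofNat 19, .ofNat 19, .ofNat 19, .negSucc 3,
  .negSucc 18, .negSucc 27, .negSucc 5, .negSucc 23, .negSucc 21, .ofNat 16, .ofNat 14, .ofNat 17,
  .negSucc 7, .ofNat 1, .ofNat 7, .negSucc 17, .negSucc 0, .negSucc 8, .negSucc 3, .ofNat 18, .ofNat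
  19, .ofNat 20, .negSucc 14, .negSucc 19, .negSucc 5, .negSucc 20, .ofNat 32, .ofNat 44, .ofNat 62,
  .ofNat 529],
   [.negSucc 17, .negSucc 18, .negSucc 19, .negSucc 19, .ofNat 11, .negSucc 43, .negSucc 36, .negSucc
  0, .negSucc 5, .negSucc 38, .ofNat 5, .negSucc 54, .negSucc 48, .negSucc 6, .negSucc 23, .negSucc
  50, .negSucc 33, .negSucc 25, .ofNat 34, .ofNat 46, .ofNat 0, .negSucc 5, .negSucc 17, .negSucc 18,
  .negSucc 22, .negSucc 28, .negSucc 62, .negSucc 102, .negSucc 50, .ofNat 95, .negSucc 117, .negSucc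
  243, .negSucc 339, .ofNat 84, .ofNat 223]]

theorem chk : certChk 10 314 500 chi mu nu tab cols = true := by decide +kernel

end Pool.Agent.J6H81.Cube.C5
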