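import Pool.Agent.J6H81.Cube.Rel

/-! Certificate for class 6 (support for MP_416390_gt). -/

namespace Pool.Agent.J6H81.Cube.C6

open Pool.Agent.J6H81.Cube

/-- Signs of the class. -/
def chi : List ℤ :=
  [.ofNat 1, .ofNat 1, .ofNat 1, .ofNat 1, .ofNat 1, .ofNat 1, .ofNat 1, .ofNat 1, .ofNat 1, .ofNat 1,
  .ofNat 1, .ofNat 1, .ofNat 1, .ofNat 1, .ofNat 1, .ofNat 1, .ofNat 1, .ofNat 1, .ofNat 1, .negSucc
  0, .ofNat 1, .ofNat 1, .ofNat 1, .ofNat 1, .ofNat 1, .ofNat 1, .ofNat 1, .ofNat 1, .ofNat 1,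
  .negSucc 0, .ofNat 1, .ofNat 1, .negSucc 0, .negSucc 0, .negSucc 0]

/-- Multipliers of the relations. -/
def mu : List ℤ :=
  [.negSucc 24, .negSucc 25, .negSucc 19, .negSucc 23, .negSucc 21, .negSucc 19, .negSucc 21, .negSucc
  12, .negSucc 23, .negSucc 29, .negSucc 30, .negSucc 27, .negSucc 37, .negSucc 54, .negSucc 32,
  .ofNat 23, .ofNat 21, .ofNat 15, .ofNat 27, .ofNat 19, .ofNat 16, .ofNat 42, .ofNat 27, .ofNat 17,
  .ofNat 20, .negSucc 36, .negSucc 34, .negSucc 21, .negSucc 32, .negSucc 42, .negSucc 24, .negSucc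
  27, .negSucc 23, .negSucc 29, .negSucc 17, .ofNat 18, .ofNat 50, .ofNat 33, .negSucc 29, .negSucc
  27, .ofNat 33, .ofNat 27, .negSucc 17, .negSucc 23, .ofNat 25, .ofNat 22, .ofNat 33, .ofNat 32,
  .ofNat 21, .ofNat 28, .ofNat 49, .ofNat 25, .ofNat 21, .ofNat 41, .negSucc 25, .ofNat 18, .ofNat 23,
  .ofNat 32, .negSucc 38, .negSucc 34, .negSucc 34, .ofNat 41, .ofNat 32, .negSucc 25, .negSucc 38,
  .ofNat 49, .negSucc 24, .negSucc 17, .ofNat 33, .ofNat 21, .negSucc 20, .negSucc 22, .ofNat 32,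
  .ofNat 28, .ofNat 22, .negSucc 54, .negSucc 37, .negSucc 19, .ofNat 33, .negSucc 29, .negSucc 23,
  .ofNat 31, .ofNat 24, .ofNat 26, .negSucc 21, .ofNat 28, .ofNat 22, .ofNat 20, .negSucc 12, .ofNat
  25, .negSucc 32, .negSucc 21, .ofNat 16, .ofNat 43, .ofNat 20, .ofNat 17, .ofNat 37, .negSucc 26,
  .negSucc 20, .ofNat 42, .ofNat 35, .negSucc 18, .negSucc 14, .ofNat 27, .negSucc 22]

/-- Multipliers of the norm conditions. -/
def nu : List ℤ :=
  [.ofNat 0, .ofNat 0, .ofNat 0, .ofNat 0, .ofNat 0, .ofNat 0, .ofNat 0]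

/-- The table. -/
def tab : List (List ℤ) :=
  [[.ofNat 608, .negSucc 19, .negSucc 19, .negSucc 19, .negSucc 19, .negSucc 19, .negSucc 19, .ofNat 5,
  .ofNat 3, .ofNat 5, .negSucc 19, .negSucc 19, .negSucc 19, .ofNat 6, .ofNat 1, .ofNat 8, .ofNat 4,
  .ofNat 7, .ofNat 10, .ofNat 20, .negSucc 19, .negSucc 19, .negSucc 19, .ofNat 0, .negSucc 4, .ofNat
  4, .ofNat 2, .negSucc 0, .negSucc 1, .ofNat 20, .ofNat 0, .negSucc 3, .ofNat 2, .ofNat 20, .ofNat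
  20],
   [.negSucc 19, .ofNat 608, .negSucc 19, .negSucc 19, .negSucc 19, .negSucc 44, .negSucc 42, .negSucc
  19, .negSucc 19, .ofNat 2, .negSucc 19, .negSucc 45, .negSucc 40, .negSucc 19, .negSucc 19, .ofNat
  13, .ofNat 2, .ofNat 22, .negSucc 19, .negSucc 0, .negSucc 19, .negSucc 39, .negSucc 34, .negSucc
  19, .negSucc 19, .ofNat 12, .negSucc 6, .ofNat 7, .negSucc 19, .negSucc 7, .ofNat 4, .negSucc 2,
  .ofNat 20, .negSucc 28, .ofNat 20],
   [.negSucc 19, .negSucc 19, .ofNat 608, .negSucc 19, .ofNat 5, .negSucc 19, .negSucc 44, .negSucc 19,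
  .negSucc 41, .negSucc 19, .ofNat 6, .negSucc 19, .negSucc 47, .negSucc 19, .negSucc 52, .negSucc 19,
  .ofNat 11, .negSucc 19, .ofNat 30, .negSucc 4, .ofNat 0, .negSucc 19, .negSucc 43, .negSucc 19,
  .negSucc 51, .negSucc 19, .ofNat 8, .negSucc 19, .ofNat 13, .negSucc 0, .ofNat 18, .negSucc 19,
  .negSucc 9, .negSucc 20, .ofNat 20],
   [.negSucc 19, .negSucc 19, .negSucc 19, .ofNat 608, .ofNat 3, .ofNat 5, .negSucc 19, .ofNat 2,
  .negSucc 19, .negSucc 19, .ofNat 1, .ofNat 8, .negSucc 19, .ofNat 13, .negSucc 19, .negSucc 19,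
  .negSucc 19, .ofNat 17, .ofNat 13, .ofNat 2, .negSucc 4, .ofNat 4, .negSucc 19, .ofNat 12, .negSucc
  19, .negSucc 19, .negSucc 19, .ofNat 15, .ofNat 7, .negSucc 2, .negSucc 19, .ofNat 2, .ofNat 2,
  .negSucc 11, .ofNat 20],
   [.negSucc 19, .negSucc 19, .ofNat 5, .ofNat 3, .ofNat 608, .negSucc 19, .negSucc 19, .negSucc 19,
  .negSucc 19, .ofNat 15, .negSucc 19, .negSucc 43, .negSucc 46, .negSucc 41, .negSucc 61, .negSucc
  19, .negSucc 19, .negSucc 19, .ofNat 21, .negSucc 5, .negSucc 19, .negSucc 41, .negSucc 38, .negSucc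
  32, .negSucc 46, .negSucc 19, .negSucc 19, .negSucc 19, .ofNat 12, .negSucc 18, .ofNat 10, .ofNat 0,
  .ofNat 20, .ofNat 20, .negSucc 28],
   [.negSucc 19, .negSucc 44, .negSucc 19, .ofNat 5, .negSucc 19, .ofNat 608, .negSucc 19, .negSucc 19,
  .negSucc 54, .negSucc 19, .ofNat 4, .negSucc 19, .negSucc 49, .negSucc 50, .negSucc 19, .negSucc 69,
  .negSucc 19, .negSucc 60, .negSucc 19, .negSucc 4, .ofNat 2, .negSucc 19, .negSucc 37, .negSucc 47,
  .negSucc 19, .negSucc 52, .negSucc 19, .negSucc 51, .negSucc 19, .ofNat 2, .ofNat 35, .negSucc 19,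
  .negSucc 7, .ofNat 20, .negSucc 12],
   [.negSucc 19, .negSucc 42, .negSucc 44, .negSucc 19, .negSucc 19, .negSucc 19, .ofNat 608, .ofNat
  15, .negSucc 19, .negSucc 19, .ofNat 7, .ofNat 10, .negSucc 19, .negSucc 19, .negSucc 56, .negSucc
  52, .ofNat 21, .negSucc 19, .negSucc 19, .negSucc 0, .negSucc 0, .negSucc 1, .negSucc 19, .negSucc
  19, .negSucc 54, .negSucc 46, .ofNat 12, .negSucc 19, .negSucc 19, .negSucc 2, .negSucc 19, .ofNat
  13, .negSucc 3, .ofNat 20, .negSucc 11],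
   [.ofNat 5, .negSucc 19, .negSucc 19, .ofNat 2, .negSucc 19, .negSucc 19, .ofNat 15, .ofNat 608,
  .negSucc 19, .negSucc 19, .ofNat 2, .ofNat 11, .negSucc 19, .negSucc 19, .ofNat 1, .ofNat 5,
  .negSucc 19, .ofNat 6, .ofNat 5, .ofNat 20, .negSucc 6, .ofNat 8, .negSucc 19, .negSucc 19, .ofNat
  8, .ofNat 1, .negSucc 19, .ofNat 19, .negSucc 1, .ofNat 20, .ofNat 13, .negSucc 19, .ofNat 20,
  .negSucc 5, .negSucc 0],
   [.ofNat 3, .negSucc 19, .negSucc 41, .negSucc 19, .negSucc 19, .negSucc 54, .negSucc 19, .negSucc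
  19, .ofNat 608, .negSucc 19, .ofNat 22, .negSucc 19, .ofNat 17, .negSucc 40, .negSucc 19, .negSucc
  1, .negSucc 45, .negSucc 19, .ofNat 1, .ofNat 20, .ofNat 7, .negSucc 19, .ofNat 15, .negSucc 47,
  .negSucc 19, .ofNat 3, .negSucc 58, .negSucc 19, .ofNat 3, .ofNat 20, .negSucc 19, .ofNat 23, .ofNat
  20, .negSucc 18, .negSucc 7],
   [.ofNat 5, .ofNat 2, .negSucc 19, .negSucc 19, .ofNat 15, .negSucc 19, .negSucc 19, .negSucc 19,
  .negSucc 19, .ofNat 608, .negSucc 19, .ofNat 30, .ofNat 13, .negSucc 44, .negSucc 37, .negSucc 19,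
  .negSucc 44, .negSucc 40, .negSucc 19, .ofNat 20, .negSucc 19, .ofNat 13, .ofNat 7, .negSucc 40,
  .negSucc 42, .negSucc 19, .negSucc 37, .negSucc 42, .negSucc 19, .ofNat 20, .negSucc 19, .negSucc
  19, .negSucc 4, .negSucc 14, .negSucc 1],
   [.negSucc 19, .negSucc 19, .ofNat 6, .ofNat 1, .negSucc 19, .ofNat 4, .ofNat 7, .ofNat 2, .ofNat 22,
  .negSucc 19, .ofNat 608, .negSucc 19, .negSucc 19, .negSucc 19, .negSucc 19, .ofNat 35, .negSucc 19,
  .negSucc 19, .ofNat 18, .negSucc 12, .negSucc 19, .negSucc 39, .negSucc 35, .negSucc 43, .negSucc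
  36, .negSucc 19, .negSucc 49, .negSucc 39, .negSucc 19, .ofNat 20, .negSucc 19, .negSucc 19, .ofNat
  0, .negSucc 9, .negSucc 3],
   [.negSucc 19, .negSucc 45, .negSucc 19, .ofNat 8, .negSucc 43, .negSucc 19, .ofNat 10, .ofNat 11,
  .negSucc 19, .ofNat 30, .negSucc 19, .ofNat 608, .negSucc 19, .negSucc 19, .negSucc 74, .negSucc 19,
  .negSucc 19, .negSucc 57, .negSucc 19, .negSucc 10, .ofNat 0, .negSucc 19, .negSucc 1, .negSucc 57,
  .negSucc 19, .ofNat 10, .negSucc 74, .negSucc 19, .ofNat 8, .ofNat 20, .negSucc 19, .ofNat 0, .ofNat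
  20, .ofNat 44, .ofNat 46],
   [.negSucc 19, .negSucc 40, .negSucc 47, .negSucc 19, .negSucc 46, .negSucc 49, .negSucc 19, .negSucc
  19, .ofNat 17, .ofNat 13, .negSucc 19, .negSucc 19, .ofNat 608, .ofNat 35, .negSucc 19, .negSucc 19,
  .ofNat 18, .negSucc 19, .negSucc 19, .negSucc 7, .negSucc 3, .negSucc 37, .negSucc 19, .negSucc 19,
  .negSucc 41, .negSucc 1, .negSucc 19, .negSucc 52, .ofNat 4, .ofNat 20, .negSucc 39, .negSucc 19,
  .ofNat 20, .ofNat 42, .ofNat 40],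
   [.ofNat 6, .negSucc 19, .negSucc 19, .ofNat 13, .negSucc 41, .negSucc 50, .negSucc 19, .negSucc 19,
  .negSucc 40, .negSucc 44, .negSucc 19, .negSucc 19, .ofNat 35, .ofNat 608, .negSucc 19, .negSucc 19,
  .negSucc 19, .ofNat 13, .ofNat 11, .ofNat 20, .ofNat 4, .ofNat 18, .negSucc 19, .negSucc 19, .ofNat
  29, .ofNat 21, .negSucc 52, .negSucc 19, .negSucc 19, .ofNat 46, .negSucc 19, .ofNat 10, .negSucc 3,
  .ofNat 20, .negSucc 1],
   [.ofNat 1, .negSucc 19, .negSucc 52, .negSucc 19, .negSucc 61, .negSucc 19, .negSucc 56, .ofNat 1,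
  .negSucc 19, .negSucc 37, .negSucc 19, .negSucc 74, .negSucc 19, .negSucc 19, .ofNat 608, .negSucc
  19, .negSucc 52, .negSucc 19, .ofNat 8, .ofNat 20, .negSucc 2, .negSucc 19, .ofNat 2, .negSucc 68,
  .negSucc 19, .ofNat 12, .negSucc 19, .negSucc 62, .negSucc 19, .ofNat 59, .negSucc 49, .negSucc 19,
  .negSucc 1, .ofNat 20, .ofNat 7],
   [.ofNat 8, .ofNat 13, .negSucc 19, .negSucc 19, .negSucc 19, .negSucc 69, .negSucc 52, .ofNat 5,
  .negSucc 1, .negSucc 19, .ofNat 35, .negSucc 19, .negSucc 19, .negSucc 19, .negSucc 19, .ofNat 608,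
  .negSucc 50, .negSucc 47, .negSucc 19, .ofNat 20, .negSucc 19, .negSucc 49, .negSucc 37, .negSucc
  60, .negSucc 51, .negSucc 19, .negSucc 19, .negSucc 19, .ofNat 5, .ofNat 55, .ofNat 4, .ofNat 2,
  .ofNat 20, .ofNat 20, .ofNat 45],
   [.ofNat 4, .ofNat 2, .ofNat 11, .negSucc 19, .negSucc 19, .negSucc 19, .ofNat 21, .negSucc 19,
  .negSucc 45, .negSucc 44, .negSucc 19, .negSucc 19, .ofNat 18, .negSucc 19, .negSucc 52, .negSucc
  50, .ofNat 608, .negSucc 19, .negSucc 19, .ofNat 20, .ofNat 10, .ofNat 35, .negSucc 19, .ofNat 13,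
  .negSucc 19, .negSucc 19, .negSucc 19, .ofNat 29, .ofNat 13, .ofNat 41, .negSucc 19, .ofNat 4,
  .negSucc 5, .ofNat 42, .ofNat 20],
   [.ofNat 7, .ofNat 22, .negSucc 19, .ofNat 17, .negSucc 19, .negSucc 60, .negSucc 19, .ofNat 6,
  .negSucc 19, .negSucc 40, .negSucc 19, .negSucc 57, .negSucc 19, .ofNat 13, .negSucc 19, .negSucc
  47, .negSucc 19, .ofNat 608, .negSucc 19, .ofNat 20, .ofNat 0, .negSucc 19, .ofNat 13, .negSucc 19,
  .ofNat 23, .negSucc 19, .negSucc 68, .negSucc 19, .ofNat 12, .ofNat 48, .negSucc 43, .negSucc 19,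
  .ofNat 0, .ofNat 33, .ofNat 20],
   [.ofNat 10, .negSucc 19, .ofNat 30, .ofNat 13, .ofNat 21, .negSucc 19, .negSucc 19, .ofNat 5, .ofNat
  1, .negSucc 19, .ofNat 18, .negSucc 19, .negSucc 19, .ofNat 11, .ofNat 8, .negSucc 19, .negSucc 19,
  .negSucc 19, .ofNat 608, .ofNat 20, .negSucc 19, .negSucc 47, .negSucc 43, .negSucc 19, .negSucc 19,
  .negSucc 44, .negSucc 52, .negSucc 51, .negSucc 19, .ofNat 42, .ofNat 6, .ofNat 0, .ofNat 20,
  .negSucc 4, .ofNat 20],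
   [.ofNat 20, .negSucc 0, .negSucc 4, .ofNat 2, .negSucc 5, .negSucc 4, .negSucc 0, .ofNat 20, .ofNat
  20, .ofNat 20, .negSucc 12, .negSucc 10, .negSucc 7, .ofNat 20, .ofNat 20, .ofNat 20, .ofNat 20,
  .ofNat 20, .ofNat 20, .ofNat 608, .ofNat 20, .ofNat 20, .ofNat 20, .negSucc 5, .negSucc 18, .negSucc
  14, .negSucc 0, .negSucc 7, .negSucc 1, .negSucc 19, .negSucc 1, .ofNat 7, .ofNat 5, .negSucc 19,
  .negSucc 19],
   [.negSucc 19, .negSucc 19, .ofNat 0, .negSucc 4, .negSucc 19, .ofNat 2, .negSucc 0, .negSucc 6,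
  .ofNat 7, .negSucc 19, .negSucc 19, .ofNat 0, .negSucc 3, .ofNat 4, .negSucc 2, .negSucc 19, .ofNat
  10, .ofNat 0, .negSucc 19, .ofNat 20, .ofNat 608, .negSucc 19, .negSucc 19, .negSucc 19, .negSucc
  19, .ofNat 13, .negSucc 19, .negSucc 19, .ofNat 2, .negSucc 22, .negSucc 19, .negSucc 19, .ofNat 4,
  .ofNat 0, .ofNat 3],
   [.negSucc 19, .negSucc 39, .negSucc 19, .ofNat 4, .negSucc 41, .negSucc 19, .negSucc 1, .ofNat 8,
  .negSucc 19, .ofNat 13, .negSucc 39, .negSucc 19, .negSucc 37, .ofNat 18, .negSucc 19, .negSucc 49,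
  .ofNat 35, .negSucc 19, .negSucc 47, .ofNat 20, .negSucc 19, .ofNat 608, .negSucc 19, .negSucc 19,
  .negSucc 52, .negSucc 19, .negSucc 19, .negSucc 41, .negSucc 19, .negSucc 16, .negSucc 19, .negSucc
  3, .ofNat 20, .ofNat 47, .ofNat 41],
   [.negSucc 19, .negSucc 34, .negSucc 43, .negSucc 19, .negSucc 38, .negSucc 37, .negSucc 19, .negSucc
  19, .ofNat 15, .ofNat 7, .negSucc 35, .negSucc 1, .negSucc 19, .negSucc 19, .ofNat 2, .negSucc 37,
  .negSucc 19, .ofNat 13, .negSucc 43, .ofNat 20, .negSucc 19, .negSucc 19, .ofNat 608, .ofNat 13,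
  .negSucc 19, .negSucc 19, .ofNat 2, .negSucc 19, .negSucc 19, .negSucc 14, .negSucc 35, .negSucc 19,
  .ofNat 20, .ofNat 39, .ofNat 35],
   [.ofNat 0, .negSucc 19, .negSucc 19, .ofNat 12, .negSucc 32, .negSucc 47, .negSucc 19, .negSucc 19,
  .negSucc 47, .negSucc 40, .negSucc 43, .negSucc 57, .negSucc 19, .negSucc 19, .negSucc 68, .negSucc
  60, .ofNat 13, .negSucc 19, .negSucc 19, .negSucc 5, .negSucc 19, .negSucc 19, .ofNat 13, .ofNat
  608, .negSucc 19, .negSucc 19, .negSucc 19, .ofNat 23, .ofNat 17, .ofNat 20, .negSucc 19, .ofNat 0,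
  .negSucc 6, .ofNat 20, .negSucc 21],
   [.negSucc 4, .negSucc 19, .negSucc 51, .negSucc 19, .negSucc 46, .negSucc 19, .negSucc 54, .ofNat 8,
  .negSucc 19, .negSucc 42, .negSucc 36, .negSucc 19, .negSucc 41, .ofNat 29, .negSucc 19, .negSucc
  51, .negSucc 19, .ofNat 23, .negSucc 19, .negSucc 18, .negSucc 19, .negSucc 52, .negSucc 19,
  .negSucc 19, .ofNat 608, .negSucc 19, .negSucc 62, .negSucc 19, .ofNat 15, .ofNat 20, .negSucc 39,
  .negSucc 19, .ofNat 1, .ofNat 20, .negSucc 6],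
   [.ofNat 4, .ofNat 12, .negSucc 19, .negSucc 19, .negSucc 19, .negSucc 52, .negSucc 46, .ofNat 1,
  .ofNat 3, .negSucc 19, .negSucc 19, .ofNat 10, .negSucc 1, .ofNat 21, .ofNat 12, .negSucc 19,
  .negSucc 19, .negSucc 19, .negSucc 44, .negSucc 14, .ofNat 13, .negSucc 19, .negSucc 19, .negSucc
  19, .negSucc 19, .ofNat 608, .negSucc 56, .negSucc 54, .negSucc 19, .ofNat 20, .ofNat 7, .negSucc 0,
  .ofNat 20, .ofNat 20, .ofNat 43],
   [.ofNat 2, .negSucc 6, .ofNat 8, .negSucc 19, .negSucc 19, .negSucc 19, .ofNat 12, .negSucc 19,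
  .negSucc 58, .negSucc 37, .negSucc 49, .negSucc 74, .negSucc 19, .negSucc 52, .negSucc 19, .negSucc
  19, .negSucc 19, .negSucc 68, .negSucc 52, .negSucc 0, .negSucc 19, .negSucc 19, .ofNat 2, .negSucc
  19, .negSucc 62, .negSucc 56, .ofNat 608, .negSucc 19, .negSucc 19, .ofNat 20, .negSucc 19, .negSucc
  2, .negSucc 0, .ofNat 62, .ofNat 20],
   [.negSucc 0, .ofNat 7, .negSucc 19, .ofNat 15, .negSucc 19, .negSucc 51, .negSucc 19, .ofNat 19,
  .negSucc 19, .negSucc 42, .negSucc 39, .negSucc 19, .negSucc 52, .negSucc 19, .negSucc 62, .negSucc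
  19, .ofNat 29, .negSucc 19, .negSucc 51, .negSucc 7, .negSucc 19, .negSucc 41, .negSucc 19, .ofNat
  23, .negSucc 19, .negSucc 54, .negSucc 19, .ofNat 608, .negSucc 19, .ofNat 20, .negSucc 36, .negSucc
  19, .ofNat 5, .ofNat 47, .ofNat 20],
   [.negSucc 1, .negSucc 19, .ofNat 13, .ofNat 7, .ofNat 12, .negSucc 19, .negSucc 19, .negSucc 1,
  .ofNat 3, .negSucc 19, .negSucc 19, .ofNat 8, .ofNat 4, .negSucc 19, .negSucc 19, .ofNat 5, .ofNat
  13, .ofNat 12, .negSucc 19, .negSucc 1, .ofNat 2, .negSucc 19, .negSucc 19, .ofNat 17, .ofNat 15,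
  .negSucc 19, .negSucc 19, .negSucc 19, .ofNat 608, .ofNat 20, .ofNat 1, .negSucc 4, .ofNat 20,
  .negSucc 2, .ofNat 20],
   [.ofNat 20, .negSucc 7, .negSucc 0, .negSucc 2, .negSucc 18, .ofNat 2, .negSucc 2, .ofNat 20, .ofNat
  20, .ofNat 20, .ofNat 20, .ofNat 20, .ofNat 20, .ofNat 46, .ofNat 59, .ofNat 55, .ofNat 41, .ofNat
  48, .ofNat 42, .negSucc 19, .negSucc 22, .negSucc 16, .negSucc 14, .ofNat 20, .ofNat 20, .ofNat 20,
  .ofNat 20, .ofNat 20, .ofNat 20, .ofNat 608, .negSucc 21, .negSucc 6, .ofNat 3, .negSucc 19,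
  .negSucc 19],
   [.ofNat 0, .ofNat 4, .ofNat 18, .negSucc 19, .ofNat 10, .ofNat 35, .negSucc 19, .ofNat 13, .negSucc
  19, .negSucc 19, .negSucc 19, .negSucc 19, .negSucc 39, .negSucc 19, .negSucc 49, .ofNat 4, .negSucc
  19, .negSucc 43, .ofNat 6, .negSucc 1, .negSucc 19, .negSucc 19, .negSucc 35, .negSucc 19, .negSucc
  39, .ofNat 7, .negSucc 19, .negSucc 36, .ofNat 1, .negSucc 21, .ofNat 608, .negSucc 19, .ofNat 20,
  .ofNat 20, .ofNat 20],
   [.negSucc 3, .negSucc 2, .negSucc 19, .ofNat 2, .ofNat 0, .negSucc 19, .ofNat 13, .negSucc 19,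
  .ofNat 23, .negSucc 19, .negSucc 19, .ofNat 0, .negSucc 19, .ofNat 10, .negSucc 19, .ofNat 2, .ofNat
  4, .negSucc 19, .ofNat 0, .ofNat 7, .negSucc 19, .negSucc 3, .negSucc 19, .ofNat 0, .negSucc 19,
  .negSucc 0, .negSucc 2, .negSucc 19, .negSucc 4, .negSucc 6, .negSucc 19, .ofNat 608, .ofNat 20,
  .ofNat 20, .ofNat 20],
   [.ofNat 2, .ofNat 20, .negSucc 9, .ofNat 2, .ofNat 20, .negSucc 7, .negSucc 3, .ofNat 20, .ofNat 20,
  .negSucc 4, .ofNat 0, .ofNat 20, .ofNat 20, .negSucc 3, .negSucc 1, .ofNat 20, .negSucc 5, .ofNat 0,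
  .ofNat 20, .ofNat 5, .ofNat 4, .ofNat 20, .ofNat 20, .negSucc 6, .ofNat 1, .ofNat 20, .negSucc 0,
  .ofNat 5, .ofNat 20, .ofNat 3, .ofNat 20, .ofNat 20, .ofNat 608, .negSucc 19, .negSucc 19],
   [.ofNat 20, .negSucc 28, .negSucc 20, .negSucc 11, .ofNat 20, .ofNat 20, .ofNat 20, .negSucc 5,
  .negSucc 18, .negSucc 14, .negSucc 9, .ofNat 44, .ofNat 42, .ofNat 20, .ofNat 20, .ofNat 20, .ofNat
  42, .ofNat 33, .negSucc 4, .negSucc 19, .ofNat 0, .ofNat 47, .ofNat 39, .ofNat 20, .ofNat 20, .ofNat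
  20, .ofNat 62, .ofNat 47, .negSucc 2, .negSucc 19, .ofNat 20, .ofNat 20, .negSucc 19, .ofNat 608,
  .negSucc 19],
   [.ofNat 20, .ofNat 20, .ofNat 20, .ofNat 20, .negSucc 28, .negSucc 12, .negSucc 11, .negSucc 0,
  .negSucc 7, .negSucc 1, .negSucc 3, .ofNat 46, .ofNat 40, .negSucc 1, .ofNat 7, .ofNat 45, .ofNat
  20, .ofNat 20, .ofNat 20, .negSucc 19, .ofNat 3, .ofNat 41, .ofNat 35, .negSucc 21, .negSucc 6,
  .ofNat 43, .ofNat 20, .ofNat 20, .ofNat 20, .negSucc 19, .ofNat 20, .ofNat 20, .negSucc 19, .negSucc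
  19, .ofNat 608]]

/-- The Cholesky columns. -/
def cols : List (List ℤ) :=
  [[.ofNat 542],
   [.negSucc 17, .ofNat 542],
   [.negSucc 17, .negSucc 18, .ofNat 541],
   [.negSucc 17, .negSucc 18, .negSucc 19, .ofNat 541],
   [.negSucc 17, .negSucc 18, .ofNat 3, .ofNat 2, .ofNat 541],
   [.negSucc 17, .negSucc 41, .negSucc 20, .ofNat 2, .negSucc 19, .ofNat 539],
   [.negSucc 17, .negSucc 39, .negSucc 43, .negSucc 21, .negSucc 19, .negSucc 24, .ofNat 537],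
   [.ofNat 5, .negSucc 17, .negSucc 18, .ofNat 1, .negSucc 18, .negSucc 20, .ofNat 10, .ofNat 540],
   [.ofNat 3, .negSucc 17, .negSucc 38, .negSucc 19, .negSucc 18, .negSucc 53, .negSucc 26, .negSucc
  22, .ofNat 536],
   [.ofNat 5, .ofNat 2, .negSucc 17, .negSucc 18, .ofNat 14, .negSucc 17, .negSucc 20, .negSucc 18,
  .negSucc 23, .ofNat 540],
   [.negSucc 17, .negSucc 18, .ofNat 4, .ofNat 0, .negSucc 19, .ofNat 1, .ofNat 4, .ofNat 1, .ofNat 20,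
  .negSucc 16, .ofNat 540],
   [.negSucc 17, .negSucc 42, .negSucc 20, .ofNat 4, .negSucc 42, .negSucc 24, .ofNat 1, .ofNat 6,
  .negSucc 24, .ofNat 27, .negSucc 19, .ofNat 536],
   [.negSucc 17, .negSucc 37, .negSucc 45, .negSucc 21, .negSucc 44, .negSucc 52, .negSucc 30, .negSucc
  23, .ofNat 1, .ofNat 7, .negSucc 20, .negSucc 30, .ofNat 530],
   [.ofNat 6, .negSucc 17, .negSucc 18, .ofNat 11, .negSucc 38, .negSucc 50, .negSucc 24, .negSucc 22,
  .negSucc 48, .negSucc 46, .negSucc 19, .negSucc 26, .ofNat 18, .ofNat 531],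
   [.ofNat 1, .negSucc 17, .negSucc 49, .negSucc 20, .negSucc 57, .negSucc 23, .negSucc 62, .negSucc 2,
  .negSucc 31, .negSucc 40, .negSucc 19, .negSucc 78, .negSucc 40, .negSucc 39, .ofNat 520],
   [.ofNat 7, .ofNat 12, .negSucc 17, .negSucc 17, .negSucc 17, .negSucc 64, .negSucc 53, .ofNat 2,
  .negSucc 12, .negSucc 23, .ofNat 33, .negSucc 19, .negSucc 30, .negSucc 30, .negSucc 41, .ofNat 529],
   [.ofNat 4, .ofNat 2, .ofNat 10, .negSucc 17, .negSucc 17, .negSucc 18, .ofNat 18, .negSucc 19,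
  .negSucc 44, .negSucc 43, .negSucc 18, .negSucc 20, .ofNat 13, .negSucc 30, .negSucc 62, .negSucc
  57, .ofNat 528],
   [.ofNat 6, .ofNat 21, .negSucc 17, .ofNat 16, .negSucc 16, .negSucc 55, .negSucc 20, .ofNat 3,
  .negSucc 25, .negSucc 40, .negSucc 17, .negSucc 56, .negSucc 29, .negSucc 3, .negSucc 42, .negSucc
  64, .negSucc 39, .ofNat 524],
   [.ofNat 9, .negSucc 17, .ofNat 27, .ofNat 13, .ofNat 19, .negSucc 17, .negSucc 16, .ofNat 5, .ofNat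
  1, .negSucc 18, .ofNat 16, .negSucc 16, .negSucc 17, .ofNat 8, .ofNat 5, .negSucc 22, .negSucc 20,
  .negSucc 27, .ofNat 537],
   [.ofNat 18, .ofNat 0, .negSucc 3, .ofNat 2, .negSucc 4, .negSucc 3, .negSucc 0, .ofNat 18, .ofNat
  18, .ofNat 20, .negSucc 11, .negSucc 10, .negSucc 8, .ofNat 21, .ofNat 20, .ofNat 22, .ofNat 28,
  .ofNat 25, .ofNat 21, .ofNat 537],
   [.negSucc 17, .negSucc 18, .negSucc 0, .negSucc 5, .negSucc 19, .negSucc 0, .negSucc 3, .negSucc 7,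
  .ofNat 4, .negSucc 17, .negSucc 20, .negSucc 2, .negSucc 8, .negSucc 0, .negSucc 9, .negSucc 20,
  .ofNat 3, .negSucc 5, .negSucc 19, .ofNat 21, .ofNat 539],
   [.negSucc 17, .negSucc 37, .negSucc 19, .ofNat 1, .negSucc 40, .negSucc 23, .negSucc 9, .ofNat 3,
  .negSucc 25, .ofNat 11, .negSucc 38, .negSucc 30, .negSucc 50, .ofNat 7, .negSucc 39, .negSucc 56,
  .ofNat 19, .negSucc 38, .negSucc 48, .ofNat 23, .negSucc 29, .ofNat 522],
   [.negSucc 17, .negSucc 32, .negSucc 41, .negSucc 21, .negSucc 36, .negSucc 40, .negSucc 28, .negSucc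
  22, .ofNat 1, .ofNat 2, .negSucc 35, .negSucc 12, .negSucc 38, .negSucc 29, .negSucc 21, .negSucc
  49, .negSucc 31, .negSucc 8, .negSucc 43, .ofNat 25, .negSucc 29, .negSucc 48, .ofNat 521],
   [.ofNat 0, .negSucc 17, .negSucc 18, .ofNat 10, .negSucc 30, .negSucc 47, .negSucc 24, .negSucc 21,
  .negSucc 54, .negSucc 42, .negSucc 40, .negSucc 62, .negSucc 35, .negSucc 41, .negSucc 100, .negSucc
  82, .negSucc 24, .negSucc 63, .negSucc 28, .ofNat 9, .negSucc 31, .negSucc 62, .negSucc 32, .ofNat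
  496],
   [.negSucc 4, .negSucc 18, .negSucc 48, .negSucc 20, .negSucc 43, .negSucc 23, .negSucc 59, .ofNat 4,
  .negSucc 30, .negSucc 44, .negSucc 35, .negSucc 26, .negSucc 57, .ofNat 10, .negSucc 52, .negSucc
  69, .negSucc 39, .negSucc 12, .negSucc 24, .negSucc 9, .negSucc 29, .negSucc 84, .negSucc 62,
  .negSucc 91, .ofNat 495],
   [.ofNat 4, .ofNat 11, .negSucc 17, .negSucc 18, .negSucc 17, .negSucc 48, .negSucc 47, .negSucc 0,
  .negSucc 6, .negSucc 22, .negSucc 18, .ofNat 6, .negSucc 12, .ofNat 9, .negSucc 2, .negSucc 31,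
  .negSucc 25, .negSucc 35, .negSucc 47, .negSucc 7, .ofNat 7, .negSucc 34, .negSucc 41, .negSucc 52,
  .negSucc 68, .ofNat 520],
   [.ofNat 2, .negSucc 5, .ofNat 7, .negSucc 17, .negSucc 18, .negSucc 18, .ofNat 9, .negSucc 19,
  .negSucc 58, .negSucc 38, .negSucc 45, .negSucc 74, .negSucc 28, .negSucc 65, .negSucc 48, .negSucc
  33, .negSucc 47, .negSucc 96, .negSucc 58, .ofNat 15, .negSucc 28, .negSucc 53, .negSucc 34,
  .negSucc 98, .negSucc 134, .negSucc 109, .ofNat 458],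
   [.negSucc 0, .ofNat 6, .negSucc 17, .ofNat 13, .negSucc 17, .negSucc 48, .negSucc 21, .ofNat 15,
  .negSucc 24, .negSucc 42, .negSucc 36, .negSucc 22, .negSucc 59, .negSucc 32, .negSucc 85, .negSucc
  41, .ofNat 4, .negSucc 50, .negSucc 54, .ofNat 2, .negSucc 28, .negSucc 76, .negSucc 56, .negSucc
  52, .negSucc 94, .negSucc 102, .negSucc 154, .ofNat 458],
   [.negSucc 1, .negSucc 18, .ofNat 11, .ofNat 6, .ofNat 10, .negSucc 18, .negSucc 18, .negSucc 1,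
  .ofNat 1, .negSucc 19, .negSucc 18, .ofNat 7, .ofNat 1, .negSucc 22, .negSucc 23, .negSucc 0, .ofNat
  6, .ofNat 7, .negSucc 19, .ofNat 1, .negSucc 0, .negSucc 23, .negSucc 27, .ofNat 0, .ofNat 0,
  .negSucc 27, .negSucc 42, .negSucc 62, .ofNat 531],
   [.ofNat 18, .negSucc 6, .negSucc 0, .negSucc 1, .negSucc 16, .ofNat 1, .negSucc 2, .ofNat 18, .ofNat
  18, .ofNat 20, .ofNat 18, .ofNat 18, .ofNat 20, .ofNat 47, .ofNat 65, .ofNat 61, .ofNat 60, .ofNat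
  69, .ofNat 48, .negSucc 34, .negSucc 12, .ofNat 7, .ofNat 10, .ofNat 72, .ofNat 64, .ofNat 53,
  .ofNat 126, .ofNat 140, .ofNat 56, .ofNat 467],
   [.ofNat 0, .ofNat 4, .ofNat 17, .negSucc 17, .ofNat 9, .ofNat 34, .negSucc 15, .ofNat 15, .negSucc
  13, .negSucc 17, .negSucc 17, .negSucc 15, .negSucc 33, .negSucc 16, .negSucc 55, .negSucc 1,
  .negSucc 27, .negSucc 50, .ofNat 1, .ofNat 5, .negSucc 21, .negSucc 30, .negSucc 44, .negSucc 53,
  .negSucc 79, .negSucc 19, .negSucc 100, .negSucc 135, .negSucc 30, .ofNat 96, .ofNat 480],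
   [.negSucc 3, .negSucc 2, .negSucc 18, .ofNat 1, .ofNat 0, .negSucc 19, .ofNat 9, .negSucc 19, .ofNat
  18, .negSucc 18, .negSucc 19, .negSucc 0, .negSucc 23, .ofNat 6, .negSucc 23, .negSucc 1, .ofNat 0,
  .negSucc 25, .negSucc 1, .ofNat 8, .negSucc 21, .negSucc 13, .negSucc 29, .negSucc 19, .negSucc 41,
  .negSucc 16, .negSucc 41, .negSucc 72, .negSucc 21, .ofNat 50, .negSucc 81, .ofNat 518],
   [.ofNat 2, .ofNat 19, .negSucc 8, .ofNat 2, .ofNat 19, .negSucc 5, .negSucc 1, .ofNat 19, .ofNat 20,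
  .negSucc 3, .ofNat 1, .ofNat 22, .ofNat 23, .ofNat 0, .ofNat 6, .ofNat 21, .ofNat 0, .ofNat 6,
  .ofNat 21, .ofNat 2, .ofNat 7, .ofNat 31, .ofNat 31, .ofNat 14, .ofNat 24, .ofNat 32, .ofNat 39,
  .ofNat 52, .ofNat 34, .negSucc 44, .ofNat 71, .ofNat 54, .ofNat 521],
   [.ofNat 18, .negSucc 25, .negSucc 19, .negSucc 11, .ofNat 18, .ofNat 17, .ofNat 17, .negSucc 5,
  .negSucc 17, .negSucc 14, .negSucc 8, .ofNat 41, .ofNat 42, .ofNat 18, .ofNat 29, .ofNat 29, .ofNat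
  45, .ofNat 49, .ofNat 3, .negSucc 23, .ofNat 4, .ofNat 60, .ofNat 57, .ofNat 59, .ofNat 66, .ofNat
  52, .ofNat 154, .ofNat 176, .ofNat 39, .negSucc 173, .ofNat 184, .ofNat 124, .negSucc 122, .ofNat
  334],
   [.ofNat 18, .ofNat 19, .ofNat 20, .ofNat 21, .negSucc 25, .negSucc 9, .negSucc 7, .negSucc 0,
  .negSucc 6, .negSucc 0, .negSucc 2, .ofNat 43, .ofNat 41, .negSucc 4, .ofNat 15, .ofNat 45, .ofNat
  24, .ofNat 31, .ofNat 25, .negSucc 23, .ofNat 8, .ofNat 57, .ofNat 54, .ofNat 12, .ofNat 30, .ofNat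
  61, .ofNat 84, .ofNat 106, .ofNat 47, .negSucc 119, .ofNat 125, .ofNat 90, .negSucc 93, .negSucc
  387, .ofNat 232]]

theorem chk : certChk 10 314 500 chi mu nu tab cols = true := by decide +kernel

end Pool.Agent.J6H81.Cube.C6
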