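import Pool.Agent.J6H81.Cube.Rel

/-! Certificate for class 7 (support for MP_416390_gt). -/

namespace Pool.Agent.J6H81.Cube.C7

open Pool.Agent.J6H81.Cube

/-- Signs of the class. -/
def chi : List ℤ :=
  [.ofNat 1, .ofNat 1, .ofNat 1, .ofNat 1, .ofNat 1, .ofNat 1, .ofNat 1, .ofNat 1, .ofNat 1, .ofNat 1,
  .ofNat 1, .ofNat 1, .ofNat 1, .ofNat 1, .ofNat 1, .ofNat 1, .ofNat 1, .ofNat 1, .ofNat 1, .ofNat 1,
  .ofNat 1, .ofNat 1, .ofNat 1, .ofNat 1, .ofNat 1, .ofNat 1, .ofNat 1, .ofNat 1, .ofNat 1, .ofNat 1,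
  .ofNat 1, .ofNat 1, .ofNat 1, .ofNat 1, .ofNat 1]

/-- Multipliers of the relations. -/
def mu : List ℤ :=
  [.negSucc 34, .negSucc 31, .negSucc 19, .negSucc 22, .negSucc 17, .negSucc 11, .negSucc 31, .negSucc
  19, .negSucc 17, .negSucc 19, .negSucc 59, .negSucc 31, .negSucc 22, .negSucc 31, .negSucc 34,
  .ofNat 20, .ofNat 18, .ofNat 12, .ofNat 20, .ofNat 18, .ofNat 20, .ofNat 32, .ofNat 23, .ofNat 32,
  .ofNat 35, .negSucc 34, .negSucc 31, .negSucc 22, .negSucc 31, .negSucc 59, .negSucc 11, .negSucc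
  17, .negSucc 19, .negSucc 22, .negSucc 31, .negSucc 34, .ofNat 32, .ofNat 23, .ofNat 32, .ofNat 60,
  .ofNat 20, .ofNat 18, .ofNat 20, .ofNat 32, .negSucc 34, .ofNat 20, .ofNat 32, .ofNat 35, .negSucc
  22, .negSucc 31, .negSucc 59, .negSucc 17, .negSucc 19, .negSucc 31, .ofNat 35, .negSucc 11,
  .negSucc 17, .negSucc 22, .ofNat 32, .ofNat 20, .negSucc 34, .ofNat 32, .ofNat 60, .ofNat 20, .ofNat
  32, .negSucc 34, .ofNat 18, .ofNat 23, .negSucc 31, .negSucc 19, .ofNat 20, .ofNat 32, .negSucc 22,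
  .negSucc 17, .negSucc 11, .negSucc 59, .negSucc 31, .ofNat 35, .negSucc 22, .ofNat 32, .ofNat 20,
  .negSucc 31, .ofNat 23, .ofNat 18, .ofNat 12, .negSucc 34, .ofNat 32, .ofNat 20, .ofNat 18, .ofNat
  20, .negSucc 34, .negSucc 31, .negSucc 19, .negSucc 22, .negSucc 17, .negSucc 11, .negSucc 31,
  .negSucc 19, .negSucc 17, .negSucc 19, .negSucc 59, .negSucc 31, .negSucc 22, .negSucc 31, .negSucc
  34]

/-- Multipliers of the norm conditions. -/
def nu : List ℤ :=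
  [.ofNat 0, .ofNat 0, .ofNat 0, .ofNat 0, .ofNat 0, .ofNat 0, .ofNat 0]

/-- The table. -/
def tab : List (List ℤ) :=
  [[.ofNat 608, .negSucc 19, .negSucc 19, .negSucc 19, .negSucc 19, .negSucc 19, .negSucc 19, .ofNat
  15, .ofNat 0, .negSucc 7, .negSucc 19, .negSucc 19, .negSucc 19, .ofNat 12, .negSucc 1, .negSucc 1,
  .ofNat 3, .ofNat 0, .ofNat 3, .negSucc 19, .negSucc 19, .negSucc 19, .negSucc 19, .ofNat 0, .negSucc
  7, .ofNat 0, .negSucc 1, .negSucc 1, .ofNat 12, .negSucc 19, .negSucc 7, .ofNat 0, .ofNat 15,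
  .negSucc 19, .negSucc 19],
   [.negSucc 19, .ofNat 608, .negSucc 19, .negSucc 19, .negSucc 19, .negSucc 54, .negSucc 39, .negSucc
  19, .negSucc 19, .ofNat 0, .negSucc 19, .negSucc 51, .negSucc 37, .negSucc 19, .negSucc 19, .ofNat
  12, .ofNat 12, .ofNat 12, .negSucc 19, .ofNat 3, .negSucc 19, .negSucc 39, .negSucc 31, .negSucc 19,
  .negSucc 19, .ofNat 15, .ofNat 0, .ofNat 3, .negSucc 19, .ofNat 12, .negSucc 1, .ofNat 12, .negSucc
  19, .ofNat 40, .negSucc 19],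
   [.negSucc 19, .negSucc 19, .ofNat 608, .negSucc 19, .ofNat 15, .negSucc 19, .negSucc 31, .negSucc
  19, .negSucc 39, .negSucc 19, .ofNat 12, .negSucc 19, .negSucc 37, .negSucc 19, .negSucc 51,
  .negSucc 19, .ofNat 40, .negSucc 19, .ofNat 12, .negSucc 1, .ofNat 0, .negSucc 19, .negSucc 39,
  .negSucc 19, .negSucc 54, .negSucc 19, .ofNat 12, .negSucc 19, .ofNat 3, .ofNat 0, .ofNat 3,
  .negSucc 19, .ofNat 12, .ofNat 12, .negSucc 19],
   [.negSucc 19, .negSucc 19, .negSucc 19, .ofNat 608, .ofNat 0, .negSucc 7, .negSucc 19, .ofNat 0,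
  .negSucc 19, .negSucc 19, .negSucc 1, .negSucc 1, .negSucc 19, .ofNat 12, .negSucc 19, .negSucc 19,
  .negSucc 19, .ofNat 15, .ofNat 0, .negSucc 7, .negSucc 7, .ofNat 0, .negSucc 19, .ofNat 15, .negSucc
  19, .negSucc 19, .negSucc 19, .ofNat 12, .negSucc 1, .negSucc 1, .negSucc 19, .ofNat 3, .ofNat 0,
  .ofNat 3, .negSucc 19],
   [.negSucc 19, .negSucc 19, .ofNat 15, .ofNat 0, .ofNat 608, .negSucc 19, .negSucc 19, .negSucc 19,
  .negSucc 19, .ofNat 15, .negSucc 19, .negSucc 42, .negSucc 39, .negSucc 51, .negSucc 51, .negSucc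
  19, .negSucc 19, .negSucc 19, .ofNat 12, .ofNat 0, .negSucc 19, .negSucc 37, .negSucc 37, .negSucc
  39, .negSucc 42, .negSucc 19, .negSucc 19, .negSucc 19, .ofNat 40, .ofNat 12, .ofNat 0, .ofNat 15,
  .negSucc 19, .negSucc 19, .ofNat 15],
   [.negSucc 19, .negSucc 54, .negSucc 19, .negSucc 7, .negSucc 19, .ofNat 608, .negSucc 19, .negSucc
  19, .negSucc 54, .negSucc 19, .ofNat 3, .negSucc 19, .negSucc 42, .negSucc 79, .negSucc 19, .negSucc
  51, .negSucc 19, .negSucc 51, .negSucc 19, .negSucc 1, .negSucc 1, .negSucc 19, .negSucc 51,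
  .negSucc 51, .negSucc 19, .negSucc 42, .negSucc 19, .negSucc 79, .negSucc 19, .ofNat 3, .ofNat 12,
  .negSucc 19, .ofNat 40, .negSucc 19, .ofNat 12],
   [.negSucc 19, .negSucc 39, .negSucc 31, .negSucc 19, .negSucc 19, .negSucc 19, .ofNat 608, .ofNat
  15, .negSucc 19, .negSucc 19, .ofNat 0, .ofNat 3, .negSucc 19, .negSucc 19, .negSucc 54, .negSucc
  39, .ofNat 12, .negSucc 19, .negSucc 19, .ofNat 0, .negSucc 1, .ofNat 12, .negSucc 19, .negSucc 19,
  .negSucc 51, .negSucc 37, .ofNat 40, .negSucc 19, .negSucc 19, .ofNat 12, .negSucc 19, .ofNat 12,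
  .ofNat 12, .negSucc 19, .ofNat 3],
   [.ofNat 15, .negSucc 19, .negSucc 19, .ofNat 0, .negSucc 19, .negSucc 19, .ofNat 15, .ofNat 608,
  .negSucc 19, .negSucc 19, .ofNat 12, .ofNat 40, .negSucc 19, .negSucc 19, .negSucc 42, .negSucc 37,
  .negSucc 19, .negSucc 39, .negSucc 37, .negSucc 19, .ofNat 0, .ofNat 12, .negSucc 19, .negSucc 19,
  .negSucc 51, .negSucc 39, .negSucc 19, .negSucc 51, .negSucc 42, .negSucc 19, .ofNat 15, .negSucc
  19, .negSucc 19, .ofNat 15, .ofNat 0],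
   [.ofNat 0, .negSucc 19, .negSucc 39, .negSucc 19, .negSucc 19, .negSucc 54, .negSucc 19, .negSucc
  19, .ofNat 608, .negSucc 19, .ofNat 12, .negSucc 19, .ofNat 15, .ofNat 3, .negSucc 19, .negSucc 31,
  .ofNat 0, .negSucc 19, .negSucc 39, .negSucc 19, .ofNat 3, .negSucc 19, .ofNat 12, .ofNat 12,
  .negSucc 19, .negSucc 37, .ofNat 12, .negSucc 19, .negSucc 51, .negSucc 19, .negSucc 19, .ofNat 40,
  .negSucc 19, .ofNat 12, .negSucc 1],
   [.negSucc 7, .ofNat 0, .negSucc 19, .negSucc 19, .ofNat 15, .negSucc 19, .negSucc 19, .negSucc 19,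
  .negSucc 19, .ofNat 608, .negSucc 19, .ofNat 12, .ofNat 0, .negSucc 1, .negSucc 7, .negSucc 19,
  .negSucc 1, .ofNat 0, .negSucc 19, .negSucc 19, .negSucc 19, .ofNat 3, .negSucc 1, .ofNat 0,
  .negSucc 1, .negSucc 19, .ofNat 3, .ofNat 12, .negSucc 19, .negSucc 19, .negSucc 19, .negSucc 19,
  .ofNat 15, .ofNat 0, .negSucc 7],
   [.negSucc 19, .negSucc 19, .ofNat 12, .negSucc 1, .negSucc 19, .ofNat 3, .ofNat 0, .ofNat 12, .ofNat
  12, .negSucc 19, .ofNat 608, .negSucc 19, .negSucc 19, .negSucc 19, .negSucc 19, .ofNat 40, .negSucc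
  19, .negSucc 19, .ofNat 12, .ofNat 3, .negSucc 19, .negSucc 31, .negSucc 39, .negSucc 37, .negSucc
  51, .negSucc 19, .negSucc 39, .negSucc 54, .negSucc 19, .negSucc 19, .negSucc 19, .negSucc 19,
  .ofNat 15, .ofNat 12, .ofNat 0],
   [.negSucc 19, .negSucc 51, .negSucc 19, .negSucc 1, .negSucc 42, .negSucc 19, .ofNat 3, .ofNat 40,
  .negSucc 19, .ofNat 12, .negSucc 19, .ofNat 608, .negSucc 19, .negSucc 19, .negSucc 79, .negSucc 19,
  .negSucc 19, .negSucc 51, .negSucc 19, .ofNat 12, .negSucc 7, .negSucc 19, .negSucc 54, .negSucc 42,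
  .negSucc 19, .negSucc 51, .negSucc 51, .negSucc 19, .negSucc 79, .negSucc 19, .negSucc 19, .negSucc
  54, .negSucc 19, .ofNat 3, .negSucc 1],
   [.negSucc 19, .negSucc 37, .negSucc 37, .negSucc 19, .negSucc 39, .negSucc 42, .negSucc 19, .negSucc
  19, .ofNat 15, .ofNat 0, .negSucc 19, .negSucc 19, .ofNat 608, .ofNat 40, .negSucc 19, .negSucc 19,
  .ofNat 12, .negSucc 19, .negSucc 19, .ofNat 15, .ofNat 0, .ofNat 15, .negSucc 19, .negSucc 19,
  .negSucc 42, .negSucc 39, .negSucc 19, .negSucc 51, .negSucc 51, .negSucc 19, .ofNat 15, .negSucc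
  19, .negSucc 19, .ofNat 12, .ofNat 0],
   [.ofNat 12, .negSucc 19, .negSucc 19, .ofNat 12, .negSucc 51, .negSucc 79, .negSucc 19, .negSucc 19,
  .ofNat 3, .negSucc 1, .negSucc 19, .negSucc 19, .ofNat 40, .ofNat 608, .negSucc 19, .negSucc 19,
  .negSucc 19, .negSucc 42, .negSucc 51, .negSucc 19, .negSucc 1, .ofNat 3, .negSucc 19, .negSucc 19,
  .negSucc 79, .negSucc 51, .negSucc 54, .negSucc 19, .negSucc 19, .negSucc 54, .negSucc 19, .negSucc
  51, .negSucc 42, .negSucc 19, .negSucc 7],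
   [.negSucc 1, .negSucc 19, .negSucc 51, .negSucc 19, .negSucc 51, .negSucc 19, .negSucc 54, .negSucc
  42, .negSucc 19, .negSucc 7, .negSucc 19, .negSucc 79, .negSucc 19, .negSucc 19, .ofNat 608,
  .negSucc 19, .ofNat 3, .negSucc 19, .negSucc 54, .negSucc 19, .ofNat 12, .negSucc 19, .ofNat 3,
  .ofNat 40, .negSucc 19, .negSucc 42, .negSucc 19, .negSucc 79, .negSucc 19, .negSucc 51, .ofNat 12,
  .negSucc 19, .negSucc 51, .negSucc 19, .negSucc 1],
   [.negSucc 1, .ofNat 12, .negSucc 19, .negSucc 19, .negSucc 19, .negSucc 51, .negSucc 39, .negSucc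
  37, .negSucc 31, .negSucc 19, .ofNat 40, .negSucc 19, .negSucc 19, .negSucc 19, .negSucc 19, .ofNat
  608, .ofNat 12, .ofNat 15, .negSucc 19, .negSucc 19, .negSucc 19, .ofNat 12, .ofNat 0, .ofNat 12,
  .ofNat 3, .negSucc 19, .negSucc 19, .negSucc 19, .negSucc 54, .negSucc 39, .ofNat 3, .ofNat 12,
  .negSucc 19, .negSucc 19, .ofNat 0],
   [.ofNat 3, .ofNat 12, .ofNat 40, .negSucc 19, .negSucc 19, .negSucc 19, .ofNat 12, .negSucc 19,
  .ofNat 0, .negSucc 1, .negSucc 19, .negSucc 19, .ofNat 12, .negSucc 19, .ofNat 3, .ofNat 12, .ofNat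
  608, .negSucc 19, .negSucc 19, .negSucc 19, .ofNat 0, .ofNat 12, .negSucc 19, .ofNat 15, .negSucc
  19, .negSucc 19, .negSucc 19, .negSucc 54, .negSucc 51, .negSucc 39, .negSucc 19, .negSucc 39,
  .negSucc 37, .negSucc 31, .negSucc 19],
   [.ofNat 0, .ofNat 12, .negSucc 19, .ofNat 15, .negSucc 19, .negSucc 51, .negSucc 19, .negSucc 39,
  .negSucc 19, .ofNat 0, .negSucc 19, .negSucc 51, .negSucc 19, .negSucc 42, .negSucc 19, .ofNat 15,
  .negSucc 19, .ofNat 608, .negSucc 19, .negSucc 19, .ofNat 15, .negSucc 19, .ofNat 12, .negSucc 19,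
  .ofNat 40, .negSucc 19, .ofNat 15, .negSucc 19, .negSucc 42, .negSucc 37, .ofNat 0, .negSucc 19,
  .negSucc 39, .negSucc 37, .negSucc 19],
   [.ofNat 3, .negSucc 19, .ofNat 12, .ofNat 0, .ofNat 12, .negSucc 19, .negSucc 19, .negSucc 37,
  .negSucc 39, .negSucc 19, .ofNat 12, .negSucc 19, .negSucc 19, .negSucc 51, .negSucc 54, .negSucc
  19, .negSucc 19, .negSucc 19, .ofNat 608, .negSucc 19, .negSucc 19, .ofNat 40, .ofNat 12, .negSucc
  19, .negSucc 19, .ofNat 15, .ofNat 12, .ofNat 3, .negSucc 19, .negSucc 31, .negSucc 1, .ofNat 0,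
  .negSucc 19, .negSucc 39, .negSucc 19],
   [.negSucc 19, .ofNat 3, .negSucc 1, .negSucc 7, .ofNat 0, .negSucc 1, .ofNat 0, .negSucc 19,
  .negSucc 19, .negSucc 19, .ofNat 3, .ofNat 12, .ofNat 15, .negSucc 19, .negSucc 19, .negSucc 19,
  .negSucc 19, .negSucc 19, .negSucc 19, .ofNat 608, .negSucc 19, .negSucc 19, .negSucc 19, .ofNat 15,
  .ofNat 12, .ofNat 0, .ofNat 0, .negSucc 1, .negSucc 7, .negSucc 19, .negSucc 7, .negSucc 1, .ofNat
  0, .negSucc 19, .negSucc 19],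
   [.negSucc 19, .negSucc 19, .ofNat 0, .negSucc 7, .negSucc 19, .negSucc 1, .negSucc 1, .ofNat 0,
  .ofNat 3, .negSucc 19, .negSucc 19, .negSucc 7, .ofNat 0, .negSucc 1, .ofNat 12, .negSucc 19, .ofNat
  0, .ofNat 15, .negSucc 19, .negSucc 19, .ofNat 608, .negSucc 19, .negSucc 19, .negSucc 19, .negSucc
  19, .ofNat 15, .negSucc 19, .negSucc 19, .ofNat 12, .ofNat 3, .negSucc 19, .negSucc 19, .ofNat 0,
  .negSucc 1, .negSucc 7],
   [.negSucc 19, .negSucc 39, .negSucc 19, .ofNat 0, .negSucc 37, .negSucc 19, .ofNat 12, .ofNat 12,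
  .negSucc 19, .ofNat 3, .negSucc 31, .negSucc 19, .ofNat 15, .ofNat 3, .negSucc 19, .ofNat 12, .ofNat
  12, .negSucc 19, .ofNat 40, .negSucc 19, .negSucc 19, .ofNat 608, .negSucc 19, .negSucc 19, .negSucc
  54, .negSucc 19, .negSucc 19, .negSucc 51, .negSucc 19, .ofNat 12, .negSucc 19, .negSucc 39,
  .negSucc 19, .ofNat 0, .negSucc 1],
   [.negSucc 19, .negSucc 31, .negSucc 39, .negSucc 19, .negSucc 37, .negSucc 51, .negSucc 19, .negSucc
  19, .ofNat 12, .negSucc 1, .negSucc 39, .negSucc 54, .negSucc 19, .negSucc 19, .ofNat 3, .ofNat 0,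
  .negSucc 19, .ofNat 12, .ofNat 12, .negSucc 19, .negSucc 19, .negSucc 19, .ofNat 608, .ofNat 15,
  .negSucc 19, .negSucc 19, .ofNat 12, .negSucc 19, .negSucc 19, .ofNat 40, .ofNat 0, .negSucc 19,
  .negSucc 19, .ofNat 12, .ofNat 3],
   [.ofNat 0, .negSucc 19, .negSucc 19, .ofNat 15, .negSucc 39, .negSucc 51, .negSucc 19, .negSucc 19,
  .ofNat 12, .ofNat 0, .negSucc 37, .negSucc 42, .negSucc 19, .negSucc 19, .ofNat 40, .ofNat 12,
  .ofNat 15, .negSucc 19, .negSucc 19, .ofNat 15, .negSucc 19, .negSucc 19, .ofNat 15, .ofNat 608,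
  .negSucc 19, .negSucc 19, .negSucc 19, .negSucc 42, .negSucc 51, .negSucc 19, .negSucc 19, .negSucc
  37, .negSucc 39, .negSucc 19, .ofNat 0],
   [.negSucc 7, .negSucc 19, .negSucc 54, .negSucc 19, .negSucc 42, .negSucc 19, .negSucc 51, .negSucc
  51, .negSucc 19, .negSucc 1, .negSucc 51, .negSucc 19, .negSucc 42, .negSucc 79, .negSucc 19, .ofNat
  3, .negSucc 19, .ofNat 40, .negSucc 19, .ofNat 12, .negSucc 19, .negSucc 54, .negSucc 19, .negSucc
  19, .ofNat 608, .negSucc 19, .ofNat 3, .negSucc 19, .negSucc 79, .negSucc 19, .negSucc 1, .negSucc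
  19, .negSucc 51, .negSucc 19, .ofNat 12],
   [.ofNat 0, .ofNat 15, .negSucc 19, .negSucc 19, .negSucc 19, .negSucc 42, .negSucc 37, .negSucc 39,
  .negSucc 37, .negSucc 19, .negSucc 19, .negSucc 51, .negSucc 39, .negSucc 51, .negSucc 42, .negSucc
  19, .negSucc 19, .negSucc 19, .ofNat 15, .ofNat 0, .ofNat 15, .negSucc 19, .negSucc 19, .negSucc 19,
  .negSucc 19, .ofNat 608, .ofNat 12, .ofNat 40, .negSucc 19, .negSucc 19, .ofNat 0, .ofNat 12,
  .negSucc 19, .negSucc 19, .ofNat 15],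
   [.negSucc 1, .ofNat 0, .ofNat 12, .negSucc 19, .negSucc 19, .negSucc 19, .ofNat 40, .negSucc 19,
  .ofNat 12, .ofNat 3, .negSucc 39, .negSucc 51, .negSucc 19, .negSucc 54, .negSucc 19, .negSucc 19,
  .negSucc 19, .ofNat 15, .ofNat 12, .ofNat 0, .negSucc 19, .negSucc 19, .ofNat 12, .negSucc 19,
  .ofNat 3, .ofNat 12, .ofNat 608, .negSucc 19, .negSucc 19, .negSucc 19, .negSucc 19, .negSucc 31,
  .negSucc 37, .negSucc 39, .negSucc 19],
   [.negSucc 1, .ofNat 3, .negSucc 19, .ofNat 12, .negSucc 19, .negSucc 79, .negSucc 19, .negSucc 51,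
  .negSucc 19, .ofNat 12, .negSucc 54, .negSucc 19, .negSucc 51, .negSucc 19, .negSucc 79, .negSucc
  19, .negSucc 54, .negSucc 19, .ofNat 3, .negSucc 1, .negSucc 19, .negSucc 51, .negSucc 19, .negSucc
  42, .negSucc 19, .ofNat 40, .negSucc 19, .ofNat 608, .negSucc 19, .negSucc 19, .negSucc 7, .negSucc
  19, .negSucc 42, .negSucc 51, .negSucc 19],
   [.ofNat 12, .negSucc 19, .ofNat 3, .negSucc 1, .ofNat 40, .negSucc 19, .negSucc 19, .negSucc 42,
  .negSucc 51, .negSucc 19, .negSucc 19, .negSucc 79, .negSucc 51, .negSucc 19, .negSucc 19, .negSucc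
  54, .negSucc 51, .negSucc 42, .negSucc 19, .negSucc 7, .ofNat 12, .negSucc 19, .negSucc 19, .negSucc
  51, .negSucc 79, .negSucc 19, .negSucc 19, .negSucc 19, .ofNat 608, .negSucc 19, .negSucc 1, .ofNat
  3, .negSucc 19, .negSucc 54, .negSucc 19],
   [.negSucc 19, .ofNat 12, .ofNat 0, .negSucc 1, .ofNat 12, .ofNat 3, .ofNat 12, .negSucc 19, .negSucc
  19, .negSucc 19, .negSucc 19, .negSucc 19, .negSucc 19, .negSucc 54, .negSucc 51, .negSucc 39,
  .negSucc 39, .negSucc 37, .negSucc 31, .negSucc 19, .ofNat 3, .ofNat 12, .ofNat 40, .negSucc 19,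
  .negSucc 19, .negSucc 19, .negSucc 19, .negSucc 19, .negSucc 19, .ofNat 608, .ofNat 0, .ofNat 12,
  .ofNat 15, .negSucc 19, .negSucc 19],
   [.negSucc 7, .negSucc 1, .ofNat 3, .negSucc 19, .ofNat 0, .ofNat 12, .negSucc 19, .ofNat 15,
  .negSucc 19, .negSucc 19, .negSucc 19, .negSucc 19, .ofNat 15, .negSucc 19, .ofNat 12, .ofNat 3,
  .negSucc 19, .ofNat 0, .negSucc 1, .negSucc 7, .negSucc 19, .negSucc 19, .ofNat 0, .negSucc 19,
  .negSucc 1, .ofNat 0, .negSucc 19, .negSucc 7, .negSucc 1, .ofNat 0, .ofNat 608, .negSucc 19,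
  .negSucc 19, .negSucc 19, .negSucc 19],
   [.ofNat 0, .ofNat 12, .negSucc 19, .ofNat 3, .ofNat 15, .negSucc 19, .ofNat 12, .negSucc 19, .ofNat
  40, .negSucc 19, .negSucc 19, .negSucc 54, .negSucc 19, .negSucc 51, .negSucc 19, .ofNat 12,
  .negSucc 39, .negSucc 19, .ofNat 0, .negSucc 1, .negSucc 19, .negSucc 39, .negSucc 19, .negSucc 37,
  .negSucc 19, .ofNat 12, .negSucc 31, .negSucc 19, .ofNat 3, .ofNat 12, .negSucc 19, .ofNat 608,
  .negSucc 19, .negSucc 19, .negSucc 19],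
   [.ofNat 15, .negSucc 19, .ofNat 12, .ofNat 0, .negSucc 19, .ofNat 40, .ofNat 12, .negSucc 19,
  .negSucc 19, .ofNat 15, .ofNat 15, .negSucc 19, .negSucc 19, .negSucc 42, .negSucc 51, .negSucc 19,
  .negSucc 37, .negSucc 39, .negSucc 19, .ofNat 0, .ofNat 0, .negSucc 19, .negSucc 19, .negSucc 39,
  .negSucc 51, .negSucc 19, .negSucc 37, .negSucc 42, .negSucc 19, .ofNat 15, .negSucc 19, .negSucc
  19, .ofNat 608, .negSucc 19, .negSucc 19],
   [.negSucc 19, .ofNat 40, .ofNat 12, .ofNat 3, .negSucc 19, .negSucc 19, .negSucc 19, .ofNat 15,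
  .ofNat 12, .ofNat 0, .ofNat 12, .ofNat 3, .ofNat 12, .negSucc 19, .negSucc 19, .negSucc 19, .negSucc
  31, .negSucc 37, .negSucc 39, .negSucc 19, .negSucc 1, .ofNat 0, .ofNat 12, .negSucc 19, .negSucc
  19, .negSucc 19, .negSucc 39, .negSucc 51, .negSucc 54, .negSucc 19, .negSucc 19, .negSucc 19,
  .negSucc 19, .ofNat 608, .negSucc 19],
   [.negSucc 19, .negSucc 19, .negSucc 19, .negSucc 19, .ofNat 15, .ofNat 12, .ofNat 3, .ofNat 0,
  .negSucc 1, .negSucc 7, .ofNat 0, .negSucc 1, .ofNat 0, .negSucc 7, .negSucc 1, .ofNat 0, .negSucc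
  19, .negSucc 19, .negSucc 19, .negSucc 19, .negSucc 7, .negSucc 1, .ofNat 3, .ofNat 0, .ofNat 12,
  .ofNat 15, .negSucc 19, .negSucc 19, .negSucc 19, .negSucc 19, .negSucc 19, .negSucc 19, .negSucc
  19, .negSucc 19, .ofNat 608]]

/-- The Cholesky columns. -/
def cols : List (List ℤ) :=
  [[.ofNat 541],
   [.negSucc 17, .ofNat 541],
   [.negSucc 17, .negSucc 18, .ofNat 541],
   [.negSucc 17, .negSucc 18, .negSucc 19, .ofNat 540],
   [.negSucc 17, .negSucc 18, .ofNat 13, .negSucc 0, .ofNat 541],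
   [.negSucc 17, .negSucc 50, .negSucc 20, .negSucc 10, .negSucc 19, .ofNat 538],
   [.negSucc 17, .negSucc 37, .negSucc 31, .negSucc 21, .negSucc 19, .negSucc 24, .ofNat 537],
   [.ofNat 14, .negSucc 17, .negSucc 18, .negSucc 0, .negSucc 17, .negSucc 20, .ofNat 10, .ofNat 540],
   [.ofNat 0, .negSucc 17, .negSucc 37, .negSucc 20, .negSucc 17, .negSucc 54, .negSucc 25, .negSucc
  22, .ofNat 535],
   [.negSucc 6, .ofNat 0, .negSucc 18, .negSucc 18, .ofNat 14, .negSucc 18, .negSucc 20, .negSucc 18,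
  .negSucc 23, .ofNat 539],
   [.negSucc 17, .negSucc 18, .ofNat 10, .negSucc 2, .negSucc 19, .ofNat 0, .negSucc 1, .ofNat 11,
  .ofNat 11, .negSucc 16, .ofNat 540],
   [.negSucc 17, .negSucc 48, .negSucc 20, .negSucc 4, .negSucc 41, .negSucc 25, .negSucc 4, .ofNat 33,
  .negSucc 24, .ofNat 10, .negSucc 21, .ofNat 534],
   [.negSucc 17, .negSucc 35, .negSucc 36, .negSucc 21, .negSucc 37, .negSucc 46, .negSucc 27, .negSucc
  22, .ofNat 1, .negSucc 4, .negSucc 20, .negSucc 28, .ofNat 532],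
   [.ofNat 11, .negSucc 17, .negSucc 18, .ofNat 10, .negSucc 47, .negSucc 77, .negSucc 25, .negSucc 23,
  .negSucc 10, .negSucc 5, .negSucc 19, .negSucc 27, .ofNat 21, .ofNat 530],
   [.negSucc 1, .negSucc 18, .negSucc 48, .negSucc 20, .negSucc 47, .negSucc 24, .negSucc 58, .negSucc
  43, .negSucc 32, .negSucc 14, .negSucc 18, .negSucc 83, .negSucc 39, .negSucc 37, .ofNat 519],
   [.negSucc 1, .ofNat 11, .negSucc 17, .negSucc 18, .negSucc 17, .negSucc 48, .negSucc 40, .negSucc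
  36, .negSucc 40, .negSucc 25, .ofNat 37, .negSucc 20, .negSucc 28, .negSucc 30, .negSucc 42, .ofNat
  528],
   [.ofNat 3, .ofNat 11, .ofNat 37, .negSucc 16, .negSucc 18, .negSucc 16, .ofNat 12, .negSucc 17,
  .ofNat 0, .negSucc 0, .negSucc 18, .negSucc 17, .ofNat 9, .negSucc 22, .negSucc 0, .ofNat 9, .ofNat
  537],
   [.ofNat 0, .ofNat 11, .negSucc 17, .ofNat 14, .negSucc 17, .negSucc 47, .negSucc 20, .negSucc 38,
  .negSucc 26, .negSucc 4, .negSucc 16, .negSucc 51, .negSucc 30, .negSucc 54, .negSucc 46, .negSucc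
  7, .negSucc 23, .ofNat 526],
   [.ofNat 3, .negSucc 17, .ofNat 11, .ofNat 0, .ofNat 10, .negSucc 18, .negSucc 19, .negSucc 35,
  .negSucc 40, .negSucc 22, .ofNat 11, .negSucc 18, .negSucc 23, .negSucc 54, .negSucc 69, .negSucc
  39, .negSucc 21, .negSucc 41, .ofNat 525],
   [.negSucc 17, .ofNat 2, .negSucc 1, .negSucc 7, .negSucc 0, .negSucc 2, .negSucc 0, .negSucc 17,
  .negSucc 19, .negSucc 20, .ofNat 2, .ofNat 11, .ofNat 13, .negSucc 19, .negSucc 21, .negSucc 25,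
  .negSucc 19, .negSucc 24, .negSucc 31, .ofNat 536],
   [.negSucc 17, .negSucc 18, .negSucc 0, .negSucc 8, .negSucc 19, .negSucc 4, .negSucc 4, .negSucc 0,
  .ofNat 0, .negSucc 18, .negSucc 20, .negSucc 11, .negSucc 5, .negSucc 5, .ofNat 3, .negSucc 20,
  .negSucc 1, .ofNat 10, .negSucc 21, .negSucc 21, .ofNat 538],
   [.negSucc 17, .negSucc 37, .negSucc 19, .negSucc 2, .negSucc 36, .negSucc 24, .ofNat 4, .ofNat 7,
  .negSucc 24, .ofNat 1, .negSucc 31, .negSucc 30, .ofNat 2, .negSucc 8, .negSucc 33, .ofNat 5, .ofNat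
  9, .negSucc 29, .ofNat 28, .negSucc 19, .negSucc 22, .ofNat 531],
   [.negSucc 17, .negSucc 29, .negSucc 38, .negSucc 21, .negSucc 35, .negSucc 54, .negSucc 27, .negSucc
  22, .negSucc 2, .negSucc 6, .negSucc 38, .negSucc 62, .negSucc 39, .negSucc 37, .negSucc 31,
  .negSucc 18, .negSucc 22, .negSucc 15, .negSucc 7, .negSucc 24, .negSucc 28, .negSucc 37, .ofNat
  520],
   [.ofNat 0, .negSucc 17, .negSucc 18, .ofNat 13, .negSucc 36, .negSucc 51, .negSucc 23, .negSucc 22,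
  .ofNat 1, .negSucc 2, .negSucc 36, .negSucc 47, .negSucc 34, .negSucc 35, .ofNat 11, .negSucc 0,
  .ofNat 9, .negSucc 38, .negSucc 30, .ofNat 11, .negSucc 24, .negSucc 30, .negSucc 15, .ofNat 526],
   [.negSucc 6, .negSucc 18, .negSucc 51, .negSucc 20, .negSucc 39, .negSucc 24, .negSucc 55, .negSucc
  51, .negSucc 32, .negSucc 9, .negSucc 48, .negSucc 27, .negSucc 59, .negSucc 90, .negSucc 60,
  .negSucc 24, .negSucc 22, .ofNat 1, .negSucc 49, .negSucc 1, .negSucc 29, .negSucc 66, .negSucc 67,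
  .negSucc 55, .ofNat 495],
   [.ofNat 0, .ofNat 14, .negSucc 17, .negSucc 18, .negSucc 17, .negSucc 39, .negSucc 38, .negSucc 38,
  .negSucc 44, .negSucc 25, .negSucc 17, .negSucc 51, .negSucc 50, .negSucc 62, .negSucc 75, .negSucc
  48, .negSucc 23, .negSucc 54, .negSucc 23, .negSucc 14, .ofNat 6, .negSucc 33, .negSucc 58, .negSucc
  47, .negSucc 92, .ofNat 497],
   [.negSucc 1, .ofNat 0, .ofNat 11, .negSucc 17, .negSucc 18, .negSucc 18, .ofNat 35, .negSucc 19,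
  .ofNat 10, .ofNat 3, .negSucc 37, .negSucc 49, .negSucc 24, .negSucc 57, .negSucc 33, .negSucc 25,
  .negSucc 26, .negSucc 4, .negSucc 4, .negSucc 4, .negSucc 23, .negSucc 28, .negSucc 13, .negSucc 35,
  .negSucc 35, .negSucc 27, .ofNat 524],
   [.negSucc 1, .ofNat 3, .negSucc 17, .ofNat 10, .negSucc 17, .negSucc 74, .negSucc 22, .negSucc 51,
  .negSucc 30, .ofNat 4, .negSucc 49, .negSucc 24, .negSucc 63, .negSucc 36, .negSucc 105, .negSucc
  45, .negSucc 55, .negSucc 57, .negSucc 36, .negSucc 17, .negSucc 25, .negSucc 67, .negSucc 67,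
  .negSucc 75, .negSucc 108, .negSucc 62, .negSucc 70, .ofNat 464],
   [.ofNat 11, .negSucc 17, .ofNat 3, .negSucc 1, .ofNat 37, .negSucc 17, .negSucc 18, .negSucc 39,
  .negSucc 51, .negSucc 24, .negSucc 16, .negSucc 74, .negSucc 55, .negSucc 24, .negSucc 45, .negSucc
  71, .negSucc 50, .negSucc 68, .negSucc 55, .negSucc 22, .ofNat 3, .negSucc 27, .negSucc 52, .negSucc
  73, .negSucc 143, .negSucc 117, .negSucc 65, .negSucc 168, .ofNat 426],
   [.negSucc 17, .ofNat 10, .ofNat 0, .negSucc 1, .ofNat 11, .ofNat 4, .ofNat 12, .negSucc 16, .negSucc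
  17, .negSucc 19, .negSucc 17, .negSucc 16, .negSucc 19, .negSucc 50, .negSucc 58, .negSucc 48,
  .negSucc 39, .negSucc 53, .negSucc 56, .negSucc 34, .negSucc 3, .ofNat 4, .ofNat 19, .negSucc 29,
  .negSucc 53, .negSucc 69, .negSucc 47, .negSucc 99, .negSucc 161, .ofNat 475],
   [.negSucc 6, .negSucc 1, .ofNat 2, .negSucc 18, .ofNat 0, .ofNat 10, .negSucc 18, .ofNat 15,
  .negSucc 18, .negSucc 19, .negSucc 19, .negSucc 20, .ofNat 12, .negSucc 19, .ofNat 4, .ofNat 1,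
  .negSucc 20, .negSucc 3, .negSucc 5, .negSucc 10, .negSucc 21, .negSucc 22, .negSucc 9, .negSucc 24,
  .negSucc 19, .negSucc 16, .negSucc 29, .negSucc 34, .negSucc 48, .negSucc 39, .ofNat 530],
   [.ofNat 0, .ofNat 11, .negSucc 17, .ofNat 3, .ofNat 15, .negSucc 17, .ofNat 11, .negSucc 18, .ofNat
  35, .negSucc 18, .negSucc 17, .negSucc 47, .negSucc 23, .negSucc 52, .negSucc 32, .ofNat 3, .negSucc
  40, .negSucc 37, .negSucc 15, .negSucc 7, .negSucc 20, .negSucc 43, .negSucc 43, .negSucc 55,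
  .negSucc 63, .negSucc 39, .negSucc 64, .negSucc 107, .negSucc 131, .negSucc 99, .negSucc 62, .ofNat
  468],
   [.ofNat 14, .negSucc 17, .ofNat 11, .ofNat 0, .negSucc 18, .ofNat 36, .ofNat 12, .negSucc 18,
  .negSucc 15, .ofNat 15, .ofNat 14, .negSucc 17, .negSucc 16, .negSucc 37, .negSucc 56, .negSucc 25,
  .negSucc 36, .negSucc 49, .negSucc 39, .negSucc 9, .negSucc 1, .negSucc 23, .negSucc 31, .negSucc
  46, .negSucc 88, .negSucc 73, .negSucc 65, .negSucc 134, .negSucc 187, .negSucc 134, .negSucc 71,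
  .negSucc 198, .ofNat 374],
   [.negSucc 17, .ofNat 36, .ofNat 12, .ofNat 4, .negSucc 17, .negSucc 15, .negSucc 16, .ofNat 15,
  .ofNat 11, .ofNat 1, .ofNat 10, .ofNat 4, .ofNat 12, .negSucc 20, .negSucc 18, .negSucc 22, .negSucc
  31, .negSucc 41, .negSucc 46, .negSucc 26, .negSucc 4, .ofNat 0, .ofNat 4, .negSucc 23, .negSucc 32,
  .negSucc 44, .negSucc 49, .negSucc 101, .negSucc 157, .negSucc 133, .negSucc 60, .negSucc 154,
  .negSucc 330, .ofNat 293],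
   [.negSucc 17, .negSucc 18, .negSucc 19, .negSucc 20, .ofNat 13, .ofNat 8, .ofNat 0, .ofNat 0,
  .negSucc 2, .negSucc 8, .negSucc 0, .negSucc 3, .negSucc 2, .negSucc 5, .negSucc 5, .negSucc 1,
  .negSucc 16, .negSucc 19, .negSucc 23, .negSucc 22, .negSucc 10, .negSucc 4, .negSucc 4, .negSucc 2,
  .ofNat 1, .ofNat 6, .negSucc 22, .negSucc 34, .negSucc 54, .negSucc 59, .negSucc 35, .negSucc 72,
  .negSucc 147, .negSucc 326, .ofNat 381]]

theorem chk : certChk 10 314 500 chi mu nu tab cols = true := by decide +kernel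

end Pool.Agent.J6H81.Cube.C7
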