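import Pool.Agent.J6H81.Cube.Rel

/-! Certificate for class 8 (support for MP_416390_gt). -/

namespace Pool.Agent.J6H81.Cube.C8

open Pool.Agent.J6H81.Cube

/-- Signs of the class. -/
def chi : List ℤ :=
  [.ofNat 1, .ofNat 1, .ofNat 1, .ofNat 1, .ofNat 1, .ofNat 1, .ofNat 1, .ofNat 1, .ofNat 1, .ofNat 1,
  .ofNat 1, .ofNat 1, .ofNat 1, .ofNat 1, .ofNat 1, .ofNat 1, .ofNat 1, .ofNat 1, .ofNat 1, .ofNat 1,
  .ofNat 1, .ofNat 1, .ofNat 1, .ofNat 1, .ofNat 1, .ofNat 1, .ofNat 1, .ofNat 1, .ofNat 1, .ofNat 1,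
  .ofNat 1, .ofNat 1, .ofNat 1, .ofNat 1, .negSucc 0]

/-- Multipliers of the relations. -/
def mu : List ℤ :=
  [.negSucc 36, .negSucc 30, .negSucc 19, .negSucc 13, .negSucc 20, .negSucc 19, .negSucc 23, .negSucc
  21, .negSucc 26, .negSucc 20, .negSucc 41, .negSucc 37, .negSucc 35, .negSucc 33, .negSucc 35,
  .ofNat 20, .ofNat 17, .ofNat 11, .ofNat 19, .ofNat 20, .ofNat 23, .ofNat 31, .ofNat 29, .ofNat 41,
  .ofNat 33, .negSucc 32, .negSucc 31, .negSucc 28, .negSucc 33, .negSucc 54, .negSucc 10, .negSucc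
  16, .negSucc 19, .negSucc 28, .negSucc 31, .negSucc 32, .ofNat 41, .ofNat 29, .ofNat 31, .ofNat 55,
  .ofNat 23, .ofNat 20, .ofNat 19, .ofNat 34, .negSucc 32, .ofNat 20, .ofNat 31, .ofNat 37, .negSucc
  35, .negSucc 37, .negSucc 41, .negSucc 26, .negSucc 21, .negSucc 23, .ofNat 36, .negSucc 19,
  .negSucc 20, .negSucc 13, .ofNat 34, .ofNat 21, .negSucc 35, .ofNat 30, .ofNat 56, .ofNat 25, .ofNat
  33, .ofNat 23, .ofNat 13, .ofNat 18, .ofNat 29, .ofNat 23, .ofNat 23, .ofNat 33, .ofNat 25, .ofNat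
  25, .ofNat 24, .negSucc 60, .negSucc 27, .ofNat 40, .negSucc 28, .ofNat 28, .negSucc 22, .negSucc
  27, .ofNat 29, .negSucc 23, .negSucc 16, .negSucc 39, .ofNat 28, .negSucc 25, .negSucc 23, .negSucc
  22, .negSucc 35, .negSucc 32, .negSucc 22, .negSucc 17, .negSucc 12, .ofNat 24, .negSucc 32,
  .negSucc 24, .ofNat 25, .ofNat 23, .negSucc 55, .negSucc 29, .ofNat 25, .ofNat 29, .ofNat 23]

/-- Multipliers of the norm conditions. -/
def nu : List ℤ :=
  [.ofNat 0, .ofNat 0, .ofNat 0, .ofNat 0, .ofNat 0, .ofNat 0, .ofNat 0]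

/-- The table. -/
def tab : List (List ℤ) :=
  [[.ofNat 608, .negSucc 19, .negSucc 19, .negSucc 19, .negSucc 19, .negSucc 19, .negSucc 19, .ofNat
  17, .ofNat 0, .negSucc 8, .negSucc 19, .negSucc 19, .negSucc 19, .ofNat 11, .negSucc 2, .negSucc 2,
  .negSucc 5, .negSucc 0, .ofNat 9, .negSucc 19, .negSucc 19, .negSucc 19, .negSucc 19, .ofNat 0,
  .negSucc 8, .ofNat 0, .ofNat 1, .ofNat 0, .ofNat 12, .negSucc 19, .ofNat 0, .ofNat 3, .ofNat 13,
  .negSucc 19, .ofNat 20],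
   [.negSucc 19, .ofNat 608, .negSucc 19, .negSucc 19, .negSucc 19, .negSucc 56, .negSucc 39, .negSucc
  19, .negSucc 19, .ofNat 0, .negSucc 19, .negSucc 50, .negSucc 36, .negSucc 19, .negSucc 19, .ofNat
  11, .ofNat 4, .ofNat 11, .negSucc 19, .ofNat 16, .negSucc 19, .negSucc 39, .negSucc 30, .negSucc 19,
  .negSucc 19, .ofNat 17, .ofNat 2, .ofNat 9, .negSucc 19, .ofNat 18, .ofNat 7, .ofNat 21, .negSucc
  19, .ofNat 22, .ofNat 20],
   [.negSucc 19, .negSucc 19, .ofNat 608, .negSucc 19, .ofNat 17, .negSucc 19, .negSucc 30, .negSucc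
  19, .negSucc 39, .negSucc 19, .ofNat 11, .negSucc 19, .negSucc 36, .negSucc 19, .negSucc 50,
  .negSucc 19, .ofNat 22, .negSucc 19, .ofNat 21, .ofNat 7, .ofNat 0, .negSucc 19, .negSucc 39,
  .negSucc 19, .negSucc 56, .negSucc 19, .ofNat 18, .negSucc 19, .ofNat 9, .ofNat 2, .ofNat 16,
  .negSucc 19, .ofNat 11, .ofNat 4, .ofNat 20],
   [.negSucc 19, .negSucc 19, .negSucc 19, .ofNat 608, .ofNat 0, .negSucc 8, .negSucc 19, .ofNat 0,
  .negSucc 19, .negSucc 19, .negSucc 2, .negSucc 2, .negSucc 19, .ofNat 11, .negSucc 19, .negSucc 19,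
  .negSucc 19, .ofNat 13, .ofNat 3, .ofNat 0, .negSucc 8, .ofNat 0, .negSucc 19, .ofNat 17, .negSucc
  19, .negSucc 19, .negSucc 19, .ofNat 12, .ofNat 0, .ofNat 1, .negSucc 19, .ofNat 9, .negSucc 0,
  .negSucc 5, .ofNat 20],
   [.negSucc 19, .negSucc 19, .ofNat 17, .ofNat 0, .ofNat 608, .negSucc 19, .negSucc 19, .negSucc 19,
  .negSucc 19, .ofNat 16, .negSucc 19, .negSucc 33, .negSucc 38, .negSucc 43, .negSucc 50, .negSucc
  19, .negSucc 19, .negSucc 19, .ofNat 10, .ofNat 5, .negSucc 19, .negSucc 40, .negSucc 39, .negSucc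
  41, .negSucc 48, .negSucc 19, .negSucc 19, .negSucc 19, .ofNat 36, .ofNat 13, .ofNat 1, .ofNat 13,
  .negSucc 19, .negSucc 19, .negSucc 2],
   [.negSucc 19, .negSucc 56, .negSucc 19, .negSucc 8, .negSucc 19, .ofNat 608, .negSucc 19, .negSucc
  19, .negSucc 55, .negSucc 19, .negSucc 5, .negSucc 19, .negSucc 48, .negSucc 61, .negSucc 19,
  .negSucc 60, .negSucc 19, .negSucc 49, .negSucc 19, .negSucc 6, .ofNat 1, .negSucc 19, .negSucc 51,
  .negSucc 57, .negSucc 19, .negSucc 48, .negSucc 19, .negSucc 75, .negSucc 19, .negSucc 1, .ofNat 14,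
  .negSucc 19, .ofNat 35, .negSucc 19, .negSucc 8],
   [.negSucc 19, .negSucc 39, .negSucc 30, .negSucc 19, .negSucc 19, .negSucc 19, .ofNat 608, .ofNat
  16, .negSucc 19, .negSucc 19, .negSucc 0, .ofNat 9, .negSucc 19, .negSucc 19, .negSucc 52, .negSucc
  42, .ofNat 10, .negSucc 19, .negSucc 19, .ofNat 3, .ofNat 0, .ofNat 12, .negSucc 19, .negSucc 19,
  .negSucc 51, .negSucc 39, .ofNat 36, .negSucc 19, .negSucc 19, .ofNat 13, .negSucc 19, .ofNat 14,
  .ofNat 14, .negSucc 19, .negSucc 4],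
   [.ofNat 17, .negSucc 19, .negSucc 19, .ofNat 0, .negSucc 19, .negSucc 19, .ofNat 16, .ofNat 608,
  .negSucc 19, .negSucc 19, .ofNat 4, .ofNat 22, .negSucc 19, .negSucc 19, .negSucc 55, .negSucc 46,
  .negSucc 19, .negSucc 44, .negSucc 32, .negSucc 19, .ofNat 2, .ofNat 18, .negSucc 19, .negSucc 19,
  .negSucc 57, .negSucc 41, .negSucc 19, .negSucc 52, .negSucc 37, .negSucc 19, .ofNat 16, .negSucc
  19, .negSucc 19, .ofNat 16, .negSucc 2],
   [.ofNat 0, .negSucc 19, .negSucc 39, .negSucc 19, .negSucc 19, .negSucc 55, .negSucc 19, .negSucc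
  19, .ofNat 608, .negSucc 19, .ofNat 11, .negSucc 19, .ofNat 13, .ofNat 16, .negSucc 19, .negSucc 39,
  .ofNat 5, .negSucc 19, .negSucc 42, .negSucc 19, .ofNat 9, .negSucc 19, .ofNat 12, .ofNat 18,
  .negSucc 19, .negSucc 40, .ofNat 13, .negSucc 19, .negSucc 52, .negSucc 19, .negSucc 19, .ofNat 35,
  .negSucc 19, .ofNat 14, .negSucc 4],
   [.negSucc 8, .ofNat 0, .negSucc 19, .negSucc 19, .ofNat 16, .negSucc 19, .negSucc 19, .negSucc 19,
  .negSucc 19, .ofNat 608, .negSucc 19, .ofNat 21, .ofNat 3, .ofNat 7, .ofNat 0, .negSucc 19, .negSucc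
  6, .ofNat 3, .negSucc 19, .negSucc 19, .negSucc 19, .ofNat 9, .ofNat 0, .ofNat 2, .ofNat 1, .negSucc
  19, .negSucc 1, .ofNat 13, .negSucc 19, .negSucc 19, .negSucc 19, .negSucc 19, .ofNat 13, .ofNat 1,
  .negSucc 3],
   [.negSucc 19, .negSucc 19, .ofNat 11, .negSucc 2, .negSucc 19, .negSucc 5, .negSucc 0, .ofNat 4,
  .ofNat 11, .negSucc 19, .ofNat 608, .negSucc 19, .negSucc 19, .negSucc 19, .negSucc 19, .ofNat 41,
  .negSucc 19, .negSucc 19, .ofNat 8, .ofNat 9, .negSucc 19, .negSucc 39, .negSucc 42, .negSucc 46,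
  .negSucc 60, .negSucc 19, .negSucc 40, .negSucc 52, .negSucc 19, .negSucc 19, .negSucc 19, .negSucc
  19, .ofNat 20, .ofNat 8, .negSucc 2],
   [.negSucc 19, .negSucc 50, .negSucc 19, .negSucc 2, .negSucc 33, .negSucc 19, .ofNat 9, .ofNat 22,
  .negSucc 19, .ofNat 21, .negSucc 19, .ofNat 608, .negSucc 19, .negSucc 19, .negSucc 80, .negSucc 19,
  .negSucc 19, .negSucc 47, .negSucc 19, .ofNat 8, .ofNat 0, .negSucc 19, .negSucc 52, .negSucc 55,
  .negSucc 19, .negSucc 50, .negSucc 53, .negSucc 19, .negSucc 74, .negSucc 19, .negSucc 19, .negSucc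
  59, .negSucc 19, .ofNat 9, .negSucc 3],
   [.negSucc 19, .negSucc 36, .negSucc 36, .negSucc 19, .negSucc 38, .negSucc 48, .negSucc 19, .negSucc
  19, .ofNat 13, .ofNat 3, .negSucc 19, .negSucc 19, .ofNat 608, .ofNat 41, .negSucc 19, .negSucc 19,
  .ofNat 8, .negSucc 19, .negSucc 19, .ofNat 20, .ofNat 3, .ofNat 13, .negSucc 19, .negSucc 19,
  .negSucc 48, .negSucc 38, .negSucc 19, .negSucc 53, .negSucc 53, .negSucc 19, .ofNat 20, .negSucc
  19, .negSucc 19, .ofNat 8, .negSucc 5],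
   [.ofNat 11, .negSucc 19, .negSucc 19, .ofNat 11, .negSucc 43, .negSucc 61, .negSucc 19, .negSucc 19,
  .ofNat 16, .ofNat 7, .negSucc 19, .negSucc 19, .ofNat 41, .ofNat 608, .negSucc 19, .negSucc 19,
  .negSucc 19, .negSucc 48, .negSucc 47, .negSucc 19, .ofNat 7, .ofNat 16, .negSucc 19, .negSucc 19,
  .negSucc 61, .negSucc 43, .negSucc 55, .negSucc 19, .negSucc 19, .negSucc 55, .negSucc 19, .negSucc
  47, .negSucc 48, .negSucc 19, .ofNat 3],
   [.negSucc 2, .negSucc 19, .negSucc 50, .negSucc 19, .negSucc 50, .negSucc 19, .negSucc 52, .negSucc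
  55, .negSucc 19, .ofNat 0, .negSucc 19, .negSucc 80, .negSucc 19, .negSucc 19, .ofNat 608, .negSucc
  19, .ofNat 9, .negSucc 19, .negSucc 59, .negSucc 19, .ofNat 21, .negSucc 19, .ofNat 9, .ofNat 22,
  .negSucc 19, .negSucc 33, .negSucc 19, .negSucc 74, .negSucc 19, .negSucc 53, .ofNat 8, .negSucc 19,
  .negSucc 47, .negSucc 19, .negSucc 3],
   [.negSucc 2, .ofNat 11, .negSucc 19, .negSucc 19, .negSucc 19, .negSucc 60, .negSucc 42, .negSucc
  46, .negSucc 39, .negSucc 19, .ofNat 41, .negSucc 19, .negSucc 19, .negSucc 19, .negSucc 19, .ofNat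
  608, .ofNat 8, .ofNat 20, .negSucc 19, .negSucc 19, .negSucc 19, .ofNat 11, .negSucc 0, .ofNat 4,
  .negSucc 5, .negSucc 19, .negSucc 19, .negSucc 19, .negSucc 52, .negSucc 40, .ofNat 9, .ofNat 8,
  .negSucc 19, .negSucc 19, .negSucc 2],
   [.negSucc 5, .ofNat 4, .ofNat 22, .negSucc 19, .negSucc 19, .negSucc 19, .ofNat 10, .negSucc 19,
  .ofNat 5, .negSucc 6, .negSucc 19, .negSucc 19, .ofNat 8, .negSucc 19, .ofNat 9, .ofNat 8, .ofNat
  608, .negSucc 19, .negSucc 19, .negSucc 19, .ofNat 1, .ofNat 14, .negSucc 19, .ofNat 16, .negSucc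
  19, .negSucc 19, .negSucc 19, .ofNat 3, .ofNat 9, .ofNat 3, .negSucc 19, .ofNat 3, .ofNat 4,
  .negSucc 2, .ofNat 20],
   [.negSucc 0, .ofNat 11, .negSucc 19, .ofNat 13, .negSucc 19, .negSucc 49, .negSucc 19, .negSucc 44,
  .negSucc 19, .ofNat 3, .negSucc 19, .negSucc 47, .negSucc 19, .negSucc 48, .negSucc 19, .ofNat 20,
  .negSucc 19, .ofNat 608, .negSucc 19, .negSucc 19, .ofNat 13, .negSucc 19, .ofNat 14, .negSucc 19,
  .ofNat 35, .negSucc 19, .negSucc 42, .negSucc 19, .ofNat 5, .ofNat 5, .negSucc 42, .negSucc 19,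
  .ofNat 6, .ofNat 4, .ofNat 20],
   [.ofNat 9, .negSucc 19, .ofNat 21, .ofNat 3, .ofNat 10, .negSucc 19, .negSucc 19, .negSucc 32,
  .negSucc 42, .negSucc 19, .ofNat 8, .negSucc 19, .negSucc 19, .negSucc 47, .negSucc 59, .negSucc 19,
  .negSucc 19, .negSucc 19, .ofNat 608, .negSucc 19, .negSucc 19, .ofNat 35, .ofNat 14, .negSucc 19,
  .negSucc 19, .ofNat 13, .negSucc 48, .negSucc 44, .negSucc 19, .ofNat 4, .negSucc 43, .negSucc 45,
  .negSucc 19, .ofNat 3, .ofNat 20],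
   [.negSucc 19, .ofNat 16, .ofNat 7, .ofNat 0, .ofNat 5, .negSucc 6, .ofNat 3, .negSucc 19, .negSucc
  19, .negSucc 19, .ofNat 9, .ofNat 8, .ofNat 20, .negSucc 19, .negSucc 19, .negSucc 19, .negSucc 19,
  .negSucc 19, .negSucc 19, .ofNat 608, .negSucc 19, .negSucc 19, .negSucc 19, .ofNat 16, .ofNat 14,
  .ofNat 1, .negSucc 42, .negSucc 44, .negSucc 43, .negSucc 19, .negSucc 36, .negSucc 43, .negSucc 42,
  .negSucc 19, .ofNat 20],
   [.negSucc 19, .negSucc 19, .ofNat 0, .negSucc 8, .negSucc 19, .ofNat 1, .ofNat 0, .ofNat 2, .ofNat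
  9, .negSucc 19, .negSucc 19, .ofNat 0, .ofNat 3, .ofNat 7, .ofNat 21, .negSucc 19, .ofNat 1, .ofNat
  13, .negSucc 19, .negSucc 19, .ofNat 608, .negSucc 19, .negSucc 19, .negSucc 19, .negSucc 19, .ofNat
  16, .negSucc 19, .negSucc 19, .ofNat 13, .negSucc 1, .negSucc 19, .negSucc 19, .ofNat 3, .negSucc 6,
  .negSucc 3],
   [.negSucc 19, .negSucc 39, .negSucc 19, .ofNat 0, .negSucc 40, .negSucc 19, .ofNat 12, .ofNat 18,
  .negSucc 19, .ofNat 9, .negSucc 39, .negSucc 19, .ofNat 13, .ofNat 16, .negSucc 19, .ofNat 11,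
  .ofNat 14, .negSucc 19, .ofNat 35, .negSucc 19, .negSucc 19, .ofNat 608, .negSucc 19, .negSucc 19,
  .negSucc 55, .negSucc 19, .negSucc 19, .negSucc 52, .negSucc 19, .ofNat 13, .negSucc 19, .negSucc
  42, .negSucc 19, .ofNat 5, .negSucc 4],
   [.negSucc 19, .negSucc 30, .negSucc 39, .negSucc 19, .negSucc 39, .negSucc 51, .negSucc 19, .negSucc
  19, .ofNat 12, .ofNat 0, .negSucc 42, .negSucc 52, .negSucc 19, .negSucc 19, .ofNat 9, .negSucc 0,
  .negSucc 19, .ofNat 14, .ofNat 14, .negSucc 19, .negSucc 19, .negSucc 19, .ofNat 608, .ofNat 16,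
  .negSucc 19, .negSucc 19, .ofNat 13, .negSucc 19, .negSucc 19, .ofNat 36, .ofNat 3, .negSucc 19,
  .negSucc 19, .ofNat 10, .negSucc 4],
   [.ofNat 0, .negSucc 19, .negSucc 19, .ofNat 17, .negSucc 41, .negSucc 57, .negSucc 19, .negSucc 19,
  .ofNat 18, .ofNat 2, .negSucc 46, .negSucc 55, .negSucc 19, .negSucc 19, .ofNat 22, .ofNat 4, .ofNat
  16, .negSucc 19, .negSucc 19, .ofNat 16, .negSucc 19, .negSucc 19, .ofNat 16, .ofNat 608, .negSucc
  19, .negSucc 19, .negSucc 19, .negSucc 37, .negSucc 52, .negSucc 19, .negSucc 19, .negSucc 32,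
  .negSucc 44, .negSucc 19, .negSucc 2],
   [.negSucc 8, .negSucc 19, .negSucc 56, .negSucc 19, .negSucc 48, .negSucc 19, .negSucc 51, .negSucc
  57, .negSucc 19, .ofNat 1, .negSucc 60, .negSucc 19, .negSucc 48, .negSucc 61, .negSucc 19, .negSucc
  5, .negSucc 19, .ofNat 35, .negSucc 19, .ofNat 14, .negSucc 19, .negSucc 55, .negSucc 19, .negSucc
  19, .ofNat 608, .negSucc 19, .negSucc 1, .negSucc 19, .negSucc 75, .negSucc 19, .negSucc 6, .negSucc
  19, .negSucc 49, .negSucc 19, .negSucc 8],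
   [.ofNat 0, .ofNat 17, .negSucc 19, .negSucc 19, .negSucc 19, .negSucc 48, .negSucc 39, .negSucc 41,
  .negSucc 40, .negSucc 19, .negSucc 19, .negSucc 50, .negSucc 38, .negSucc 43, .negSucc 33, .negSucc
  19, .negSucc 19, .negSucc 19, .ofNat 13, .ofNat 1, .ofNat 16, .negSucc 19, .negSucc 19, .negSucc 19,
  .negSucc 19, .ofNat 608, .ofNat 13, .ofNat 36, .negSucc 19, .negSucc 19, .ofNat 5, .ofNat 10,
  .negSucc 19, .negSucc 19, .negSucc 2],
   [.ofNat 1, .ofNat 2, .ofNat 18, .negSucc 19, .negSucc 19, .negSucc 19, .ofNat 36, .negSucc 19,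
  .ofNat 13, .negSucc 1, .negSucc 40, .negSucc 53, .negSucc 19, .negSucc 55, .negSucc 19, .negSucc 19,
  .negSucc 19, .negSucc 42, .negSucc 48, .negSucc 42, .negSucc 19, .negSucc 19, .ofNat 13, .negSucc
  19, .negSucc 1, .ofNat 13, .ofNat 608, .negSucc 19, .negSucc 19, .negSucc 19, .negSucc 19, .ofNat 4,
  .ofNat 5, .ofNat 3, .ofNat 20],
   [.ofNat 0, .ofNat 9, .negSucc 19, .ofNat 12, .negSucc 19, .negSucc 75, .negSucc 19, .negSucc 52,
  .negSucc 19, .ofNat 13, .negSucc 52, .negSucc 19, .negSucc 53, .negSucc 19, .negSucc 74, .negSucc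
  19, .ofNat 3, .negSucc 19, .negSucc 44, .negSucc 44, .negSucc 19, .negSucc 52, .negSucc 19, .negSucc
  37, .negSucc 19, .ofNat 36, .negSucc 19, .ofNat 608, .negSucc 19, .negSucc 19, .negSucc 43, .negSucc
  19, .ofNat 5, .ofNat 9, .ofNat 20],
   [.ofNat 12, .negSucc 19, .ofNat 9, .ofNat 0, .ofNat 36, .negSucc 19, .negSucc 19, .negSucc 37,
  .negSucc 52, .negSucc 19, .negSucc 19, .negSucc 74, .negSucc 53, .negSucc 19, .negSucc 19, .negSucc
  52, .ofNat 9, .ofNat 5, .negSucc 19, .negSucc 43, .ofNat 13, .negSucc 19, .negSucc 19, .negSucc 52,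
  .negSucc 75, .negSucc 19, .negSucc 19, .negSucc 19, .ofNat 608, .negSucc 19, .negSucc 44, .negSucc
  44, .negSucc 19, .ofNat 3, .ofNat 20],
   [.negSucc 19, .ofNat 18, .ofNat 2, .ofNat 1, .ofNat 13, .negSucc 1, .ofNat 13, .negSucc 19, .negSucc
  19, .negSucc 19, .negSucc 19, .negSucc 19, .negSucc 19, .negSucc 55, .negSucc 53, .negSucc 40,
  .ofNat 3, .ofNat 5, .ofNat 4, .negSucc 19, .negSucc 1, .ofNat 13, .ofNat 36, .negSucc 19, .negSucc
  19, .negSucc 19, .negSucc 19, .negSucc 19, .negSucc 19, .ofNat 608, .negSucc 42, .negSucc 48,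
  .negSucc 42, .negSucc 19, .ofNat 20],
   [.ofNat 0, .ofNat 7, .ofNat 16, .negSucc 19, .ofNat 1, .ofNat 14, .negSucc 19, .ofNat 16, .negSucc
  19, .negSucc 19, .negSucc 19, .negSucc 19, .ofNat 20, .negSucc 19, .ofNat 8, .ofNat 9, .negSucc 19,
  .negSucc 42, .negSucc 43, .negSucc 36, .negSucc 19, .negSucc 19, .ofNat 3, .negSucc 19, .negSucc 6,
  .ofNat 5, .negSucc 19, .negSucc 43, .negSucc 44, .negSucc 42, .ofNat 608, .negSucc 19, .negSucc 19,
  .negSucc 19, .ofNat 20],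
   [.ofNat 3, .ofNat 21, .negSucc 19, .ofNat 9, .ofNat 13, .negSucc 19, .ofNat 14, .negSucc 19, .ofNat
  35, .negSucc 19, .negSucc 19, .negSucc 59, .negSucc 19, .negSucc 47, .negSucc 19, .ofNat 8, .ofNat
  3, .negSucc 19, .negSucc 45, .negSucc 43, .negSucc 19, .negSucc 42, .negSucc 19, .negSucc 32,
  .negSucc 19, .ofNat 10, .ofNat 4, .negSucc 19, .negSucc 44, .negSucc 48, .negSucc 19, .ofNat 608,
  .negSucc 19, .negSucc 19, .ofNat 20],
   [.ofNat 13, .negSucc 19, .ofNat 11, .negSucc 0, .negSucc 19, .ofNat 35, .ofNat 14, .negSucc 19,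
  .negSucc 19, .ofNat 13, .ofNat 20, .negSucc 19, .negSucc 19, .negSucc 48, .negSucc 47, .negSucc 19,
  .ofNat 4, .ofNat 6, .negSucc 19, .negSucc 42, .ofNat 3, .negSucc 19, .negSucc 19, .negSucc 44,
  .negSucc 49, .negSucc 19, .ofNat 5, .ofNat 5, .negSucc 19, .negSucc 42, .negSucc 19, .negSucc 19,
  .ofNat 608, .negSucc 19, .ofNat 20],
   [.negSucc 19, .ofNat 22, .ofNat 4, .negSucc 5, .negSucc 19, .negSucc 19, .negSucc 19, .ofNat 16,
  .ofNat 14, .ofNat 1, .ofNat 8, .ofNat 9, .ofNat 8, .negSucc 19, .negSucc 19, .negSucc 19, .negSucc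
  2, .ofNat 4, .ofNat 3, .negSucc 19, .negSucc 6, .ofNat 5, .ofNat 10, .negSucc 19, .negSucc 19,
  .negSucc 19, .ofNat 3, .ofNat 9, .ofNat 3, .negSucc 19, .negSucc 19, .negSucc 19, .negSucc 19,
  .ofNat 608, .ofNat 20],
   [.ofNat 20, .ofNat 20, .ofNat 20, .ofNat 20, .negSucc 2, .negSucc 8, .negSucc 4, .negSucc 2,
  .negSucc 4, .negSucc 3, .negSucc 2, .negSucc 3, .negSucc 5, .ofNat 3, .negSucc 3, .negSucc 2, .ofNat
  20, .ofNat 20, .ofNat 20, .ofNat 20, .negSucc 3, .negSucc 4, .negSucc 4, .negSucc 2, .negSucc 8,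
  .negSucc 2, .ofNat 20, .ofNat 20, .ofNat 20, .ofNat 20, .ofNat 20, .ofNat 20, .ofNat 20, .ofNat 20,
  .ofNat 608]]

/-- The Cholesky columns. -/
def cols : List (List ℤ) :=
  [[.ofNat 540],
   [.negSucc 18, .ofNat 540],
   [.negSucc 18, .negSucc 18, .ofNat 540],
   [.negSucc 18, .negSucc 18, .negSucc 19, .ofNat 539],
   [.negSucc 18, .negSucc 18, .ofNat 14, .negSucc 0, .ofNat 540],
   [.negSucc 18, .negSucc 52, .negSucc 20, .negSucc 11, .negSucc 20, .ofNat 537],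
   [.negSucc 18, .negSucc 37, .negSucc 30, .negSucc 21, .negSucc 19, .negSucc 24, .ofNat 537],
   [.ofNat 16, .negSucc 17, .negSucc 18, .negSucc 0, .negSucc 17, .negSucc 20, .ofNat 11, .ofNat 539],
   [.ofNat 0, .negSucc 18, .negSucc 37, .negSucc 20, .negSucc 17, .negSucc 56, .negSucc 25, .negSucc
  22, .ofNat 534],
   [.negSucc 7, .ofNat 0, .negSucc 18, .negSucc 19, .ofNat 15, .negSucc 19, .negSucc 20, .negSucc 18,
  .negSucc 23, .ofNat 538],
   [.negSucc 18, .negSucc 18, .ofNat 9, .negSucc 3, .negSucc 19, .negSucc 8, .negSucc 3, .ofNat 3,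
  .ofNat 8, .negSucc 17, .ofNat 539],
   [.negSucc 18, .negSucc 47, .negSucc 20, .negSucc 5, .negSucc 32, .negSucc 25, .ofNat 0, .ofNat 16,
  .negSucc 24, .ofNat 18, .negSucc 20, .ofNat 534],
   [.negSucc 18, .negSucc 34, .negSucc 35, .negSucc 21, .negSucc 36, .negSucc 52, .negSucc 28, .negSucc
  22, .negSucc 1, .negSucc 1, .negSucc 21, .negSucc 28, .ofNat 531],
   [.ofNat 10, .negSucc 17, .negSucc 18, .ofNat 9, .negSucc 40, .negSucc 60, .negSucc 24, .negSucc 22,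
  .ofNat 3, .ofNat 4, .negSucc 20, .negSucc 25, .ofNat 23, .ofNat 532],
   [.negSucc 2, .negSucc 18, .negSucc 47, .negSucc 20, .negSucc 46, .negSucc 24, .negSucc 56, .negSucc
  55, .negSucc 32, .negSucc 7, .negSucc 20, .negSucc 83, .negSucc 40, .negSucc 34, .ofNat 518],
   [.negSucc 2, .ofNat 10, .negSucc 17, .negSucc 18, .negSucc 17, .negSucc 57, .negSucc 44, .negSucc
  45, .negSucc 49, .negSucc 26, .ofNat 37, .negSucc 20, .negSucc 31, .negSucc 28, .negSucc 45, .ofNat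
  524],
   [.negSucc 5, .ofNat 4, .ofNat 20, .negSucc 17, .negSucc 18, .negSucc 18, .ofNat 8, .negSucc 18,
  .ofNat 2, .negSucc 6, .negSucc 19, .negSucc 19, .ofNat 3, .negSucc 22, .ofNat 1, .ofNat 3, .ofNat
  537],
   [.negSucc 0, .ofNat 10, .negSucc 17, .ofNat 12, .negSucc 17, .negSucc 46, .negSucc 20, .negSucc 43,
  .negSucc 27, .negSucc 1, .negSucc 18, .negSucc 48, .negSucc 31, .negSucc 57, .negSucc 47, .negSucc
  4, .negSucc 25, .ofNat 525],
   [.ofNat 8, .negSucc 17, .ofNat 19, .ofNat 3, .ofNat 8, .negSucc 18, .negSucc 18, .negSucc 30,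
  .negSucc 42, .negSucc 21, .ofNat 7, .negSucc 19, .negSucc 22, .negSucc 47, .negSucc 72, .negSucc 40,
  .negSucc 21, .negSucc 41, .ofNat 524],
   [.negSucc 18, .ofNat 14, .ofNat 6, .ofNat 0, .ofNat 4, .negSucc 4, .ofNat 3, .negSucc 16, .negSucc
  18, .negSucc 19, .ofNat 8, .ofNat 9, .ofNat 19, .negSucc 17, .negSucc 18, .negSucc 24, .negSucc 19,
  .negSucc 24, .negSucc 29, .ofNat 535],
   [.negSucc 18, .negSucc 18, .negSucc 0, .negSucc 9, .negSucc 19, .negSucc 2, .negSucc 2, .ofNat 1,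
  .ofNat 6, .negSucc 18, .negSucc 20, .negSucc 3, .negSucc 2, .ofNat 4, .ofNat 15, .negSucc 17,
  .negSucc 0, .ofNat 12, .negSucc 16, .negSucc 18, .ofNat 537],
   [.negSucc 18, .negSucc 37, .negSucc 19, .negSucc 2, .negSucc 38, .negSucc 24, .ofNat 4, .ofNat 13,
  .negSucc 24, .ofNat 7, .negSucc 39, .negSucc 30, .ofNat 0, .ofNat 5, .negSucc 32, .ofNat 5, .ofNat
  10, .negSucc 28, .ofNat 26, .negSucc 16, .negSucc 21, .ofNat 530],
   [.negSucc 18, .negSucc 28, .negSucc 38, .negSucc 21, .negSucc 37, .negSucc 54, .negSucc 27, .negSucc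
  22, .negSucc 2, .negSucc 4, .negSucc 43, .negSucc 60, .negSucc 40, .negSucc 34, .negSucc 25,
  .negSucc 20, .negSucc 26, .negSucc 13, .negSucc 3, .negSucc 20, .negSucc 24, .negSucc 37, .ofNat
  520],
   [.ofNat 0, .negSucc 18, .negSucc 18, .ofNat 14, .negSucc 38, .negSucc 57, .negSucc 24, .negSucc 22,
  .ofNat 6, .negSucc 0, .negSucc 45, .negSucc 60, .negSucc 36, .negSucc 34, .negSucc 8, .negSucc 10,
  .ofNat 7, .negSucc 42, .negSucc 33, .ofNat 12, .negSucc 22, .negSucc 33, .negSucc 18, .ofNat 521],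
   [.negSucc 7, .negSucc 18, .negSucc 53, .negSucc 20, .negSucc 44, .negSucc 24, .negSucc 56, .negSucc
  56, .negSucc 32, .negSucc 6, .negSucc 58, .negSucc 28, .negSucc 67, .negSucc 71, .negSucc 62,
  .negSucc 35, .negSucc 26, .negSucc 4, .negSucc 48, .ofNat 4, .negSucc 24, .negSucc 67, .negSucc 67,
  .negSucc 63, .ofNat 491],
   [.ofNat 0, .ofNat 16, .negSucc 17, .negSucc 18, .negSucc 17, .negSucc 45, .negSucc 40, .negSucc 40,
  .negSucc 48, .negSucc 25, .negSucc 18, .negSucc 50, .negSucc 50, .negSucc 51, .negSucc 67, .negSucc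
  51, .negSucc 25, .negSucc 53, .negSucc 23, .negSucc 11, .ofNat 13, .negSucc 31, .negSucc 56,
  .negSucc 54, .negSucc 94, .ofNat 496],
   [.ofNat 1, .ofNat 2, .ofNat 17, .negSucc 17, .negSucc 18, .negSucc 18, .ofNat 32, .negSucc 19,
  .ofNat 11, .negSucc 0, .negSucc 38, .negSucc 51, .negSucc 24, .negSucc 57, .negSucc 34, .negSucc 26,
  .negSucc 27, .negSucc 60, .negSucc 67, .negSucc 50, .negSucc 23, .negSucc 28, .negSucc 15, .negSucc
  48, .negSucc 49, .negSucc 40, .ofNat 509],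
   [.ofNat 0, .ofNat 8, .negSucc 17, .ofNat 11, .negSucc 17, .negSucc 70, .negSucc 22, .negSucc 51,
  .negSucc 30, .ofNat 6, .negSucc 48, .negSucc 24, .negSucc 66, .negSucc 31, .negSucc 101, .negSucc
  48, .negSucc 3, .negSucc 55, .negSucc 79, .negSucc 55, .negSucc 22, .negSucc 67, .negSucc 64,
  .negSucc 82, .negSucc 113, .negSucc 67, .negSucc 99, .ofNat 452],
   [.ofNat 11, .negSucc 17, .ofNat 8, .ofNat 0, .ofNat 33, .negSucc 17, .negSucc 18, .negSucc 34,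
  .negSucc 52, .negSucc 23, .negSucc 17, .negSucc 70, .negSucc 57, .negSucc 22, .negSucc 44, .negSucc
  71, .ofNat 4, .negSucc 19, .negSucc 49, .negSucc 49, .ofNat 7, .negSucc 26, .negSucc 46, .negSucc
  77, .negSucc 137, .negSucc 108, .negSucc 85, .negSucc 177, .ofNat 429],
   [.negSucc 18, .ofNat 16, .ofNat 2, .ofNat 1, .ofNat 12, .ofNat 0, .ofNat 13, .negSucc 16, .negSucc
  17, .negSucc 19, .negSucc 17, .negSucc 17, .negSucc 18, .negSucc 50, .negSucc 60, .negSucc 50,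
  .negSucc 0, .negSucc 11, .negSucc 17, .negSucc 28, .negSucc 3, .ofNat 7, .ofNat 20, .negSucc 28,
  .negSucc 47, .negSucc 58, .negSucc 55, .negSucc 95, .negSucc 140, .ofNat 490],
   [.ofNat 0, .ofNat 6, .ofNat 15, .negSucc 17, .ofNat 1, .ofNat 14, .negSucc 16, .ofNat 17, .negSucc
  16, .negSucc 18, .negSucc 18, .negSucc 17, .ofNat 19, .negSucc 17, .ofNat 4, .ofNat 8, .negSucc 20,
  .negSucc 42, .negSucc 47, .negSucc 40, .negSucc 21, .negSucc 21, .negSucc 4, .negSucc 27, .negSucc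
  23, .negSucc 15, .negSucc 46, .negSucc 92, .negSucc 132, .negSucc 118, .ofNat 487],
   [.ofNat 3, .ofNat 20, .negSucc 17, .ofNat 8, .ofNat 13, .negSucc 16, .ofNat 14, .negSucc 18, .ofNat
  31, .negSucc 18, .negSucc 17, .negSucc 52, .negSucc 22, .negSucc 48, .negSucc 32, .negSucc 0,
  .negSucc 1, .negSucc 35, .negSucc 56, .negSucc 47, .negSucc 20, .negSucc 44, .negSucc 41, .negSucc
  57, .negSucc 65, .negSucc 42, .negSucc 50, .negSucc 122, .negSucc 194, .negSucc 168, .negSucc 168,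
  .ofNat 386],
   [.ofNat 12, .negSucc 17, .ofNat 10, .negSucc 0, .negSucc 18, .ofNat 31, .ofNat 13, .negSucc 18,
  .negSucc 15, .ofNat 13, .ofNat 19, .negSucc 18, .negSucc 17, .negSucc 43, .negSucc 53, .negSucc 26,
  .ofNat 2, .negSucc 4, .negSucc 35, .negSucc 45, .ofNat 2, .negSucc 21, .negSucc 29, .negSucc 51,
  .negSucc 85, .negSucc 66, .negSucc 38, .negSucc 81, .negSucc 151, .negSucc 144, .negSucc 134,
  .negSucc 312, .ofNat 307],
   [.negSucc 18, .ofNat 20, .ofNat 4, .negSucc 4, .negSucc 18, .negSucc 17, .negSucc 18, .ofNat 15,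
  .ofNat 11, .ofNat 1, .ofNat 6, .ofNat 8, .ofNat 5, .negSucc 20, .negSucc 19, .negSucc 23, .negSucc
  3, .negSucc 0, .negSucc 1, .negSucc 21, .negSucc 7, .ofNat 3, .ofNat 4, .negSucc 21, .negSucc 29,
  .negSucc 36, .negSucc 11, .negSucc 20, .negSucc 33, .negSucc 51, .negSucc 54, .negSucc 116, .negSucc
  250, .ofNat 448],
   [.ofNat 19, .ofNat 19, .ofNat 20, .ofNat 21, .negSucc 1, .negSucc 4, .negSucc 0, .negSucc 1,
  .negSucc 2, .negSucc 1, .negSucc 1, .negSucc 0, .negSucc 1, .ofNat 3, .negSucc 1, .negSucc 2, .ofNat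
  18, .ofNat 19, .ofNat 20, .ofNat 21, .negSucc 0, .negSucc 1, .ofNat 0, .negSucc 0, .negSucc 3,
  .ofNat 0, .ofNat 26, .ofNat 32, .ofNat 44, .ofNat 44, .ofNat 58, .ofNat 112, .ofNat 230, .ofNat 198,
  .ofNat 419]]

theorem chk : certChk 10 314 500 chi mu nu tab cols = true := by decide +kernel

end Pool.Agent.J6H81.Cube.C8
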