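import Pool.Agent.J6H81.Cube.Rel

/-! Certificate for class 9 (support for MP_416390_gt). -/

namespace Pool.Agent.J6H81.Cube.C9

open Pool.Agent.J6H81.Cube

/-- Signs of the class. -/
def chi : List ℤ :=
  [.ofNat 1, .ofNat 1, .ofNat 1, .ofNat 1, .ofNat 1, .ofNat 1, .ofNat 1, .ofNat 1, .ofNat 1, .ofNat 1,
  .ofNat 1, .ofNat 1, .ofNat 1, .ofNat 1, .ofNat 1, .ofNat 1, .ofNat 1, .ofNat 1, .negSucc 0, .negSucc
  0, .ofNat 1, .ofNat 1, .ofNat 1, .ofNat 1, .ofNat 1, .negSucc 0, .ofNat 1, .ofNat 1, .negSucc 0,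
  .negSucc 0, .ofNat 1, .ofNat 1, .negSucc 0, .negSucc 0, .ofNat 1]

/-- Multipliers of the relations. -/
def mu : List ℤ :=
  [.negSucc 24, .negSucc 26, .negSucc 21, .negSucc 17, .negSucc 24, .negSucc 32, .negSucc 28, .negSucc
  14, .negSucc 33, .negSucc 32, .negSucc 41, .negSucc 34, .negSucc 46, .negSucc 43, .negSucc 37,
  .ofNat 29, .ofNat 35, .ofNat 23, .ofNat 21, .ofNat 25, .ofNat 28, .ofNat 22, .ofNat 23, .ofNat 30,
  .ofNat 19, .negSucc 18, .negSucc 31, .negSucc 43, .negSucc 33, .negSucc 30, .negSucc 21, .negSucc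
  20, .ofNat 19, .ofNat 19, .ofNat 31, .ofNat 34, .negSucc 28, .ofNat 23, .ofNat 25, .negSucc 31,
  .negSucc 34, .ofNat 30, .ofNat 28, .negSucc 43, .negSucc 22, .ofNat 29, .ofNat 18, .negSucc 32,
  .ofNat 42, .ofNat 38, .ofNat 44, .ofNat 25, .negSucc 14, .negSucc 24, .negSucc 34, .ofNat 27,
  .negSucc 33, .negSucc 32, .negSucc 46, .ofNat 22, .negSucc 41, .negSucc 26, .negSucc 46, .negSucc
  24, .negSucc 34, .negSucc 21, .ofNat 29, .ofNat 38, .negSucc 33, .negSucc 14, .ofNat 18, .ofNat 44,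
  .negSucc 32, .negSucc 24, .negSucc 32, .negSucc 18, .ofNat 35, .negSucc 43, .ofNat 29, .negSucc 31,
  .ofNat 23, .negSucc 21, .ofNat 31, .ofNat 30, .ofNat 23, .negSucc 20, .ofNat 34, .ofNat 28, .ofNat
  25, .ofNat 19, .ofNat 24, .ofNat 29, .ofNat 22, .ofNat 34, .ofNat 21, .negSucc 23, .ofNat 34, .ofNat
  29, .negSucc 20, .negSucc 33, .ofNat 21, .ofNat 22, .negSucc 21, .negSucc 28, .ofNat 24]

/-- Multipliers of the norm conditions. -/
def nu : List ℤ :=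
  [.ofNat 0, .ofNat 0, .ofNat 0, .ofNat 0, .ofNat 0, .ofNat 0, .ofNat 0]

/-- The table. -/
def tab : List (List ℤ) :=
  [[.ofNat 608, .negSucc 19, .negSucc 19, .negSucc 19, .negSucc 19, .negSucc 19, .negSucc 19, .ofNat 5,
  .ofNat 9, .ofNat 2, .negSucc 19, .negSucc 19, .negSucc 19, .ofNat 7, .ofNat 15, .ofNat 1, .negSucc
  1, .ofNat 1, .ofNat 1, .ofNat 20, .negSucc 19, .negSucc 19, .negSucc 19, .ofNat 2, .ofNat 3, .ofNat
  1, .ofNat 5, .ofNat 5, .negSucc 10, .ofNat 20, .ofNat 13, .ofNat 8, .negSucc 13, .ofNat 20, .negSucc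
  19],
   [.negSucc 19, .ofNat 608, .negSucc 19, .negSucc 19, .negSucc 19, .negSucc 44, .negSucc 48, .negSucc
  19, .negSucc 19, .ofNat 9, .negSucc 19, .negSucc 46, .negSucc 54, .negSucc 19, .negSucc 19, .negSucc
  1, .ofNat 9, .ofNat 2, .ofNat 20, .negSucc 21, .negSucc 19, .negSucc 41, .negSucc 42, .negSucc 19,
  .negSucc 19, .negSucc 12, .negSucc 4, .ofNat 3, .ofNat 20, .negSucc 17, .ofNat 14, .ofNat 10, .ofNat
  20, .negSucc 23, .negSucc 19],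
   [.negSucc 19, .negSucc 19, .ofNat 608, .negSucc 19, .ofNat 5, .negSucc 19, .negSucc 41, .negSucc 19,
  .negSucc 48, .negSucc 19, .ofNat 7, .negSucc 19, .negSucc 40, .negSucc 19, .negSucc 37, .negSucc 19,
  .ofNat 22, .negSucc 19, .negSucc 8, .negSucc 4, .ofNat 2, .negSucc 19, .negSucc 0, .negSucc 19,
  .ofNat 13, .ofNat 20, .ofNat 15, .negSucc 19, .ofNat 43, .ofNat 35, .ofNat 27, .negSucc 19, .ofNat
  45, .ofNat 45, .negSucc 19],
   [.negSucc 19, .negSucc 19, .negSucc 19, .ofNat 608, .ofNat 9, .ofNat 2, .negSucc 19, .ofNat 9,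
  .negSucc 19, .negSucc 19, .ofNat 15, .ofNat 1, .negSucc 19, .negSucc 1, .negSucc 19, .negSucc 19,
  .negSucc 19, .negSucc 0, .negSucc 14, .negSucc 6, .ofNat 3, .negSucc 38, .negSucc 19, .negSucc 52,
  .negSucc 19, .ofNat 20, .negSucc 19, .ofNat 12, .ofNat 50, .ofNat 54, .negSucc 19, .ofNat 24, .ofNat
  48, .ofNat 53, .negSucc 19],
   [.negSucc 19, .negSucc 19, .ofNat 5, .ofNat 9, .ofNat 608, .negSucc 19, .negSucc 19, .negSucc 19,
  .negSucc 19, .ofNat 22, .negSucc 19, .negSucc 37, .negSucc 40, .negSucc 48, .negSucc 41, .negSucc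
  19, .negSucc 19, .negSucc 19, .negSucc 6, .negSucc 4, .negSucc 19, .negSucc 44, .negSucc 44,
  .negSucc 34, .negSucc 42, .ofNat 20, .negSucc 19, .negSucc 19, .negSucc 26, .negSucc 14, .ofNat 13,
  .negSucc 0, .ofNat 20, .ofNat 20, .ofNat 2],
   [.negSucc 19, .negSucc 44, .negSucc 19, .ofNat 2, .negSucc 19, .ofNat 608, .negSucc 19, .negSucc 19,
  .negSucc 61, .negSucc 19, .negSucc 1, .negSucc 19, .negSucc 0, .negSucc 61, .negSucc 19, .ofNat 9,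
  .negSucc 19, .ofNat 7, .ofNat 20, .ofNat 49, .ofNat 5, .negSucc 19, .ofNat 11, .negSucc 54, .negSucc
  19, .negSucc 2, .negSucc 19, .ofNat 27, .ofNat 20, .ofNat 58, .ofNat 24, .negSucc 19, .negSucc 11,
  .ofNat 20, .ofNat 14],
   [.negSucc 19, .negSucc 48, .negSucc 41, .negSucc 19, .negSucc 19, .negSucc 19, .ofNat 608, .ofNat
  22, .negSucc 19, .negSucc 19, .ofNat 1, .negSucc 38, .negSucc 19, .negSucc 19, .negSucc 38, .ofNat
  15, .negSucc 46, .negSucc 19, .ofNat 20, .ofNat 38, .ofNat 5, .negSucc 50, .negSucc 19, .negSucc 19,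
  .negSucc 51, .negSucc 9, .negSucc 66, .negSucc 19, .ofNat 20, .ofNat 64, .negSucc 19, .ofNat 14,
  .negSucc 23, .ofNat 20, .ofNat 13],
   [.ofNat 5, .negSucc 19, .negSucc 19, .ofNat 9, .negSucc 19, .negSucc 19, .ofNat 22, .ofNat 608,
  .negSucc 19, .negSucc 19, .ofNat 9, .ofNat 22, .negSucc 19, .negSucc 19, .ofNat 22, .ofNat 5,
  .negSucc 19, .ofNat 5, .negSucc 8, .ofNat 20, .negSucc 4, .ofNat 15, .negSucc 19, .negSucc 19,
  .ofNat 18, .ofNat 5, .negSucc 19, .ofNat 15, .negSucc 17, .ofNat 20, .ofNat 18, .negSucc 19, .ofNat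
  20, .negSucc 14, .negSucc 4],
   [.ofNat 9, .negSucc 19, .negSucc 48, .negSucc 19, .negSucc 19, .negSucc 61, .negSucc 19, .negSucc
  19, .ofNat 608, .negSucc 19, .ofNat 2, .negSucc 19, .negSucc 0, .negSucc 61, .negSucc 19, .ofNat 7,
  .negSucc 44, .negSucc 19, .ofNat 2, .ofNat 20, .ofNat 3, .negSucc 19, .ofNat 12, .negSucc 57,
  .negSucc 19, .negSucc 13, .negSucc 54, .negSucc 19, .negSucc 23, .ofNat 20, .negSucc 19, .ofNat 11,
  .ofNat 20, .negSucc 26, .ofNat 5],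
   [.ofNat 2, .ofNat 9, .negSucc 19, .negSucc 19, .ofNat 22, .negSucc 19, .negSucc 19, .negSucc 19,
  .negSucc 19, .ofNat 608, .negSucc 19, .negSucc 48, .negSucc 54, .negSucc 44, .negSucc 46, .negSucc
  19, .ofNat 9, .negSucc 1, .ofNat 20, .ofNat 20, .negSucc 19, .ofNat 3, .ofNat 10, .negSucc 4, .ofNat
  14, .ofNat 20, .ofNat 18, .ofNat 24, .ofNat 20, .ofNat 20, .negSucc 19, .negSucc 19, .ofNat 43,
  .ofNat 42, .ofNat 13],
   [.negSucc 19, .negSucc 19, .ofNat 7, .ofNat 15, .negSucc 19, .negSucc 1, .ofNat 1, .ofNat 9, .ofNat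
  2, .negSucc 19, .ofNat 608, .negSucc 19, .negSucc 19, .negSucc 19, .negSucc 19, .negSucc 0, .negSucc
  19, .negSucc 19, .negSucc 14, .negSucc 8, .negSucc 19, .negSucc 52, .negSucc 47, .negSucc 53,
  .negSucc 49, .ofNat 20, .negSucc 52, .negSucc 38, .ofNat 20, .ofNat 20, .negSucc 19, .negSucc 19,
  .negSucc 23, .negSucc 11, .ofNat 3],
   [.negSucc 19, .negSucc 46, .negSucc 19, .ofNat 1, .negSucc 37, .negSucc 19, .negSucc 38, .ofNat 22,
  .negSucc 19, .negSucc 48, .negSucc 19, .ofNat 608, .negSucc 19, .negSucc 19, .negSucc 38, .negSucc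
  19, .negSucc 19, .ofNat 15, .ofNat 20, .ofNat 42, .ofNat 13, .negSucc 19, .ofNat 14, .negSucc 66,
  .negSucc 19, .negSucc 4, .negSucc 63, .negSucc 19, .ofNat 52, .ofNat 20, .negSucc 19, .ofNat 24,
  .ofNat 20, .ofNat 51, .ofNat 10],
   [.negSucc 19, .negSucc 54, .negSucc 40, .negSucc 19, .negSucc 40, .negSucc 0, .negSucc 19, .negSucc
  19, .negSucc 0, .negSucc 54, .negSucc 19, .negSucc 19, .ofNat 608, .negSucc 0, .negSucc 19, .negSucc
  19, .negSucc 54, .negSucc 19, .ofNat 20, .ofNat 41, .ofNat 8, .negSucc 53, .negSucc 19, .negSucc 19,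
  .negSucc 63, .negSucc 7, .negSucc 19, .negSucc 53, .ofNat 64, .ofNat 20, .negSucc 63, .negSucc 19,
  .ofNat 20, .ofNat 54, .ofNat 8],
   [.ofNat 7, .negSucc 19, .negSucc 19, .negSucc 1, .negSucc 48, .negSucc 61, .negSucc 19, .negSucc 19,
  .negSucc 61, .negSucc 44, .negSucc 19, .negSucc 19, .negSucc 0, .ofNat 608, .negSucc 19, .negSucc
  19, .negSucc 19, .ofNat 9, .negSucc 1, .ofNat 20, .ofNat 14, .ofNat 27, .negSucc 19, .negSucc 19,
  .ofNat 24, .negSucc 4, .negSucc 57, .negSucc 19, .ofNat 20, .ofNat 55, .negSucc 19, .ofNat 12,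
  .negSucc 10, .ofNat 20, .ofNat 3],
   [.ofNat 15, .negSucc 19, .negSucc 37, .negSucc 19, .negSucc 41, .negSucc 19, .negSucc 38, .ofNat 22,
  .negSucc 19, .negSucc 46, .negSucc 19, .negSucc 38, .negSucc 19, .negSucc 19, .ofNat 608, .negSucc
  19, .negSucc 48, .negSucc 19, .negSucc 0, .ofNat 20, .ofNat 10, .negSucc 19, .ofNat 24, .negSucc 63,
  .negSucc 19, .negSucc 12, .negSucc 19, .negSucc 50, .ofNat 20, .ofNat 67, .negSucc 51, .negSucc 19,
  .negSucc 13, .ofNat 20, .ofNat 5],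
   [.ofNat 1, .negSucc 1, .negSucc 19, .negSucc 19, .negSucc 19, .ofNat 9, .ofNat 15, .ofNat 5, .ofNat
  7, .negSucc 19, .negSucc 0, .negSucc 19, .negSucc 19, .negSucc 19, .negSucc 19, .ofNat 608, .ofNat
  2, .ofNat 1, .ofNat 20, .ofNat 20, .negSucc 19, .ofNat 5, .ofNat 8, .ofNat 5, .ofNat 13, .ofNat 20,
  .negSucc 19, .negSucc 19, .negSucc 2, .negSucc 1, .ofNat 11, .ofNat 14, .ofNat 20, .ofNat 20,
  .negSucc 0],
   [.negSucc 1, .ofNat 9, .ofNat 22, .negSucc 19, .negSucc 19, .negSucc 19, .negSucc 46, .negSucc 19,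
  .negSucc 44, .ofNat 9, .negSucc 19, .negSucc 19, .negSucc 54, .negSucc 19, .negSucc 48, .ofNat 2,
  .ofNat 608, .negSucc 19, .ofNat 20, .ofNat 20, .ofNat 13, .ofNat 24, .negSucc 19, .ofNat 18,
  .negSucc 19, .ofNat 20, .negSucc 19, .negSucc 41, .negSucc 13, .ofNat 5, .negSucc 19, .negSucc 42,
  .negSucc 9, .negSucc 2, .negSucc 19],
   [.ofNat 1, .ofNat 2, .negSucc 19, .negSucc 0, .negSucc 19, .ofNat 7, .negSucc 19, .ofNat 5, .negSucc
  19, .negSucc 1, .negSucc 19, .ofNat 15, .negSucc 19, .ofNat 9, .negSucc 19, .ofNat 1, .negSucc 19,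
  .ofNat 608, .ofNat 20, .ofNat 20, .negSucc 0, .negSucc 19, .ofNat 14, .negSucc 19, .ofNat 11, .ofNat
  20, .ofNat 2, .negSucc 19, .negSucc 12, .negSucc 4, .ofNat 3, .negSucc 19, .negSucc 7, .negSucc 4,
  .negSucc 19],
   [.ofNat 1, .ofNat 20, .negSucc 8, .negSucc 14, .negSucc 6, .ofNat 20, .ofNat 20, .negSucc 8, .ofNat
  2, .ofNat 20, .negSucc 14, .ofNat 20, .ofNat 20, .negSucc 1, .negSucc 0, .ofNat 20, .ofNat 20,
  .ofNat 20, .ofNat 608, .negSucc 19, .ofNat 20, .negSucc 11, .negSucc 23, .ofNat 20, .ofNat 20,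
  .ofNat 3, .ofNat 54, .ofNat 53, .negSucc 19, .negSucc 52, .ofNat 50, .ofNat 48, .negSucc 19,
  .negSucc 38, .ofNat 20],
   [.ofNat 20, .negSucc 21, .negSucc 4, .negSucc 6, .negSucc 4, .ofNat 49, .ofNat 38, .ofNat 20, .ofNat
  20, .ofNat 20, .negSucc 8, .ofNat 42, .ofNat 41, .ofNat 20, .ofNat 20, .ofNat 20, .ofNat 20, .ofNat
  20, .negSucc 19, .ofNat 608, .ofNat 20, .ofNat 20, .ofNat 20, .negSucc 14, .negSucc 26, .ofNat 2,
  .ofNat 35, .ofNat 45, .ofNat 13, .negSucc 19, .ofNat 43, .ofNat 45, .negSucc 0, .negSucc 19, .ofNat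
  20],
   [.negSucc 19, .negSucc 19, .ofNat 2, .ofNat 3, .negSucc 19, .ofNat 5, .ofNat 5, .negSucc 4, .ofNat
  3, .negSucc 19, .negSucc 19, .ofNat 13, .ofNat 8, .ofNat 14, .ofNat 10, .negSucc 19, .ofNat 13,
  .negSucc 0, .ofNat 20, .ofNat 20, .ofNat 608, .negSucc 19, .negSucc 19, .negSucc 19, .negSucc 19,
  .negSucc 3, .negSucc 19, .negSucc 19, .negSucc 8, .negSucc 13, .negSucc 19, .negSucc 19, .negSucc 1,
  .negSucc 0, .ofNat 4],
   [.negSucc 19, .negSucc 41, .negSucc 19, .negSucc 38, .negSucc 44, .negSucc 19, .negSucc 50, .ofNat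
  15, .negSucc 19, .ofNat 3, .negSucc 52, .negSucc 19, .negSucc 53, .ofNat 27, .negSucc 19, .ofNat 5,
  .ofNat 24, .negSucc 19, .negSucc 11, .ofNat 20, .negSucc 19, .ofNat 608, .negSucc 19, .negSucc 19,
  .ofNat 4, .ofNat 20, .negSucc 19, .ofNat 9, .ofNat 20, .negSucc 13, .negSucc 19, .ofNat 2, .ofNat
  20, .negSucc 8, .ofNat 1],
   [.negSucc 19, .negSucc 42, .negSucc 0, .negSucc 19, .negSucc 44, .ofNat 11, .negSucc 19, .negSucc
  19, .ofNat 12, .ofNat 10, .negSucc 47, .ofNat 14, .negSucc 19, .negSucc 19, .ofNat 24, .ofNat 8,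
  .negSucc 19, .ofNat 14, .negSucc 23, .ofNat 20, .negSucc 19, .negSucc 19, .ofNat 608, .negSucc 43,
  .negSucc 19, .ofNat 20, .negSucc 48, .negSucc 19, .ofNat 20, .negSucc 0, .negSucc 41, .negSucc 19,
  .ofNat 20, .negSucc 1, .ofNat 2],
   [.ofNat 2, .negSucc 19, .negSucc 19, .negSucc 52, .negSucc 34, .negSucc 54, .negSucc 19, .negSucc
  19, .negSucc 57, .negSucc 4, .negSucc 53, .negSucc 66, .negSucc 19, .negSucc 19, .negSucc 63, .ofNat
  5, .ofNat 18, .negSucc 19, .ofNat 20, .negSucc 14, .negSucc 19, .negSucc 19, .negSucc 43, .ofNat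
  608, .negSucc 19, .ofNat 20, .negSucc 19, .ofNat 14, .ofNat 54, .ofNat 20, .negSucc 19, .ofNat 1,
  .ofNat 49, .ofNat 20, .ofNat 14],
   [.ofNat 3, .negSucc 19, .ofNat 13, .negSucc 19, .negSucc 42, .negSucc 19, .negSucc 51, .ofNat 18,
  .negSucc 19, .ofNat 14, .negSucc 49, .negSucc 19, .negSucc 63, .ofNat 24, .negSucc 19, .ofNat 13,
  .negSucc 19, .ofNat 11, .ofNat 20, .negSucc 26, .negSucc 19, .ofNat 4, .negSucc 19, .negSucc 19,
  .ofNat 608, .ofNat 20, .negSucc 53, .negSucc 19, .ofNat 41, .ofNat 20, .negSucc 40, .negSucc 19,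
  .ofNat 42, .ofNat 20, .ofNat 9],
   [.ofNat 1, .negSucc 12, .ofNat 20, .ofNat 20, .ofNat 20, .negSucc 2, .negSucc 9, .ofNat 5, .negSucc
  13, .ofNat 20, .ofNat 20, .negSucc 4, .negSucc 7, .negSucc 4, .negSucc 12, .ofNat 20, .ofNat 20,
  .ofNat 20, .ofNat 3, .ofNat 2, .negSucc 3, .ofNat 20, .ofNat 20, .ofNat 20, .ofNat 20, .ofNat 608,
  .negSucc 13, .negSucc 0, .negSucc 19, .negSucc 19, .negSucc 8, .negSucc 1, .negSucc 19, .negSucc 19,
  .negSucc 3],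
   [.ofNat 5, .negSucc 4, .ofNat 15, .negSucc 19, .negSucc 19, .negSucc 19, .negSucc 66, .negSucc 19,
  .negSucc 54, .ofNat 18, .negSucc 52, .negSucc 63, .negSucc 19, .negSucc 57, .negSucc 19, .negSucc
  19, .negSucc 19, .ofNat 2, .ofNat 54, .ofNat 35, .negSucc 19, .negSucc 19, .negSucc 48, .negSucc 19,
  .negSucc 53, .negSucc 13, .ofNat 608, .negSucc 19, .ofNat 20, .ofNat 20, .negSucc 19, .negSucc 43,
  .negSucc 0, .negSucc 13, .negSucc 19],
   [.ofNat 5, .ofNat 3, .negSucc 19, .ofNat 12, .negSucc 19, .ofNat 27, .negSucc 19, .ofNat 15,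
  .negSucc 19, .ofNat 24, .negSucc 38, .negSucc 19, .negSucc 53, .negSucc 19, .negSucc 50, .negSucc
  19, .negSucc 41, .negSucc 19, .ofNat 53, .ofNat 45, .negSucc 19, .ofNat 9, .negSucc 19, .ofNat 14,
  .negSucc 19, .negSucc 0, .negSucc 19, .ofNat 608, .ofNat 20, .ofNat 20, .ofNat 4, .negSucc 19,
  .negSucc 1, .negSucc 8, .negSucc 19],
   [.negSucc 10, .ofNat 20, .ofNat 43, .ofNat 50, .negSucc 26, .ofNat 20, .ofNat 20, .negSucc 17,
  .negSucc 23, .ofNat 20, .ofNat 20, .ofNat 52, .ofNat 64, .ofNat 20, .ofNat 20, .negSucc 2, .negSucc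
  13, .negSucc 12, .negSucc 19, .ofNat 13, .negSucc 8, .ofNat 20, .ofNat 20, .ofNat 54, .ofNat 41,
  .negSucc 19, .ofNat 20, .ofNat 20, .ofNat 608, .negSucc 19, .ofNat 41, .ofNat 42, .negSucc 19,
  .ofNat 4, .ofNat 20],
   [.ofNat 20, .negSucc 17, .ofNat 35, .ofNat 54, .negSucc 14, .ofNat 58, .ofNat 64, .ofNat 20, .ofNat
  20, .ofNat 20, .ofNat 20, .ofNat 20, .ofNat 20, .ofNat 55, .ofNat 67, .negSucc 1, .ofNat 5, .negSucc
  4, .negSucc 52, .negSucc 19, .negSucc 13, .negSucc 13, .negSucc 0, .ofNat 20, .ofNat 20, .negSucc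
  19, .ofNat 20, .ofNat 20, .negSucc 19, .ofNat 608, .ofNat 54, .ofNat 49, .negSucc 43, .negSucc 19,
  .ofNat 20],
   [.ofNat 13, .ofNat 14, .ofNat 27, .negSucc 19, .ofNat 13, .ofNat 24, .negSucc 19, .ofNat 18,
  .negSucc 19, .negSucc 19, .negSucc 19, .negSucc 19, .negSucc 63, .negSucc 19, .negSucc 51, .ofNat
  11, .negSucc 19, .ofNat 3, .ofNat 50, .ofNat 43, .negSucc 19, .negSucc 19, .negSucc 41, .negSucc 19,
  .negSucc 40, .negSucc 8, .negSucc 19, .ofNat 4, .ofNat 41, .ofNat 54, .ofNat 608, .negSucc 19,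
  .ofNat 20, .ofNat 20, .negSucc 19],
   [.ofNat 8, .ofNat 10, .negSucc 19, .ofNat 24, .negSucc 0, .negSucc 19, .ofNat 14, .negSucc 19,
  .ofNat 11, .negSucc 19, .negSucc 19, .ofNat 24, .negSucc 19, .ofNat 12, .negSucc 19, .ofNat 14,
  .negSucc 42, .negSucc 19, .ofNat 48, .ofNat 45, .negSucc 19, .ofNat 2, .negSucc 19, .ofNat 1,
  .negSucc 19, .negSucc 1, .negSucc 43, .negSucc 19, .ofNat 42, .ofNat 49, .negSucc 19, .ofNat 608,
  .ofNat 20, .ofNat 20, .negSucc 19],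
   [.negSucc 13, .ofNat 20, .ofNat 45, .ofNat 48, .ofNat 20, .negSucc 11, .negSucc 23, .ofNat 20,
  .ofNat 20, .ofNat 43, .negSucc 23, .ofNat 20, .ofNat 20, .negSucc 10, .negSucc 13, .ofNat 20,
  .negSucc 9, .negSucc 7, .negSucc 19, .negSucc 0, .negSucc 1, .ofNat 20, .ofNat 20, .ofNat 49, .ofNat
  42, .negSucc 19, .negSucc 0, .negSucc 1, .negSucc 19, .negSucc 43, .ofNat 20, .ofNat 20, .ofNat 608,
  .negSucc 19, .ofNat 20],
   [.ofNat 20, .negSucc 23, .ofNat 45, .ofNat 53, .ofNat 20, .ofNat 20, .ofNat 20, .negSucc 14,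
  .negSucc 26, .ofNat 42, .negSucc 11, .ofNat 51, .ofNat 54, .ofNat 20, .ofNat 20, .ofNat 20, .negSucc
  2, .negSucc 4, .negSucc 38, .negSucc 19, .negSucc 0, .negSucc 8, .negSucc 1, .ofNat 20, .ofNat 20,
  .negSucc 19, .negSucc 13, .negSucc 8, .ofNat 4, .negSucc 19, .ofNat 20, .ofNat 20, .negSucc 19,
  .ofNat 608, .ofNat 20],
   [.negSucc 19, .negSucc 19, .negSucc 19, .negSucc 19, .ofNat 2, .ofNat 14, .ofNat 13, .negSucc 4,
  .ofNat 5, .ofNat 13, .ofNat 3, .ofNat 10, .ofNat 8, .ofNat 3, .ofNat 5, .negSucc 0, .negSucc 19,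
  .negSucc 19, .ofNat 20, .ofNat 20, .ofNat 4, .ofNat 1, .ofNat 2, .ofNat 14, .ofNat 9, .negSucc 3,
  .negSucc 19, .negSucc 19, .ofNat 20, .ofNat 20, .negSucc 19, .negSucc 19, .ofNat 20, .ofNat 20,
  .ofNat 608]]

/-- The Cholesky columns. -/
def cols : List (List ℤ) :=
  [[.ofNat 540],
   [.negSucc 18, .ofNat 540],
   [.negSucc 18, .negSucc 18, .ofNat 540],
   [.negSucc 18, .negSucc 18, .negSucc 19, .ofNat 539],
   [.negSucc 18, .negSucc 18, .ofNat 3, .ofNat 7, .ofNat 539],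
   [.negSucc 18, .negSucc 41, .negSucc 20, .negSucc 0, .negSucc 20, .ofNat 537],
   [.negSucc 18, .negSucc 45, .negSucc 40, .negSucc 21, .negSucc 19, .negSucc 24, .ofNat 535],
   [.ofNat 5, .negSucc 17, .negSucc 18, .ofNat 7, .negSucc 18, .negSucc 20, .ofNat 16, .ofNat 538],
   [.ofNat 8, .negSucc 17, .negSucc 45, .negSucc 20, .negSucc 17, .negSucc 60, .negSucc 27, .negSucc
  22, .ofNat 532],
   [.ofNat 2, .ofNat 8, .negSucc 17, .negSucc 18, .ofNat 21, .negSucc 17, .negSucc 19, .negSucc 17,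
  .negSucc 23, .ofNat 538],
   [.negSucc 18, .negSucc 18, .ofNat 5, .ofNat 13, .negSucc 19, .negSucc 4, .negSucc 0, .ofNat 7,
  .ofNat 1, .negSucc 16, .ofNat 539],
   [.negSucc 18, .negSucc 43, .negSucc 20, .negSucc 1, .negSucc 36, .negSucc 24, .negSucc 44, .ofNat
  17, .negSucc 27, .negSucc 46, .negSucc 23, .ofNat 530],
   [.negSucc 18, .negSucc 51, .negSucc 39, .negSucc 22, .negSucc 39, .negSucc 8, .negSucc 29, .negSucc
  21, .negSucc 11, .negSucc 53, .negSucc 22, .negSucc 36, .ofNat 528],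
   [.ofNat 6, .negSucc 17, .negSucc 18, .negSucc 2, .negSucc 45, .negSucc 60, .negSucc 25, .negSucc 22,
  .negSucc 71, .negSucc 47, .negSucc 21, .negSucc 36, .negSucc 20, .ofNat 524],
   [.ofNat 14, .negSucc 17, .negSucc 34, .negSucc 19, .negSucc 38, .negSucc 21, .negSucc 43, .ofNat 18,
  .negSucc 28, .negSucc 46, .negSucc 20, .negSucc 53, .negSucc 38, .negSucc 42, .ofNat 525],
   [.ofNat 1, .negSucc 1, .negSucc 18, .negSucc 18, .negSucc 17, .ofNat 7, .ofNat 11, .ofNat 3, .ofNat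
  5, .negSucc 17, .negSucc 1, .negSucc 20, .negSucc 24, .negSucc 23, .negSucc 28, .ofNat 536],
   [.negSucc 1, .ofNat 8, .ofNat 21, .negSucc 17, .negSucc 17, .negSucc 17, .negSucc 43, .negSucc 16,
  .negSucc 46, .ofNat 4, .negSucc 18, .negSucc 25, .negSucc 58, .negSucc 35, .negSucc 63, .negSucc 5,
  .ofNat 525],
   [.ofNat 1, .ofNat 2, .negSucc 17, .negSucc 1, .negSucc 17, .ofNat 5, .negSucc 19, .ofNat 4, .negSucc
  20, .negSucc 2, .negSucc 18, .ofNat 8, .negSucc 23, .ofNat 2, .negSucc 25, .negSucc 1, .negSucc 27,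
  .ofNat 536],
   [.ofNat 1, .ofNat 19, .negSucc 7, .negSucc 13, .negSucc 5, .ofNat 20, .ofNat 20, .negSucc 7, .ofNat
  4, .ofNat 19, .negSucc 11, .ofNat 24, .ofNat 23, .ofNat 5, .ofNat 7, .ofNat 20, .ofNat 25, .ofNat
  21, .ofNat 536],
   [.ofNat 19, .negSucc 19, .negSucc 4, .negSucc 6, .negSucc 4, .ofNat 44, .ofNat 36, .ofNat 18, .ofNat
  25, .ofNat 23, .negSucc 7, .ofNat 46, .ofNat 46, .ofNat 36, .ofNat 35, .ofNat 25, .ofNat 40, .ofNat
  25, .negSucc 30, .ofNat 525],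
   [.negSucc 18, .negSucc 18, .ofNat 1, .ofNat 1, .negSucc 19, .ofNat 2, .ofNat 2, .negSucc 5, .ofNat
  2, .negSucc 16, .negSucc 20, .ofNat 7, .ofNat 1, .ofNat 10, .ofNat 8, .negSucc 18, .ofNat 13,
  .negSucc 0, .ofNat 19, .ofNat 18, .ofNat 537],
   [.negSucc 18, .negSucc 39, .negSucc 20, .negSucc 38, .negSucc 42, .negSucc 24, .negSucc 57, .ofNat
  12, .negSucc 29, .negSucc 0, .negSucc 51, .negSucc 36, .negSucc 70, .ofNat 3, .negSucc 44, .negSucc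
  4, .negSucc 2, .negSucc 30, .negSucc 1, .ofNat 38, .negSucc 23, .ofNat 517],
   [.negSucc 18, .negSucc 39, .negSucc 2, .negSucc 20, .negSucc 42, .ofNat 5, .negSucc 24, .negSucc 19,
  .ofNat 6, .ofNat 10, .negSucc 46, .ofNat 4, .negSucc 30, .negSucc 26, .ofNat 12, .ofNat 4, .negSucc
  27, .ofNat 7, .negSucc 20, .ofNat 22, .negSucc 22, .negSucc 39, .ofNat 528],
   [.ofNat 2, .negSucc 17, .negSucc 18, .negSucc 49, .negSucc 31, .negSucc 54, .negSucc 27, .negSucc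
  21, .negSucc 68, .negSucc 11, .negSucc 50, .negSucc 78, .negSucc 40, .negSucc 51, .negSucc 92,
  .negSucc 9, .negSucc 20, .negSucc 30, .ofNat 30, .ofNat 20, .negSucc 20, .negSucc 65, .negSucc 61,
  .ofNat 495],
   [.ofNat 3, .negSucc 17, .ofNat 11, .negSucc 18, .negSucc 39, .negSucc 20, .negSucc 52, .ofNat 16,
  .negSucc 24, .ofNat 11, .negSucc 47, .negSucc 30, .negSucc 71, .ofNat 5, .negSucc 38, .ofNat 6,
  .negSucc 43, .negSucc 1, .ofNat 27, .negSucc 5, .negSucc 19, .negSucc 31, .negSucc 36, .negSucc 67,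
  .ofNat 515],
   [.ofNat 1, .negSucc 11, .ofNat 18, .ofNat 19, .ofNat 18, .negSucc 1, .negSucc 7, .ofNat 5, .negSucc
  10, .ofNat 19, .ofNat 19, .negSucc 2, .negSucc 2, .negSucc 2, .negSucc 8, .ofNat 21, .ofNat 17,
  .ofNat 20, .ofNat 2, .ofNat 1, .negSucc 1, .ofNat 22, .ofNat 24, .ofNat 29, .ofNat 27, .ofNat 535],
   [.ofNat 5, .negSucc 3, .ofNat 14, .negSucc 17, .negSucc 17, .negSucc 18, .negSucc 63, .negSucc 16,
  .negSucc 57, .ofNat 11, .negSucc 48, .negSucc 70, .negSucc 31, .negSucc 77, .negSucc 45, .negSucc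
  26, .negSucc 52, .negSucc 9, .ofNat 62, .ofNat 68, .negSucc 21, .negSucc 57, .negSucc 68, .negSucc
  99, .negSucc 109, .ofNat 4, .ofNat 472],
   [.ofNat 5, .ofNat 3, .negSucc 17, .ofNat 11, .negSucc 17, .ofNat 24, .negSucc 18, .ofNat 14,
  .negSucc 17, .ofNat 22, .negSucc 35, .negSucc 21, .negSucc 53, .negSucc 23, .negSucc 60, .negSucc
  25, .negSucc 58, .negSucc 30, .ofNat 57, .ofNat 64, .negSucc 20, .negSucc 19, .negSucc 31, .negSucc
  29, .negSucc 54, .ofNat 9, .negSucc 97, .ofNat 502],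
   [.negSucc 9, .ofNat 18, .ofNat 40, .ofNat 48, .negSucc 25, .ofNat 20, .ofNat 25, .negSucc 15,
  .negSucc 13, .ofNat 23, .ofNat 18, .ofNat 56, .ofNat 73, .ofNat 30, .ofNat 42, .ofNat 9, .ofNat 5,
  .negSucc 5, .negSucc 26, .negSucc 6, .negSucc 8, .ofNat 46, .ofNat 29, .ofNat 101, .ofNat 80,
  .negSucc 32, .ofNat 102, .ofNat 80, .ofNat 485],
   [.ofNat 19, .negSucc 15, .ofNat 33, .ofNat 51, .negSucc 14, .ofNat 54, .ofNat 66, .ofNat 18, .ofNat
  33, .ofNat 29, .ofNat 18, .ofNat 31, .ofNat 34, .ofNat 74, .ofNat 90, .ofNat 10, .ofNat 38, .ofNat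
  7, .negSucc 59, .negSucc 55, .negSucc 11, .ofNat 21, .ofNat 10, .ofNat 87, .ofNat 61, .negSucc 29,
  .ofNat 123, .ofNat 96, .negSucc 133, .ofNat 445],
   [.ofNat 12, .ofNat 13, .ofNat 26, .negSucc 16, .ofNat 13, .ofNat 25, .negSucc 13, .ofNat 20,
  .negSucc 12, .negSucc 18, .negSucc 17, .negSucc 18, .negSucc 59, .negSucc 21, .negSucc 58, .ofNat 3,
  .negSucc 37, .negSucc 4, .ofNat 53, .ofNat 59, .negSucc 18, .negSucc 40, .negSucc 48, .negSucc 61,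
  .negSucc 76, .ofNat 2, .negSucc 105, .negSucc 69, .ofNat 131, .ofNat 211, .ofNat 425],
   [.ofNat 7, .ofNat 10, .negSucc 17, .ofNat 22, .negSucc 0, .negSucc 17, .ofNat 13, .negSucc 19,
  .ofNat 8, .negSucc 18, .negSucc 18, .ofNat 22, .negSucc 19, .ofNat 8, .negSucc 18, .ofNat 12,
  .negSucc 41, .negSucc 22, .ofNat 47, .ofNat 52, .negSucc 21, .negSucc 5, .negSucc 22, .negSucc 13,
  .negSucc 30, .ofNat 5, .negSucc 77, .negSucc 62, .ofNat 85, .ofNat 143, .negSucc 180, .ofNat 456],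
   [.negSucc 12, .ofNat 18, .ofNat 42, .ofNat 46, .ofNat 18, .negSucc 7, .negSucc 15, .ofNat 21, .ofNat
  25, .ofNat 43, .negSucc 21, .ofNat 25, .ofNat 32, .ofNat 2, .ofNat 1, .ofNat 27, .negSucc 3,
  .negSucc 4, .negSucc 21, .negSucc 7, .ofNat 1, .ofNat 30, .ofNat 24, .ofNat 75, .ofNat 59, .negSucc
  31, .ofNat 47, .ofNat 28, .negSucc 82, .negSucc 136, .ofNat 169, .ofNat 171, .ofNat 427],
   [.ofNat 19, .negSucc 21, .ofNat 42, .ofNat 51, .ofNat 17, .ofNat 20, .ofNat 24, .negSucc 12,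
  .negSucc 16, .ofNat 42, .negSucc 9, .ofNat 56, .ofNat 65, .ofNat 32, .ofNat 43, .ofNat 32, .ofNat
  16, .ofNat 2, .negSucc 44, .negSucc 43, .ofNat 2, .ofNat 19, .ofNat 6, .ofNat 63, .ofNat 50,
  .negSucc 30, .ofNat 53, .ofNat 41, .negSucc 75, .negSucc 143, .ofNat 192, .ofNat 191, .negSucc 290,
  .ofNat 266],
   [.negSucc 18, .negSucc 18, .negSucc 19, .negSucc 20, .ofNat 1, .ofNat 10, .ofNat 8, .negSucc 4,
  .ofNat 3, .ofNat 12, .ofNat 3, .ofNat 9, .ofNat 5, .ofNat 5, .ofNat 7, .negSucc 0, .negSucc 14,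
  .negSucc 18, .ofNat 18, .ofNat 18, .ofNat 2, .negSucc 1, .negSucc 0, .ofNat 13, .ofNat 11, .negSucc
  2, .negSucc 18, .negSucc 26, .ofNat 26, .ofNat 41, .negSucc 58, .negSucc 73, .ofNat 99, .ofNat 279,
  .ofNat 434]]

theorem chk : certChk 10 314 500 chi mu nu tab cols = true := by decide +kernel

end Pool.Agent.J6H81.Cube.C9
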