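import Pool.Agent.J6H81.Cube.Rel

/-!
# Sign patterns of seven vectors in space

Support file for MP_416390_gt: a decision tree which classifies the sign patterns of the 35
minors of seven vectors, up to relabelling and sign changes.
-/

namespace Pool.Agent.J6H81.Cube

/-- Decision trees. -/
inductive T
  | x (k : ℕ)
  | l (c s e : ℕ)
  | n (a b : T)

/-- Position of `1 ≤ i < j < k ≤ 6`. -/
def idx6 (i j k : ℕ) : ℕ := idx (i - 1) (j - 1) (k - 1)

/-- The sign conditions (the middle one lies between the outer ones). -/
def condL : List (ℕ × ℕ × ℕ) :=
  (List.range 7).flatMap fun a => (List.range 7).flatMap fun b => (List.range 7).flatMap fun c =>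
    (List.range 7).flatMap fun d => if 0 < a && a < b && b < c && c < d then
      [(idx6 a b c, idx6 a b d, idx6 a c d), (idx6 a b c, idx6 a b d, idx6 b c d),
       (idx6 a b c, idx6 a c d, idx6 b c d), (idx6 a b d, idx6 a c d, idx6 b c d)] else []

/-- The sign patterns of the eleven classes. -/
def repN : List ℕ := [33822081023, 1341652991, 33553645567, 3758096383, 8589934591, 25232146431,
  3757572095, 34359738367, 17179869183, 20635189247, 8053063679]

/-- The sign of a sorted triple. -/
def pos (bits : List Bool) (i j k : ℕ) : Bool :=
  if i = 0 then true else bits.getD (idx6 i j k) false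

/-- The sign of an arbitrary triple. -/
def sgB (bits : List Bool) (a b c : ℕ) : Bool :=
  if a < b then
    if b < c then pos bits a b c else if a < c then !(pos bits a c b) else pos bits c a b
  else
    if a < c then !(pos bits b a c) else if b < c then pos bits b c a else !(pos bits c b a)

/-- Digits. -/
def dg (s i : ℕ) : ℕ := s / 8 ^ i % 8

/-- Check of a leaf. -/
def leafOK (bits : List Bool) (c s e : ℕ) : Bool :=
  decide (c < 11) &&
  ((List.range 7).all fun i => decide (dg s i < 7) &&
    (List.range i).all fun j => !(dg s i == dg s j)) &&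
  ((List.range 7).all fun k => (List.range k).all fun j => (List.range j).all fun i =>
    (xor (sgB bits (dg s i) (dg s j) (dg s k)) (xor (e.testBit i) (xor (e.testBit j) (e.testBit k))))
      == (repN.getD c 0).testBit (idx i j k))

/-- Verification of a tree. -/
def verify : T → List Bool → Bool
  | .x k, bits => decide (k < condL.length) &&
      decide ((condL.getD k (0, 0, 0)).1 < bits.length) &&
      decide ((condL.getD k (0, 0, 0)).2.1 < bits.length) &&
      decide ((condL.getD k (0, 0, 0)).2.2 < bits.length) &&
      (bits.getD (condL.getD k (0, 0, 0)).1 false == bits.getD (condL.getD k (0, 0, 0)).2.2 false) &&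
      !(bits.getD (condL.getD k (0, 0, 0)).1 false == bits.getD (condL.getD k (0, 0, 0)).2.1 false)
  | .l c s e, bits => decide (bits.length = 20) && leafOK bits c s e
  | .n a b, bits => verify a (bits ++ [true]) && verify b (bits ++ [false])

theorem verify_sound (t : T) (m : ℕ) (b : ℕ → Bool)
    (hb : ∀ q ∈ condL, ¬ (b q.1 = b q.2.2 ∧ ¬ b q.1 = b q.2.1))
    (h : verify t ((List.range m).map b) = true) :
    ∃ c s e : ℕ, leafOK ((List.range 20).map b) c s e = true := by
  induction t generalizing m with
  | x k =>
    exfalso
    simp only [verify, Bool.and_eq_true, decide_eq_true_eq, beq_iff_eq, Bool.not_eq_true',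
      beq_eq_false_iff_ne, ne_eq, List.length_map, List.length_range] at h
    obtain ⟨⟨⟨⟨⟨h1, h2⟩, h3⟩, h4⟩, h5⟩, h6⟩ := h
    have hm : condL.getD k (0, 0, 0) ∈ condL := by
      rw [List.getD_eq_getElem _ _ h1]
      exact List.getElem_mem _
    have hget : ∀ i < m, ((List.range m).map b).getD i false = b i := by
      intro i hi
      rw [List.getD_eq_getElem _ _ (by simpa using hi)]
      simp
    rw [hget _ h2, hget _ h4] at h5
    rw [hget _ h2, hget _ h3] at h6
    exact hb _ hm ⟨h5, h6⟩
  | l c s e =>
    simp only [verify, Bool.and_eq_true, decide_eq_true_eq, List.length_map,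
      List.length_range] at h
    obtain ⟨h1, h2⟩ := h
    subst h1
    exact ⟨c, s, e, h2⟩
  | n l r ihl ihr =>
    simp only [verify, Bool.and_eq_true] at h
    obtain ⟨h1, h2⟩ := h
    cases hbm : b m with
    | true =>
      refine ihl (m + 1) ?_
      rw [List.range_succ, List.map_append]
      simpa [hbm] using h1
    | false =>
      refine ihr (m + 1) ?_
      rw [List.range_succ, List.map_append]
      simpa [hbm] using h2

end Pool.Agent.J6H81.Cube
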