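import Pool.Agent.J6H81.Cube.Sums
import Pool.Agent.J6H81.Cube.Cert0
import Pool.Agent.J6H81.Cube.Cert1
import Pool.Agent.J6H81.Cube.Cert2
import Pool.Agent.J6H81.Cube.Cert3
import Pool.Agent.J6H81.Cube.Cert4
import Pool.Agent.J6H81.Cube.Cert5
import Pool.Agent.J6H81.Cube.Cert6
import Pool.Agent.J6H81.Cube.Cert7
import Pool.Agent.J6H81.Cube.Cert8
import Pool.Agent.J6H81.Cube.Cert9
import Pool.Agent.J6H81.Cube.Cert10

/-!
# The eleven classes

Support file for MP_416390_gt.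
-/

namespace Pool.Agent.J6H81.Cube

/-- The sign vectors. -/
def chis : List (List ℤ) := [C0.chi, C1.chi, C2.chi, C3.chi, C4.chi, C5.chi, C6.chi, C7.chi,
  C8.chi, C9.chi, C10.chi]

theorem chis_spec : ∀ c < 11, (chis.getD c []).length = 35 ∧ ∀ m < 35,
    (chis.getD c []).getD m 0 = if (repN.getD c 0).testBit m then 1 else -1 := by
  decide +kernel

theorem class_ineq : ∀ c < 11, ∀ v : ℕ → Fin 3 → ℝ,
    (ev (chis.getD c []) (xv v)) ^ 2 ≤ 157 / 30 * s6 v + dev v := by
  intro c hc v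
  have hc' : c = 0 ∨ c = 1 ∨ c = 2 ∨ c = 3 ∨ c = 4 ∨ c = 5 ∨ c = 6 ∨ c = 7 ∨ c = 8 ∨ c = 9 ∨
      c = 10 := by omega
  rcases hc' with rfl | rfl | rfl | rfl | rfl | rfl | rfl | rfl | rfl | rfl | rfl
  · exact class_of_cert _ _ _ _ _ _ _ _ C0.chk rfl (by norm_num) (by norm_num) (by decide) v
  · exact class_of_cert _ _ _ _ _ _ _ _ C1.chk rfl (by norm_num) (by norm_num) (by decide) v
  · exact class_of_cert _ _ _ _ _ _ _ _ C2.chk rfl (by norm_num) (by norm_num) (by decide) v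
  · exact class_of_cert _ _ _ _ _ _ _ _ C3.chk rfl (by norm_num) (by norm_num) (by decide) v
  · exact class_of_cert _ _ _ _ _ _ _ _ C4.chk rfl (by norm_num) (by norm_num) (by decide) v
  · exact class_of_cert _ _ _ _ _ _ _ _ C5.chk rfl (by norm_num) (by norm_num) (by decide) v
  · exact class_of_cert _ _ _ _ _ _ _ _ C6.chk rfl (by norm_num) (by norm_num) (by decide) v
  · exact class_of_cert _ _ _ _ _ _ _ _ C7.chk rfl (by norm_num) (by norm_num) (by decide) v
  · exact class_of_cert _ _ _ _ _ _ _ _ C8.chk rfl (by norm_num) (by norm_num) (by decide) v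
  · exact class_of_cert _ _ _ _ _ _ _ _ C9.chk rfl (by norm_num) (by norm_num) (by decide) v
  · exact class_of_cert _ _ _ _ _ _ _ _ C10.chk rfl (by norm_num) (by norm_num) (by decide) v

end Pool.Agent.J6H81.Cube
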