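import Pool.Agent.J6H81.Cube.Generic

/-!
# The inequality for all configurations

Support file for MP_416390_gt.
-/

namespace Pool.Agent.J6H81.Cube

open Finset Filter Topology

theorem exists_norm (v : ℕ → Fin 3 → ℝ)
    (hne : ∀ i j k, i < j → j < k → k < 7 → det3 (v i) (v j) (v k) ≠ 0) :
    ∃ (s : ℕ → ℕ) (e : ℕ → Bool), IsPerm s ∧
      ∀ j k, 0 < j → j < k → k < 7 → 0 < det3 (tw v s e 0) (tw v s e j) (tw v s e k) := by
  classical
  set e0 : ℕ → Bool := fun i => decide (det3 (v 0) (v 1) (v i) < 0) with he0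
  set v' : ℕ → Fin 3 → ℝ := tw v id e0 with hv'
  have hv'e : ∀ i, v' i = sg e0 i • v i := fun i => rfl
  have h00 : e0 0 = false := by simp [he0, det3_self13]
  have h01 : e0 1 = false := by simp [he0, det3_self23]
  have hne' : ∀ a b c, a < 7 → b < 7 → c < 7 → a ≠ b → a ≠ c → b ≠ c →
      det3 (v' a) (v' b) (v' c) ≠ 0 := by
    intro a b c ha hb hc hab hac hbc
    have hv : det3 (v a) (v b) (v c) ≠ 0 := by
      rcases lt_trichotomy a b with h1 | h1 | h1
      · rcases lt_trichotomy b c with h2 | h2 | h2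
        · exact hne a b c h1 h2 hc
        · exact absurd h2 hbc
        · rcases lt_trichotomy a c with h3 | h3 | h3
          · rw [det3_swap23 (v a) (v c) (v b)]; exact neg_ne_zero.2 (hne a c b h3 h2 hb)
          · exact absurd h3 hac
          · rw [← det3_rot' (v a) (v b) (v c)]; exact hne c a b h3 h1 hb
      · exact absurd h1 hab
      · rcases lt_trichotomy a c with h3 | h3 | h3
        · rw [det3_swap12 (v b) (v a) (v c)]; exact neg_ne_zero.2 (hne b a c h1 h3 hc)
        · exact absurd h3 hac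
        · rcases lt_trichotomy b c with h2 | h2 | h2
          · rw [← det3_rot (v a) (v b) (v c)]; exact hne b c a h2 h3 ha
          · exact absurd h2 hbc
          · rw [det3_swap13 (v c) (v b) (v a)]; exact neg_ne_zero.2 (hne c b a h2 h1 ha)
    rw [hv'e, hv'e, hv'e, det3_smul]
    have h1 : ∀ i, sg e0 i ≠ 0 := fun i h => by
      have := sg_abs e0 i
      rw [h] at this
      simp at this
    exact mul_ne_zero (mul_ne_zero (mul_ne_zero (h1 a) (h1 b)) (h1 c)) hv
  have hpos1 : ∀ i, 2 ≤ i → i < 7 → 0 < det3 (v' 0) (v' 1) (v' i) := by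
    intro i h2 h7
    have hn := hne 0 1 i (by omega) (by omega) h7
    rw [hv'e, hv'e, hv'e, det3_smul]
    have s0 : sg e0 0 = 1 := by simp [sg, h00]
    have s1 : sg e0 1 = 1 := by simp [sg, h01]
    rw [s0, s1]
    unfold sg
    by_cases hlt : det3 (v 0) (v 1) (v i) < 0
    · have : e0 i = true := by simp [he0, hlt]
      simp [this, hlt]
    · have : e0 i = false := by simp [he0, hlt]
      simp only [this]
      have := lt_of_le_of_ne (not_lt.1 hlt) hn.symm
      simpa using this
  set f : ℕ → ℝ := fun i => det3 (v' 0) (v' 2) (v' i) / det3 (v' 0) (v' 1) (v' i) with hf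
  set g : Fin 7 → ℕ ×ₗ ℝ := fun i => toLex ((if i.val < 2 then i.val else 2), f i.val) with hg
  set σ := Tuple.sort g with hσ
  have hmono : Monotone (g ∘ σ) := Tuple.monotone_sort g
  set s : ℕ → ℕ := fun i => if h : i < 7 then (σ ⟨i, h⟩).val else i with hs
  have hsval : ∀ i (h : i < 7), s i = (σ ⟨i, h⟩).val := fun i h => by simp [hs, h]
  have hP : IsPerm s := by
    refine ⟨fun i hi => ?_, fun i hi j hj hij => ?_⟩
    · rw [hsval i hi]; exact (σ ⟨i, hi⟩).isLt
    · rw [hsval i hi, hsval j hj] at hij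
      have := σ.injective (Fin.ext hij)
      simpa using this
  have hle : ∀ i j, i ≤ j → (hj : j < 7) →
      toLex ((if s i < 2 then s i else 2), f (s i)) ≤
        (toLex ((if s j < 2 then s j else 2), f (s j)) : ℕ ×ₗ ℝ) := by
    intro i j hij hj
    have hi : i < 7 := lt_of_le_of_lt hij hj
    have := hmono (show (⟨i, hi⟩ : Fin 7) ≤ ⟨j, hj⟩ from hij)
    simp only [Function.comp, hg, ← hsval] at this
    exact this
  have hsurj : ∀ m < 7, ∃ j, j < 7 ∧ s j = m := by
    intro m hm
    refine ⟨(σ.symm ⟨m, hm⟩).val, (σ.symm ⟨m, hm⟩).isLt, ?_⟩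
    rw [hsval _ (σ.symm ⟨m, hm⟩).isLt]
    simp
  have hs0 : s 0 = 0 := by
    obtain ⟨j, hj, hj0⟩ := hsurj 0 (by norm_num)
    have h1 := hle 0 j (Nat.zero_le _) hj
    rw [hj0, Prod.Lex.toLex_le_toLex] at h1
    simp only at h1
    by_contra hne0
    rcases h1 with h1 | h1
    · split_ifs at h1 <;> omega
    · have := h1.1
      split_ifs at this <;> omega
  have hs1 : s 1 = 1 := by
    obtain ⟨j, hj, hj1⟩ := hsurj 1 (by norm_num)
    have hj0 : j ≠ 0 := by rintro rfl; omega
    have h1 := hle 1 j (by omega) hj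
    rw [hj1, Prod.Lex.toLex_le_toLex] at h1
    simp only at h1
    have hs10 : s 1 ≠ 0 := by
      intro h
      have := hP.2 1 (by norm_num) 0 (by norm_num) (by rw [h, hs0])
      omega
    rcases h1 with h1 | h1
    · split_ifs at h1 <;> omega
    · have := h1.1
      split_ifs at this <;> omega
  refine ⟨s, fun i => e0 (s i), hP, fun j k hj hjk hk => ?_⟩
  have htw : ∀ i, tw v s (fun i => e0 (s i)) i = v' (s i) := fun i => rfl
  rw [htw, htw, htw, hs0]
  have hsk2 : 2 ≤ s k := by
    by_contra h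
    have : s k = 0 ∨ s k = 1 := by omega
    rcases this with h | h
    · have := hP.2 k hk 0 (by norm_num) (by rw [h, hs0]); omega
    · have := hP.2 k hk 1 (by norm_num) (by rw [h, hs1]); omega
  have hsk7 := hP.1 k hk
  rcases Nat.lt_or_ge 1 j with h1j | h1j
  · have hsj2 : 2 ≤ s j := by
      by_contra h
      have : s j = 0 ∨ s j = 1 := by omega
      rcases this with h | h
      · have := hP.2 j (by omega) 0 (by norm_num) (by rw [h, hs0]); omega
      · have := hP.2 j (by omega) 1 (by norm_num) (by rw [h, hs1]); omega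
    have hsj7 := hP.1 j (by omega)
    have h1 := hle j k hjk.le hk
    rw [Prod.Lex.toLex_le_toLex] at h1
    simp only at h1
    rw [if_neg (by omega), if_neg (by omega)] at h1
    have hfle : f (s j) ≤ f (s k) := by
      rcases h1 with h1 | h1
      · omega
      · exact h1.2
    have hskj : s j ≠ s k := fun h => by
      have := hP.2 j (by omega) k hk h
      omega
    have hid : det3 (v' 0) (v' 1) (v' 2) * det3 (v' 0) (v' (s j)) (v' (s k)) =
        det3 (v' 0) (v' 1) (v' (s j)) * det3 (v' 0) (v' 2) (v' (s k)) -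
        det3 (v' 0) (v' 1) (v' (s k)) * det3 (v' 0) (v' 2) (v' (s j)) := by
      simp only [det3]; ring
    have pj := hpos1 (s j) hsj2 hsj7
    have pk := hpos1 (s k) hsk2 hsk7
    have p2 := hpos1 2 le_rfl (by norm_num)
    simp only [hf] at hfle
    rw [div_le_div_iff₀ pj pk] at hfle
    have h3 : 0 ≤ det3 (v' 0) (v' 1) (v' 2) * det3 (v' 0) (v' (s j)) (v' (s k)) := by
      rw [hid]; nlinarith
    have h4 : 0 ≤ det3 (v' 0) (v' (s j)) (v' (s k)) := nonneg_of_mul_nonneg_right h3 p2
    exact lt_of_le_of_ne h4 (hne' 0 (s j) (s k) (by norm_num) hsj7 hsk7 (by omega) (by omega)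
      hskj).symm
  · have : j = 1 := by omega
    subst this
    rw [hs1]
    exact hpos1 (s k) hsk2 hsk7

theorem tw_ne (v : ℕ → Fin 3 → ℝ) (s : ℕ → ℕ) (e : ℕ → Bool) (hs : IsPerm s)
    (hne : ∀ i j k, i < j → j < k → k < 7 → det3 (v i) (v j) (v k) ≠ 0) :
    ∀ i j k, i < j → j < k → k < 7 → det3 (tw v s e i) (tw v s e j) (tw v s e k) ≠ 0 := by
  intro i j k hij hjk hk
  rw [det3_tw]
  have h1 : ∀ i, sg e i ≠ 0 := fun i h => by
    have := sg_abs e i
    rw [h] at this
    simp at this
  refine mul_ne_zero (mul_ne_zero (mul_ne_zero (h1 i) (h1 j)) (h1 k)) ?_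
  have hab : s i ≠ s j := fun h => by
    have := hs.2 i (by omega) j (by omega) h
    omega
  have hac : s i ≠ s k := fun h => by
    have := hs.2 i (by omega) k hk h
    omega
  have hbc : s j ≠ s k := fun h => by
    have := hs.2 j (by omega) k hk h
    omega
  have ha := hs.1 i (by omega)
  have hb := hs.1 j (by omega)
  have hc := hs.1 k hk
  generalize s i = a at *
  generalize s j = b at *
  generalize s k = c at *
  rcases lt_trichotomy a b with h1 | h1 | h1
  · rcases lt_trichotomy b c with h2 | h2 | h2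
    · exact hne a b c h1 h2 hc
    · exact absurd h2 hbc
    · rcases lt_trichotomy a c with h3 | h3 | h3
      · rw [det3_swap23 (v a) (v c) (v b)]; exact neg_ne_zero.2 (hne a c b h3 h2 hb)
      · exact absurd h3 hac
      · rw [← det3_rot' (v a) (v b) (v c)]; exact hne c a b h3 h1 hb
  · exact absurd h1 hab
  · rcases lt_trichotomy a c with h3 | h3 | h3
    · rw [det3_swap12 (v b) (v a) (v c)]; exact neg_ne_zero.2 (hne b a c h1 h3 hc)
    · exact absurd h3 hac
    · rcases lt_trichotomy b c with h2 | h2 | h2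
      · rw [← det3_rot (v a) (v b) (v c)]; exact hne b c a h2 h3 ha
      · exact absurd h2 hbc
      · rw [det3_swap13 (v c) (v b) (v a)]; exact neg_ne_zero.2 (hne c b a h2 h1 ha)

/-- The inequality for generic configurations. -/
theorem generic_ineq (v : ℕ → Fin 3 → ℝ)
    (hne : ∀ i j k, i < j → j < k → k < 7 → det3 (v i) (v j) (v k) ≠ 0) :
    (F6 v / 6) ^ 2 ≤ 157 / 30 * s6 v + dev v := by
  obtain ⟨s, e, hP, hpos⟩ := exists_norm v hne
  have := normalized_ineq (tw v s e) hpos (tw_ne v s e hP hne)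
  rwa [F6_tw v hP, s6_tw v hP, dev_tw v hP] at this

/-- Perturbation by the moment curve. -/
def pert (v : ℕ → Fin 3 → ℝ) (t : ℝ) : ℕ → Fin 3 → ℝ :=
  fun i => v i + t • ![1, (i : ℝ), (i : ℝ) ^ 2]

theorem cubic_ev (a b c d : ℝ) (hd : d ≠ 0) :
    ∀ᶠ t in 𝓝[≠] (0 : ℝ), a + b * t + c * t ^ 2 + d * t ^ 3 ≠ 0 := by
  set P : Polynomial ℝ := Polynomial.C a + Polynomial.C b * Polynomial.X +
    Polynomial.C c * Polynomial.X ^ 2 + Polynomial.C d * Polynomial.X ^ 3 with hP
  have hP0 : P ≠ 0 := by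
    intro h
    have h3 : P.coeff 3 = d := by
      simp [hP, Polynomial.coeff_X, Polynomial.coeff_C]
    rw [h] at h3
    simp at h3
    exact hd h3.symm
  have hfin : ({x | P.IsRoot x} : Set ℝ).Finite := Polynomial.finite_setOfPred_isRoot hP0
  have hev : ∀ᶠ t in 𝓝[≠] (0 : ℝ), t ∉ {x | P.IsRoot x} :=
    (nhdsNE_le_cofinite (0 : ℝ)) hfin.compl_mem_cofinite
  filter_upwards [hev] with t ht h0
  apply ht
  have : P.eval t = a + b * t + c * t ^ 2 + d * t ^ 3 := by
    simp only [hP, Polynomial.eval_add, Polynomial.eval_mul, Polynomial.eval_C,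
      Polynomial.eval_X, Polynomial.eval_pow]
  show P.IsRoot t
  rw [Polynomial.IsRoot, this, h0]

theorem pert_eventually (v : ℕ → Fin 3 → ℝ) {i j k : ℕ} (hij : i < j) (hjk : j < k) :
    ∀ᶠ t in 𝓝[≠] (0 : ℝ), det3 (pert v t i) (pert v t j) (pert v t k) ≠ 0 := by
  set A : Fin 3 → ℝ := ![1, (i : ℝ), (i : ℝ) ^ 2] with hA
  set B : Fin 3 → ℝ := ![1, (j : ℝ), (j : ℝ) ^ 2] with hB
  set C : Fin 3 → ℝ := ![1, (k : ℝ), (k : ℝ) ^ 2] with hC
  have hd : det3 A B C ≠ 0 := by
    have : det3 A B C = ((j : ℝ) - i) * ((k : ℝ) - i) * ((k : ℝ) - j) := by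
      simp [det3, hA, hB, hC]; ring
    rw [this]
    have h1 : (i : ℝ) < j := by exact_mod_cast hij
    have h2 : (j : ℝ) < k := by exact_mod_cast hjk
    have h3 : (0 : ℝ) < j - i := by linarith
    have h4 : (0 : ℝ) < k - i := by linarith
    have h5 : (0 : ℝ) < k - j := by linarith
    positivity
  filter_upwards [cubic_ev (det3 (v i) (v j) (v k))
    (det3 A (v j) (v k) + det3 (v i) B (v k) + det3 (v i) (v j) C)
    (det3 A B (v k) + det3 A (v j) C + det3 (v i) B C) (det3 A B C) hd] with t ht h0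
  apply ht
  rw [← h0]
  have e1 : pert v t i = v i + t • A := rfl
  have e2 : pert v t j = v j + t • B := rfl
  have e3 : pert v t k = v k + t • C := rfl
  rw [e1, e2, e3]
  simp only [det3, Pi.add_apply, Pi.smul_apply, smul_eq_mul]
  ring

theorem pert_generic (v : ℕ → Fin 3 → ℝ) : ∀ᶠ t in 𝓝[≠] (0 : ℝ),
    ∀ i j k, i < j → j < k → k < 7 → det3 (pert v t i) (pert v t j) (pert v t k) ≠ 0 := by
  have h1 : ∀ᶠ t in 𝓝[≠] (0 : ℝ), ∀ q ∈ (range 7 ×ˢ range 7 ×ˢ range 7 : Finset (ℕ × ℕ × ℕ)),
      q.1 < q.2.1 → q.2.1 < q.2.2 →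
        det3 (pert v t q.1) (pert v t q.2.1) (pert v t q.2.2) ≠ 0 := by
    rw [Filter.eventually_all_finset]
    intro q _
    by_cases h : q.1 < q.2.1 ∧ q.2.1 < q.2.2
    · filter_upwards [pert_eventually v h.1 h.2] with t ht _ _
      exact ht
    · exact Filter.Eventually.of_forall fun t h1 h2 => absurd ⟨h1, h2⟩ h
  filter_upwards [h1] with t ht i j k hij hjk hk
  exact ht (i, j, k) (by simp; omega) hij hjk

theorem det3_pert_cont (v : ℕ → Fin 3 → ℝ) (i j k : ℕ) :
    Continuous fun t => det3 (pert v t i) (pert v t j) (pert v t k) := by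
  simp only [det3, pert, Pi.add_apply, Pi.smul_apply, smul_eq_mul]
  fun_prop

/-- The main inequality, for all configurations of seven vectors of `ℝ³`. -/
theorem main_ineq (v : ℕ → Fin 3 → ℝ) : (F6 v / 6) ^ 2 ≤ 157 / 30 * s6 v + dev v := by
  have hF : Continuous fun t => F6 (pert v t) :=
    continuous_finsetSum _ fun i _ => continuous_finsetSum _ fun j _ =>
      continuous_finsetSum _ fun k _ => (det3_pert_cont v i j k).abs
  have hs : Continuous fun t => s6 (pert v t) :=
    continuous_finsetSum _ fun i _ => continuous_finsetSum _ fun j _ =>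
      continuous_finsetSum _ fun k _ => (det3_pert_cont v i j k).pow 2
  have hr : ∀ i, Continuous fun t => r2 (pert v t) i := fun i =>
    continuous_finsetSum _ fun j _ => continuous_finsetSum _ fun k _ =>
      (det3_pert_cont v i j k).pow 2
  have hd : Continuous fun t => dev (pert v t) :=
    continuous_finsetSum _ fun i _ => (((hr i).const_mul 7).sub hs).abs
  have h0 : pert v 0 = v := by
    funext i; simp [pert]
  have hL : Tendsto (fun t => (F6 (pert v t) / 6) ^ 2) (𝓝[≠] 0) (𝓝 ((F6 v / 6) ^ 2)) := by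
    have : Continuous fun t => (F6 (pert v t) / 6) ^ 2 := (hF.div_const 6).pow 2
    have h2 := this.tendsto 0
    simp only [h0] at h2
    exact h2.mono_left nhdsWithin_le_nhds
  have hR : Tendsto (fun t => 157 / 30 * s6 (pert v t) + dev (pert v t)) (𝓝[≠] 0)
      (𝓝 (157 / 30 * s6 v + dev v)) := by
    have : Continuous fun t => 157 / 30 * s6 (pert v t) + dev (pert v t) :=
      (hs.const_mul _).add hd
    have h2 := this.tendsto 0
    simp only [h0] at h2
    exact h2.mono_left nhdsWithin_le_nhds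
  refine le_of_tendsto_of_tendsto hL hR ?_
  filter_upwards [pert_generic v] with t ht
  exact generic_ineq _ ht

end Pool.Agent.J6H81.Cube
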