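import Pool.Agent.J6H81.Cube.Check

/-! Decision tree for the sign patterns of seven vectors (support for MP_416390_gt). -/

namespace Pool.Agent.J6H81.Cube

open T

/-- Subtree. -/
def t0 : T :=
  (n (n (n (n (n (n (n (n (n (n (n (n (l 7 1754760 0) (l 8 1754760 0)) (n (x 58) (l 4 1754760 0))) (n
  (x 50) (n (x 54) (l 4 1737372 127)))) (n (x 22) (n (x 34) (n (x 38) (l 8 190673 0))))) (n (n (n (x
  56) (n (x 57) (l 10 1754760 0))) (n (x 50) (n (x 54) (l 3 1754760 0)))) (n (x 22) (n (x 34) (n (x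
  38) (l 6 1156008 120)))))) (n (x 46) (n (n (x 52) (n (x 50) (n (x 53) (l 6 641928 3)))) (n (x 22) (n
  (x 34) (n (x 38) (l 3 1615656 63))))))) (n (x 18) (n (x 30) (n (x 36) (n (x 22) (n (x 34) (n (x 37)
  (l 10 1615656 63)))))))) (n (n (x 44) (n (x 45) (n (n (x 48) (n (x 49) (n (x 53) (l 8 1608474 64))))
  (n (x 22) (n (x 34) (n (x 38) (l 4 1608474 64))))))) (n (x 18) (n (x 30) (n (x 36) (n (x 22) (n (x
  34) (n (x 37) (l 4 1615656 63))))))))) (n (x 10) (n (x 28) (n (x 18) (n (x 29) (n (x 32) (n (x 22)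
  (n (x 33) (n (x 37) (l 8 1615656 63)))))))))) (n (x 8) (n (x 9) (n (x 16) (n (x 17) (n (x 29) (n (x
  20) (n (x 21) (n (x 33) (n (x 37) (l 7 1615656 63))))))))))) (n (n (n (n (n (n (n (n (n (n (l 8
  941066 127) (x 57)) (x 56)) (n (x 50) (x 56))) (n (x 22) (n (x 34) (x 56)))) (n (n (n (n (l 4 941066
  127) (x 58)) (n (l 10 941066 127) (l 8 44387 15))) (n (x 50) (n (x 54) (l 6 1754760 0)))) (n (x 22)
  (n (x 34) (n (x 38) (l 9 190666 124)))))) (n (x 46) (n (n (x 52) (n (x 50) (n (x 53) (l 3 641928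
  3)))) (n (x 22) (n (x 34) (n (x 38) (l 1 1754760 0))))))) (n (x 18) (n (x 30) (n (x 36) (n (x 22) (n
  (x 34) (n (x 37) (l 5 183505 0)))))))) (n (n (x 44) (n (x 45) (n (n (x 48) (n (x 49) (n (x 53) (l 10
  641928 3)))) (n (x 22) (n (x 34) (n (x 38) (l 5 58723 23))))))) (n (x 18) (n (x 30) (n (x 36) (n (x
  22) (n (x 34) (n (x 37) (l 5 581861 104))))))))) (n (x 10) (n (x 28) (n (x 18) (n (x 29) (n (x 32)
  (n (x 22) (n (x 33) (n (x 37) (l 10 182154 124)))))))))) (n (x 8) (n (x 9) (n (x 16) (n (x 17) (n (x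
  29) (n (x 20) (n (x 21) (n (x 33) (n (x 37) (l 8 1455216 2)))))))))))) (n (x 42) (n (n (n (n (n (n
  (n (n (n (n (l 4 1455174 0) (x 53)) (x 56)) (x 52)) (n (x 22) (x 52))) (n (n (n (n (l 0 1754760 0)
  (x 53)) (n (l 5 1754760 0) (x 53))) (x 52)) (n (x 22) (x 52)))) (n (x 46) (n (n (n (n (l 2 1754760
  0) (x 54)) (n (l 5 792757 67) (x 54))) (n (x 50) (n (l 4 275884 24) (l 4 623532 103)))) (n (x 22) (n
  (x 34) (n (x 38) (l 5 108661 60))))))) (n (x 18) (n (x 30) (n (x 36) (n (x 22) (n (x 34) (n (x 37)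
  (l 5 1753171 127)))))))) (n (n (x 44) (n (x 45) (n (n (x 48) (n (x 49) (n (l 9 1754760 0) (l 4
  641928 3)))) (n (x 22) (n (x 34) (n (x 38) (l 5 1155441 14))))))) (n (x 18) (n (x 30) (n (x 36) (n
  (x 22) (n (x 34) (n (x 37) (l 2 1213681 113))))))))) (n (x 10) (n (x 28) (n (x 18) (n (x 29) (n (x
  32) (n (x 22) (n (x 33) (n (x 37) (l 5 938126 6)))))))))) (n (x 8) (n (x 9) (n (x 16) (n (x 17) (n
  (x 29) (n (x 20) (n (x 21) (n (x 33) (n (x 37) (l 4 1455216 2)))))))))))))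

/-- Subtree. -/
def t1 : T :=
  (n (x 14) (n (x 26) (n (n (n (n (n (n (n (n (n (n (l 4 1466451 127) (x 37)) (x 56)) (x 52)) (x 36))
  (n (n (n (n (l 0 215761 0) (x 37)) (n (l 5 969738 127) (x 37))) (x 52)) (x 36))) (n (x 46) (n (n (n
  (n (l 0 281946 0) (x 37)) (n (l 1 355075 97) (x 37))) (n (x 50) (n (l 3 281491 124) (x 37)))) (x
  36)))) (n (x 18) (n (x 30) (n (n (n (n (l 4 158417 0) (x 38)) (n (l 9 976913 3) (x 38))) (n (x 50)
  (n (l 6 1753171 127) (x 38)))) (n (x 22) (n (x 34) (n (l 8 859488 112) (l 10 154833 0)))))))) (n (n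
  (x 44) (n (x 45) (n (n (x 48) (n (x 49) (n (l 6 468517 39) (x 37)))) (x 36)))) (n (x 18) (n (x 30)
  (n (n (x 48) (n (x 49) (n (l 9 1512672 31) (x 38)))) (n (x 22) (n (x 34) (n (l 4 859488 112) (l 5
  340396 119))))))))) (n (x 10) (n (x 28) (n (x 18) (n (x 29) (n (x 32) (n (x 22) (n (x 33) (n (l 10
  859488 112) (l 5 153482 124)))))))))) (n (x 8) (n (x 9) (n (x 16) (n (x 17) (n (x 29) (n (x 20) (n
  (x 21) (n (x 33) (n (l 8 1444947 119) (l 4 1444947 119)))))))))))))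

/-- Subtree. -/
def t2 : T :=
  (n (n (x 40) (n (x 41) (n (n (n (n (n (n (n (n (n (n (l 10 1346842 64) (x 53)) (x 49)) (x 48)) (n (x
  22) (x 48))) (n (n (n (n (l 5 641921 127) (x 53)) (x 49)) (x 48)) (n (x 22) (x 48)))) (n (x 46) (n
  (n (n (n (l 5 1345939 60) (x 54)) (x 49)) (x 48)) (n (x 22) (x 48))))) (n (x 18) (n (x 30) (n (x 36)
  (n (x 22) (x 48)))))) (n (n (x 44) (n (x 45) (n (n (n (n (l 4 56476 103) (x 54)) (x 50)) (n (n (l 9
  641921 127) (x 58)) (n (l 6 1511706 96) (l 8 641928 3)))) (n (x 22) (n (x 34) (n (x 38) (l 10 60060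
  103))))))) (n (x 18) (n (x 30) (n (x 36) (n (x 22) (n (x 34) (n (x 37) (l 5 1511706 96))))))))) (n
  (x 10) (n (x 28) (n (x 18) (n (x 29) (n (x 32) (n (x 22) (n (x 33) (n (x 37) (l 5 203420
  87)))))))))) (n (x 8) (n (x 9) (n (x 16) (n (x 17) (n (x 29) (n (x 20) (n (x 21) (n (x 33) (n (x 37)
  (l 10 1455216 2))))))))))))) (n (x 14) (n (x 26) (n (n (n (n (n (n (n (n (n (n (l 3 1346842 64) (x
  37)) (x 49)) (x 48)) (x 36)) (n (n (n (n (l 1 1428490 127) (x 37)) (x 49)) (x 48)) (x 36))) (n (x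
  46) (n (n (n (n (l 0 1704794 7) (x 37)) (x 49)) (x 48)) (x 36)))) (n (x 18) (n (x 30) (n (n (n (n (l
  5 1704794 7) (x 38)) (x 49)) (x 48)) (n (x 22) (x 48)))))) (n (n (x 44) (n (x 45) (n (n (n (n (l 0
  1741082 96) (x 37)) (x 50)) (n (n (l 1 1170498 6) (x 37)) (n (l 3 1056090 15) (x 37)))) (x 36)))) (n
  (x 18) (n (x 30) (n (n (n (n (l 2 1512672 31) (x 38)) (x 50)) (n (n (l 5 541422 63) (x 38)) (n (l 4
  1058673 97) (x 38)))) (n (x 22) (n (x 34) (n (l 4 854385 30) (l 5 78638 64))))))))) (n (x 10) (n (x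
  28) (n (x 18) (n (x 29) (n (x 32) (n (x 22) (n (x 33) (n (l 3 859488 112) (l 1 941136 121))))))))))
  (n (x 8) (n (x 9) (n (x 16) (n (x 17) (n (x 29) (n (x 20) (n (x 21) (n (x 33) (n (l 6 859488 112) (l
  3 1455216 2))))))))))))))

/-- Subtree. -/
def t3 : T :=
  (n (x 6) (n (x 24) (n (x 14) (n (x 25) (n (n (n (n (n (n (n (n (n (n (l 6 214858 124) (x 37)) (x
  33)) (x 48)) (x 32)) (n (n (n (n (l 3 214858 124) (x 37)) (x 33)) (x 48)) (x 32))) (n (x 46) (n (n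
  (n (n (l 1 428435 92) (x 37)) (x 33)) (x 48)) (x 32)))) (n (x 18) (n (x 30) (n (n (n (n (l 5 859460
  12) (x 38)) (x 33)) (x 48)) (x 32))))) (n (n (x 44) (n (x 45) (n (n (n (n (l 0 727587 40) (x 37)) (x
  33)) (n (n (l 5 727587 40) (x 37)) (x 33))) (x 32)))) (n (x 18) (n (x 30) (n (n (n (n (l 0 1512672
  31) (x 38)) (x 33)) (n (n (l 5 1512672 31) (x 38)) (x 33))) (x 32)))))) (n (x 10) (n (x 28) (n (x
  18) (n (x 29) (n (n (n (n (l 4 584227 24) (x 38)) (x 34)) (n (n (l 10 584227 24) (x 38)) (x 34))) (n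
  (x 22) (n (n (l 8 146314 124) (x 58)) (n (l 6 1512672 31) (l 9 146321 0)))))))))) (n (x 8) (n (x 9)
  (n (x 16) (n (x 17) (n (x 29) (n (x 20) (n (x 21) (n (n (l 10 1512672 31) (x 58)) (n (l 3 1512672
  31) (l 6 342384 1)))))))))))))))

/-- Subtree. -/
def t4 : T :=
  (n (x 4) (n (x 5) (n (x 12) (n (x 13) (n (x 25) (n (n (n (n (n (n (n (n (n (n (l 8 1337553 64) (x
  37)) (x 33)) (x 21)) (x 20)) (n (n (n (n (l 6 169379 39) (x 37)) (x 33)) (x 21)) (x 20))) (n (x 46)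
  (n (n (n (n (l 3 1706579 119) (x 37)) (x 33)) (x 21)) (x 20)))) (n (x 18) (n (x 30) (n (n (n (n (l
  10 1706579 119) (x 38)) (x 33)) (x 21)) (x 20))))) (n (n (x 44) (n (x 45) (n (n (n (n (l 4 1626394
  80) (x 37)) (x 33)) (x 21)) (x 20)))) (n (x 18) (n (x 30) (n (n (n (n (l 4 1615621 62) (x 38)) (x
  33)) (x 21)) (x 20)))))) (n (x 10) (n (x 28) (n (x 18) (n (x 29) (n (n (n (n (l 8 584227 24) (x 38))
  (x 34)) (x 21)) (x 20))))))) (n (x 8) (n (x 9) (n (x 16) (n (x 17) (n (x 29) (n (n (n (n (l 7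
  1512672 31) (x 38)) (x 34)) (x 22)) (n (n (n (l 8 1512672 31) (x 54)) (x 50)) (n (n (l 4 1512672 31)
  (x 58)) (n (l 4 1509585 96) (l 8 1509585 96))))))))))))))))

/-- Subtree. -/
def t5 : T :=
  (n (n (n (n (n (n (n (n (n (n (n (n (n (l 8 641921 127) (l 6 1508122 7)) (n (x 58) (l 9 641928 3)))
  (n (x 50) (n (x 54) (l 4 285852 120)))) (n (x 22) (n (x 34) (n (x 38) (l 10 285852 120))))) (x 45))
  (x 44)) (n (x 18) (x 44))) (n (n (n (n (n (x 48) (n (x 49) (n (x 54) (l 5 1317267 115)))) (n (x 22)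
  (n (x 34) (n (x 38) (l 5 1156008 120))))) (x 46)) (n (n (n (x 48) (n (x 49) (n (x 53) (l 5 641928
  3)))) (n (x 22) (n (x 34) (n (x 38) (l 5 284067 8))))) (n (n (x 48) (n (x 49) (n (x 53) (l 10
  1318170 15)))) (n (x 22) (n (x 34) (n (x 38) (l 4 1318170 15))))))) (n (x 18) (n (x 30) (n (x 36) (n
  (x 22) (n (x 34) (n (x 37) (l 9 1156008 120))))))))) (n (x 10) (n (x 28) (n (x 18) (n (x 29) (n (x
  32) (n (x 22) (n (x 33) (n (x 37) (l 6 461468 88)))))))))) (n (x 8) (n (x 9) (n (x 16) (n (x 17) (n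
  (x 29) (n (x 20) (n (x 21) (n (x 33) (n (x 37) (l 8 641585 125))))))))))) (x 41)) (x 40)) (n (x 14)
  (x 40)))

/-- Subtree. -/
def t6 : T :=
  (n (n (n (n (n (n (n (n (n (n (n (n (l 4 641921 127) (l 9 1754753 124)) (x 49)) (x 48)) (n (x 22) (x
  48))) (x 45)) (x 44)) (n (x 18) (x 44))) (n (n (n (n (n (n (n (l 4 627116 0) (l 4 46508 7)) (x 50))
  (n (n (x 54) (l 5 821429 12)) (n (x 54) (l 2 641928 3)))) (n (x 22) (n (x 34) (n (x 38) (l 5 370734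
  7))))) (x 46)) (n (n (n (x 52) (n (n (x 53) (l 5 1754753 124)) (n (x 53) (l 0 641928 3)))) (n (x 22)
  (n (x 34) (n (x 38) (l 1 1525377 124))))) (n (n (x 52) (n (x 56) (n (x 53) (l 4 1455118 121)))) (n
  (x 22) (n (x 34) (n (x 38) (l 3 1320753 97))))))) (n (x 18) (n (x 30) (n (x 36) (n (x 22) (n (x 34)
  (n (x 37) (l 6 1466899 12))))))))) (n (x 10) (n (x 28) (n (x 18) (n (x 29) (n (x 32) (n (x 22) (n (x
  33) (n (x 37) (l 3 629804 8)))))))))) (n (x 8) (n (x 9) (n (x 16) (n (x 17) (n (x 29) (n (x 20) (n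
  (x 21) (n (x 33) (n (x 37) (l 4 641585 125))))))))))) (x 42)) (n (n (n (n (n (n (n (n (n (n (n (l 10
  641921 127) (x 53)) (x 49)) (x 48)) (n (x 22) (x 48))) (x 45)) (x 44)) (n (x 18) (x 44))) (n (n (n
  (n (n (n (n (l 3 641921 127) (x 53)) (x 50)) (x 52)) (n (x 22) (x 52))) (x 46)) (n (n (n (n (n (l 6
  1754753 124) (x 54)) (x 50)) (n (n (l 8 273763 16) (l 10 941122 6)) (n (x 58) (l 4 941122 6)))) (n
  (x 22) (n (x 34) (n (x 38) (l 9 481474 65))))) (n (n (n (x 56) (x 50)) (n (x 56) (n (x 57) (l 8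
  941122 6)))) (n (x 22) (n (x 34) (n (x 38) (l 6 1155441 14))))))) (n (x 18) (n (x 30) (n (x 36) (n
  (x 22) (n (x 34) (n (x 37) (l 9 941136 121))))))))) (n (x 10) (n (x 28) (n (x 18) (n (x 29) (n (x
  32) (n (x 22) (n (x 33) (n (x 37) (l 4 549605 47)))))))))) (n (x 8) (n (x 9) (n (x 16) (n (x 17) (n
  (x 29) (n (x 20) (n (x 21) (n (x 33) (n (x 37) (l 10 641585 125))))))))))) (n (n (n (n (n (n (n (n
  (n (n (l 8 1579802 15) (x 53)) (x 49)) (x 48)) (n (x 22) (x 48))) (x 45)) (x 44)) (n (x 18) (x 44)))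
  (n (n (n (n (n (n (n (l 6 641921 127) (x 53)) (x 50)) (x 52)) (n (x 22) (x 52))) (x 46)) (n (n (n (n
  (n (l 3 1754753 124) (x 54)) (x 50)) (n (n (l 10 1754753 124) (x 57)) (x 56))) (n (x 22) (n (x 34)
  (x 56)))) (n (n (n (n (l 4 1740956 24) (x 54)) (x 50)) (n (n (l 4 1754753 124) (x 58)) (n (l 8
  1754753 124) (l 7 641928 3)))) (n (x 22) (n (x 34) (n (x 38) (l 8 481488 62))))))) (n (x 18) (n (x
  30) (n (x 36) (n (x 22) (n (x 34) (n (x 37) (l 4 481488 62))))))))) (n (x 10) (n (x 28) (n (x 18) (n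
  (x 29) (n (x 32) (n (x 22) (n (x 33) (n (x 37) (l 4 460005 80)))))))))) (n (x 8) (n (x 9) (n (x 16)
  (n (x 17) (n (x 29) (n (x 20) (n (x 21) (n (x 33) (n (x 37) (l 8 203546 47)))))))))))))

/-- Subtree. -/
def t7 : T :=
  (n (x 14) (n (x 26) (n (n (n (n (n (n (n (n (n (n (l 6 206444 28) (x 37)) (x 49)) (x 48)) (x 36)) (x
  45)) (x 44)) (n (x 18) (x 44))) (n (n (n (n (n (n (n (l 3 55699 99) (x 37)) (x 50)) (x 52)) (x 36))
  (x 46)) (n (n (n (n (n (l 1 92491 92) (x 37)) (x 50)) (n (n (l 5 941122 6) (x 37)) (x 56))) (x 36))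
  (n (n (n (n (l 0 56602 31) (x 37)) (x 50)) (n (n (l 0 481488 62) (x 37)) (n (l 4 1237523 12) (x
  37)))) (x 36)))) (n (x 18) (n (x 30) (n (n (n (n (l 5 1266195 12) (x 38)) (x 50)) (n (n (l 5 481488
  62) (x 38)) (n (l 10 1058673 97) (x 38)))) (n (x 22) (n (x 34) (n (l 8 854385 30) (l 10 481488
  62))))))))) (n (x 10) (n (x 28) (n (x 18) (n (x 29) (n (x 32) (n (x 22) (n (x 33) (n (l 6 481488 62)
  (l 3 481488 62)))))))))) (n (x 8) (n (x 9) (n (x 16) (n (x 17) (n (x 29) (n (x 20) (n (x 21) (n (x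
  33) (n (l 9 153265 126) (l 6 1455216 2)))))))))))))

/-- Subtree. -/
def t8 : T :=
  (n (x 6) (n (x 24) (n (x 14) (n (x 25) (n (n (n (n (n (n (n (n (n (n (l 3 429212 88) (x 37)) (x 33))
  (x 48)) (x 32)) (x 45)) (x 44)) (n (x 18) (x 44))) (n (n (n (n (n (n (n (l 1 723548 55) (x 37)) (x
  33)) (x 52)) (x 32)) (x 46)) (n (n (n (n (n (l 0 427427 40) (x 37)) (x 33)) (n (n (l 5 1641052 87)
  (x 37)) (x 33))) (x 32)) (n (n (n (n (l 0 545699 87) (x 37)) (x 33)) (n (n (l 2 481488 62) (x 37))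
  (x 33))) (x 32)))) (n (x 18) (n (x 30) (n (n (n (n (l 1 630084 12) (x 38)) (x 33)) (n (n (l 5
  1059534 30) (x 38)) (x 33))) (x 32)))))) (n (x 10) (n (x 28) (n (x 18) (n (x 29) (n (n (n (n (l 3
  547932 39) (x 38)) (x 34)) (n (n (l 4 542325 67) (x 38)) (x 34))) (n (x 22) (n (n (l 4 918645 12) (x
  58)) (n (l 3 941136 121) (l 6 941136 121)))))))))) (n (x 8) (n (x 9) (n (x 16) (n (x 17) (n (x 29)
  (n (x 20) (n (x 21) (n (n (l 5 146062 1) (x 58)) (n (l 1 481488 62) (l 3 342384 1)))))))))))))))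

/-- Subtree. -/
def t9 : T :=
  (n (x 4) (n (x 5) (n (x 12) (n (x 13) (n (x 25) (n (n (n (n (n (n (n (n (n (n (l 10 429212 88) (x
  37)) (x 33)) (x 21)) (x 20)) (x 45)) (x 44)) (n (x 18) (x 44))) (n (n (n (n (n (n (n (l 5 1155973
  121) (x 37)) (x 33)) (x 21)) (x 20)) (x 46)) (n (n (n (n (n (l 5 427427 40) (x 37)) (x 33)) (x 21))
  (x 20)) (n (n (n (n (l 4 171290 47) (x 37)) (x 33)) (x 21)) (x 20)))) (n (x 18) (n (x 30) (n (n (n
  (n (l 9 1070321 97) (x 38)) (x 33)) (x 21)) (x 20)))))) (n (x 10) (n (x 28) (n (x 18) (n (x 29) (n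
  (n (n (n (l 6 479388 72) (x 38)) (x 34)) (x 21)) (x 20))))))) (n (x 8) (n (x 9) (n (x 16) (n (x 17)
  (n (x 29) (n (n (n (n (l 8 1156008 6) (x 38)) (x 34)) (x 22)) (n (n (n (l 10 144753 126) (x 54)) (x
  50)) (n (n (l 5 479388 72) (x 58)) (n (l 5 217882 55) (l 10 342384 1))))))))))))))))

/-- Subtree. -/
def t10 : T :=
  (x 2)

/-- Subtree. -/
def t11 : T :=
  (n (n (n (n (n (n (n (n (n (n (n (n (n (n (l 4 1155637 0) (l 3 1170442 127)) (n (x 58) (l 6 1170442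
  127))) (n (x 50) (n (x 54) (l 3 354851 99)))) (n (x 22) (n (x 34) (n (x 38) (l 4 342062 7))))) (x
  29)) (x 44)) (x 28)) (n (n (n (n (n (x 48) (n (x 49) (n (x 54) (l 1 468741 35)))) (n (x 22) (n (x
  34) (n (x 38) (l 0 1156008 120))))) (x 29)) (n (n (n (x 48) (n (x 49) (n (x 53) (l 5 1426446 121))))
  (n (x 22) (n (x 34) (n (x 38) (l 2 1156008 120))))) (x 29))) (x 28))) (n (x 10) (n (n (n (n (x 32)
  (n (x 22) (n (x 33) (n (x 38) (l 5 1615621 67))))) (x 30)) (n (n (x 32) (n (x 22) (n (x 33) (n (x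
  38) (l 5 951601 113))))) (x 30))) (n (x 18) (n (n (x 32) (n (x 22) (n (x 33) (n (x 37) (l 4 178570
  124))))) (n (x 32) (n (x 22) (n (x 33) (n (x 37) (l 9 1718794 127)))))))))) (n (x 8) (n (x 9) (n (x
  16) (n (x 17) (n (n (x 20) (n (x 21) (n (x 33) (n (x 37) (l 4 1167754 123))))) (n (x 20) (n (x 21)
  (n (x 33) (n (x 37) (l 4 1155973 4))))))))))) (x 25)) (x 40)) (x 24)) (n (n (n (n (n (n (n (n (n (n
  (n (n (n (l 0 342384 127) (l 1 1225798 0)) (x 49)) (x 48)) (n (x 22) (x 48))) (x 29)) (x 44)) (x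
  28)) (n (n (n (n (n (n (n (l 0 1126965 0) (l 0 1054389 67)) (x 50)) (n (n (x 54) (l 0 821429 12)) (n
  (x 54) (l 0 868469 115)))) (n (x 22) (n (x 34) (n (x 38) (l 0 140917 60))))) (x 29)) (n (n (n (x 52)
  (n (n (x 53) (l 1 967694 121)) (n (x 53) (l 0 83825 65)))) (n (x 22) (n (x 34) (n (x 38) (l 0 926065
  14))))) (x 29))) (x 28))) (n (x 10) (n (n (n (n (x 32) (n (x 22) (n (x 33) (n (x 38) (l 1 658126
  97))))) (x 30)) (n (n (x 32) (n (x 22) (n (x 33) (n (x 38) (l 0 951601 113))))) (x 30))) (n (x 18)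
  (n (n (x 32) (n (x 22) (n (x 33) (n (x 37) (l 0 546609 62))))) (n (x 32) (n (x 22) (n (x 33) (n (x
  37) (l 1 571718 126)))))))))) (n (x 8) (n (x 9) (n (x 16) (n (x 17) (n (n (x 20) (n (x 21) (n (x 33)
  (n (x 37) (l 0 670257 125))))) (n (x 20) (n (x 21) (n (x 33) (n (x 37) (l 0 1455216 2))))))))))) (x
  25)) (n (n (n (n (n (n (n (n (n (n (n (l 5 1455174 0) (x 53)) (x 49)) (x 48)) (n (x 22) (x 48))) (x
  29)) (x 44)) (x 28)) (n (n (n (n (n (n (n (l 1 207053 30) (x 53)) (x 50)) (x 52)) (n (x 22) (x 52)))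
  (x 29)) (n (n (n (n (n (l 3 92764 88) (x 54)) (x 50)) (n (n (l 6 941122 6) (l 3 941122 6)) (n (x 58)
  (l 4 925813 115)))) (n (x 22) (n (x 34) (n (x 38) (l 4 83573 60))))) (x 29))) (x 28))) (n (x 10) (n
  (n (n (n (x 32) (n (x 22) (x 52))) (x 30)) (n (n (x 32) (n (x 22) (n (x 33) (n (x 38) (l 5 1116878
  97))))) (x 30))) (n (x 18) (n (n (x 32) (n (x 22) (n (x 33) (n (x 37) (l 2 941136 121))))) (n (x 32)
  (n (x 22) (n (x 33) (n (x 37) (l 5 1583708 40)))))))))) (n (x 8) (n (x 9) (n (x 16) (n (x 17) (n (n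
  (x 20) (n (x 21) (n (x 33) (n (x 37) (l 5 670257 125))))) (n (x 20) (n (x 21) (n (x 33) (n (x 37) (l
  5 1455216 2))))))))))) (x 25))) (x 24)))

/-- Subtree. -/
def t12 : T :=
  (x 6)

/-- Subtree. -/
def t13 : T :=
  (n (n (n (n (n (n (n (n (n (n (n (n (l 2 342384 127) (l 5 1644069 60)) (x 33)) (x 48)) (x 32)) (x
  29)) (x 44)) (x 28)) (n (n (n (n (n (n (n (l 0 569772 0) (l 0 103852 7)) (x 33)) (n (n (x 54) (l 1
  142429 72)) (x 33))) (x 32)) (x 29)) (n (n (n (x 52) (n (n (x 53) (l 3 105637 119)) (x 33))) (x 32))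
  (x 29))) (x 28))) (n (x 10) (n (n (n (n (n (n (n (l 4 103726 127) (l 4 569646 120)) (x 34)) (n (n (x
  54) (l 3 584451 28)) (x 34))) (n (x 22) (n (n (x 38) (l 6 122129 0)) (n (x 38) (l 3 122129 0))))) (x
  30)) (n (n (n (x 52) (n (n (x 53) (l 6 1237635 115)) (x 34))) (n (x 22) (n (n (x 38) (l 3 1116017
  30)) (n (x 38) (l 1 1267217 3))))) (x 30))) (n (x 18) (n (n (x 36) (n (x 22) (n (n (x 37) (l 4
  1224846 6)) (n (x 37) (l 0 1725969 3))))) (n (x 36) (n (x 22) (n (x 56) (n (x 37) (l 5 1725969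
  3)))))))))) (n (x 8) (n (x 9) (n (x 16) (n (x 17) (n (n (x 20) (n (x 21) (n (n (x 37) (l 4 120974
  1)) (n (x 37) (l 0 1587985 64))))) (n (x 20) (n (x 21) (n (x 56) (n (x 37) (l 2 1455216 2)))))))))))
  (x 26)) (n (n (n (n (n (n (n (n (n (n (n (l 5 722540 67) (x 53)) (x 33)) (x 48)) (x 32)) (x 29)) (x
  44)) (x 28)) (n (n (n (n (n (n (n (l 0 722540 67) (x 53)) (x 33)) (x 52)) (x 32)) (x 29)) (n (n (n
  (n (n (l 1 105364 115) (x 54)) (x 33)) (n (n (l 3 481474 65) (l 6 481474 65)) (x 33))) (x 32)) (x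
  29))) (x 28))) (n (x 10) (n (n (n (n (n (n (n (l 5 363685 120) (x 53)) (x 34)) (x 52)) (n (x 22) (x
  52))) (x 30)) (n (n (n (n (n (l 5 1237635 115) (x 54)) (x 34)) (n (n (l 10 481474 65) (l 8 797041
  97)) (x 34))) (n (x 22) (n (n (x 38) (l 10 1116017 30)) (n (x 38) (l 5 481474 65))))) (x 30))) (n (x
  18) (n (n (x 36) (n (x 22) (n (n (x 37) (l 4 1237635 115)) (n (x 37) (l 0 941136 121))))) (n (x 36)
  (n (x 22) (n (x 56) (n (x 37) (l 5 941136 121)))))))))) (n (x 8) (n (x 9) (n (x 16) (n (x 17) (n (n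
  (x 20) (n (x 21) (n (n (x 37) (l 9 584451 28)) (n (x 37) (l 1 1628354 33))))) (n (x 20) (n (x 21) (n
  (x 56) (n (x 37) (l 5 550508 83))))))))))) (x 26)))

/-- Subtree. -/
def t14 : T :=
  (n (x 14) (n (n (n (n (n (n (n (n (n (n (n (l 4 205667 24) (x 37)) (x 33)) (x 48)) (x 32)) (x 29))
  (x 44)) (x 28)) (n (n (n (n (n (n (n (l 0 812140 12) (x 37)) (x 33)) (x 52)) (x 32)) (x 29)) (n (n
  (n (n (n (l 0 90979 40) (x 37)) (x 33)) (n (n (l 4 467173 47) (x 37)) (x 33))) (x 32)) (x 29))) (x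
  28))) (n (x 10) (n (n (n (n (n (n (n (l 2 584472 96) (x 37)) (x 34)) (x 52)) (x 36)) (x 30)) (n (n
  (n (n (n (l 0 584472 96) (x 37)) (x 34)) (n (n (l 4 481474 65) (x 37)) (x 34))) (x 36)) (x 30))) (n
  (x 18) (n (n (n (n (n (l 4 1512476 103) (x 38)) (x 34)) (n (n (l 8 481474 65) (x 38)) (x 34))) (n (x
  22) (n (n (l 7 941136 121) (l 8 1754641 3)) (n (x 58) (l 4 1754641 3))))) (n (n (n (x 56) (x 34)) (n
  (x 56) (x 34))) (n (x 22) (n (x 56) (n (x 57) (l 10 1754641 3)))))))))) (n (x 8) (n (x 9) (n (x 16)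
  (n (x 17) (n (n (x 20) (n (x 21) (n (n (l 8 584472 96) (l 6 1454474 123)) (n (x 58) (l 3 1587530
  60))))) (n (x 20) (n (x 21) (n (x 56) (n (x 57) (l 4 1581923 88))))))))))) (n (n (n (n (n (n (n (n
  (n (n (l 4 352611 103) (x 37)) (x 33)) (x 48)) (x 32)) (x 29)) (x 44)) (x 28)) (n (n (n (n (n (n (n
  (l 0 830508 115) (x 37)) (x 33)) (x 52)) (x 32)) (x 29)) (n (n (n (n (n (l 0 467299 87) (x 37)) (x
  33)) (n (n (l 4 90853 80) (x 37)) (x 33))) (x 32)) (x 29))) (x 28))) (n (x 10) (n (n (n (n (n (n (n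
  (l 5 830508 115) (x 37)) (x 34)) (x 52)) (x 36)) (x 30)) (n (n (n (n (n (l 1 1467011 115) (x 37)) (x
  34)) (n (n (l 9 941122 6) (x 37)) (x 34))) (x 36)) (x 30))) (n (x 18) (n (n (n (n (n (l 3 1525265 3)
  (x 38)) (x 34)) (n (n (l 6 1148273 113) (x 38)) (x 34))) (n (x 22) (n (n (l 8 941136 121) (x 57)) (x
  56)))) (n (n (n (n (l 6 1525265 3) (x 38)) (x 34)) (n (n (l 9 481488 62) (x 38)) (x 34))) (n (x 22)
  (n (n (l 4 941136 121) (x 58)) (n (l 10 941136 121) (l 8 331107 111)))))))))) (n (x 8) (n (x 9) (n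
  (x 16) (n (x 17) (n (n (x 20) (n (x 21) (n (n (l 10 72933 72) (x 57)) (x 56)))) (n (x 20) (n (x 21)
  (n (n (l 5 1454474 123) (x 58)) (n (l 5 71596 56) (l 4 331107 111)))))))))))))

/-- Subtree. -/
def t15 : T :=
  (n (x 4) (n (x 5) (n (x 12) (n (x 13) (n (n (n (n (n (n (n (n (n (n (n (l 9 1337098 60) (x 37)) (x
  33)) (x 21)) (x 20)) (x 29)) (x 44)) (x 28)) (n (n (n (n (n (n (n (l 1 926597 121) (x 37)) (x 33))
  (x 21)) (x 20)) (x 29)) (n (n (n (n (n (l 5 1369116 87) (x 37)) (x 33)) (x 21)) (x 20)) (x 29))) (x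
  28))) (n (x 10) (n (n (n (n (n (n (n (l 5 1326353 64) (x 37)) (x 34)) (x 21)) (x 20)) (x 30)) (n (n
  (n (n (n (l 5 584472 96) (x 37)) (x 34)) (x 21)) (x 20)) (x 30))) (n (x 18) (n (n (n (n (n (l 10
  1325450 60) (x 38)) (x 34)) (x 21)) (x 20)) (n (n (n (x 56) (x 34)) (x 21)) (x 20))))))) (n (x 8) (n
  (x 9) (n (x 16) (n (x 17) (n (n (n (n (n (l 8 1149834 115) (x 38)) (x 34)) (x 22)) (n (n (n (l 10
  584472 96) (x 54)) (x 50)) (n (n (l 4 584472 96) (l 9 1237656 15)) (n (x 58) (l 6 1741852 103)))))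
  (n (n (n (x 56) (x 34)) (x 22)) (n (n (x 56) (x 50)) (n (x 56) (n (x 57) (l 9 1455216 2)))))))))))
  (n (n (n (n (n (n (n (n (n (n (l 4 342342 3) (x 37)) (x 33)) (x 21)) (x 20)) (x 29)) (x 44)) (x 28))
  (n (n (n (n (n (n (n (l 0 1615656 65) (x 37)) (x 33)) (x 21)) (x 20)) (x 29)) (n (n (n (n (n (l 2
  1615656 65) (x 37)) (x 33)) (x 21)) (x 20)) (x 29))) (x 28))) (n (x 10) (n (n (n (n (n (n (n (l 5
  1615656 65) (x 37)) (x 34)) (x 21)) (x 20)) (x 30)) (n (n (n (n (n (l 5 808241 97) (x 37)) (x 34))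
  (x 21)) (x 20)) (x 30))) (n (x 18) (n (n (n (n (n (l 4 1325450 60) (x 38)) (x 34)) (x 21)) (x 20))
  (n (n (n (n (l 9 1615656 65) (x 38)) (x 34)) (x 21)) (x 20))))))) (n (x 8) (n (x 9) (n (x 16) (n (x
  17) (n (n (n (n (n (l 4 1149834 115) (x 38)) (x 34)) (x 22)) (n (n (n (l 5 116081 126) (x 54)) (x
  50)) (n (n (l 5 1614179 55) (x 57)) (x 56)))) (n (n (n (n (l 4 1156008 6) (x 38)) (x 34)) (x 22)) (n
  (n (n (l 5 639093 4) (x 54)) (x 50)) (n (n (l 2 1150289 15) (x 58)) (n (l 5 856366 15) (l 4 342384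
  1))))))))))))))))

/-- Subtree. -/
def t16 : T :=
  (x 0)

/-- Subtree. -/
def t17 : T :=
  (x 1)

/-- Subtree. -/
def t18 : T :=
  (n (n (n (n (n (n (n (n (n (n (n (n (n (n (n (l 10 1075921 64) (l 4 1075921 64)) (n (x 58) (l 9
  859488 14))) (n (x 50) (n (x 54) (l 6 1738835 119)))) (n (x 22) (n (x 34) (n (x 38) (l 8 859460
  113))))) (x 29)) (x 17)) (x 16)) (n (n (n (n (n (x 48) (n (x 49) (n (x 54) (l 9 1419313 6)))) (n (x
  22) (n (x 34) (n (x 38) (l 4 859460 113))))) (x 29)) (x 17)) (x 16))) (n (x 10) (n (n (n (n (x 32)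
  (n (x 22) (n (x 33) (n (x 38) (l 10 859460 113))))) (x 30)) (x 17)) (x 16)))) (n (x 8) (n (x 9) (n
  (n (n (n (x 20) (n (x 21) (n (x 33) (n (x 38) (l 8 1330259 103))))) (x 30)) (x 18)) (n (n (n (x 20)
  (n (x 21) (n (x 33) (n (x 37) (l 6 177457 126))))) (x 46)) (n (n (x 20) (n (x 21) (n (x 33) (n (x
  37) (l 3 1247953 96))))) (n (x 20) (n (x 21) (n (x 33) (n (x 37) (l 10 1247953 96))))))))))) (x 25))
  (x 13)) (x 12)) (n (n (n (n (n (n (n (n (n (n (n (n (n (l 5 342384 127) (l 5 1590106 23)) (x 49)) (x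
  48)) (n (x 22) (x 48))) (x 29)) (x 17)) (x 16)) (n (n (n (n (n (n (n (l 5 1126965 0) (l 2 859488
  14)) (x 50)) (n (n (x 54) (l 5 656110 31)) (n (x 54) (l 4 141169 65)))) (n (x 22) (n (x 34) (n (x
  38) (l 4 868721 14))))) (x 29)) (x 17)) (x 16))) (n (x 10) (n (n (n (n (x 32) (n (x 22) (n (x 33) (n
  (x 38) (l 3 859460 113))))) (x 30)) (x 17)) (x 16)))) (n (x 8) (n (x 9) (n (n (n (n (x 20) (n (x 21)
  (n (x 33) (n (x 38) (l 6 156506 55))))) (x 30)) (x 18)) (n (n (n (x 20) (n (x 21) (n (x 33) (n (x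
  37) (l 3 177457 126))))) (x 46)) (n (n (x 20) (n (x 21) (n (x 33) (n (x 37) (l 1 953617 15))))) (n
  (x 20) (n (x 21) (n (x 33) (n (x 37) (l 5 342342 126))))))))))) (x 25)) (x 13)) (x 12))) (n (x 6) (n
  (n (n (n (n (n (n (n (n (n (n (n (n (l 5 1075018 60) (l 5 859488 14)) (x 33)) (x 48)) (x 32)) (x
  29)) (x 17)) (x 16)) (n (n (n (n (n (n (n (l 1 1742020 30) (l 0 859488 14)) (x 33)) (n (n (x 54) (l
  5 1512644 30)) (x 33))) (x 32)) (x 29)) (x 17)) (x 16))) (n (x 10) (n (n (n (n (n (n (n (l 9 1064273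
  64) (l 4 584451 28)) (x 34)) (n (n (x 54) (l 10 584451 28)) (x 34))) (n (x 22) (n (n (x 38) (l 8
  1063818 60)) (n (x 38) (l 6 1512644 30))))) (x 30)) (x 17)) (x 16)))) (n (x 8) (n (x 9) (n (n (n (n
  (x 20) (n (x 21) (n (n (x 38) (l 10 1411466 115)) (n (x 38) (l 3 1411466 115))))) (x 30)) (x 18)) (n
  (n (n (x 20) (n (x 21) (n (n (x 37) (l 5 584451 28)) (n (x 37) (l 1 1705802 28))))) (x 46)) (n (n (x
  20) (n (x 21) (n (n (x 37) (l 5 1412369 15)) (n (x 37) (l 0 1412369 15))))) (n (x 20) (n (x 21) (n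
  (x 56) (n (x 37) (l 5 1247050 28))))))))))) (x 26)) (x 13)) (x 12))))

/-- Subtree. -/
def t19 : T :=
  (n (x 4) (n (x 5) (n (n (n (n (n (n (n (n (n (n (n (n (n (l 4 1591891 103) (l 10 1591891 103)) (x
  33)) (x 21)) (x 20)) (x 29)) (x 17)) (x 16)) (n (n (n (n (n (n (n (l 3 1628186 88) (l 4 1615397 60))
  (x 33)) (x 21)) (x 20)) (x 29)) (x 17)) (x 16))) (n (x 10) (n (n (n (n (n (n (n (l 6 1443722 28) (l
  8 584451 28)) (x 34)) (x 21)) (x 20)) (x 30)) (x 17)) (x 16)))) (n (x 8) (n (x 9) (n (n (n (n (n (n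
  (n (l 8 1237656 15) (l 7 1237656 15)) (x 34)) (x 22)) (n (n (n (x 38) (l 8 481306 56)) (x 50)) (n (n
  (x 38) (l 4 1512644 30)) (n (x 38) (l 4 1523921 112))))) (x 30)) (x 18)) (n (n (n (x 36) (n (n (n (x
  37) (l 4 481306 56)) (x 50)) (n (n (x 37) (l 0 1237656 15)) (n (x 37) (l 0 452634 56))))) (x 46)) (n
  (n (x 36) (n (x 52) (n (n (x 37) (l 2 1237656 15)) (n (x 37) (l 0 1466577 112))))) (n (x 36) (n (x
  52) (n (x 56) (n (x 37) (l 4 215635 71))))))))))) (x 26)) (x 14)) (n (n (n (n (n (n (n (n (n (n (n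
  (n (l 9 342384 127) (x 37)) (x 33)) (x 21)) (x 20)) (x 29)) (x 17)) (x 16)) (n (n (n (n (n (n (n (l
  6 870961 6) (x 37)) (x 33)) (x 21)) (x 20)) (x 29)) (x 17)) (x 16))) (n (x 10) (n (n (n (n (n (n (n
  (l 9 584472 96) (x 37)) (x 34)) (x 21)) (x 20)) (x 30)) (x 17)) (x 16)))) (n (x 8) (n (x 9) (n (n (n
  (n (n (n (n (l 4 1237656 15) (x 37)) (x 34)) (x 22)) (x 36)) (x 30)) (x 18)) (n (n (n (n (n (n (l 10
  1237656 15) (x 38)) (x 34)) (x 22)) (n (n (n (l 8 108913 126) (l 10 481306 56)) (x 50)) (n (n (x 54)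
  (l 5 1237656 15)) (n (x 54) (l 5 452634 56))))) (x 46)) (n (n (n (x 52) (x 22)) (n (x 52) (n (n (x
  53) (l 5 277669 55)) (n (x 53) (l 1 871297 2))))) (n (n (x 52) (x 22)) (n (x 52) (n (x 56) (n (x 53)
  (l 9 445459 68))))))))))) (x 42)) (n (n (n (n (n (n (n (n (n (n (n (l 6 1215697 96) (x 37)) (x 33))
  (x 21)) (x 20)) (x 29)) (x 17)) (x 16)) (n (n (n (n (n (n (n (l 3 870961 6) (x 37)) (x 33)) (x 21))
  (x 20)) (x 29)) (x 17)) (x 16))) (n (x 10) (n (n (n (n (n (n (n (l 4 809102 30) (x 37)) (x 34)) (x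
  21)) (x 20)) (x 30)) (x 17)) (x 16)))) (n (x 8) (n (x 9) (n (n (n (n (n (n (n (l 4 1214094 97) (x
  37)) (x 34)) (x 22)) (x 36)) (x 30)) (x 18)) (n (n (n (n (n (n (l 3 1237656 15) (x 38)) (x 34)) (x
  22)) (n (n (n (l 6 1237656 15) (x 53)) (x 50)) (x 52))) (x 46)) (n (n (n (n (n (l 6 584472 96) (x
  38)) (x 34)) (x 22)) (n (n (n (l 3 584472 96) (x 54)) (x 50)) (n (n (l 4 558894 31) (l 4 791854 96))
  (n (x 58) (l 3 813841 31))))) (n (n (n (x 56) (x 34)) (x 22)) (n (n (x 56) (x 50)) (n (x 56) (n (x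
  57) (l 6 1237201 112))))))))))) (n (n (n (n (n (n (n (n (n (n (l 8 859180 115) (x 37)) (x 33)) (x
  21)) (x 20)) (x 29)) (x 17)) (x 16)) (n (n (n (n (n (n (n (l 4 859180 115) (x 37)) (x 33)) (x 21))
  (x 20)) (x 29)) (x 17)) (x 16))) (n (x 10) (n (n (n (n (n (n (n (l 10 859180 115) (x 37)) (x 34)) (x
  21)) (x 20)) (x 30)) (x 17)) (x 16)))) (n (x 8) (n (x 9) (n (n (n (n (n (n (n (l 8 183379 71) (x
  37)) (x 34)) (x 22)) (x 36)) (x 30)) (x 18)) (n (n (n (n (n (n (l 6 1615656 65) (x 38)) (x 34)) (x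
  22)) (n (n (n (l 9 183386 59) (x 53)) (x 50)) (x 52))) (x 46)) (n (n (n (n (n (l 3 1156008 6) (x
  38)) (x 34)) (x 22)) (n (n (n (l 1 641928 125) (x 54)) (x 50)) (n (n (l 5 44261 72) (x 57)) (x
  56)))) (n (n (n (n (l 10 1156008 6) (x 38)) (x 34)) (x 22)) (n (n (n (l 5 190547 71) (x 54)) (x 50))
  (n (n (l 5 1237201 112) (x 58)) (n (l 10 219219 71) (l 8 342384 1))))))))))))))))

/-- Subtree. -/
def t20 : T :=
  (n (n (n (n (n (n (n (n (n (n (n (n (n (n (n (l 8 342384 127) (l 10 219219 120)) (n (x 58) (l 5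
  1237201 7))) (n (x 50) (n (x 54) (l 5 190547 120)))) (n (x 22) (n (x 34) (n (x 38) (l 10 1156008
  120))))) (n (n (n (x 56) (n (x 57) (l 5 44261 119))) (n (x 50) (n (x 54) (l 1 641928 3)))) (n (x 22)
  (n (x 34) (n (x 38) (l 3 1156008 120)))))) (n (x 46) (n (n (x 52) (n (x 50) (n (x 53) (l 9 183386
  4)))) (n (x 22) (n (x 34) (n (x 38) (l 6 1615656 63))))))) (n (x 18) (n (x 30) (n (x 36) (n (x 22)
  (n (x 34) (n (x 37) (l 8 183379 120)))))))) (x 9)) (x 8)) (n (n (n (x 16) (n (x 17) (n (x 30) (n (x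
  20) (n (x 21) (n (x 34) (n (x 37) (l 10 859180 8)))))))) (x 10)) (n (n (x 16) (n (x 17) (n (x 29) (n
  (x 20) (n (x 21) (n (x 33) (n (x 37) (l 4 859180 8)))))))) (n (x 16) (n (x 17) (n (x 29) (n (x 20)
  (n (x 21) (n (x 33) (n (x 37) (l 8 859180 8))))))))))) (n (n (n (n (n (n (n (n (n (n (l 6 1237201 7)
  (x 57)) (x 56)) (n (x 50) (x 56))) (n (x 22) (n (x 34) (x 56)))) (n (n (n (n (l 3 813841 64) (x 58))
  (n (l 4 791854 63) (l 4 558894 112))) (n (x 50) (n (x 54) (l 3 584472 30)))) (n (x 22) (n (x 34) (n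
  (x 38) (l 6 584472 30)))))) (n (x 46) (n (n (x 52) (n (x 50) (n (x 53) (l 6 1237656 113)))) (n (x
  22) (n (x 34) (n (x 38) (l 3 1237656 113))))))) (n (x 18) (n (x 30) (n (x 36) (n (x 22) (n (x 34) (n
  (x 37) (l 4 1214094 14)))))))) (x 9)) (x 8)) (n (n (n (x 16) (n (x 17) (n (x 30) (n (x 20) (n (x 21)
  (n (x 34) (n (x 37) (l 4 809102 65)))))))) (x 10)) (n (n (x 16) (n (x 17) (n (x 29) (n (x 20) (n (x
  21) (n (x 33) (n (x 37) (l 3 870961 125)))))))) (n (x 16) (n (x 17) (n (x 29) (n (x 20) (n (x 21) (n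
  (x 33) (n (x 37) (l 6 1215697 15)))))))))))) (n (x 42) (n (n (n (n (n (n (n (n (n (n (l 9 445459 63)
  (x 53)) (x 56)) (x 52)) (n (x 22) (x 52))) (n (n (n (n (l 1 871297 127) (x 53)) (n (l 5 277669 104)
  (x 53))) (x 52)) (n (x 22) (x 52)))) (n (x 46) (n (n (n (n (l 5 452634 67) (x 54)) (n (l 5 1237656
  113) (x 54))) (n (x 50) (n (l 10 481306 67) (l 8 108913 65)))) (n (x 22) (n (x 34) (n (x 38) (l 10
  1237656 113))))))) (n (x 18) (n (x 30) (n (x 36) (n (x 22) (n (x 34) (n (x 37) (l 4 1237656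
  113)))))))) (x 9)) (x 8)) (n (n (n (x 16) (n (x 17) (n (x 30) (n (x 20) (n (x 21) (n (x 34) (n (x
  37) (l 9 584472 30)))))))) (x 10)) (n (n (x 16) (n (x 17) (n (x 29) (n (x 20) (n (x 21) (n (x 33) (n
  (x 37) (l 6 870961 125)))))))) (n (x 16) (n (x 17) (n (x 29) (n (x 20) (n (x 21) (n (x 33) (n (x 37)
  (l 9 342384 1))))))))))))) (n (x 14) (n (x 26) (n (n (n (n (n (n (n (n (n (n (l 4 215635 120) (x
  37)) (x 56)) (x 52)) (x 36)) (n (n (n (n (l 0 1466577 7) (x 37)) (n (l 2 1237656 113) (x 37))) (x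
  52)) (x 36))) (n (x 46) (n (n (n (n (l 0 452634 67) (x 37)) (n (l 0 1237656 113) (x 37))) (n (x 50)
  (n (l 4 481306 67) (x 37)))) (x 36)))) (n (x 18) (n (x 30) (n (n (n (n (l 4 1523921 7) (x 38)) (n (l
  4 1512644 99) (x 38))) (n (x 50) (n (l 8 481306 67) (x 38)))) (n (x 22) (n (x 34) (n (l 7 1237656
  113) (l 8 1237656 113)))))))) (x 9)) (x 8)) (n (n (n (x 16) (n (x 17) (n (x 30) (n (x 20) (n (x 21)
  (n (x 34) (n (l 8 584451 97) (l 6 1443722 115)))))))) (x 10)) (n (n (x 16) (n (x 17) (n (x 29) (n (x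
  20) (n (x 21) (n (x 33) (n (l 4 1615397 71) (l 3 1628186 35)))))))) (n (x 16) (n (x 17) (n (x 29) (n
  (x 20) (n (x 21) (n (x 33) (n (l 10 1591891 56) (l 4 1591891 56)))))))))))))) (x 5)) (x 4))

/-- Subtree. -/
def t21 : T :=
  (n (n (n (x 12) (n (x 13) (n (x 26) (n (n (n (n (n (n (n (n (n (n (l 5 1247050 115) (x 37)) (x 56))
  (x 21)) (x 20)) (n (n (n (n (l 0 1412369 96) (x 37)) (n (l 5 1412369 96) (x 37))) (x 21)) (x 20)))
  (n (x 46) (n (n (n (n (l 1 1705802 115) (x 37)) (n (l 5 584451 97) (x 37))) (x 21)) (x 20)))) (n (x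
  18) (n (x 30) (n (n (n (n (l 3 1411466 28) (x 38)) (n (l 10 1411466 28) (x 38))) (x 21)) (x 20)))))
  (x 9)) (x 8)) (n (n (n (x 16) (n (x 17) (n (x 30) (n (n (n (n (l 6 1512644 99) (x 38)) (n (l 8
  1063818 99) (x 38))) (x 22)) (n (n (x 34) (n (l 10 584451 97) (x 54))) (n (x 34) (n (l 4 584451 97)
  (l 9 1064273 31)))))))) (x 10)) (n (n (x 16) (n (x 17) (n (x 29) (n (x 32) (n (n (x 33) (n (l 5
  1512644 99) (x 54))) (n (x 33) (n (l 0 859488 112) (l 1 1742020 99)))))))) (n (x 16) (n (x 17) (n (x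
  29) (n (x 32) (n (x 48) (n (x 33) (n (l 5 859488 112) (l 5 1075018 99)))))))))))))) (x 6)) (n (n (x
  12) (n (x 13) (n (x 25) (n (n (n (n (n (n (n (n (n (n (l 5 342342 3) (x 37)) (x 33)) (x 21)) (x 20))
  (n (n (n (n (l 1 953617 96) (x 37)) (x 33)) (x 21)) (x 20))) (n (x 46) (n (n (n (n (l 3 177457 65)
  (x 37)) (x 33)) (x 21)) (x 20)))) (n (x 18) (n (x 30) (n (n (n (n (l 6 156506 8) (x 38)) (x 33)) (x
  21)) (x 20))))) (x 9)) (x 8)) (n (n (n (x 16) (n (x 17) (n (x 30) (n (n (n (n (l 3 859460 12) (x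
  38)) (x 33)) (x 22)) (x 32))))) (x 10)) (n (n (x 16) (n (x 17) (n (x 29) (n (n (n (n (l 4 868721
  121) (x 38)) (x 34)) (x 22)) (n (n (n (l 4 141169 126) (x 54)) (n (l 5 656110 112) (x 54))) (n (x
  50) (n (l 2 859488 112) (l 5 1126965 123)))))))) (n (x 16) (n (x 17) (n (x 29) (n (n (x 48) (x 22))
  (n (x 48) (n (x 49) (n (l 5 1590106 72) (l 5 342384 1)))))))))))))) (n (x 12) (n (x 13) (n (x 25) (n
  (n (n (n (n (n (n (n (n (n (l 10 1247953 15) (x 37)) (x 33)) (x 21)) (x 20)) (n (n (n (n (l 3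
  1247953 15) (x 37)) (x 33)) (x 21)) (x 20))) (n (x 46) (n (n (n (n (l 6 177457 65) (x 37)) (x 33))
  (x 21)) (x 20)))) (n (x 18) (n (x 30) (n (n (n (n (l 8 1330259 56) (x 38)) (x 33)) (x 21)) (x
  20))))) (x 9)) (x 8)) (n (n (n (x 16) (n (x 17) (n (x 30) (n (n (n (n (l 10 859460 12) (x 38)) (x
  33)) (x 22)) (x 32))))) (x 10)) (n (n (x 16) (n (x 17) (n (x 29) (n (n (n (n (l 4 859460 12) (x 38))
  (x 34)) (x 22)) (n (n (n (l 9 1419313 125) (x 54)) (x 49)) (x 48)))))) (n (x 16) (n (x 17) (n (x 29)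
  (n (n (n (n (l 8 859460 12) (x 38)) (x 34)) (x 22)) (n (n (n (l 6 1738835 24) (x 54)) (x 50)) (n (n
  (l 9 859488 112) (x 58)) (n (l 4 1075921 31) (l 10 1075921 31))))))))))))))))

/-- Subtree. -/
def t22 : T :=
  (x 1)

/-- Subtree. -/
def t23 : T :=
  (x 0)

/-- Subtree. -/
def t24 : T :=
  (n (n (n (n (n (n (n (n (n (n (n (n (n (n (n (l 4 342384 127) (l 5 856366 120)) (n (x 58) (l 2
  1150289 96))) (n (x 50) (n (x 54) (l 5 639093 115)))) (n (x 22) (n (x 34) (n (x 38) (l 4 1156008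
  120))))) (n (n (n (x 56) (n (x 57) (l 5 1614179 64))) (n (x 50) (n (x 54) (l 5 116081 65)))) (n (x
  22) (n (x 34) (n (x 38) (l 4 1149834 28)))))) (x 17)) (x 16)) (x 9)) (x 8)) (n (n (n (n (n (n (x 20)
  (n (x 21) (n (x 34) (n (x 38) (l 9 1615656 63))))) (n (x 20) (n (x 21) (n (x 34) (n (x 38) (l 4
  1325450 99)))))) (x 18)) (n (n (x 30) (n (x 20) (n (x 21) (n (x 34) (n (x 37) (l 5 808241 62))))))
  (n (x 30) (n (x 20) (n (x 21) (n (x 34) (n (x 37) (l 5 1615656 63)))))))) (x 10)) (n (n (x 28) (n (n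
  (x 29) (n (x 20) (n (x 21) (n (x 33) (n (x 37) (l 2 1615656 63)))))) (n (x 29) (n (x 20) (n (x 21)
  (n (x 33) (n (x 37) (l 0 1615656 63)))))))) (n (x 28) (n (x 44) (n (x 29) (n (x 20) (n (x 21) (n (x
  33) (n (x 37) (l 4 342342 126))))))))))) (n (n (n (n (n (n (n (n (n (n (l 9 1455216 124) (x 57)) (x
  56)) (n (x 50) (x 56))) (n (x 22) (n (x 34) (x 56)))) (n (n (n (n (l 6 1741852 28) (x 58)) (n (l 9
  1237656 113) (l 4 584472 30))) (n (x 50) (n (x 54) (l 10 584472 30)))) (n (x 22) (n (x 34) (n (x 38)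
  (l 8 1149834 28)))))) (x 17)) (x 16)) (x 9)) (x 8)) (n (n (n (n (n (n (x 20) (n (x 21) (n (x 34) (x
  56)))) (n (x 20) (n (x 21) (n (x 34) (n (x 38) (l 10 1325450 99)))))) (x 18)) (n (n (x 30) (n (x 20)
  (n (x 21) (n (x 34) (n (x 37) (l 5 584472 30)))))) (n (x 30) (n (x 20) (n (x 21) (n (x 34) (n (x 37)
  (l 5 1326353 31)))))))) (x 10)) (n (n (x 28) (n (n (x 29) (n (x 20) (n (x 21) (n (x 33) (n (x 37) (l
  5 1369116 44)))))) (n (x 29) (n (x 20) (n (x 21) (n (x 33) (n (x 37) (l 1 926597 4)))))))) (n (x 28)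
  (n (x 44) (n (x 29) (n (x 20) (n (x 21) (n (x 33) (n (x 37) (l 9 1337098 99)))))))))))) (x 13)) (x
  12)) (x 5)) (x 4))

/-- Subtree. -/
def t25 : T :=
  (n (n (n (n (n (n (n (n (n (n (n (n (l 4 331107 0) (l 5 71596 7)) (n (x 58) (l 5 1454474 12))) (x
  21)) (x 20)) (n (n (n (x 56) (n (x 57) (l 10 72933 119))) (x 21)) (x 20))) (x 17)) (x 16)) (x 9)) (x
  8)) (n (n (n (n (n (n (n (n (n (l 8 331107 0) (l 10 941136 7)) (n (x 58) (l 4 941136 7))) (x 22)) (n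
  (n (x 34) (n (x 38) (l 9 481488 64))) (n (x 34) (n (x 38) (l 6 1525265 120))))) (n (n (n (x 56) (n
  (x 57) (l 8 941136 7))) (x 22)) (n (n (x 34) (n (x 38) (l 6 1148273 30))) (n (x 34) (n (x 38) (l 3
  1525265 120)))))) (x 18)) (n (n (x 30) (n (x 36) (n (n (x 34) (n (x 37) (l 9 941122 123))) (n (x 34)
  (n (x 37) (l 1 1467011 14)))))) (n (x 30) (n (x 36) (n (x 52) (n (x 34) (n (x 37) (l 5 830508
  8)))))))) (x 10)) (n (n (x 28) (n (n (x 29) (n (x 32) (n (n (x 33) (n (x 37) (l 4 90853 111))) (n (x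
  33) (n (x 37) (l 0 467299 32)))))) (n (x 29) (n (x 32) (n (x 52) (n (x 33) (n (x 37) (l 0 830508
  8)))))))) (n (x 28) (n (x 44) (n (x 29) (n (x 32) (n (x 48) (n (x 33) (n (x 37) (l 4 352611
  16))))))))))) (n (n (n (n (n (n (n (n (n (n (l 4 1581923 7) (x 57)) (x 56)) (x 21)) (x 20)) (n (n (n
  (n (l 3 1587530 99) (x 58)) (n (l 6 1454474 12) (l 8 584472 30))) (x 21)) (x 20))) (x 17)) (x 16))
  (x 9)) (x 8)) (n (n (n (n (n (n (n (n (n (l 10 1754641 120) (x 57)) (x 56)) (x 22)) (n (n (x 34) (x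
  56)) (n (x 34) (x 56)))) (n (n (n (n (l 4 1754641 120) (x 58)) (n (l 8 1754641 120) (l 7 941136 7)))
  (x 22)) (n (n (x 34) (n (x 38) (l 8 481474 60))) (n (x 34) (n (x 38) (l 4 1512476 28)))))) (x 18))
  (n (n (x 30) (n (x 36) (n (n (x 34) (n (x 37) (l 4 481474 60))) (n (x 34) (n (x 37) (l 0 584472
  30)))))) (n (x 30) (n (x 36) (n (x 52) (n (x 34) (n (x 37) (l 2 584472 30)))))))) (x 10)) (n (n (x
  28) (n (n (x 29) (n (x 32) (n (n (x 33) (n (x 37) (l 4 467173 88))) (n (x 33) (n (x 37) (l 0 90979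
  23)))))) (n (x 29) (n (x 32) (n (x 52) (n (x 33) (n (x 37) (l 0 812140 83)))))))) (n (x 28) (n (x
  44) (n (x 29) (n (x 32) (n (x 48) (n (x 33) (n (x 37) (l 4 205667 39)))))))))))) (x 14))

/-- Subtree. -/
def t26 : T :=
  (n (n (x 26) (n (n (n (n (n (n (n (n (n (n (l 5 550508 12) (x 37)) (x 56)) (x 21)) (x 20)) (n (n (n
  (n (l 1 1628354 92) (x 37)) (n (l 9 584451 97) (x 37))) (x 21)) (x 20))) (x 17)) (x 16)) (x 9)) (x
  8)) (n (n (n (n (n (n (n (n (n (l 5 941136 7) (x 37)) (x 56)) (x 22)) (x 36)) (n (n (n (n (l 0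
  941136 7) (x 37)) (n (l 4 1237635 14) (x 37))) (x 22)) (x 36))) (x 18)) (n (n (x 30) (n (n (n (n (l
  5 481474 60) (x 38)) (n (l 10 1116017 113) (x 38))) (x 22)) (n (n (x 34) (n (l 8 797041 62) (l 10
  481474 60))) (n (x 34) (n (x 54) (l 5 1237635 14)))))) (n (x 30) (n (n (x 52) (x 22)) (n (x 52) (n
  (x 34) (n (x 53) (l 5 363685 23)))))))) (x 10)) (n (n (x 28) (n (n (x 29) (n (x 32) (n (n (x 33) (n
  (l 6 481474 60) (l 3 481474 60))) (n (x 33) (n (x 54) (l 1 105364 76)))))) (n (x 29) (n (x 32) (n (x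
  52) (n (x 33) (n (x 53) (l 0 722540 44)))))))) (n (x 28) (n (x 44) (n (x 29) (n (x 32) (n (x 48) (n
  (x 33) (n (x 53) (l 5 722540 44)))))))))))) (n (x 26) (n (n (n (n (n (n (n (n (n (n (l 2 1455216
  124) (x 37)) (x 56)) (x 21)) (x 20)) (n (n (n (n (l 0 1587985 31) (x 37)) (n (l 4 120974 62) (x
  37))) (x 21)) (x 20))) (x 17)) (x 16)) (x 9)) (x 8)) (n (n (n (n (n (n (n (n (n (l 5 1725969 120) (x
  37)) (x 56)) (x 22)) (x 36)) (n (n (n (n (l 0 1725969 120) (x 37)) (n (l 4 1224846 113) (x 37))) (x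
  22)) (x 36))) (x 18)) (n (n (x 30) (n (n (n (n (l 1 1267217 120) (x 38)) (n (l 3 1116017 113) (x
  38))) (x 22)) (n (n (x 34) (n (l 6 1237635 14) (x 53))) (x 52)))) (n (x 30) (n (n (n (n (l 3 122129
  63) (x 38)) (n (l 6 122129 63) (x 38))) (x 22)) (n (n (x 34) (n (l 3 584451 97) (x 54))) (n (x 34)
  (n (l 4 569646 15) (l 4 103726 64)))))))) (x 10)) (n (n (x 28) (n (n (x 29) (n (x 32) (n (n (x 33)
  (n (l 3 105637 72) (x 53))) (x 52)))) (n (x 29) (n (x 32) (n (n (x 33) (n (l 1 142429 119) (x 54)))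
  (n (x 33) (n (l 0 103852 56) (l 0 569772 119)))))))) (n (x 28) (n (x 44) (n (x 29) (n (x 32) (n (x
  48) (n (x 33) (n (l 5 1644069 71) (l 2 342384 1)))))))))))))

/-- Subtree. -/
def t27 : T :=
  (x 6)

/-- Subtree. -/
def t28 : T :=
  (n (n (x 24) (n (n (x 25) (n (n (n (n (n (n (n (n (n (n (l 5 1455216 124) (x 37)) (x 33)) (x 21)) (x
  20)) (n (n (n (n (l 5 670257 6) (x 37)) (x 33)) (x 21)) (x 20))) (x 17)) (x 16)) (x 9)) (x 8)) (n (n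
  (n (n (n (n (n (n (n (l 5 1583708 119) (x 37)) (x 33)) (x 22)) (x 32)) (n (n (n (n (l 2 941136 7) (x
  37)) (x 33)) (x 22)) (x 32))) (x 18)) (n (n (x 30) (n (n (n (n (l 5 1116878 14) (x 38)) (x 33)) (x
  22)) (x 32))) (n (x 30) (n (n (x 52) (x 22)) (x 32))))) (x 10)) (n (n (x 28) (n (n (x 29) (n (n (n
  (n (l 4 83573 3) (x 38)) (x 34)) (x 22)) (n (n (n (l 4 925813 4) (x 58)) (n (l 3 941122 123) (l 6
  941122 123))) (n (x 50) (n (x 54) (l 3 92764 103)))))) (n (x 29) (n (n (x 52) (x 22)) (n (x 52) (n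
  (x 50) (n (x 53) (l 1 207053 33)))))))) (n (x 28) (n (x 44) (n (x 29) (n (n (x 48) (x 22)) (n (x 48)
  (n (x 49) (n (x 53) (l 5 1455174 125)))))))))))) (n (x 25) (n (n (n (n (n (n (n (n (n (n (l 0
  1455216 124) (x 37)) (x 33)) (x 21)) (x 20)) (n (n (n (n (l 0 670257 6) (x 37)) (x 33)) (x 21)) (x
  20))) (x 17)) (x 16)) (x 9)) (x 8)) (n (n (n (n (n (n (n (n (n (l 1 571718 3) (x 37)) (x 33)) (x
  22)) (x 32)) (n (n (n (n (l 0 546609 97) (x 37)) (x 33)) (x 22)) (x 32))) (x 18)) (n (n (x 30) (n (n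
  (n (n (l 0 951601 30) (x 38)) (x 33)) (x 22)) (x 32))) (n (x 30) (n (n (n (n (l 1 658126 14) (x 38))
  (x 33)) (x 22)) (x 32))))) (x 10)) (n (n (x 28) (n (n (x 29) (n (n (n (n (l 0 926065 121) (x 38)) (x
  34)) (x 22)) (n (n (n (l 0 83825 126) (x 53)) (n (l 1 967694 2) (x 53))) (x 52)))) (n (x 29) (n (n
  (n (n (l 0 140917 3) (x 38)) (x 34)) (x 22)) (n (n (n (l 0 868469 4) (x 54)) (n (l 0 821429 99) (x
  54))) (n (x 50) (n (l 0 1054389 28) (l 0 1126965 123)))))))) (n (x 28) (n (x 44) (n (x 29) (n (n (x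
  48) (x 22)) (n (x 48) (n (x 49) (n (l 1 1225798 125) (l 0 342384 1)))))))))))))) (n (x 24) (n (x 40)
  (n (x 25) (n (n (n (n (n (n (n (n (n (n (l 4 1155973 121) (x 37)) (x 33)) (x 21)) (x 20)) (n (n (n
  (n (l 4 1167754 12) (x 37)) (x 33)) (x 21)) (x 20))) (x 17)) (x 16)) (x 9)) (x 8)) (n (n (n (n (n (n
  (n (n (n (l 9 1718794 4) (x 37)) (x 33)) (x 22)) (x 32)) (n (n (n (n (l 4 178570 67) (x 37)) (x 33))
  (x 22)) (x 32))) (x 18)) (n (n (x 30) (n (n (n (n (l 5 951601 30) (x 38)) (x 33)) (x 22)) (x 32)))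
  (n (x 30) (n (n (n (n (l 5 1615621 62) (x 38)) (x 33)) (x 22)) (x 32))))) (x 10)) (n (n (x 28) (n (n
  (x 29) (n (n (n (n (l 2 1156008 6) (x 38)) (x 34)) (x 22)) (n (n (n (l 5 1426446 2) (x 53)) (x 49))
  (x 48)))) (n (x 29) (n (n (n (n (l 0 1156008 6) (x 38)) (x 34)) (x 22)) (n (n (n (l 1 468741 94) (x
  54)) (x 49)) (x 48)))))) (n (x 28) (n (x 44) (n (x 29) (n (n (n (n (l 4 342062 124) (x 38)) (x 34))
  (x 22)) (n (n (n (l 3 354851 24) (x 54)) (x 50)) (n (n (l 6 1170442 4) (x 58)) (n (l 3 1170442 4) (l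
  4 1155637 123)))))))))))))))

/-- Subtree. -/
def t29 : T :=
  (x 2)

/-- Subtree. -/
def t30 : T :=
  (n (n (n (n (n (n (n (n (n (n (n (n (n (n (n (l 10 342384 127) (l 5 217882 8)) (n (x 58) (l 5 479388
  63))) (n (x 50) (n (x 54) (l 10 144753 65)))) (n (x 22) (n (x 34) (n (x 38) (l 8 1156008 120))))) (x
  29)) (x 17)) (x 16)) (x 9)) (x 8)) (n (n (n (n (n (n (x 20) (n (x 21) (n (x 34) (n (x 38) (l 6
  479388 63))))) (x 29)) (x 18)) (x 28)) (x 10)) (n (n (n (n (n (x 20) (n (x 21) (n (x 33) (n (x 38)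
  (l 9 1070321 62))))) (x 30)) (x 18)) (n (n (n (x 20) (n (x 21) (n (x 33) (n (x 37) (l 4 171290
  16))))) (n (x 20) (n (x 21) (n (x 33) (n (x 37) (l 5 427427 71)))))) (n (x 46) (n (x 20) (n (x 21)
  (n (x 33) (n (x 37) (l 5 1155973 4)))))))) (n (n (x 44) (x 18)) (n (x 44) (n (x 45) (n (x 20) (n (x
  21) (n (x 33) (n (x 37) (l 10 429212 55))))))))))) (x 25)) (x 13)) (x 12)) (x 5)) (x 4))

/-- Subtree. -/
def t31 : T :=
  (n (n (n (n (n (n (n (n (n (n (n (n (n (n (l 3 342384 127) (l 1 481488 64)) (n (x 58) (l 5 146062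
  62))) (x 21)) (x 20)) (x 29)) (x 17)) (x 16)) (x 9)) (x 8)) (n (n (n (n (n (n (n (n (n (l 6 941136
  7) (l 3 941136 7)) (n (x 58) (l 4 918645 99))) (x 22)) (n (n (x 34) (n (x 38) (l 4 542325 28))) (n
  (x 34) (n (x 38) (l 3 547932 120))))) (x 29)) (x 18)) (x 28)) (x 10)) (n (n (n (n (n (x 32) (n (n (x
  33) (n (x 38) (l 5 1059534 65))) (n (x 33) (n (x 38) (l 1 630084 113))))) (x 30)) (x 18)) (n (n (n
  (x 32) (n (n (x 33) (n (x 37) (l 2 481488 64))) (n (x 33) (n (x 37) (l 0 545699 8))))) (n (x 32) (n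
  (n (x 33) (n (x 37) (l 5 1641052 56))) (n (x 33) (n (x 37) (l 0 427427 71)))))) (n (x 46) (n (x 32)
  (n (x 52) (n (x 33) (n (x 37) (l 1 723548 88)))))))) (n (n (x 44) (x 18)) (n (x 44) (n (x 45) (n (x
  32) (n (x 48) (n (x 33) (n (x 37) (l 3 429212 55))))))))))) (x 25)) (x 14)) (x 24)) (x 6))

/-- Subtree. -/
def t32 : T :=
  (n (n (n (n (n (n (n (n (n (n (n (n (l 6 1455216 124) (l 9 153265 65)) (x 33)) (x 21)) (x 20)) (x
  29)) (x 17)) (x 16)) (x 9)) (x 8)) (n (n (n (n (n (n (n (n (n (l 3 481488 64) (l 6 481488 64)) (x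
  33)) (x 22)) (x 32)) (x 29)) (x 18)) (x 28)) (x 10)) (n (n (n (n (n (n (n (n (l 10 481488 64) (l 8
  854385 113)) (x 34)) (x 22)) (n (n (n (x 38) (l 10 1058673 62)) (n (x 38) (l 5 481488 64))) (n (x
  50) (n (x 38) (l 5 1266195 119))))) (x 30)) (x 18)) (n (n (n (x 36) (n (n (n (x 37) (l 4 1237523
  119)) (n (x 37) (l 0 481488 64))) (n (x 50) (n (x 37) (l 0 56602 32))))) (n (x 36) (n (n (x 56) (n
  (x 37) (l 5 941122 123))) (n (x 50) (n (x 37) (l 1 92491 99)))))) (n (x 46) (n (x 36) (n (x 52) (n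
  (x 50) (n (x 37) (l 3 55699 92)))))))) (n (n (x 44) (x 18)) (n (x 44) (n (x 45) (n (x 36) (n (x 48)
  (n (x 49) (n (x 37) (l 6 206444 35))))))))))) (x 26)) (x 14))

/-- Subtree. -/
def t33 : T :=
  (n (n (n (n (n (n (n (n (n (n (n (n (l 8 203546 16) (x 37)) (x 33)) (x 21)) (x 20)) (x 29)) (x 17))
  (x 16)) (x 9)) (x 8)) (n (n (n (n (n (n (n (n (n (l 4 460005 63) (x 37)) (x 33)) (x 22)) (x 32)) (x
  29)) (x 18)) (x 28)) (x 10)) (n (n (n (n (n (n (n (n (l 4 481488 64) (x 37)) (x 34)) (x 22)) (x 36))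
  (x 30)) (x 18)) (n (n (n (n (n (n (l 8 481488 64) (x 38)) (x 34)) (x 22)) (n (n (n (l 7 641928 125)
  (l 8 1754753 1)) (n (x 58) (l 4 1754753 1))) (n (x 50) (n (x 54) (l 4 1740956 111))))) (n (n (n (x
  56) (x 34)) (x 22)) (n (n (x 56) (n (x 57) (l 10 1754753 1))) (n (x 50) (n (x 54) (l 3 1754753
  1)))))) (n (x 46) (n (n (x 52) (x 22)) (n (x 52) (n (x 50) (n (x 53) (l 6 641921 2)))))))) (n (n (x
  44) (x 18)) (n (x 44) (n (x 45) (n (n (x 48) (x 22)) (n (x 48) (n (x 49) (n (x 53) (l 8 1579802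
  80))))))))))) (n (n (n (n (n (n (n (n (n (n (l 10 641585 6) (x 37)) (x 33)) (x 21)) (x 20)) (x 29))
  (x 17)) (x 16)) (x 9)) (x 8)) (n (n (n (n (n (n (n (n (n (l 4 549605 112) (x 37)) (x 33)) (x 22)) (x
  32)) (x 29)) (x 18)) (x 28)) (x 10)) (n (n (n (n (n (n (n (n (l 9 941136 7) (x 37)) (x 34)) (x 22))
  (x 36)) (x 30)) (x 18)) (n (n (n (n (n (n (l 6 1155441 121) (x 38)) (x 34)) (x 22)) (n (n (n (l 8
  941122 123) (x 57)) (x 56)) (n (x 50) (x 56)))) (n (n (n (n (l 9 481474 60) (x 38)) (x 34)) (x 22))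
  (n (n (n (l 4 941122 123) (x 58)) (n (l 10 941122 123) (l 8 273763 79))) (n (x 50) (n (x 54) (l 6
  1754753 1)))))) (n (x 46) (n (n (x 52) (x 22)) (n (x 52) (n (x 50) (n (x 53) (l 3 641921 2))))))))
  (n (n (x 44) (x 18)) (n (x 44) (n (x 45) (n (n (x 48) (x 22)) (n (x 48) (n (x 49) (n (x 53) (l 10
  641921 2)))))))))))) (n (x 42) (n (n (n (n (n (n (n (n (n (n (l 4 641585 6) (x 37)) (x 33)) (x 21))
  (x 20)) (x 29)) (x 17)) (x 16)) (x 9)) (x 8)) (n (n (n (n (n (n (n (n (n (l 3 629804 115) (x 37)) (x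
  33)) (x 22)) (x 32)) (x 29)) (x 18)) (x 28)) (x 10)) (n (n (n (n (n (n (n (n (l 6 1466899 119) (x
  37)) (x 34)) (x 22)) (x 36)) (x 30)) (x 18)) (n (n (n (n (n (n (l 3 1320753 62) (x 38)) (x 34)) (x
  22)) (n (n (n (l 4 1455118 2) (x 53)) (x 56)) (x 52))) (n (n (n (n (l 1 1525377 1) (x 38)) (x 34))
  (x 22)) (n (n (n (l 0 641928 125) (x 53)) (n (l 5 1754753 1) (x 53))) (x 52)))) (n (x 46) (n (n (n
  (n (l 5 370734 124) (x 38)) (x 34)) (x 22)) (n (n (n (l 2 641928 125) (x 54)) (n (l 5 821429 99) (x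
  54))) (n (x 50) (n (l 4 46508 56) (l 4 627116 119)))))))) (n (n (x 44) (x 18)) (n (x 44) (n (x 45)
  (n (n (x 48) (x 22)) (n (x 48) (n (x 49) (n (l 9 1754753 1) (l 4 641921 2)))))))))))))

/-- Subtree. -/
def t34 : T :=
  (n (n (x 40) (x 14)) (n (x 40) (n (x 41) (n (n (n (n (n (n (n (n (n (n (l 8 641585 6) (x 37)) (x
  33)) (x 21)) (x 20)) (x 29)) (x 17)) (x 16)) (x 9)) (x 8)) (n (n (n (n (n (n (n (n (n (l 6 461468
  55) (x 37)) (x 33)) (x 22)) (x 32)) (x 29)) (x 18)) (x 28)) (x 10)) (n (n (n (n (n (n (n (n (l 9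
  1156008 6) (x 37)) (x 34)) (x 22)) (x 36)) (x 30)) (x 18)) (n (n (n (n (n (n (l 4 1318170 80) (x
  38)) (x 34)) (x 22)) (n (n (n (l 10 1318170 80) (x 53)) (x 49)) (x 48))) (n (n (n (n (l 5 284067 87)
  (x 38)) (x 34)) (x 22)) (n (n (n (l 5 641928 125) (x 53)) (x 49)) (x 48)))) (n (x 46) (n (n (n (n (l
  5 1156008 6) (x 38)) (x 34)) (x 22)) (n (n (n (l 5 1317267 44) (x 54)) (x 49)) (x 48)))))) (n (n (x
  44) (x 18)) (n (x 44) (n (x 45) (n (n (n (n (l 10 285852 39) (x 38)) (x 34)) (x 22)) (n (n (n (l 4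
  285852 39) (x 54)) (x 50)) (n (n (l 9 641928 125) (x 58)) (n (l 6 1508122 104) (l 8 641921
  2))))))))))))))

/-- Subtree. -/
def t35 : T :=
  (n (n (n (n (n (n (n (n (n (n (n (n (n (n (n (l 8 1509585 15) (l 4 1509585 15)) (n (x 58) (l 4
  1512672 97))) (n (x 50) (n (x 54) (l 8 1512672 97)))) (n (x 22) (n (x 34) (n (x 38) (l 7 1512672
  97))))) (x 29)) (x 17)) (x 16)) (x 9)) (x 8)) (n (n (n (n (n (n (x 20) (n (x 21) (n (x 34) (n (x 38)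
  (l 8 584227 99))))) (x 29)) (x 18)) (x 28)) (x 10)) (n (n (n (n (n (x 20) (n (x 21) (n (x 33) (n (x
  38) (l 4 1615621 67))))) (x 30)) (x 18)) (n (n (n (x 20) (n (x 21) (n (x 33) (n (x 37) (l 4 1626394
  39))))) (x 45)) (x 44))) (n (n (n (n (x 20) (n (x 21) (n (x 33) (n (x 38) (l 10 1706579 24))))) (x
  30)) (x 18)) (n (n (n (x 20) (n (x 21) (n (x 33) (n (x 37) (l 3 1706579 24))))) (x 46)) (n (n (x 20)
  (n (x 21) (n (x 33) (n (x 37) (l 6 169379 24))))) (n (x 20) (n (x 21) (n (x 33) (n (x 37) (l 8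
  1337553 31))))))))))) (x 25)) (x 13)) (x 12)) (x 5)) (x 4))

/-- Subtree. -/
def t36 : T :=
  (n (n (n (n (n (n (n (n (n (n (n (n (n (n (l 6 342384 127) (l 3 1512672 97)) (n (x 58) (l 10 1512672
  97))) (x 21)) (x 20)) (x 29)) (x 17)) (x 16)) (x 9)) (x 8)) (n (n (n (n (n (n (n (n (n (l 9 146321
  63) (l 6 1512672 97)) (n (x 58) (l 8 146314 67))) (x 22)) (n (n (x 34) (n (x 38) (l 10 584227 99)))
  (n (x 34) (n (x 38) (l 4 584227 99))))) (x 29)) (x 18)) (x 28)) (x 10)) (n (n (n (n (n (x 32) (n (n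
  (x 33) (n (x 38) (l 5 1512672 97))) (n (x 33) (n (x 38) (l 0 1512672 97))))) (x 30)) (x 18)) (n (n
  (n (x 32) (n (n (x 33) (n (x 37) (l 5 727587 83))) (n (x 33) (n (x 37) (l 0 727587 83))))) (x 45))
  (x 44))) (n (n (n (n (x 32) (n (x 48) (n (x 33) (n (x 38) (l 5 859460 113))))) (x 30)) (x 18)) (n (n
  (n (x 32) (n (x 48) (n (x 33) (n (x 37) (l 1 428435 51))))) (x 46)) (n (n (x 32) (n (x 48) (n (x 33)
  (n (x 37) (l 3 214858 67))))) (n (x 32) (n (x 48) (n (x 33) (n (x 37) (l 6 214858 67))))))))))) (x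
  25)) (x 14)) (x 24)) (x 6))

/-- Subtree. -/
def t37 : T :=
  (n (n (n (n (n (n (n (n (n (n (n (n (n (l 3 1455216 124) (l 6 859488 14)) (x 33)) (x 21)) (x 20)) (x
  29)) (x 17)) (x 16)) (x 9)) (x 8)) (n (n (n (n (n (n (n (n (n (l 1 941136 7) (l 3 859488 14)) (x
  33)) (x 22)) (x 32)) (x 29)) (x 18)) (x 28)) (x 10)) (n (n (n (n (n (n (n (n (l 5 78638 127) (l 4
  854385 113)) (x 34)) (x 22)) (n (n (n (x 38) (l 4 1058673 62)) (n (x 38) (l 5 541422 96))) (n (x 50)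
  (n (x 38) (l 2 1512672 97))))) (x 30)) (x 18)) (n (n (n (x 36) (n (n (n (x 37) (l 3 1056090 80)) (n
  (x 37) (l 1 1170498 123))) (n (x 50) (n (x 37) (l 0 1741082 23))))) (x 45)) (x 44))) (n (n (n (n (n
  (x 48) (x 22)) (n (x 48) (n (x 49) (n (x 38) (l 5 1704794 104))))) (x 30)) (x 18)) (n (n (n (x 36)
  (n (x 48) (n (x 49) (n (x 37) (l 0 1704794 104))))) (x 46)) (n (n (x 36) (n (x 48) (n (x 49) (n (x
  37) (l 1 1428490 4))))) (n (x 36) (n (x 48) (n (x 49) (n (x 37) (l 3 1346842 47))))))))))) (x 26))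
  (x 14)) (n (n (n (n (n (n (n (n (n (n (n (n (l 10 1455216 124) (x 37)) (x 33)) (x 21)) (x 20)) (x
  29)) (x 17)) (x 16)) (x 9)) (x 8)) (n (n (n (n (n (n (n (n (n (l 5 203420 104) (x 37)) (x 33)) (x
  22)) (x 32)) (x 29)) (x 18)) (x 28)) (x 10)) (n (n (n (n (n (n (n (n (l 5 1511706 23) (x 37)) (x
  34)) (x 22)) (x 36)) (x 30)) (x 18)) (n (n (n (n (n (n (l 10 60060 88) (x 38)) (x 34)) (x 22)) (n (n
  (n (l 8 641928 125) (l 6 1511706 23)) (n (x 58) (l 9 641921 2))) (n (x 50) (n (x 54) (l 4 56476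
  88))))) (x 45)) (x 44))) (n (n (n (n (n (x 48) (x 22)) (x 36)) (x 30)) (x 18)) (n (n (n (n (x 48) (x
  22)) (n (x 48) (n (x 49) (n (x 54) (l 5 1345939 83))))) (x 46)) (n (n (n (x 48) (x 22)) (n (x 48) (n
  (x 49) (n (x 53) (l 5 641921 2))))) (n (n (x 48) (x 22)) (n (x 48) (n (x 49) (n (x 53) (l 10 1346842
  47))))))))))) (x 41)) (x 40)))

/-- Subtree. -/
def t38 : T :=
  (n (n (n (n (n (n (n (n (n (n (n (n (l 4 1444947 24) (l 8 1444947 24)) (x 33)) (x 21)) (x 20)) (x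
  29)) (x 17)) (x 16)) (x 9)) (x 8)) (n (n (n (n (n (n (n (n (n (l 5 153482 67) (l 10 859488 14)) (x
  33)) (x 22)) (x 32)) (x 29)) (x 18)) (x 28)) (x 10)) (n (n (n (n (n (n (n (n (l 5 340396 0) (l 4
  859488 14)) (x 34)) (x 22)) (n (n (n (x 38) (l 9 1512672 97)) (x 49)) (x 48))) (x 30)) (x 18)) (n (n
  (n (x 36) (n (n (n (x 37) (l 6 468517 92)) (x 49)) (x 48))) (x 45)) (x 44))) (n (n (n (n (n (n (n (l
  10 154833 63) (l 8 859488 14)) (x 34)) (x 22)) (n (n (n (x 38) (l 6 1753171 8)) (x 50)) (n (n (x 38)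
  (l 9 976913 120)) (n (x 38) (l 4 158417 63))))) (x 30)) (x 18)) (n (n (n (x 36) (n (n (n (x 37) (l 3
  281491 35)) (x 50)) (n (n (x 37) (l 1 355075 28)) (n (x 37) (l 0 281946 95))))) (x 46)) (n (n (x 36)
  (n (x 52) (n (n (x 37) (l 5 969738 4)) (n (x 37) (l 0 215761 63))))) (n (x 36) (n (x 52) (n (x 56)
  (n (x 37) (l 4 1466451 8))))))))))) (x 26)) (x 14))

/-- Subtree. -/
def t39 : T :=
  (n (n (n (n (n (n (n (n (n (n (n (n (l 4 1455216 124) (x 37)) (x 33)) (x 21)) (x 20)) (x 29)) (x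
  17)) (x 16)) (x 9)) (x 8)) (n (n (n (n (n (n (n (n (n (l 5 938126 113) (x 37)) (x 33)) (x 22)) (x
  32)) (x 29)) (x 18)) (x 28)) (x 10)) (n (n (n (n (n (n (n (n (l 2 1213681 30) (x 37)) (x 34)) (x
  22)) (x 36)) (x 30)) (x 18)) (n (n (n (n (n (n (l 5 1155441 121) (x 38)) (x 34)) (x 22)) (n (n (n (l
  4 641928 125) (l 9 1754760 126)) (x 49)) (x 48))) (x 45)) (x 44))) (n (n (n (n (n (n (n (l 5 1753171
  8) (x 37)) (x 34)) (x 22)) (x 36)) (x 30)) (x 18)) (n (n (n (n (n (n (l 5 108661 3) (x 38)) (x 34))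
  (x 22)) (n (n (n (l 4 623532 8) (l 4 275884 71)) (x 50)) (n (n (x 54) (l 5 792757 28)) (n (x 54) (l
  2 1754760 126))))) (x 46)) (n (n (n (x 52) (x 22)) (n (x 52) (n (n (x 53) (l 5 1754760 126)) (n (x
  53) (l 0 1754760 126))))) (n (n (x 52) (x 22)) (n (x 52) (n (x 56) (n (x 53) (l 4 1455174
  125))))))))))) (x 42)) (n (n (n (n (n (n (n (n (n (n (n (l 8 1455216 124) (x 37)) (x 33)) (x 21)) (x
  20)) (x 29)) (x 17)) (x 16)) (x 9)) (x 8)) (n (n (n (n (n (n (n (n (n (l 10 182154 67) (x 37)) (x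
  33)) (x 22)) (x 32)) (x 29)) (x 18)) (x 28)) (x 10)) (n (n (n (n (n (n (n (n (l 5 581861 31) (x 37))
  (x 34)) (x 22)) (x 36)) (x 30)) (x 18)) (n (n (n (n (n (n (l 5 58723 40) (x 38)) (x 34)) (x 22)) (n
  (n (n (l 10 641928 125) (x 53)) (x 49)) (x 48))) (x 45)) (x 44))) (n (n (n (n (n (n (n (l 5 183505
  63) (x 37)) (x 34)) (x 22)) (x 36)) (x 30)) (x 18)) (n (n (n (n (n (n (l 1 1754760 126) (x 38)) (x
  34)) (x 22)) (n (n (n (l 3 641928 125) (x 53)) (x 50)) (x 52))) (x 46)) (n (n (n (n (n (l 9 190666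
  67) (x 38)) (x 34)) (x 22)) (n (n (n (l 6 1754760 126) (x 54)) (x 50)) (n (n (l 8 44387 48) (l 10
  941066 4)) (n (x 58) (l 4 941066 4))))) (n (n (n (x 56) (x 34)) (x 22)) (n (n (x 56) (x 50)) (n (x
  56) (n (x 57) (l 8 941066 4))))))))))) (n (n (n (n (n (n (n (n (n (n (l 7 1615656 65) (x 37)) (x
  33)) (x 21)) (x 20)) (x 29)) (x 17)) (x 16)) (x 9)) (x 8)) (n (n (n (n (n (n (n (n (n (l 8 1615656
  65) (x 37)) (x 33)) (x 22)) (x 32)) (x 29)) (x 18)) (x 28)) (x 10)) (n (n (n (n (n (n (n (n (l 4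
  1615656 65) (x 37)) (x 34)) (x 22)) (x 36)) (x 30)) (x 18)) (n (n (n (n (n (n (l 4 1608474 47) (x
  38)) (x 34)) (x 22)) (n (n (n (l 8 1608474 47) (x 53)) (x 49)) (x 48))) (x 45)) (x 44))) (n (n (n (n
  (n (n (n (l 10 1615656 65) (x 37)) (x 34)) (x 22)) (x 36)) (x 30)) (x 18)) (n (n (n (n (n (n (l 3
  1615656 65) (x 38)) (x 34)) (x 22)) (n (n (n (l 6 641928 125) (x 53)) (x 50)) (x 52))) (x 46)) (n (n
  (n (n (n (l 6 1156008 6) (x 38)) (x 34)) (x 22)) (n (n (n (l 3 1754760 126) (x 54)) (x 50)) (n (n (l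
  10 1754760 126) (x 57)) (x 56)))) (n (n (n (n (l 8 190673 63) (x 38)) (x 34)) (x 22)) (n (n (n (l 4
  1737372 16) (x 54)) (x 50)) (n (n (l 4 1754760 126) (x 58)) (n (l 8 1754760 126) (l 7 1754760
  126)))))))))))))

/-- The decision tree. -/
def tree : T :=
  (n (n (n (n (n (n (n (n t0 t1) t2) t3) t4) (n (n (n t5 (n t6 t7)) t8) t9)) (n t10 (n (n t11 (n t12
  (n t13 t14))) t15))) (n t16 (n t17 (n t18 t19)))) (n (n (n (n t20 t21) t22) t23) (n (n (n t24 (n (n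
  (n t25 t26) t27) t28)) t29) (n (n t30 (n t31 (n (n t32 t33) t34))) (n t35 (n t36 (n t37 (n t38
  t39))))))))

theorem tree_ok : verify tree [] = true := by decide +kernel

end Pool.Agent.J6H81.Cube
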