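import Pool.Agent.J6H81.Cube.Classes
import Pool.Agent.J6H81.Cube.Tree

/-!
# The inequality for generic configurations

Support file for MP_416390_gt.
-/

namespace Pool.Agent.J6H81.Cube

open Finset

/-- The sign attached to a Boolean. -/
def sg (e : ℕ → Bool) (i : ℕ) : ℝ := if e i then -1 else 1

theorem sg_abs (e : ℕ → Bool) (i : ℕ) : |sg e i| = 1 := by
  unfold sg; split_ifs <;> simp

theorem sg_sq (e : ℕ → Bool) (i : ℕ) : sg e i ^ 2 = 1 := by
  unfold sg; split_ifs <;> simp

/-- Relabelled configuration with changed signs. -/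
def tw (v : ℕ → Fin 3 → ℝ) (s : ℕ → ℕ) (e : ℕ → Bool) : ℕ → Fin 3 → ℝ :=
  fun i => sg e i • v (s i)

theorem det3_smul (a b c : ℝ) (x y z : Fin 3 → ℝ) :
    det3 (a • x) (b • y) (c • z) = a * b * c * det3 x y z := by
  simp only [det3, Pi.smul_apply, smul_eq_mul]; ring

theorem det3_tw (v : ℕ → Fin 3 → ℝ) (s : ℕ → ℕ) (e : ℕ → Bool) (i j k : ℕ) :
    det3 (tw v s e i) (tw v s e j) (tw v s e k) =
      sg e i * sg e j * sg e k * det3 (v (s i)) (v (s j)) (v (s k)) := det3_smul _ _ _ _ _ _

/-- `s` permutes `range 7`. -/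
def IsPerm (s : ℕ → ℕ) : Prop := (∀ i < 7, s i < 7) ∧ ∀ i < 7, ∀ j < 7, s i = s j → i = j

theorem sum_perm {s : ℕ → ℕ} (hs : IsPerm s) (f : ℕ → ℝ) :
    ∑ i ∈ range 7, f (s i) = ∑ i ∈ range 7, f i := by
  have hmap : ∀ i ∈ range 7, s i ∈ range 7 := fun i hi => mem_range.2 (hs.1 i (mem_range.1 hi))
  have hinj : Set.InjOn s (range 7 : Finset ℕ) := fun i hi j hj h =>
    hs.2 i (mem_range.1 hi) j (mem_range.1 hj) h
  exact sum_nbij s hmap hinj (surjOn_of_injOn_of_card_le s hmap hinj le_rfl) fun _ _ => rfl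

theorem F6_tw (v : ℕ → Fin 3 → ℝ) {s : ℕ → ℕ} (hs : IsPerm s) (e : ℕ → Bool) :
    F6 (tw v s e) = F6 v := by
  unfold F6
  rw [← sum_perm hs (fun i => ∑ j ∈ range 7, ∑ k ∈ range 7, |det3 (v i) (v j) (v k)|)]
  refine sum_congr rfl fun i _ => ?_
  rw [← sum_perm hs (fun j => ∑ k ∈ range 7, |det3 (v (s i)) (v j) (v k)|)]
  refine sum_congr rfl fun j _ => ?_
  rw [← sum_perm hs (fun k => |det3 (v (s i)) (v (s j)) (v k)|)]
  refine sum_congr rfl fun k _ => ?_
  rw [det3_tw, abs_mul, abs_mul, abs_mul, sg_abs, sg_abs, sg_abs]; ring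

theorem s6_tw (v : ℕ → Fin 3 → ℝ) {s : ℕ → ℕ} (hs : IsPerm s) (e : ℕ → Bool) :
    s6 (tw v s e) = s6 v := by
  unfold s6
  rw [← sum_perm hs (fun i => ∑ j ∈ range 7, ∑ k ∈ range 7, (det3 (v i) (v j) (v k)) ^ 2)]
  refine sum_congr rfl fun i _ => ?_
  rw [← sum_perm hs (fun j => ∑ k ∈ range 7, (det3 (v (s i)) (v j) (v k)) ^ 2)]
  refine sum_congr rfl fun j _ => ?_
  rw [← sum_perm hs (fun k => (det3 (v (s i)) (v (s j)) (v k)) ^ 2)]
  refine sum_congr rfl fun k _ => ?_
  rw [det3_tw, mul_pow, mul_pow, mul_pow, sg_sq, sg_sq, sg_sq]; ring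

theorem r2_tw (v : ℕ → Fin 3 → ℝ) {s : ℕ → ℕ} (hs : IsPerm s) (e : ℕ → Bool) (i : ℕ) :
    r2 (tw v s e) i = r2 v (s i) := by
  unfold r2
  rw [← sum_perm hs (fun j => ∑ k ∈ range 7, (det3 (v (s i)) (v j) (v k)) ^ 2)]
  refine sum_congr rfl fun j _ => ?_
  rw [← sum_perm hs (fun k => (det3 (v (s i)) (v (s j)) (v k)) ^ 2)]
  refine sum_congr rfl fun k _ => ?_
  rw [det3_tw, mul_pow, mul_pow, mul_pow, sg_sq, sg_sq, sg_sq]; ring

theorem dev_tw (v : ℕ → Fin 3 → ℝ) {s : ℕ → ℕ} (hs : IsPerm s) (e : ℕ → Bool) :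
    dev (tw v s e) = dev v := by
  unfold dev
  rw [← sum_perm hs (fun i => |7 * r2 v i - s6 v|)]
  refine sum_congr rfl fun i _ => ?_
  rw [r2_tw v hs, s6_tw v hs]

theorem sum_list_eq {α : Type*} (L : List α) (d : α) (h : α → ℝ) :
    (L.map h).sum = ∑ m ∈ range L.length, h (L.getD m d) := by
  induction L with
  | nil => simp
  | cons a l ih =>
    rw [List.length_cons, sum_range_succ']
    simp [ih, add_comm]

theorem F6_eq (v : ℕ → Fin 3 → ℝ) : F6 v = 6 * ∑ m ∈ range 35, |xv v m| := by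
  unfold F6
  rw [sum3_sym (fun i j k => |det3 (v i) (v j) (v k)|)
    (fun i j k => by rw [det3_swap12 (v i) (v j) (v k), abs_neg])
    (fun i j k => by rw [det3_swap23 (v i) (v j) (v k), abs_neg])
    (fun i k => by rw [det3_self12, abs_zero]) 7]
  have h := sum_triL (fun t => |det3 (v t.1) (v t.2.1) (v t.2.2)|)
  simp only at h
  rw [← h, sum_list_eq triL (0, 0, 0)]
  have hl : triL.length = 35 := by decide +kernel
  rw [hl]
  rfl

/-- `r` has the sign coded by `b` (`true` means positive). -/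
def sd (b : Bool) (r : ℝ) : Prop := 0 < (if b then r else -r)

theorem sd_not {b : Bool} {r : ℝ} (h : sd b r) : sd (!b) (-r) := by
  cases b <;> simpa [sd] using h

theorem sd_of_decide {r : ℝ} (h : r ≠ 0) : sd (decide (0 < r)) r := by
  unfold sd
  by_cases h0 : 0 < r
  · simp [h0]
  · simp [h0]; exact lt_of_le_of_ne (not_lt.1 h0) h

theorem sd_sgB (v : ℕ → Fin 3 → ℝ) (bits : List Bool)
    (h : ∀ i j k, i < j → j < k → k < 7 → sd (pos bits i j k) (det3 (v i) (v j) (v k)))
    {a b c : ℕ} (ha : a < 7) (hb : b < 7) (hc : c < 7) (hab : a ≠ b) (hac : a ≠ c)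
    (hbc : b ≠ c) : sd (sgB bits a b c) (det3 (v a) (v b) (v c)) := by
  unfold sgB
  split_ifs with h1 h2 h3 h4 h5
  · exact h a b c h1 h2 hc
  · rw [show det3 (v a) (v b) (v c) = - det3 (v a) (v c) (v b) by
      rw [det3_swap23 (v a) (v c) (v b)]]
    exact sd_not (h a c b h3 (by omega) hb)
  · rw [← det3_rot' (v a) (v b) (v c)]
    exact h c a b (by omega) h1 hb
  · rw [show det3 (v a) (v b) (v c) = - det3 (v b) (v a) (v c) by
      rw [det3_swap12 (v b) (v a) (v c)]]
    exact sd_not (h b a c (by omega) h4 hc)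
  · rw [← det3_rot (v a) (v b) (v c)]
    exact h b c a h5 (by omega) ha
  · rw [show det3 (v a) (v b) (v c) = - det3 (v c) (v b) (v a) by
      rw [det3_swap13 (v c) (v b) (v a)]]
    exact sd_not (h c b a (by omega) (by omega) ha)

theorem sd_xor {b : Bool} {r : ℝ} (e : ℕ → Bool) (i : ℕ) (h : sd b r) :
    sd (xor b (e i)) (sg e i * r) := by
  unfold sg
  cases h1 : e i <;> cases b <;> simpa [sd] using h

theorem middle {X Y Z p q r : ℝ} (hp : 0 < p) (hq : 0 < q) (hr : 0 < r)
    (h : Y * p = Z * q + X * r) :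
    ¬ (decide (0 < X) = decide (0 < Z) ∧ ¬ decide (0 < X) = decide (0 < Y)) := by
  rintro ⟨h1, h2⟩
  by_cases hX : 0 < X
  · have hZ : 0 < Z := by simpa [hX] using h1
    have hY : 0 < Y := by
      have : 0 < Y * p := by rw [h]; positivity
      by_contra hY
      have := mul_nonpos_of_nonpos_of_nonneg (not_lt.1 hY) hp.le
      linarith
    simp [hX, hY] at h2
  · have hZ : ¬ 0 < Z := by simpa [hX] using h1
    have hY : ¬ 0 < Y := by
      intro hY
      have h3 : Y * p ≤ 0 := by
        rw [h]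
        have h4 : Z * q ≤ 0 := mul_nonpos_of_nonpos_of_nonneg (not_lt.1 hZ) hq.le
        have h5 : X * r ≤ 0 := mul_nonpos_of_nonpos_of_nonneg (not_lt.1 hX) hr.le
        linarith
      have : 0 < Y * p := mul_pos hY hp
      linarith
    simp [hX, hY] at h2

theorem tri_spec : ∀ m < 35, (triL.getD m (0, 0, 0)).1 < (triL.getD m (0, 0, 0)).2.1 ∧
    (triL.getD m (0, 0, 0)).2.1 < (triL.getD m (0, 0, 0)).2.2 ∧
    (triL.getD m (0, 0, 0)).2.2 < 7 ∧
    idx (triL.getD m (0, 0, 0)).1 (triL.getD m (0, 0, 0)).2.1 (triL.getD m (0, 0, 0)).2.2 = m := by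
  decide +kernel

theorem idx6_lt : ∀ k < 7, ∀ j < k, ∀ i < j, 0 < i → idx6 i j k < 20 := by decide +kernel

theorem normalized_ineq (v : ℕ → Fin 3 → ℝ)
    (hpos : ∀ j k, 0 < j → j < k → k < 7 → 0 < det3 (v 0) (v j) (v k))
    (hne : ∀ i j k, i < j → j < k → k < 7 → det3 (v i) (v j) (v k) ≠ 0) :
    (F6 v / 6) ^ 2 ≤ 157 / 30 * s6 v + dev v := by
  set b : ℕ → Bool := fun m => decide (0 < xv (fun i => v (i + 1)) m) with hbdef
  have hbi : ∀ i j k, 0 < i → i < j → j < k → k < 7 →
      b (idx6 i j k) = decide (0 < det3 (v i) (v j) (v k)) := by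
    intro i j k hi hij hjk hk
    simp only [hbdef, idx6]
    rw [xv_idx _ (by omega : i - 1 < j - 1) (by omega) (by omega)]
    rw [Nat.sub_add_cancel (by omega : 1 ≤ i), Nat.sub_add_cancel (by omega : 1 ≤ j),
      Nat.sub_add_cancel (by omega : 1 ≤ k)]
  have hb : ∀ q ∈ condL, ¬ (b q.1 = b q.2.2 ∧ ¬ b q.1 = b q.2.1) := by
    intro q hq
    simp only [condL, List.mem_flatMap, List.mem_range] at hq
    obtain ⟨a, ha, b', hb', c, hc, d, hd, hq⟩ := hq
    split_ifs at hq with hcond
    · simp only [Bool.and_eq_true, decide_eq_true_eq] at hcond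
      obtain ⟨⟨⟨h0, h1⟩, h2⟩, h3⟩ := hcond
      have pab := hpos a b' h0 h1 (by omega)
      have pac := hpos a c h0 (by omega) (by omega)
      have pad := hpos a d h0 (by omega) (by omega)
      have pbc := hpos b' c (by omega) h2 (by omega)
      have pbd := hpos b' d (by omega) (by omega) (by omega)
      have pcd := hpos c d (by omega) h3 (by omega)
      have e1 := hbi a b' c h0 h1 h2 (by omega)
      have e2 := hbi a b' d h0 h1 (by omega) hd
      have e3 := hbi a c d h0 (by omega) h3 hd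
      have e4 := hbi b' c d (by omega) h2 h3 hd
      simp only [List.mem_cons, List.not_mem_nil, or_false] at hq
      rcases hq with rfl | rfl | rfl | rfl
      · simp only [e1, e2, e3]
        exact middle pac pab pad (by simp only [det3]; ring)
      · simp only [e1, e2, e4]
        exact middle pbc pab pbd (by simp only [det3]; ring)
      · simp only [e1, e3, e4]
        exact middle pbc pac pcd (by simp only [det3]; ring)
      · simp only [e2, e3, e4]
        exact middle pbd pad pcd (by simp only [det3]; ring)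
    · simp at hq
  obtain ⟨c, s, e, hleaf⟩ := verify_sound tree 0 b hb (by simpa using tree_ok)
  set bits := (List.range 20).map b with hbits
  simp only [leafOK, Bool.and_eq_true, decide_eq_true_eq, List.all_eq_true, List.mem_range,
    Bool.not_eq_true', beq_eq_false_iff_ne, ne_eq, beq_iff_eq] at hleaf
  obtain ⟨⟨hc, hperm⟩, hsig⟩ := hleaf
  have hP : IsPerm (dg s) := by
    refine ⟨fun i hi => (hperm i hi).1, fun i hi j hj hij => ?_⟩
    rcases lt_trichotomy i j with h | h | h
    · exact absurd hij.symm ((hperm j hj).2 i h)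
    · exact h
    · exact absurd hij ((hperm i hi).2 j h)
  have hposb : ∀ i j k, i < j → j < k → k < 7 → sd (pos bits i j k) (det3 (v i) (v j) (v k)) := by
    intro i j k hij hjk hk
    unfold pos
    split_ifs with h0
    · subst h0
      have := hpos j k hij hjk hk
      simpa [sd] using this
    · have h1 : bits.getD (idx6 i j k) false = decide (0 < det3 (v i) (v j) (v k)) := by
        have h2 := idx6_lt k hk j hjk i hij (by omega)
        rw [List.getD_eq_getElem _ _ (by simpa [hbits] using h2)]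
        simp only [hbits, List.getElem_map, List.getElem_range]
        exact hbi i j k (by omega) hij hjk hk
      rw [h1]
      exact sd_of_decide (hne i j k hij hjk hk)
  set w := tw v (dg s) (fun i => e.testBit i) with hw
  have hchi := chis_spec c hc
  have habs : ∀ m ∈ range 35, (((chis.getD c []).getD m 0 : ℤ) : ℝ) * xv w m = |xv w m| := by
    intro m hm
    obtain ⟨h1, h2, h3, h4⟩ := tri_spec m (mem_range.1 hm)
    set i := (triL.getD m (0, 0, 0)).1
    set j := (triL.getD m (0, 0, 0)).2.1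
    set k := (triL.getD m (0, 0, 0)).2.2
    have hi : i < 7 := by omega
    have hj : j < 7 := by omega
    have e1 : xv w m = det3 (w i) (w j) (w k) := rfl
    have hsd : sd ((repN.getD c 0).testBit m) (xv w m) := by
      have h5 := hsig k h3 j h2 i h1
      rw [h4] at h5
      rw [← h5, e1, hw, det3_tw]
      have h6 := sd_sgB v bits hposb (hP.1 i hi) (hP.1 j hj) (hP.1 k h3)
        (fun h => by have := hP.2 i hi j hj h; omega)
        (fun h => by have := hP.2 i hi k h3 h; omega)
        (fun h => by have := hP.2 j hj k h3 h; omega)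
      have h7 := sd_xor (fun i => e.testBit i) i (sd_xor (fun i => e.testBit i) j
        (sd_xor (fun i => e.testBit i) k h6))
      have e2 : (sgB bits (dg s i) (dg s j) (dg s k) ^^ (e.testBit i ^^ (e.testBit j ^^
          e.testBit k))) = (((sgB bits (dg s i) (dg s j) (dg s k) ^^ e.testBit k) ^^
          e.testBit j) ^^ e.testBit i) := by
        cases sgB bits (dg s i) (dg s j) (dg s k) <;> cases e.testBit i <;>
          cases e.testBit j <;> cases e.testBit k <;> rfl
      rw [e2]
      have e3 : sg (fun i => e.testBit i) i * sg (fun i => e.testBit i) j *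
          sg (fun i => e.testBit i) k * det3 (v (dg s i)) (v (dg s j)) (v (dg s k)) =
          sg (fun i => e.testBit i) i * (sg (fun i => e.testBit i) j *
          (sg (fun i => e.testBit i) k * det3 (v (dg s i)) (v (dg s j)) (v (dg s k)))) := by ring
      rw [e3]
      exact h7
    rw [hchi.2 m (mem_range.1 hm)]
    unfold sd at hsd
    split_ifs at hsd ⊢ with hbit
    · rw [abs_of_pos hsd]; simp
    · rw [abs_of_neg (by linarith)]; simp
  have hF : F6 w / 6 = ev (chis.getD c []) (xv w) := by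
    rw [F6_eq, ev_eq_sum _ _ 35 hchi.1.le, sum_congr rfl habs]; ring
  have := class_ineq c hc w
  rw [← hF, hw, F6_tw v hP, s6_tw v hP, dev_tw v hP] at this
  exact this

end Pool.Agent.J6H81.Cube
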