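import Pool.Agent.J6H81.Cube.Main

/-!
# A good three-dimensional subspace

Support file for MP_416390_gt.
-/

namespace Pool.Agent.J6H81.Cube

open MeasureTheory Finset Module
open scoped RealInnerProductSpace

/-- The columns of the integer matrix. -/
def wL : List (List ℤ) := [[-24, 27, 9], [23, 0, 0], [0, 23, 0], [0, 0, 23], [23, -15, 15],
  [9, -27, -24], [15, 15, 23]]

/-- Entry `j` of column `i`. -/
def wI (i j : ℕ) : ℤ := (wL.getD i []).getD j 0

/-- The integer determinant. -/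
def dI (i j k : ℕ) : ℤ := wI i 0 * (wI j 1 * wI k 2 - wI j 2 * wI k 1) -
  wI i 1 * (wI j 0 * wI k 2 - wI j 2 * wI k 0) + wI i 2 * (wI j 0 * wI k 1 - wI j 1 * wI k 0)

/-- The columns as vectors. -/
def wv (i : ℕ) (j : Fin 3) : ℝ := wI i j

theorem det3_wv (i j k : ℕ) : det3 (wv i) (wv j) (wv k) = dI i j k := by
  simp only [det3, wv, dI]; push_cast; rfl

theorem F6_wv : F6 wv = 2259588 := by
  have h : ∑ i ∈ range 7, ∑ j ∈ range 7, ∑ k ∈ range 7, |dI i j k| = 2259588 := by
    decide +kernel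
  have h2 : F6 wv = ((∑ i ∈ range 7, ∑ j ∈ range 7, ∑ k ∈ range 7, |dI i j k| : ℤ) : ℝ) := by
    unfold F6; push_cast; simp only [det3_wv]
  rw [h2, h]; norm_num

theorem s6_wv : s6 wv = 27098596896 := by
  have h : ∑ i ∈ range 7, ∑ j ∈ range 7, ∑ k ∈ range 7, (dI i j k) ^ 2 = 27098596896 := by
    decide +kernel
  have h2 : s6 wv = ((∑ i ∈ range 7, ∑ j ∈ range 7, ∑ k ∈ range 7, (dI i j k) ^ 2 : ℤ) : ℝ) := by
    unfold s6; push_cast; simp only [det3_wv]
  rw [h2, h]; norm_num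

/-- The rows of the integer matrix. -/
noncomputable def rows (j : Fin 3) : EuclideanSpace ℝ (Fin 7) :=
  WithLp.toLp 2 (fun i : Fin 7 => wv i j)

/-- The row space. -/
noncomputable def H0 : Submodule ℝ (EuclideanSpace ℝ (Fin 7)) :=
  Submodule.span ℝ (Set.range rows)

theorem rows_indep : LinearIndependent ℝ rows := by
  rw [Fintype.linearIndependent_iff]
  intro g hg i
  have h : ∀ m : Fin 7, ∑ j : Fin 3, g j * wv m j = 0 := by
    intro m
    have := congrArg (fun x : EuclideanSpace ℝ (Fin 7) => x m) hg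
    simpa [rows] using this
  have h1 := h 1
  have h2 := h 2
  have h3 := h 3
  rw [Fin.sum_univ_three] at h1 h2 h3
  have e10 : wv 1 0 = 23 := by norm_num [wv, wI, wL]
  have e11 : wv 1 1 = 0 := by norm_num [wv, wI, wL]
  have e12 : wv 1 2 = 0 := by norm_num [wv, wI, wL]
  have e20 : wv 2 0 = 0 := by norm_num [wv, wI, wL]
  have e21 : wv 2 1 = 23 := by norm_num [wv, wI, wL]
  have e22 : wv 2 2 = 0 := by norm_num [wv, wI, wL]
  have e30 : wv 3 0 = 0 := by norm_num [wv, wI, wL]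
  have e31 : wv 3 1 = 0 := by norm_num [wv, wI, wL]
  have e32 : wv 3 2 = 23 := by norm_num [wv, wI, wL]
  have f1 : ((1 : Fin 7) : ℕ) = 1 := rfl
  have f2 : ((2 : Fin 7) : ℕ) = 2 := rfl
  have f3 : ((3 : Fin 7) : ℕ) = 3 := rfl
  rw [f1, e10, e11, e12] at h1
  rw [f2, e20, e21, e22] at h2
  rw [f3, e30, e31, e32] at h3
  fin_cases i
  · show g 0 = 0
    linarith
  · show g 1 = 0
    linarith
  · show g 2 = 0
    linarith

theorem H0_finrank : finrank ℝ H0 = 3 := by
  exact (finrank_span_eq_card rows_indep).trans (Fintype.card_fin 3)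

theorem lower : 157 / 5 < F H0 ^ 2 := by
  set b : OrthonormalBasis (Fin 3) ℝ H0 := (stdOrthonormalBasis ℝ H0).reindex (finCongr H0_finrank)
  have hv := cols7_tight b
  set A : (Fin 3 → ℝ) →ₗ[ℝ] (Fin 3 → ℝ) :=
    Matrix.toLin' (Matrix.of fun j l => ⟪(b l : EuclideanSpace ℝ (Fin 7)), rows j⟫) with hA
  have hw : ∀ i < 7, wv i = A (cols7 b i) := by
    intro i hi
    funext j
    have hmem : rows j ∈ H0 := Submodule.subset_span ⟨j, rfl⟩
    have h1 := b.sum_repr' (⟨rows j, hmem⟩ : H0)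
    have h2 := congrArg (fun x : H0 => (x : EuclideanSpace ℝ (Fin 7)) ⟨i, hi⟩) h1
    simp only [Submodule.coe_sum, Submodule.coe_smul] at h2
    have h3 : wv i j = rows j ⟨i, hi⟩ := rfl
    rw [h3, ← h2, hA, Matrix.toLin'_apply, Matrix.mulVec, dotProduct]
    simp only [Matrix.of_apply, WithLp.ofLp_sum, WithLp.ofLp_smul, Finset.sum_apply,
      Pi.smul_apply, smul_eq_mul, Submodule.coe_inner]
    refine Finset.sum_congr rfl fun l _ => ?_
    rw [cols7_apply b ⟨i, hi⟩ l]
  have hdet : ∀ i < 7, ∀ j < 7, ∀ k < 7, det3 (wv i) (wv j) (wv k) =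
      LinearMap.det A * det3 (cols7 b i) (cols7 b j) (cols7 b k) := by
    intro i hi j hj k hk
    rw [hw i hi, hw j hj, hw k hk, det3_map]
  have hF : F6 wv = |LinearMap.det A| * F6 (cols7 b) := by
    unfold F6
    simp only [mul_sum]
    refine sum_congr rfl fun i hi => sum_congr rfl fun j hj => sum_congr rfl fun k hk => ?_
    rw [hdet i (mem_range.1 hi) j (mem_range.1 hj) k (mem_range.1 hk), abs_mul]
  have hs : s6 wv = LinearMap.det A ^ 2 * s6 (cols7 b) := by
    unfold s6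
    simp only [mul_sum]
    refine sum_congr rfl fun i hi => sum_congr rfl fun j hj => sum_congr rfl fun k hk => ?_
    rw [hdet i (mem_range.1 hi) j (mem_range.1 hj) k (mem_range.1 hk), mul_pow]
  rw [s6_tight hv, s6_wv] at hs
  rw [F6_wv] at hF
  rw [F_eq b]
  have h1 : (2259588 : ℝ) ^ 2 = LinearMap.det A ^ 2 * F6 (cols7 b) ^ 2 := by
    rw [hF, mul_pow, sq_abs]
  have h2 : LinearMap.det A ^ 2 = 27098596896 / 6 := by linarith
  rw [h2] at h1
  rw [div_pow]
  norm_num at h1 ⊢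
  linarith

end Pool.Agent.J6H81.Cube
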