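import Pool.Agent.J6H81.Cube.Volume

/-!
# The volume formula for zonotopes in dimensions one, two and three

Support file for MP_416390_gt.
-/

namespace Pool.Agent.J6H81.Cube

open MeasureTheory Set Finset
open scoped Pointwise ENNReal

/-- Determinant of two vectors of the plane. -/
def det2 (x y : Fin 2 → ℝ) : ℝ := x 0 * y 1 - x 1 * y 0

theorem det2_eq (x y : Fin 2 → ℝ) : det2 x y = Matrix.detRowAlternating ![x, y] := by
  show _ = Matrix.det (Matrix.of ![x, y])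
  rw [Matrix.det_fin_two]; simp [det2, Matrix.of_apply]

theorem det3_eq (x y z : Fin 3 → ℝ) : det3 x y z = Matrix.detRowAlternating ![x, y, z] := by
  show _ = Matrix.det (Matrix.of ![x, y, z])
  rw [Matrix.det_fin_three]; simp [det3, Matrix.of_apply]; ring

theorem det2_map (A : (Fin 2 → ℝ) →ₗ[ℝ] (Fin 2 → ℝ)) (x y : Fin 2 → ℝ) :
    det2 (A x) (A y) = LinearMap.det A * det2 x y := by
  rw [det2_eq, det2_eq, ← Pi.basisFun_det]
  rw [← Module.Basis.det_comp]
  congr 1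
  funext i; fin_cases i <;> rfl

theorem det3_map (A : (Fin 3 → ℝ) →ₗ[ℝ] (Fin 3 → ℝ)) (x y z : Fin 3 → ℝ) :
    det3 (A x) (A y) (A z) = LinearMap.det A * det3 x y z := by
  rw [det3_eq, det3_eq, ← Pi.basisFun_det]
  rw [← Module.Basis.det_comp]
  congr 1
  funext i; fin_cases i <;> rfl

/-- The general step: adding a segment. -/
theorem zon_step (d : ℕ) (v : ℕ → Fin (d + 1) → ℝ) (n : ℕ) (hn : v n ≠ 0) :
    ∃ A : (Fin (d + 1) → ℝ) ≃L[ℝ] (Fin (d + 1) → ℝ), A (v n) = Pi.single 0 1 ∧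
      LinearMap.det ((A : (Fin (d + 1) → ℝ) →L[ℝ] (Fin (d + 1) → ℝ)) :
        (Fin (d + 1) → ℝ) →ₗ[ℝ] (Fin (d + 1) → ℝ)) ≠ 0 ∧
      ENNReal.ofReal |LinearMap.det ((A : (Fin (d + 1) → ℝ) →L[ℝ] (Fin (d + 1) → ℝ)) :
        (Fin (d + 1) → ℝ) →ₗ[ℝ] (Fin (d + 1) → ℝ))| * volume (zon v (n + 1)) =
      ENNReal.ofReal |LinearMap.det ((A : (Fin (d + 1) → ℝ) →L[ℝ] (Fin (d + 1) → ℝ)) :
        (Fin (d + 1) → ℝ) →ₗ[ℝ] (Fin (d + 1) → ℝ))| * volume (zon v n) +
      volume (zon (fun i => tl d (A (v i))) n) := by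
  have he : (Pi.single 0 1 : Fin (d + 1) → ℝ) ≠ 0 := by
    intro h
    have := congrFun h 0
    simp at this
  obtain ⟨A, hA⟩ := SeparatingDual.exists_continuousLinearEquiv_apply_eq (R := ℝ) hn he
  refine ⟨A, hA, ?_, ?_⟩
  · exact (LinearEquiv.isUnit_det' A.toLinearEquiv).ne_zero
  · rw [← Measure.addHaar_image_continuousLinearMap, ← Measure.addHaar_image_continuousLinearMap]
    have h1 : ∀ m, (A : (Fin (d + 1) → ℝ) →L[ℝ] (Fin (d + 1) → ℝ)) '' zon v m =
        zon (fun i => A (v i)) m := fun m =>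
      image_zon ((A : (Fin (d + 1) → ℝ) →L[ℝ] (Fin (d + 1) → ℝ)) :
        (Fin (d + 1) → ℝ) →ₗ[ℝ] (Fin (d + 1) → ℝ)) v m
    rw [h1, h1, zon, hA, addSeg d _ (zon_compact _ _) (zon_convex _ _), image_zon]

theorem zon_zero (d : ℕ) (v : ℕ → Fin d → ℝ) (n : ℕ) (hn : v n = 0) :
    zon v (n + 1) = zon v n := by
  rw [zon, hn, segment_same]
  simp

theorem volume_zon_zero (d : ℕ) (v : ℕ → Fin (d + 1) → ℝ) : volume (zon v 0) = 0 := by
  simp [zon]

theorem volume_zon_dim0 (v : ℕ → Fin 0 → ℝ) (n : ℕ) : volume (zon v n) = 1 := by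
  have h : zon v n = Set.univ := by
    rw [Set.eq_univ_iff_forall]
    intro x
    obtain ⟨y, hy⟩ := zon_nonempty v n
    rwa [Subsingleton.elim x y]
  rw [h]
  simp [volume_pi]

theorem vol_zon1 (v : ℕ → Fin 1 → ℝ) (n : ℕ) :
    volume (zon v n) = ENNReal.ofReal (∑ i ∈ range n, |v i 0|) := by
  induction n with
  | zero => simp [volume_zon_zero]
  | succ n ih =>
    by_cases hn : v n = 0
    · rw [zon_zero _ _ _ hn, ih, sum_range_succ, hn]; simp
    · obtain ⟨A, hA, hdet, hvol⟩ := zon_step 0 v n hn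
      rw [volume_zon_dim0, ih] at hvol
      set D := LinearMap.det ((A : (Fin (0 + 1) → ℝ) →L[ℝ] (Fin (0 + 1) → ℝ)) :
        (Fin (0 + 1) → ℝ) →ₗ[ℝ] (Fin (0 + 1) → ℝ)) with hD
      have hD0 : 0 < |D| := abs_pos.2 hdet
      -- `D * v n 0 = 1`
      have hDv : |D| * |v n 0| = 1 := by
        have h1 : (Pi.basisFun ℝ (Fin 1)).det (A ∘ fun _ => v n) =
            D * (Pi.basisFun ℝ (Fin 1)).det (fun _ => v n) :=
          Module.Basis.det_comp _ ((A : (Fin (0 + 1) → ℝ) →L[ℝ] (Fin (0 + 1) → ℝ)) :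
            (Fin (0 + 1) → ℝ) →ₗ[ℝ] (Fin (0 + 1) → ℝ)) _
        rw [Pi.basisFun_det] at h1
        change Matrix.det (Matrix.of (A ∘ fun _ => v n)) =
          D * Matrix.det (Matrix.of ((fun _ => v n) : Fin 1 → Fin 1 → ℝ)) at h1
        rw [Matrix.det_fin_one, Matrix.det_fin_one, Matrix.of_apply, Matrix.of_apply] at h1
        have h2 : (A ∘ fun _ : Fin 1 => v n) 0 0 = 1 := by
          simp only [Function.comp]
          rw [hA]; simp
        rw [h2] at h1
        rw [← abs_mul, ← h1, abs_one]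
      have hfin : ENNReal.ofReal |D| ≠ ⊤ := ENNReal.ofReal_ne_top
      have hpos : ENNReal.ofReal |D| ≠ 0 := by
        rw [Ne, ENNReal.ofReal_eq_zero, not_le]; exact hD0
      have key : ENNReal.ofReal |D| * volume (zon v (n + 1)) =
          ENNReal.ofReal |D| * ENNReal.ofReal (∑ i ∈ range (n + 1), |v i 0|) := by
        rw [hvol, sum_range_succ, ENNReal.ofReal_add (by positivity) (by positivity), mul_add,
          ← ENNReal.ofReal_mul hD0.le (q := |v n 0|), hDv, ENNReal.ofReal_one]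
      exact (ENNReal.mul_right_inj hpos hfin).1 key

theorem vol_zon2 (v : ℕ → Fin 2 → ℝ) (n : ℕ) :
    volume (zon v n) = ENNReal.ofReal (∑ j ∈ range n, ∑ i ∈ range j, |det2 (v i) (v j)|) := by
  induction n with
  | zero => simp [volume_zon_zero]
  | succ n ih =>
    by_cases hn : v n = 0
    · rw [zon_zero _ _ _ hn, ih, sum_range_succ, hn]; simp [det2]
    · obtain ⟨A, hA, hdet, hvol⟩ := zon_step 1 v n hn
      rw [vol_zon1, ih] at hvol
      set D := LinearMap.det ((A : (Fin (1 + 1) → ℝ) →L[ℝ] (Fin (1 + 1) → ℝ)) :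
        (Fin (1 + 1) → ℝ) →ₗ[ℝ] (Fin (1 + 1) → ℝ)) with hD
      have hD0 : 0 < |D| := abs_pos.2 hdet
      have hDv : ∀ i, |tl 1 (A (v i)) 0| = |D| * |det2 (v i) (v n)| := by
        intro i
        rw [← abs_mul, hD, ← det2_map]
        have h1 : det2 (A (v i)) (A (v n)) = - (tl 1 (A (v i)) 0) := by
          rw [hA]
          simp [det2, tl]
        rw [show ((A : (Fin (1 + 1) → ℝ) →L[ℝ] (Fin (1 + 1) → ℝ)) :
          (Fin (1 + 1) → ℝ) →ₗ[ℝ] (Fin (1 + 1) → ℝ)) (v i) = A (v i) from rfl,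
          show ((A : (Fin (1 + 1) → ℝ) →L[ℝ] (Fin (1 + 1) → ℝ)) :
          (Fin (1 + 1) → ℝ) →ₗ[ℝ] (Fin (1 + 1) → ℝ)) (v n) = A (v n) from rfl, h1, abs_neg]
      have hfin : ENNReal.ofReal |D| ≠ ⊤ := ENNReal.ofReal_ne_top
      have hpos : ENNReal.ofReal |D| ≠ 0 := by
        rw [Ne, ENNReal.ofReal_eq_zero, not_le]; exact hD0
      have key : ENNReal.ofReal |D| * volume (zon v (n + 1)) = ENNReal.ofReal |D| *
          ENNReal.ofReal (∑ j ∈ range (n + 1), ∑ i ∈ range j, |det2 (v i) (v j)|) := by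
        rw [hvol, sum_range_succ, ENNReal.ofReal_add
          (sum_nonneg fun _ _ => sum_nonneg fun _ _ => abs_nonneg _)
          (sum_nonneg fun _ _ => abs_nonneg _), mul_add,
          ← ENNReal.ofReal_mul hD0.le (q := ∑ i ∈ range n, |det2 (v i) (v n)|), mul_sum]
        congr 2
        exact sum_congr rfl fun i _ => hDv i
      exact (ENNReal.mul_right_inj hpos hfin).1 key

theorem vol_zon3 (v : ℕ → Fin 3 → ℝ) (n : ℕ) :
    volume (zon v n) = ENNReal.ofReal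
      (∑ k ∈ range n, ∑ j ∈ range k, ∑ i ∈ range j, |det3 (v i) (v j) (v k)|) := by
  induction n with
  | zero => simp [volume_zon_zero]
  | succ n ih =>
    by_cases hn : v n = 0
    · rw [zon_zero _ _ _ hn, ih, sum_range_succ, hn]; simp [det3]
    · obtain ⟨A, hA, hdet, hvol⟩ := zon_step 2 v n hn
      rw [vol_zon2, ih] at hvol
      set D := LinearMap.det ((A : (Fin (2 + 1) → ℝ) →L[ℝ] (Fin (2 + 1) → ℝ)) :
        (Fin (2 + 1) → ℝ) →ₗ[ℝ] (Fin (2 + 1) → ℝ)) with hD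
      have hD0 : 0 < |D| := abs_pos.2 hdet
      have hDv : ∀ i j, |det2 (tl 2 (A (v i))) (tl 2 (A (v j)))| =
          |D| * |det3 (v i) (v j) (v n)| := by
        intro i j
        rw [← abs_mul, hD, ← det3_map]
        have h1 : det3 (A (v i)) (A (v j)) (A (v n)) =
            det2 (tl 2 (A (v i))) (tl 2 (A (v j))) := by
          rw [hA]
          have e0 : (Pi.single 0 1 : Fin 3 → ℝ) 0 = 1 := by simp
          have e1 : (Pi.single 0 1 : Fin 3 → ℝ) 1 = 0 := by simp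
          have e2 : (Pi.single 0 1 : Fin 3 → ℝ) 2 = 0 := by simp
          have t0 : ∀ x : Fin 3 → ℝ, tl 2 x 0 = x 1 := fun x => rfl
          have t1 : ∀ x : Fin 3 → ℝ, tl 2 x 1 = x 2 := fun x => rfl
          simp only [det3, det2, t0, t1]
          rw [e0, e1, e2]
          ring
        rw [show ((A : (Fin (2 + 1) → ℝ) →L[ℝ] (Fin (2 + 1) → ℝ)) :
          (Fin (2 + 1) → ℝ) →ₗ[ℝ] (Fin (2 + 1) → ℝ)) (v i) = A (v i) from rfl,
          show ((A : (Fin (2 + 1) → ℝ) →L[ℝ] (Fin (2 + 1) → ℝ)) :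
          (Fin (2 + 1) → ℝ) →ₗ[ℝ] (Fin (2 + 1) → ℝ)) (v j) = A (v j) from rfl,
          show ((A : (Fin (2 + 1) → ℝ) →L[ℝ] (Fin (2 + 1) → ℝ)) :
          (Fin (2 + 1) → ℝ) →ₗ[ℝ] (Fin (2 + 1) → ℝ)) (v n) = A (v n) from rfl, h1]
      have hfin : ENNReal.ofReal |D| ≠ ⊤ := ENNReal.ofReal_ne_top
      have hpos : ENNReal.ofReal |D| ≠ 0 := by
        rw [Ne, ENNReal.ofReal_eq_zero, not_le]; exact hD0
      have key : ENNReal.ofReal |D| * volume (zon v (n + 1)) = ENNReal.ofReal |D| *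
          ENNReal.ofReal (∑ k ∈ range (n + 1), ∑ j ∈ range k, ∑ i ∈ range j,
            |det3 (v i) (v j) (v k)|) := by
        rw [hvol, sum_range_succ, ENNReal.ofReal_add
          (sum_nonneg fun _ _ => sum_nonneg fun _ _ => sum_nonneg fun _ _ => abs_nonneg _)
          (sum_nonneg fun _ _ => sum_nonneg fun _ _ => abs_nonneg _), mul_add,
          ← ENNReal.ofReal_mul hD0.le
            (q := ∑ j ∈ range n, ∑ i ∈ range j, |det3 (v i) (v j) (v n)|), mul_sum]
        congr 2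
        refine sum_congr rfl fun j _ => ?_
        rw [mul_sum]
        exact sum_congr rfl fun i _ => hDv i j
      exact (ENNReal.mul_right_inj hpos hfin).1 key

end Pool.Agent.J6H81.Cube
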