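import Pool.Agent.J6H81.Cube.Density
import Pool.Agent.J6H81.Cube.ZonVol

/-!
# Projections of the seven-dimensional cube to three-dimensional subspaces

Support file for MP_416390_gt.
-/

namespace Pool.Agent.J6H81.Cube

open MeasureTheory Finset Module
open scoped RealInnerProductSpace

/-- The columns `P e_i` in the coordinates of an orthonormal basis. -/
noncomputable def cols7 {H : Submodule ℝ (EuclideanSpace ℝ (Fin 7))}
    (b : OrthonormalBasis (Fin 3) ℝ H) : ℕ → Fin 3 → ℝ :=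
  fun i j => if h : i < 7 then (b j : EuclideanSpace ℝ (Fin 7)) ⟨i, h⟩ else 0

theorem inner_eq_sum7 (x y : EuclideanSpace ℝ (Fin 7)) : ⟪x, y⟫ = ∑ i : Fin 7, x i * y i := by
  rw [PiLp.inner_apply]
  exact Finset.sum_congr rfl fun i _ => by simp [mul_comm]

theorem sum_fin_range (f : ℕ → ℝ) : ∑ i : Fin 7, f i = ∑ i ∈ range 7, f i :=
  Fin.sum_univ_eq_sum_range f 7

theorem cols7_apply {H : Submodule ℝ (EuclideanSpace ℝ (Fin 7))}
    (b : OrthonormalBasis (Fin 3) ℝ H) (i : Fin 7) (j : Fin 3) :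
    cols7 b i j = (b j : EuclideanSpace ℝ (Fin 7)) i := by
  simp [cols7]

theorem cols7_tight {H : Submodule ℝ (EuclideanSpace ℝ (Fin 7))}
    (b : OrthonormalBasis (Fin 3) ℝ H) (a c : Fin 3) :
    ∑ i ∈ range 7, cols7 b i a * cols7 b i c = if a = c then 1 else 0 := by
  rw [← sum_fin_range (fun i => cols7 b i a * cols7 b i c)]
  have h1 := orthonormal_iff_ite.1 b.orthonormal a c
  rw [Submodule.coe_inner, inner_eq_sum7] at h1
  rw [← h1]
  exact Finset.sum_congr rfl fun i _ => by rw [cols7_apply, cols7_apply]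

/-- Tight frames: sum of the squares of the inner products. -/
theorem tight_sq {v : ℕ → Fin 3 → ℝ}
    (hv : ∀ a c : Fin 3, ∑ i ∈ range 7, v i a * v i c = if a = c then 1 else 0)
    (p q r : ℝ) : ∑ k ∈ range 7, (p * v k 0 + q * v k 1 + r * v k 2) ^ 2 =
      p ^ 2 + q ^ 2 + r ^ 2 := by
  have h : ∀ k, (p * v k 0 + q * v k 1 + r * v k 2) ^ 2 = p ^ 2 * (v k 0 * v k 0) +
      q ^ 2 * (v k 1 * v k 1) + r ^ 2 * (v k 2 * v k 2) + 2 * p * q * (v k 0 * v k 1) +
      2 * p * r * (v k 0 * v k 2) + 2 * q * r * (v k 1 * v k 2) := fun k => by ring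
  simp_rw [h, sum_add_distrib, ← mul_sum, hv]
  simp

theorem r2_tight {v : ℕ → Fin 3 → ℝ}
    (hv : ∀ a c : Fin 3, ∑ i ∈ range 7, v i a * v i c = if a = c then 1 else 0) (i : ℕ) :
    r2 v i = 2 * (v i 0 ^ 2 + v i 1 ^ 2 + v i 2 ^ 2) := by
  unfold r2
  have h1 : ∀ j, ∑ k ∈ range 7, (det3 (v i) (v j) (v k)) ^ 2 =
      (v i 1 * v j 2 - v i 2 * v j 1) ^ 2 + (v i 2 * v j 0 - v i 0 * v j 2) ^ 2 +
        (v i 0 * v j 1 - v i 1 * v j 0) ^ 2 := by
    intro j
    rw [← tight_sq hv]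
    exact sum_congr rfl fun k _ => by simp only [det3]; ring
  simp_rw [h1]
  have h2 : ∀ j, (v i 1 * v j 2 - v i 2 * v j 1) ^ 2 + (v i 2 * v j 0 - v i 0 * v j 2) ^ 2 +
        (v i 0 * v j 1 - v i 1 * v j 0) ^ 2 =
      (v i 1 ^ 2 + v i 2 ^ 2) * (v j 0 * v j 0) + (v i 0 ^ 2 + v i 2 ^ 2) * (v j 1 * v j 1) +
      (v i 0 ^ 2 + v i 1 ^ 2) * (v j 2 * v j 2) - 2 * (v i 0 * v i 1) * (v j 0 * v j 1) -
      2 * (v i 0 * v i 2) * (v j 0 * v j 2) - 2 * (v i 1 * v i 2) * (v j 1 * v j 2) :=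
    fun j => by ring
  simp_rw [h2, sum_sub_distrib, sum_add_distrib, ← mul_sum, hv]
  simp
  ring

theorem sum_norm_tight {v : ℕ → Fin 3 → ℝ}
    (hv : ∀ a c : Fin 3, ∑ i ∈ range 7, v i a * v i c = if a = c then 1 else 0) :
    ∑ i ∈ range 7, (v i 0 ^ 2 + v i 1 ^ 2 + v i 2 ^ 2) = 3 := by
  simp_rw [sq, sum_add_distrib, hv]
  norm_num

theorem s6_tight {v : ℕ → Fin 3 → ℝ}
    (hv : ∀ a c : Fin 3, ∑ i ∈ range 7, v i a * v i c = if a = c then 1 else 0) :
    s6 v = 6 := by
  have h : s6 v = ∑ i ∈ range 7, r2 v i := rfl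
  rw [h]
  simp_rw [r2_tight hv]
  rw [← mul_sum, sum_norm_tight hv]
  norm_num

/-- The unit cube. -/
def cube (n : ℕ) : Set (EuclideanSpace ℝ (Fin n)) := {x | ∀ i, 0 ≤ x i ∧ x i ≤ 1}

theorem proj_coord {H : Submodule ℝ (EuclideanSpace ℝ (Fin 7))}
    (b : OrthonormalBasis (Fin 3) ℝ H) (x : EuclideanSpace ℝ (Fin 7)) (j : Fin 3) :
    b.repr (H.orthogonalProjectionOnto x) j = ∑ i ∈ range 7,
      cols7 b i j * (if h : i < 7 then x ⟨i, h⟩ else 0) := by
  rw [b.repr_apply_apply, Submodule.inner_orthogonalProjectionOnto_eq_of_mem_left, inner_eq_sum7,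
    ← sum_fin_range (fun i => cols7 b i j * (if h : i < 7 then x ⟨i, h⟩ else 0))]
  exact Finset.sum_congr rfl fun i _ => by rw [cols7_apply]; simp

theorem volume_proj {H : Submodule ℝ (EuclideanSpace ℝ (Fin 7))}
    (b : OrthonormalBasis (Fin 3) ℝ H) :
    (@MeasureSpace.volume H measureSpaceOfInnerProductSpace)
      ((fun x => H.orthogonalProjectionOnto x) '' cube 7) = volume (zon (cols7 b) 7) := by
  set e : H ≃ᵐ (Fin 3 → ℝ) := b.measurableEquiv.trans (MeasurableEquiv.toLp 2 (Fin 3 → ℝ)).symm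
    with he
  have hmp : @MeasurePreserving H (Fin 3 → ℝ) _ _ e
      (@MeasureSpace.volume H measureSpaceOfInnerProductSpace) volume :=
    b.measurePreserving_measurableEquiv.trans
      (EuclideanSpace.volume_preserving_symm_measurableEquiv_toLp (Fin 3))
  have h1 := hmp.symm.measure_preimage_equiv ((fun x => H.orthogonalProjectionOnto x) '' cube 7)
  rw [← h1]
  congr 1
  ext y
  rw [Set.mem_preimage, mem_zon_iff]
  constructor
  · rintro ⟨x, hx, hxy⟩
    have hy : y = e (H.orthogonalProjectionOnto x) := by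
      have hxy' : H.orthogonalProjectionOnto x = e.symm y := hxy
      rw [hxy']; simp
    refine ⟨fun i => if h : i < 7 then x ⟨i, h⟩ else 0, fun i => ?_, ?_⟩
    · dsimp only
      split_ifs with h
      · exact ⟨(hx ⟨i, h⟩).1, (hx ⟨i, h⟩).2⟩
      · simp
    · rw [hy]
      funext j
      have h2 : e (H.orthogonalProjectionOnto x) j = b.repr (H.orthogonalProjectionOnto x) j := rfl
      rw [h2, proj_coord b x j, Finset.sum_apply]
      exact Finset.sum_congr rfl fun i _ => by simp [mul_comm]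
  · rintro ⟨t, ht, hy⟩
    refine ⟨WithLp.toLp 2 (fun i : Fin 7 => t i), fun i => ?_, ?_⟩
    · exact ⟨(ht i).1, (ht i).2⟩
    · apply e.injective
      rw [MeasurableEquiv.apply_symm_apply]
      funext j
      have h2 : e (H.orthogonalProjectionOnto (WithLp.toLp 2 (fun i : Fin 7 => t i))) j =
        b.repr (H.orthogonalProjectionOnto (WithLp.toLp 2 (fun i : Fin 7 => t i))) j := rfl
      dsimp only
      rw [h2, proj_coord b _ j, hy, Finset.sum_apply]
      refine Finset.sum_congr rfl fun i hi => ?_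
      have hi' := Finset.mem_range.1 hi
      simp [hi', mul_comm]

/-- The volume of the projection. -/
noncomputable def F {n : ℕ} (H : Submodule ℝ (EuclideanSpace ℝ (Fin n))) : ℝ :=
  ((@MeasureSpace.volume H measureSpaceOfInnerProductSpace)
    ((fun x => H.orthogonalProjectionOnto x) '' cube n)).toReal

theorem F_eq {H : Submodule ℝ (EuclideanSpace ℝ (Fin 7))}
    (b : OrthonormalBasis (Fin 3) ℝ H) : F H = F6 (cols7 b) / 6 := by
  have h6 := sum3_sym (fun i j k => |det3 (cols7 b i) (cols7 b j) (cols7 b k)|)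
    (fun i j k => by rw [det3_swap12 (cols7 b i) (cols7 b j) (cols7 b k), abs_neg])
    (fun i j k => by rw [det3_swap23 (cols7 b i) (cols7 b j) (cols7 b k), abs_neg])
    (fun i k => by rw [det3_self12, abs_zero]) 7
  rw [F, volume_proj b, vol_zon3, ENNReal.toReal_ofReal
    (sum_nonneg fun _ _ => sum_nonneg fun _ _ => sum_nonneg fun _ _ => abs_nonneg _), F6, h6]
  ring

theorem norm_proj {H : Submodule ℝ (EuclideanSpace ℝ (Fin 7))}
    (b : OrthonormalBasis (Fin 3) ℝ H) (i : Fin 7) :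
    ‖H.orthogonalProjectionOnto (EuclideanSpace.single i (1 : ℝ))‖ ^ 2 =
      cols7 b i 0 ^ 2 + cols7 b i 1 ^ 2 + cols7 b i 2 ^ 2 := by
  have h1 : ∀ j, b.repr (H.orthogonalProjectionOnto (EuclideanSpace.single i (1 : ℝ))) j =
      cols7 b i j := by
    intro j
    rw [b.repr_apply_apply, Submodule.inner_orthogonalProjectionOnto_eq_of_mem_left, inner_eq_sum7,
      cols7_apply]
    simp
  rw [← b.repr.norm_map, EuclideanSpace.norm_sq_eq, Fin.sum_univ_three, h1, h1, h1]
  simp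

/-- The upper bound for subspaces with equal norms. -/
theorem upper {H : Submodule ℝ (EuclideanSpace ℝ (Fin 7))} (hH : finrank ℝ H = 3)
    (heq : ∀ i j : Fin 7, ‖H.orthogonalProjectionOnto (EuclideanSpace.single i (1 : ℝ))‖ =
      ‖H.orthogonalProjectionOnto (EuclideanSpace.single j (1 : ℝ))‖) :
    F H ^ 2 ≤ 157 / 5 := by
  set b : OrthonormalBasis (Fin 3) ℝ H := (stdOrthonormalBasis ℝ H).reindex (finCongr hH)
  have hv := cols7_tight b
  have hnorm : ∀ i ∈ range 7, cols7 b i 0 ^ 2 + cols7 b i 1 ^ 2 + cols7 b i 2 ^ 2 =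
      cols7 b 0 0 ^ 2 + cols7 b 0 1 ^ 2 + cols7 b 0 2 ^ 2 := by
    intro i hi
    have h1 := norm_proj b ⟨i, mem_range.1 hi⟩
    have h2 := norm_proj b 0
    rw [heq ⟨i, mem_range.1 hi⟩ 0] at h1
    rw [h2] at h1
    exact h1.symm
  have hsum := sum_norm_tight hv
  rw [sum_congr rfl hnorm] at hsum
  simp only [sum_const, card_range, nsmul_eq_mul] at hsum
  have hdev : dev (cols7 b) = 0 := by
    unfold dev
    refine sum_eq_zero fun i hi => ?_
    rw [r2_tight hv, s6_tight hv, hnorm i hi, abs_eq_zero]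
    push_cast at hsum
    linarith
  have := main_ineq (cols7 b)
  rw [s6_tight hv, hdev, ← F_eq b] at this
  linarith

end Pool.Agent.J6H81.Cube
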