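import Mathlib

/-!
# Quadratic forms given by integer tables

Support file for MP_416390_gt: evaluation of integer tables as quadratic forms and a
positivity check (Gram matrix plus a diagonally dominant remainder).
-/

namespace Pool.Agent.J6H81.Cube

/-- Linear form with coefficient list `l`. -/
noncomputable def ev : List ℤ → (ℕ → ℝ) → ℝ
  | [], _ => 0
  | a :: l, x => (a : ℝ) * x 0 + ev l (fun n => x (n + 1))

/-- Bilinear form with coefficient table `A`. -/
noncomputable def qd : List (List ℤ) → (ℕ → ℝ) → (ℕ → ℝ) → ℝ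
  | [], _, _ => 0
  | r :: A, x, y => x 0 * ev r y + qd A (fun n => x (n + 1)) y

/-- Add `c` to entry `j`. -/
def addAt : List ℤ → ℕ → ℤ → List ℤ
  | [], 0, c => [c]
  | [], n + 1, c => 0 :: addAt [] n c
  | a :: l, 0, c => (a + c) :: l
  | a :: l, n + 1, c => a :: addAt l n c

/-- Add `c` to entry `(i, j)`. -/
def addAt2 : List (List ℤ) → ℕ → ℕ → ℤ → List (List ℤ)
  | [], 0, j, c => [addAt [] j c]
  | [], n + 1, j, c => [] :: addAt2 [] n j c
  | r :: A, 0, j, c => addAt r j c :: A
  | r :: A, n + 1, j, c => r :: addAt2 A n j c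

theorem ev_addAt (l : List ℤ) (j : ℕ) (c : ℤ) (x : ℕ → ℝ) :
    ev (addAt l j c) x = ev l x + c * x j := by
  induction l generalizing j x with
  | nil =>
    induction j generalizing x with
    | zero => simp [addAt, ev]
    | succ n ih => simp [addAt, ev, ih]
  | cons a l ih =>
    cases j with
    | zero => simp [addAt, ev]; ring
    | succ n => simp [addAt, ev, ih]; ring

theorem qd_addAt2 (A : List (List ℤ)) (i j : ℕ) (c : ℤ) (x y : ℕ → ℝ) :
    qd (addAt2 A i j c) x y = qd A x y + c * x i * y j := by
  induction A generalizing i x with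
  | nil =>
    induction i generalizing x with
    | zero => simp [addAt2, qd, ev_addAt, ev]; ring
    | succ n ih => simp [addAt2, qd, ev, ih]
  | cons r A ih =>
    cases i with
    | zero => simp [addAt2, qd, ev_addAt]; ring
    | succ n => simp [addAt2, qd, ih]; ring

/-- `c` times the outer product. -/
def outer (c : ℤ) (l m : List ℤ) : List (List ℤ) := l.map (fun a => m.map (fun b => c * a * b))

theorem ev_map_mul (c : ℤ) (l : List ℤ) (x : ℕ → ℝ) :
    ev (l.map (fun b => c * b)) x = c * ev l x := by
  induction l generalizing x with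
  | nil => simp [ev]
  | cons a l ih => simp [ev, ih]; ring

theorem qd_outer (c : ℤ) (l m : List ℤ) (x y : ℕ → ℝ) :
    qd (outer c l m) x y = c * ev l x * ev m y := by
  induction l generalizing x with
  | nil => simp [outer, qd, ev]
  | cons a l ih =>
    simp only [outer, List.map_cons, qd, ev] at ih ⊢
    rw [ih, ev_map_mul]; push_cast; ring

/-- `ev` as a sum. -/
theorem ev_eq_sum (l : List ℤ) (x : ℕ → ℝ) (n : ℕ) (h : l.length ≤ n) :
    ev l x = ∑ i ∈ Finset.range n, (l.getD i 0 : ℝ) * x i := by
  induction l generalizing x n with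
  | nil => simp [ev]
  | cons a l ih =>
    cases n with
    | zero => simp at h
    | succ n =>
      rw [Finset.sum_range_succ', ev, ih _ n (by simpa using h)]
      simp [add_comm]

theorem qd_eq_sum (A : List (List ℤ)) (x y : ℕ → ℝ) (n m : ℕ) (h : A.length ≤ n)
    (h2 : ∀ r ∈ A, r.length ≤ m) :
    qd A x y = ∑ i ∈ Finset.range n, ∑ j ∈ Finset.range m,
      ((A.getD i []).getD j 0 : ℝ) * x i * y j := by
  induction A generalizing x n with
  | nil => simp [qd]
  | cons r A ih =>
    cases n with
    | zero => simp at h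
    | succ n =>
      rw [Finset.sum_range_succ', qd, ih _ n (by simpa using h) (fun r hr => h2 r (by simp [hr])),
        ev_eq_sum r y m (h2 r (by simp)), Finset.mul_sum, add_comm]
      simp only [List.getD_cons_succ, List.getD_cons_zero]
      congr 1
      exact Finset.sum_congr rfl fun j _ => by ring

/-- Scalar product of two lists (truncated to the shorter one). -/
def dot : List ℤ → List ℤ → ℤ
  | a :: l, b :: m => a * b + dot l m
  | _, _ => 0

theorem dot_eq_sum (l m : List ℤ) (n : ℕ) (h : l.length ≤ n) (h' : m.length ≤ n) :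
    dot l m = ∑ k ∈ Finset.range n, l.getD k 0 * m.getD k 0 := by
  induction l generalizing m n with
  | nil => simp [dot]
  | cons a l ih =>
    cases m with
    | nil => simp [dot]
    | cons b m =>
      cases n with
      | zero => simp at h
      | succ n =>
        rw [Finset.sum_range_succ', dot, ih m n (by simpa using h) (by simpa using h')]
        simp [add_comm]

/-- Sum of absolute values of `K * r_j - dot c c_j` over the list. -/
def rowAbs (K : ℤ) (c : List ℤ) : List ℤ → List (List ℤ) → ℕ
  | a :: r, d :: cs => (K * a - dot c d).natAbs + rowAbs K c r cs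
  | _, _ => 0

theorem rowAbs_eq_sum (K : ℤ) (c : List ℤ) (r : List ℤ) (cs : List (List ℤ)) (n : ℕ)
    (h : r.length = n) (h' : cs.length = n) :
    (rowAbs K c r cs : ℤ) = ∑ j ∈ Finset.range n,
      |K * r.getD j 0 - dot c (cs.getD j [])| := by
  induction r generalizing cs n with
  | nil =>
    have : n = 0 := by simpa using h.symm
    subst this
    simp [rowAbs]
  | cons a r ih =>
    cases cs with
    | nil =>
      exfalso
      simp at h h'
      omega
    | cons d cs =>
      cases n with
      | zero => simp at h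
      | succ n =>
        rw [Finset.sum_range_succ', rowAbs]
        push_cast
        rw [ih cs n (by simpa using h) (by simpa using h')]
        simp [add_comm]

/-- The diagonal dominance check, rows `i, i+1, ...`. -/
def ddRows (K : ℤ) (cs : List (List ℤ)) : ℕ → List (List ℤ) → List (List ℤ) → Bool
  | i, r :: A, c :: ds =>
    decide ((rowAbs K c r cs : ℤ) ≤ 2 * (K * r.getD i 0 - dot c c)) && ddRows K cs (i + 1) A ds
  | _, [], [] => true
  | _, _, _ => false

theorem ddRows_spec (K : ℤ) (cs : List (List ℤ)) (i : ℕ) (A ds : List (List ℤ))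
    (h : ddRows K cs i A ds = true) :
    ∀ k < A.length, (rowAbs K (ds.getD k []) (A.getD k []) cs : ℤ) ≤
      2 * (K * (A.getD k []).getD (i + k) 0 - dot (ds.getD k []) (ds.getD k [])) := by
  induction A generalizing i ds with
  | nil => intro k hk; simp at hk
  | cons r A ih =>
    cases ds with
    | nil => simp [ddRows] at h
    | cons c ds =>
      simp only [ddRows, Bool.and_eq_true, decide_eq_true_eq] at h
      intro k hk
      cases k with
      | zero => simpa using h.1
      | succ k =>
        have := ih (i + 1) ds h.2 k (by simpa using hk)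
        simpa [add_assoc, add_comm 1 k] using this

/-- All rows have length `n`. -/
def allLen (n : ℕ) (A : List (List ℤ)) : Bool := A.all (fun r => r.length == n)

/-- `A` is symmetric (as an `n × n` table). -/
def symChk (n : ℕ) (A : List (List ℤ)) : Bool :=
  (List.range n).all fun i => (List.range i).all fun j =>
    (A.getD i []).getD j 0 == (A.getD j []).getD i 0

/-- The full positivity check. -/
def psdChk (n : ℕ) (K : ℤ) (A cs : List (List ℤ)) : Bool :=
  decide (0 < K) && (A.length == n) && (cs.length == n) && allLen n A &&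
    (cs.all fun r => decide (r.length ≤ n)) && symChk n A && ddRows K cs 0 A cs

theorem psd_of_chk (n : ℕ) (K : ℤ) (A cs : List (List ℤ)) (h : psdChk n K A cs = true)
    (x : ℕ → ℝ) : 0 ≤ qd A x x := by
  simp only [psdChk, Bool.and_eq_true, decide_eq_true_eq, beq_iff_eq, allLen, List.all_eq_true,
    symChk, List.mem_range] at h
  obtain ⟨⟨⟨⟨⟨⟨hK, hA⟩, hc⟩, hAl⟩, hcl⟩, hs⟩, hdd⟩ := h
  have hdd' := ddRows_spec K cs 0 A cs hdd
  set a : ℕ → ℕ → ℤ := fun i j => (A.getD i []).getD j 0 with ha
  set g : ℕ → ℕ → ℤ := fun i k => (cs.getD i []).getD k 0 with hg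
  have hsym : ∀ i < n, ∀ j < n, a i j = a j i := by
    intro i hi j hj
    rcases lt_trichotomy i j with hij | hij | hij
    · exact (hs j hj i hij).symm
    · rw [hij]
    · exact hs i hi j hij
  have hlen : ∀ i < n, (A.getD i []).length = n := by
    intro i hi
    apply hAl
    rw [List.getD_eq_getElem _ _ (by omega)]
    exact List.getElem_mem _
  have hclen : ∀ i < n, (cs.getD i []).length ≤ n := by
    intro i hi
    apply hcl
    rw [List.getD_eq_getElem _ _ (by omega)]
    exact List.getElem_mem _
  have hdot : ∀ i < n, ∀ j < n, dot (cs.getD i []) (cs.getD j []) =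
      ∑ k ∈ Finset.range n, g i k * g j k := fun i hi j hj =>
    dot_eq_sum _ _ n (hclen i hi) (hclen j hj)
  set e : ℕ → ℕ → ℤ := fun i j => K * a i j - dot (cs.getD i []) (cs.getD j []) with he
  have hdotcomm : ∀ l m : List ℤ, dot l m = dot m l := by
    intro l
    induction l with
    | nil => intro m; cases m <;> simp [dot]
    | cons b l ih =>
      intro m
      cases m with
      | nil => simp [dot]
      | cons c m => simp [dot, ih m, mul_comm]
  have hesym : ∀ i < n, ∀ j < n, e i j = e j i := by
    intro i hi j hj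
    simp only [he, hsym i hi j hj, hdotcomm (cs.getD i []) (cs.getD j [])]
  have hDD : ∀ i < n, ∑ j ∈ Finset.range n, |e i j| ≤ 2 * e i i := by
    intro i hi
    have h1 := hdd' i (by omega)
    rw [rowAbs_eq_sum K _ _ _ n (hlen i hi) hc] at h1
    simpa [he, ha] using h1
  -- real computation
  have hq : qd A x x = ∑ i ∈ Finset.range n, ∑ j ∈ Finset.range n, (a i j : ℝ) * x i * x j :=
    qd_eq_sum A x x n n hA.le (fun r hr => (hAl r hr).le)
  have hK' : (0 : ℝ) < K := by exact_mod_cast hK
  have hsplit : (K : ℝ) * qd A x x =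
      (∑ k ∈ Finset.range n, (∑ i ∈ Finset.range n, (g i k : ℝ) * x i) ^ 2) +
      ∑ i ∈ Finset.range n, ∑ j ∈ Finset.range n, (e i j : ℝ) * x i * x j := by
    have h1 : ∑ i ∈ Finset.range n, ∑ j ∈ Finset.range n, (e i j : ℝ) * x i * x j =
        ∑ i ∈ Finset.range n, ∑ j ∈ Finset.range n, ((K : ℝ) * ((a i j : ℝ) * x i * x j) -
          ∑ k ∈ Finset.range n, ((g i k : ℝ) * x i) * ((g j k : ℝ) * x j)) := by
      refine Finset.sum_congr rfl fun i hi => Finset.sum_congr rfl fun j hj => ?_
      have hi' := Finset.mem_range.1 hi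
      have hj' := Finset.mem_range.1 hj
      simp only [he]
      rw [hdot i hi' j hj']
      push_cast
      rw [sub_mul, sub_mul, Finset.sum_mul, Finset.sum_mul]
      congr 1
      · ring
      · exact Finset.sum_congr rfl fun k _ => by ring
    have h2 : ∑ k ∈ Finset.range n, (∑ i ∈ Finset.range n, (g i k : ℝ) * x i) ^ 2 =
        ∑ i ∈ Finset.range n, ∑ j ∈ Finset.range n,
          ∑ k ∈ Finset.range n, ((g i k : ℝ) * x i) * ((g j k : ℝ) * x j) := by
      simp_rw [sq, Finset.sum_mul_sum]
      rw [Finset.sum_comm]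
      refine Finset.sum_congr rfl fun i _ => ?_
      rw [Finset.sum_comm]
    rw [h1, h2, hq, Finset.mul_sum]
    simp_rw [Finset.mul_sum, Finset.sum_sub_distrib]
    ring
  have hE : 0 ≤ ∑ i ∈ Finset.range n, ∑ j ∈ Finset.range n, (e i j : ℝ) * x i * x j := by
    -- `e_ij x_i x_j ≥ - |e_ij| (x_i^2 + x_j^2) / 2` off the diagonal
    have hterm : ∀ i ∈ Finset.range n, ∀ j ∈ Finset.range n,
        (if i = j then 2 * (e i i : ℝ) * x i ^ 2 else 0) - (|(e i j : ℝ)| * x i ^ 2) / 2 -
          (|(e i j : ℝ)| * x j ^ 2) / 2 ≤ (e i j : ℝ) * x i * x j := by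
      intro i _ j _
      have habs : -(|(e i j : ℝ)| * (x i ^ 2 + x j ^ 2) / 2) ≤ (e i j : ℝ) * x i * x j := by
        have h1 : |(e i j : ℝ) * x i * x j| ≤ |(e i j : ℝ)| * (x i ^ 2 + x j ^ 2) / 2 := by
          rw [abs_mul, abs_mul]
          have := two_mul_le_add_sq |x i| |x j|
          rw [sq_abs, sq_abs] at this
          have h0 := abs_nonneg (e i j : ℝ)
          nlinarith
        exact (abs_le.1 h1).1
      by_cases hij : i = j
      · subst hij
        simp only [if_true]
        have : |(e i i : ℝ)| = e i i := by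
          apply abs_of_nonneg
          have h1 : |e i i| ≤ ∑ j ∈ Finset.range n, |e i j| :=
            Finset.single_le_sum (f := fun j => |e i j|) (fun _ _ => abs_nonneg _) ‹_›
          have h2 := hDD i (Finset.mem_range.1 ‹_›)
          have h3 : (0 : ℤ) ≤ e i i := by
            have := abs_nonneg (e i i)
            linarith
          exact_mod_cast h3
        rw [this]
        nlinarith
      · simp only [if_neg hij]
        linarith
    refine le_trans ?_ (Finset.sum_le_sum fun i hi => Finset.sum_le_sum fun j hj => hterm i hi j hj)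
    simp_rw [Finset.sum_sub_distrib]
    have h1 : ∑ i ∈ Finset.range n, ∑ j ∈ Finset.range n,
        (if i = j then 2 * (e i i : ℝ) * x i ^ 2 else 0) =
        ∑ i ∈ Finset.range n, 2 * (e i i : ℝ) * x i ^ 2 := by
      refine Finset.sum_congr rfl fun i hi => ?_
      rw [Finset.sum_ite_eq, if_pos hi]
    have h2 : ∑ i ∈ Finset.range n, ∑ j ∈ Finset.range n, (|(e i j : ℝ)| * x j ^ 2) / 2 =
        ∑ i ∈ Finset.range n, ∑ j ∈ Finset.range n, (|(e i j : ℝ)| * x i ^ 2) / 2 := by
      rw [Finset.sum_comm]
      refine Finset.sum_congr rfl fun i hi => Finset.sum_congr rfl fun j hj => ?_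
      rw [hesym j (Finset.mem_range.1 hj) i (Finset.mem_range.1 hi)]
    rw [h1, h2, ← Finset.sum_sub_distrib, ← Finset.sum_sub_distrib]
    refine Finset.sum_nonneg fun i hi => ?_
    have h3 : ((∑ j ∈ Finset.range n, |e i j| : ℤ) : ℝ) ≤ ((2 * e i i : ℤ) : ℝ) := by
      exact_mod_cast hDD i (Finset.mem_range.1 hi)
    push_cast at h3
    have h4 : ∑ j ∈ Finset.range n, (|(e i j : ℝ)| * x i ^ 2) / 2 =
        (∑ j ∈ Finset.range n, |(e i j : ℝ)|) * x i ^ 2 / 2 := by
      rw [Finset.sum_mul, Finset.sum_div]
    rw [h4]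
    have := sq_nonneg (x i)
    nlinarith
  have hG : 0 ≤ ∑ k ∈ Finset.range n, (∑ i ∈ Finset.range n, (g i k : ℝ) * x i) ^ 2 :=
    Finset.sum_nonneg fun _ _ => sq_nonneg _
  have : 0 ≤ (K : ℝ) * qd A x x := by rw [hsplit]; linarith
  exact nonneg_of_mul_nonneg_right this hK'

end Pool.Agent.J6H81.Cube
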