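import Pool.Agent.J6H81.Cube.Quad

/-!
# Three-term Grassmann-Plücker relations for seven vectors in space

Support file for MP_416390_gt.
-/

namespace Pool.Agent.J6H81.Cube

/-- The determinant of three vectors of `ℝ³`. -/
def det3 (x y z : Fin 3 → ℝ) : ℝ :=
  x 0 * (y 1 * z 2 - y 2 * z 1) - x 1 * (y 0 * z 2 - y 2 * z 0) + x 2 * (y 0 * z 1 - y 1 * z 0)

theorem det3_swap12 (x y z : Fin 3 → ℝ) : det3 y x z = - det3 x y z := by
  simp only [det3]; ring

theorem det3_swap23 (x y z : Fin 3 → ℝ) : det3 x z y = - det3 x y z := by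
  simp only [det3]; ring

theorem det3_swap13 (x y z : Fin 3 → ℝ) : det3 z y x = - det3 x y z := by
  simp only [det3]; ring

theorem det3_rot (x y z : Fin 3 → ℝ) : det3 y z x = det3 x y z := by
  simp only [det3]; ring

theorem det3_rot' (x y z : Fin 3 → ℝ) : det3 z x y = det3 x y z := by
  simp only [det3]; ring

theorem det3_self12 (x z : Fin 3 → ℝ) : det3 x x z = 0 := by
  simp only [det3]; ring

theorem det3_self23 (x z : Fin 3 → ℝ) : det3 x z z = 0 := by
  simp only [det3]; ring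

theorem det3_self13 (x z : Fin 3 → ℝ) : det3 x z x = 0 := by
  simp only [det3]; ring

/-- The three-term Grassmann-Plücker relation. -/
theorem det3_gp (a b c d e : Fin 3 → ℝ) :
    det3 a b c * det3 a d e - det3 a b d * det3 a c e + det3 a b e * det3 a c d = 0 := by
  simp only [det3]; ring

/-- The 35 triples `i < j < k < 7`, in colexicographic order. -/
def triL : List (ℕ × ℕ × ℕ) :=
  (List.range 7).flatMap fun k => (List.range k).flatMap fun j => (List.range j).map fun i =>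
    (i, j, k)

/-- Position of the triple `i < j < k` in `triL`. -/
def idx (i j k : ℕ) : ℕ := k * (k - 1) * (k - 2) / 6 + j * (j - 1) / 2 + i

/-- Sign and position of an arbitrary triple with distinct entries. -/
def lk (a b c : ℕ) : ℤ × ℕ :=
  if a < b then
    if b < c then (1, idx a b c) else if a < c then (-1, idx a c b) else (1, idx c a b)
  else
    if a < c then (-1, idx b a c) else if b < c then (1, idx b c a) else (-1, idx c b a)

/-- The vector of the 35 minors. -/
def xv (v : ℕ → Fin 3 → ℝ) (m : ℕ) : ℝ :=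
  det3 (v (triL.getD m (0, 0, 0)).1) (v (triL.getD m (0, 0, 0)).2.1) (v (triL.getD m (0, 0, 0)).2.2)

theorem triL_idx : ∀ k < 7, ∀ j < k, ∀ i < j, triL.getD (idx i j k) (0, 0, 0) = (i, j, k) := by
  decide +kernel

theorem xv_idx (v : ℕ → Fin 3 → ℝ) {i j k : ℕ} (hij : i < j) (hjk : j < k) (hk : k < 7) :
    xv v (idx i j k) = det3 (v i) (v j) (v k) := by
  simp only [xv, triL_idx k hk j hjk i hij]

theorem xv_lk (v : ℕ → Fin 3 → ℝ) {a b c : ℕ} (ha : a < 7) (hb : b < 7) (hc : c < 7)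
    (hab : a ≠ b) (hac : a ≠ c) (hbc : b ≠ c) :
    det3 (v a) (v b) (v c) = ((lk a b c).1 : ℝ) * xv v (lk a b c).2 := by
  unfold lk
  split_ifs with h1 h2 h3 h4 h5
  · simp [xv_idx v h1 h2 hc]
  · have h : c < b := by omega
    simp [xv_idx v h3 h hb, det3_swap23 (v a) (v b) (v c)]
  · have h : c < a := by omega
    simp [xv_idx v h h1 hb, det3_rot' (v a) (v b) (v c)]
  · have h : b < a := by omega
    simp [xv_idx v h h4 hc, det3_swap12 (v a) (v b) (v c)]
  · have h : c < a := by omega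
    simp [xv_idx v h5 h ha, det3_rot (v a) (v b) (v c)]
  · have h : c < b := by omega
    have h' : b < a := by omega
    simp [xv_idx v h h' ha, det3_swap13 (v a) (v b) (v c)]

/-- The 105 relations `(a; b < c < d < e)`. -/
def rels : List (ℕ × ℕ × ℕ × ℕ × ℕ) :=
  (List.range 7).flatMap fun a => (List.range 7).flatMap fun b => (List.range 7).flatMap fun c =>
    (List.range 7).flatMap fun d => (List.range 7).filterMap fun e =>
      if b < c && c < d && d < e && a != b && a != c && a != d && a != e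
      then some (a, b, c, d, e) else none

/-- Add `m * s * (x_i y_j + x_j y_i)` to the form. -/
def addSym (A : List (List ℤ)) (c : ℤ) (p q : ℤ × ℕ) : List (List ℤ) :=
  addAt2 (addAt2 A p.2 q.2 (c * (p.1 * q.1))) q.2 p.2 (c * (p.1 * q.1))

theorem qd_addSym (A : List (List ℤ)) (c : ℤ) (p q : ℤ × ℕ) (x : ℕ → ℝ) :
    qd (addSym A c p q) x x = qd A x x + 2 * c * ((p.1 * x p.2) * (q.1 * x q.2)) := by
  simp only [addSym, qd_addAt2]; push_cast; ring

/-- Add `c` times the relation to the form. -/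
def addRel (A : List (List ℤ)) (c : ℤ) (r : ℕ × ℕ × ℕ × ℕ × ℕ) : List (List ℤ) :=
  match r with
  | (a, b, p, d, e) =>
    addSym (addSym (addSym A c (lk a b p) (lk a d e)) (-c) (lk a b d) (lk a p e))
      c (lk a b e) (lk a p d)

/-- Validity of the indices of a relation. -/
def relOK (r : ℕ × ℕ × ℕ × ℕ × ℕ) : Prop :=
  r.1 < 7 ∧ r.2.1 < r.2.2.1 ∧ r.2.2.1 < r.2.2.2.1 ∧ r.2.2.2.1 < r.2.2.2.2 ∧ r.2.2.2.2 < 7 ∧
    r.1 ≠ r.2.1 ∧ r.1 ≠ r.2.2.1 ∧ r.1 ≠ r.2.2.2.1 ∧ r.1 ≠ r.2.2.2.2

instance (r : ℕ × ℕ × ℕ × ℕ × ℕ) : Decidable (relOK r) := by unfold relOK; infer_instance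

theorem rels_ok : ∀ r ∈ rels, relOK r := by decide +kernel

theorem qd_addRel (A : List (List ℤ)) (c : ℤ) (r : ℕ × ℕ × ℕ × ℕ × ℕ) (hr : relOK r)
    (v : ℕ → Fin 3 → ℝ) : qd (addRel A c r) (xv v) (xv v) = qd A (xv v) (xv v) := by
  obtain ⟨a, b, p, d, e⟩ := r
  simp only [relOK] at hr
  obtain ⟨ha, hbp, hpd, hde, he, h1, h2, h3, h4⟩ := hr
  simp only [addRel, qd_addSym]
  rw [← xv_lk v ha (by omega) (by omega) h1 h2 (by omega),
    ← xv_lk v ha (by omega) (by omega) h3 h4 (by omega),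
    ← xv_lk v ha (by omega) (by omega) h1 h3 (by omega),
    ← xv_lk v ha (by omega) (by omega) h2 h4 (by omega),
    ← xv_lk v ha (by omega) (by omega) h1 h4 (by omega),
    ← xv_lk v ha (by omega) (by omega) h2 h3 (by omega)]
  have := det3_gp (v a) (v b) (v p) (v d) (v e)
  push_cast
  linear_combination (2 * (c : ℝ)) * this

/-- Add all the relations with the multipliers `-μ`. -/
def addRels : List (List ℤ) → List ℤ → List (ℕ × ℕ × ℕ × ℕ × ℕ) → List (List ℤ)
  | A, m :: ms, r :: rs => addRels (addRel A (-m) r) ms rs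
  | A, _, _ => A

theorem qd_addRels (A : List (List ℤ)) (ms : List ℤ) (rs : List (ℕ × ℕ × ℕ × ℕ × ℕ))
    (hr : ∀ r ∈ rs, relOK r) (v : ℕ → Fin 3 → ℝ) :
    qd (addRels A ms rs) (xv v) (xv v) = qd A (xv v) (xv v) := by
  induction ms generalizing A rs with
  | nil => cases rs <;> simp [addRels]
  | cons m ms ih =>
    cases rs with
    | nil => simp [addRels]
    | cons r rs =>
      rw [addRels, ih _ _ (fun r hr' => hr r (by simp [hr'])), qd_addRel _ _ _ (hr r (by simp))]

/-- Add a diagonal form. -/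
def addDiag : List (List ℤ) → ℕ → List ℤ → List (List ℤ)
  | A, i, d :: ds => addDiag (addAt2 A i i d) (i + 1) ds
  | A, _, [] => A

theorem qd_addDiag (A : List (List ℤ)) (i : ℕ) (ds : List ℤ) (x : ℕ → ℝ) :
    qd (addDiag A i ds) x x = qd A x x + ev ds (fun n => x (i + n) ^ 2) := by
  induction ds generalizing A i with
  | nil => simp [addDiag, ev]
  | cons d ds ih =>
    rw [addDiag, ih, qd_addAt2, ev]
    simp only [add_zero]
    have : (fun n => x (i + 1 + n) ^ 2) = (fun n => x (i + (n + 1)) ^ 2) := by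
      funext n; congr 2; ring
    rw [this]; ring

/-- The diagonal coefficients `2 NB - 2 ∑_k ν_k (7 [k ∈ S] - 3)`. -/
def diagL (NB : ℤ) (nu : List ℤ) : List ℤ :=
  triL.map fun t => 2 * NB + 6 * nu.sum -
    14 * (nu.getD t.1 0 + nu.getD t.2.1 0 + nu.getD t.2.2 0)

/-- The table of `2 (NB ∑ x² - N (χ x)² - ∑ ν_k D_k(x)) - 2 ∑ μ_r Q_r(x)`. -/
def table (N NB : ℤ) (chi mu nu : List ℤ) : List (List ℤ) :=
  addRels (addDiag (outer (-2 * N) chi chi) 0 (diagL NB nu)) mu rels

theorem qd_table (N NB : ℤ) (chi mu nu : List ℤ) (v : ℕ → Fin 3 → ℝ) :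
    qd (table N NB chi mu nu) (xv v) (xv v) =
      -2 * N * (ev chi (xv v)) ^ 2 + ev (diagL NB nu) (fun n => xv v n ^ 2) := by
  rw [table, qd_addRels _ _ _ rels_ok, qd_addDiag, qd_outer]
  push_cast
  simp only [zero_add]
  ring

/-- The certificate check. -/
def certChk (N NB K : ℤ) (chi mu nu : List ℤ) (A cs : List (List ℤ)) : Bool :=
  (table N NB chi mu nu == A) && psdChk 35 K A cs

theorem cert_ineq (N NB K : ℤ) (chi mu nu : List ℤ) (A cs : List (List ℤ))
    (h : certChk N NB K chi mu nu A cs = true) (v : ℕ → Fin 3 → ℝ) :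
    2 * N * (ev chi (xv v)) ^ 2 ≤ ev (diagL NB nu) (fun n => xv v n ^ 2) := by
  simp only [certChk, Bool.and_eq_true, beq_iff_eq] at h
  have := psd_of_chk 35 K A cs h.2 (xv v)
  rw [← h.1, qd_table] at this
  linarith

end Pool.Agent.J6H81.Cube
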