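import Pool.Agent.J6H81.Cube.Check

/-!
# Symmetric sums of minors

Support file for MP_416390_gt.
-/

namespace Pool.Agent.J6H81.Cube

open Finset

theorem sum2_sym (g : ℕ → ℕ → ℝ) (hs : ∀ i j, g i j = g j i) (h0 : ∀ i, g i i = 0) (n : ℕ) :
    ∑ i ∈ range n, ∑ j ∈ range n, g i j = 2 * ∑ j ∈ range n, ∑ i ∈ range j, g i j := by
  induction n with
  | zero => simp
  | succ n ih =>
    rw [sum_range_succ, sum_range_succ (fun j => ∑ i ∈ range j, g i j)]
    simp_rw [sum_range_succ (fun j => g _ j)]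
    rw [sum_add_distrib, ih, h0]
    have : ∑ x ∈ range n, g n x = ∑ x ∈ range n, g x n := sum_congr rfl fun i _ => hs n i
    rw [this]; ring

theorem sum3_sym (h : ℕ → ℕ → ℕ → ℝ) (h12 : ∀ i j k, h i j k = h j i k)
    (h23 : ∀ i j k, h i j k = h i k j) (h0 : ∀ i k, h i i k = 0) (n : ℕ) :
    ∑ i ∈ range n, ∑ j ∈ range n, ∑ k ∈ range n, h i j k =
      6 * ∑ k ∈ range n, ∑ j ∈ range k, ∑ i ∈ range j, h i j k := by
  induction n with
  | zero => simp
  | succ n ih =>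
    have e1 : ∀ i j, ∑ k ∈ range (n + 1), h i j k = ∑ k ∈ range n, h i j k + h i j n :=
      fun i j => sum_range_succ _ _
    have e2 : ∀ i, ∑ j ∈ range (n + 1), ∑ k ∈ range (n + 1), h i j k =
        ∑ j ∈ range n, ∑ k ∈ range n, h i j k + ∑ j ∈ range n, h i j n +
          ∑ k ∈ range n, h i n k + h i n n := by
      intro i
      rw [sum_range_succ]
      simp_rw [e1]
      rw [sum_add_distrib]; ring
    rw [sum_range_succ]
    simp_rw [e2]
    rw [sum_add_distrib, sum_add_distrib, sum_add_distrib, ih]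
    have hd2 : ∀ i k, h k i i = 0 := fun i k => by rw [h12, h23, h0]
    have hd3 : ∀ i k, h i k i = 0 := fun i k => by rw [h23, h0]
    have z1 : ∑ i ∈ range n, h i n n = 0 := sum_eq_zero fun i _ => hd2 n i
    have z2 : ∑ j ∈ range n, h n j n = 0 := sum_eq_zero fun i _ => hd3 n i
    have z3 : ∑ j ∈ range n, h n n j = 0 := sum_eq_zero fun i _ => h0 n i
    have e3 : ∑ i ∈ range n, ∑ k ∈ range n, h i n k = ∑ i ∈ range n, ∑ j ∈ range n, h i j n :=
      sum_congr rfl fun i _ => sum_congr rfl fun k _ => h23 i n k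
    have e4 : ∑ i ∈ range n, ∑ k ∈ range n, h n i k = ∑ i ∈ range n, ∑ j ∈ range n, h i j n :=
      sum_congr rfl fun i _ => sum_congr rfl fun k _ => by rw [h12, h23]
    rw [z1, z2, z3, hd2, e3, e4, sum_range_succ (fun k => ∑ j ∈ range k, ∑ i ∈ range j, h i j k),
      sum2_sym (fun i j => h i j n) (fun i j => h12 i j n) (fun i => h0 i n)]
    ring

/-- Six times the sum of the absolute values of the minors. -/
def F6 (v : ℕ → Fin 3 → ℝ) : ℝ :=
  ∑ i ∈ range 7, ∑ j ∈ range 7, ∑ k ∈ range 7, |det3 (v i) (v j) (v k)|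

/-- Six times the sum of the squares of the minors. -/
def s6 (v : ℕ → Fin 3 → ℝ) : ℝ :=
  ∑ i ∈ range 7, ∑ j ∈ range 7, ∑ k ∈ range 7, (det3 (v i) (v j) (v k)) ^ 2

/-- Twice the sum of the squares of the minors which contain `i`. -/
def r2 (v : ℕ → Fin 3 → ℝ) (i : ℕ) : ℝ :=
  ∑ j ∈ range 7, ∑ k ∈ range 7, (det3 (v i) (v j) (v k)) ^ 2

/-- The deviation from equal norms. -/
def dev (v : ℕ → Fin 3 → ℝ) : ℝ := ∑ i ∈ range 7, |7 * r2 v i - s6 v|

theorem ev_map_list {α : Type*} (L : List α) (d : α) (F : α → ℤ) (G : α → ℝ) :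
    ev (L.map F) (fun m => G (L.getD m d)) = (L.map fun t => (F t : ℝ) * G t).sum := by
  induction L with
  | nil => simp [ev]
  | cons a l ih =>
    simp only [List.map_cons, ev, List.getD_cons_zero, List.getD_cons_succ, List.sum_cons]
    rw [ih]

theorem sum_triL (h : ℕ × ℕ × ℕ → ℝ) :
    (triL.map h).sum = ∑ k ∈ range 7, ∑ j ∈ range k, ∑ i ∈ range j, h (i, j, k) := by
  have e : triL = [(0,1,2),(0,1,3),(0,2,3),(1,2,3),(0,1,4),(0,2,4),(1,2,4),(0,3,4),(1,3,4),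
    (2,3,4),(0,1,5),(0,2,5),(1,2,5),(0,3,5),(1,3,5),(2,3,5),(0,4,5),(1,4,5),(2,4,5),(3,4,5),
    (0,1,6),(0,2,6),(1,2,6),(0,3,6),(1,3,6),(2,3,6),(0,4,6),(1,4,6),(2,4,6),(3,4,6),
    (0,5,6),(1,5,6),(2,5,6),(3,5,6),(4,5,6)] := by decide +kernel
  rw [e]
  simp only [List.map_cons, List.map_nil, List.sum_cons, List.sum_nil, sum_range_succ,
    sum_range_zero]
  ring

theorem ev_diagL (NB : ℤ) (nu : List ℤ) (hnu : nu.length = 7) (v : ℕ → Fin 3 → ℝ) :
    ev (diagL NB nu) (fun n => xv v n ^ 2) =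
      NB / 3 * s6 v - ∑ k ∈ range 7, (nu.getD k 0 : ℝ) * (7 * r2 v k - s6 v) := by
  have e1 : ev (diagL NB nu) (fun n => xv v n ^ 2) = _ :=
    ev_map_list triL (0, 0, 0) (fun t => 2 * NB + 6 * nu.sum -
      14 * (nu.getD t.1 0 + nu.getD t.2.1 0 + nu.getD t.2.2 0))
      (fun t => (det3 (v t.1) (v t.2.1) (v t.2.2)) ^ 2)
  rw [e1, sum_triL]
  simp only
  have hsum : (nu.sum : ℝ) = ∑ k ∈ range 7, (nu.getD k 0 : ℝ) := by
    match nu, hnu with
    | [a, b, c, d, e, f, g], _ => simp [sum_range_succ]; ring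
  set c : ℕ → ℝ := fun k => (nu.getD k 0 : ℝ) with hc
  set h : ℕ → ℕ → ℕ → ℝ := fun i j k =>
    ((2 * NB + 6 * nu.sum - 14 * (c i + c j + c k)) * (det3 (v i) (v j) (v k)) ^ 2) with hh
  have hT := sum3_sym h (fun i j k => by
      simp only [hh]; rw [det3_swap12 (v i) (v j) (v k)]; ring) (fun i j k => by
      simp only [hh]; rw [det3_swap23 (v i) (v j) (v k)]; ring) (fun i k => by
      simp only [hh]; rw [det3_self12]; ring) 7
  have hL : ∑ k ∈ range 7, ∑ j ∈ range k, ∑ i ∈ range j,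
      ((((2 * NB + 6 * nu.sum - 14 * (nu.getD i 0 + nu.getD j 0 + nu.getD k 0) : ℤ)) : ℝ) *
        det3 (v i) (v j) (v k) ^ 2) = ∑ k ∈ range 7, ∑ j ∈ range k, ∑ i ∈ range j, h i j k := by
    refine sum_congr rfl fun k _ => sum_congr rfl fun j _ => sum_congr rfl fun i _ => ?_
    simp only [hh, hc]; push_cast; ring
  rw [hL]
  have hA : ∑ i ∈ range 7, ∑ j ∈ range 7, ∑ k ∈ range 7, h i j k =
      (2 * NB + 6 * nu.sum) * s6 v - 42 * ∑ i ∈ range 7, c i * r2 v i := by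
    have p1 : ∑ i ∈ range 7, ∑ j ∈ range 7, ∑ k ∈ range 7,
        c i * (det3 (v i) (v j) (v k)) ^ 2 = ∑ i ∈ range 7, c i * r2 v i := by
      refine sum_congr rfl fun i _ => ?_
      rw [r2, mul_sum]
      exact sum_congr rfl fun j _ => by rw [mul_sum]
    have p2 : ∑ i ∈ range 7, ∑ j ∈ range 7, ∑ k ∈ range 7,
        c j * (det3 (v i) (v j) (v k)) ^ 2 = ∑ i ∈ range 7, c i * r2 v i := by
      rw [sum_comm, ← p1]
      refine sum_congr rfl fun i _ => sum_congr rfl fun j _ => sum_congr rfl fun k _ => ?_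
      rw [det3_swap12 (v i) (v j) (v k)]; ring
    have p3 : ∑ i ∈ range 7, ∑ j ∈ range 7, ∑ k ∈ range 7,
        c k * (det3 (v i) (v j) (v k)) ^ 2 = ∑ i ∈ range 7, c i * r2 v i := by
      rw [← p2]
      refine sum_congr rfl fun i _ => ?_
      rw [sum_comm]
      refine sum_congr rfl fun j _ => sum_congr rfl fun k _ => ?_
      rw [det3_swap23 (v i) (v j) (v k)]; ring
    have : ∑ i ∈ range 7, ∑ j ∈ range 7, ∑ k ∈ range 7, h i j k =
        (2 * NB + 6 * nu.sum) * s6 v - 14 * (∑ i ∈ range 7, ∑ j ∈ range 7, ∑ k ∈ range 7,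
          c i * (det3 (v i) (v j) (v k)) ^ 2 + ∑ i ∈ range 7, ∑ j ∈ range 7, ∑ k ∈ range 7,
          c j * (det3 (v i) (v j) (v k)) ^ 2 + ∑ i ∈ range 7, ∑ j ∈ range 7, ∑ k ∈ range 7,
          c k * (det3 (v i) (v j) (v k)) ^ 2) := by
      rw [s6]
      simp only [← sum_add_distrib, mul_sum, ← sum_sub_distrib]
      refine sum_congr rfl fun i _ => sum_congr rfl fun j _ => sum_congr rfl fun k _ => ?_
      simp only [hh]; ring
    rw [this, p1, p2, p3]; ring
  rw [hA] at hT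
  have hB : ∑ k ∈ range 7, c k * (7 * r2 v k - s6 v) =
      7 * ∑ i ∈ range 7, c i * r2 v i - nu.sum * s6 v := by
    rw [hsum, sum_mul, mul_sum, ← sum_sub_distrib]
    exact sum_congr rfl fun k _ => by ring
  rw [hB]
  linarith

/-- A certificate gives an inequality for all configurations. -/
theorem class_of_cert (N NB K : ℤ) (chi mu nu : List ℤ) (A cs : List (List ℤ))
    (h : certChk N NB K chi mu nu A cs = true) (hnu : nu.length = 7) (hN : 0 < N)
    (hNB : 5 * NB = 157 * N) (hb : ∀ k < 7, |nu.getD k 0| ≤ 2 * N) (v : ℕ → Fin 3 → ℝ) :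
    (ev chi (xv v)) ^ 2 ≤ 157 / 30 * s6 v + dev v := by
  have h1 := cert_ineq N NB K chi mu nu A cs h v
  rw [ev_diagL NB nu hnu v] at h1
  have hN' : (0 : ℝ) < N := by exact_mod_cast hN
  have hNB' : (5 : ℝ) * NB = 157 * N := by exact_mod_cast hNB
  have h2 : - ∑ k ∈ range 7, (nu.getD k 0 : ℝ) * (7 * r2 v k - s6 v) ≤ 2 * N * dev v := by
    rw [dev, ← sum_neg_distrib, mul_sum]
    refine sum_le_sum fun k hk => ?_
    have hb' : |(nu.getD k 0 : ℝ)| ≤ 2 * N := by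
      have := hb k (mem_range.1 hk)
      exact_mod_cast this
    calc -((nu.getD k 0 : ℝ) * (7 * r2 v k - s6 v)) ≤
        |(nu.getD k 0 : ℝ) * (7 * r2 v k - s6 v)| := neg_le_abs _
      _ = |(nu.getD k 0 : ℝ)| * |7 * r2 v k - s6 v| := abs_mul _ _
      _ ≤ 2 * N * |7 * r2 v k - s6 v| := mul_le_mul_of_nonneg_right hb' (abs_nonneg _)
  have h3 : (2 * (N : ℝ)) * (ev chi (xv v)) ^ 2 ≤ (2 * N) * (157 / 30 * s6 v + dev v) := by
    have : (NB : ℝ) = 157 / 5 * N := by linarith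
    rw [this] at h1
    nlinarith
  exact le_of_mul_le_mul_left h3 (by positivity)

end Pool.Agent.J6H81.Cube
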