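import Pool.Agent.J6H81.Cube.Rel

/-!
# Volume of zonotopes in dimension three

Support file for MP_416390_gt: the volume of the zonotope generated by `v 0, ..., v (n-1)` in
`ℝ³` is `∑_{i<j<k} |det (v i, v j, v k)|`.
-/

namespace Pool.Agent.J6H81.Cube

open MeasureTheory Set
open scoped Pointwise ENNReal

section Zon

variable {E F : Type*} [AddCommGroup E] [Module ℝ E] [AddCommGroup F] [Module ℝ F]

/-- The zonotope generated by the vectors `v 0, ..., v (n-1)`. -/
def zon (v : ℕ → E) : ℕ → Set E
  | 0 => {0}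
  | n + 1 => zon v n + segment ℝ 0 (v n)

theorem zon_nonempty (v : ℕ → E) (n : ℕ) : (zon v n).Nonempty := by
  induction n with
  | zero => exact ⟨0, rfl⟩
  | succ n ih => exact ih.add ⟨0, left_mem_segment ℝ _ _⟩

theorem zon_convex (v : ℕ → E) (n : ℕ) : Convex ℝ (zon v n) := by
  induction n with
  | zero => exact convex_singleton 0
  | succ n ih => exact ih.add (convex_segment _ _)

theorem image_zon (A : E →ₗ[ℝ] F) (v : ℕ → E) (n : ℕ) :
    A '' zon v n = zon (fun i => A (v i)) n := by
  induction n with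
  | zero => simp [zon]
  | succ n ih =>
    simp only [zon]
    rw [Set.image_add, ih]
    congr 1
    have := image_segment ℝ (A.toAffineMap) 0 (v n)
    simpa using this

theorem mem_zon_iff (v : ℕ → E) (n : ℕ) (x : E) :
    x ∈ zon v n ↔ ∃ t : ℕ → ℝ, (∀ i, t i ∈ Icc (0 : ℝ) 1) ∧
      x = ∑ i ∈ Finset.range n, t i • v i := by
  induction n generalizing x with
  | zero =>
    simp only [zon, mem_singleton_iff, Finset.range_zero, Finset.sum_empty]
    exact ⟨fun h => ⟨fun _ => 0, fun _ => by simp, h⟩, fun ⟨_, _, h⟩ => h⟩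
  | succ n ih =>
    simp only [zon, Set.mem_add]
    constructor
    · rintro ⟨y, hy, z, hz, rfl⟩
      obtain ⟨t, ht, rfl⟩ := (ih y).1 hy
      rw [segment_eq_image'] at hz
      obtain ⟨s, hs, rfl⟩ := hz
      refine ⟨fun i => if i = n then s else t i, fun i => ?_, ?_⟩
      · dsimp only
        split_ifs
        · exact hs
        · exact ht i
      · rw [Finset.sum_range_succ]
        simp only [if_true, zero_add, sub_zero]
        congr 1
        exact Finset.sum_congr rfl fun i hi => by
          rw [if_neg (Finset.mem_range.1 hi).ne]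
    · rintro ⟨t, ht, rfl⟩
      refine ⟨∑ i ∈ Finset.range n, t i • v i, (ih _).2 ⟨t, ht, rfl⟩, t n • v n, ?_, ?_⟩
      · rw [segment_eq_image']
        exact ⟨t n, ht n, by simp⟩
      · rw [Finset.sum_range_succ]

end Zon

theorem zon_compact {E : Type*} [AddCommGroup E] [Module ℝ E] [TopologicalSpace E]
    [IsTopologicalAddGroup E] [ContinuousSMul ℝ E] (v : ℕ → E) (n : ℕ) :
    IsCompact (zon v n) := by
  induction n with
  | zero => exact isCompact_singleton
  | succ n ih =>
    refine ih.add ?_
    rw [segment_eq_image']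
    exact isCompact_Icc.image (by fun_prop)

/-- Forget the first coordinate. -/
def tl (d : ℕ) : (Fin (d + 1) → ℝ) →ₗ[ℝ] (Fin d → ℝ) where
  toFun x := fun i => x i.succ
  map_add' _ _ := rfl
  map_smul' _ _ := rfl

theorem tl_continuous (d : ℕ) : Continuous (tl d) := by
  show Continuous fun (x : Fin (d + 1) → ℝ) => fun i : Fin d => x i.succ
  fun_prop

theorem vol_Icc_add (I : Set ℝ) (hc : IsCompact I) (hconv : Convex ℝ I) (hne : I.Nonempty) :
    volume {x : ℝ | ∃ t ∈ Icc (0 : ℝ) 1, x - t ∈ I} = volume I + 1 := by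
  have hconn : IsConnected I := ⟨hne, hconv.isPreconnected⟩
  have hI := eq_Icc_of_connected_compact hconn hc
  set a := sInf I
  set b := sSup I
  have hab : a ≤ b := by
    obtain ⟨x, hx⟩ := hne
    rw [hI] at hx
    exact hx.1.trans hx.2
  have h1 : {x : ℝ | ∃ t ∈ Icc (0 : ℝ) 1, x - t ∈ I} = Icc a (b + 1) := by
    ext x
    rw [hI]
    simp only [mem_ofPred_eq, mem_Icc]
    constructor
    · rintro ⟨t, ⟨h0, h1⟩, h2, h3⟩
      constructor <;> linarith
    · rintro ⟨h1, h2⟩
      refine ⟨max 0 (x - b), ⟨le_max_left _ _, max_le zero_le_one (by linarith)⟩, ?_, ?_⟩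
      · rcases le_total 0 (x - b) with h | h
        · rw [max_eq_right h]; linarith
        · rw [max_eq_left h]; linarith
      · have := le_max_right 0 (x - b)
        linarith
  rw [h1, hI, Real.volume_Icc, Real.volume_Icc, show b + 1 - a = (b - a) + 1 by ring,
    ENNReal.ofReal_add (by linarith) zero_le_one, ENNReal.ofReal_one]

/-- Adding a unit segment in the direction of the first coordinate axis. -/
theorem addSeg (d : ℕ) (Z : Set (Fin (d + 1) → ℝ)) (hc : IsCompact Z) (hconv : Convex ℝ Z) :
    volume (Z + segment ℝ 0 (Pi.single 0 1 : Fin (d + 1) → ℝ)) =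
      volume Z + volume (tl d '' Z) := by
  set Φ := MeasurableEquiv.piFinSuccAbove (fun _ : Fin (d + 1) => ℝ) 0 with hΦ
  have hmp : MeasurePreserving Φ volume volume :=
    volume_preserving_piFinSuccAbove (fun _ : Fin (d + 1) => ℝ) 0
  have hvol : ∀ S : Set (Fin (d + 1) → ℝ), MeasurableSet S → volume S =
      ∫⁻ y : Fin d → ℝ, volume {x : ℝ | (Fin.cons x y : Fin (d + 1) → ℝ) ∈ S} := by
    intro S hS
    have h1 : volume (Φ.symm ⁻¹' S) = volume S := hmp.symm.measure_preimage_equiv S
    rw [← h1, Measure.volume_eq_prod, Measure.prod_apply_symm (Φ.symm.measurable hS)]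
    refine lintegral_congr fun y => ?_
    congr 1
    ext x
    simp only [mem_preimage, mem_ofPred_eq, hΦ, MeasurableEquiv.piFinSuccAbove_symm_apply,
      Fin.insertNthEquiv, Equiv.coe_fn_mk, Fin.insertNth_zero']
  have hseg : IsCompact (segment ℝ 0 (Pi.single 0 1 : Fin (d + 1) → ℝ)) := by
    rw [segment_eq_image']
    exact isCompact_Icc.image (by fun_prop)
  have hZ' : MeasurableSet (Z + segment ℝ 0 (Pi.single 0 1 : Fin (d + 1) → ℝ)) :=
    (hc.add hseg).measurableSet
  have hT : MeasurableSet (tl d '' Z) := (hc.image (tl_continuous d)).measurableSet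
  rw [hvol _ hZ', hvol _ hc.measurableSet, ← lintegral_indicator_one hT,
    ← lintegral_add_right _ (measurable_one.indicator hT)]
  refine lintegral_congr fun y => ?_
  have hset : {x : ℝ | (Fin.cons x y : Fin (d + 1) → ℝ) ∈ Z + segment ℝ 0 (Pi.single 0 1)} =
      {x : ℝ | ∃ t ∈ Icc (0 : ℝ) 1, x - t ∈ {x : ℝ | (Fin.cons x y : Fin (d + 1) → ℝ) ∈ Z}} := by
    ext x
    simp only [mem_ofPred_eq, Set.mem_add, segment_eq_image', mem_image]
    constructor
    · rintro ⟨z, hz, w, ⟨t, ht, rfl⟩, hzw⟩
      refine ⟨t, ht, ?_⟩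
      have : (Fin.cons (x - t) y : Fin (d + 1) → ℝ) = z := by
        funext i
        have hi := congrFun hzw i
        refine Fin.cases ?_ (fun j => ?_) i
        · have h0 := congrFun hzw 0
          simp at h0
          simp; linarith
        · have hj := congrFun hzw j.succ
          simp at hj
          simp [hj]
      rw [this]; exact hz
    · rintro ⟨t, ht, hz⟩
      refine ⟨_, hz, _, ⟨t, ht, rfl⟩, ?_⟩
      funext i
      refine Fin.cases ?_ (fun j => ?_) i
      · simp
      · simp
  rw [hset]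
  by_cases hy : y ∈ tl d '' Z
  · obtain ⟨z, hz, hzy⟩ := hy
    have hcons : ∀ x : ℝ, (Fin.cons x y : Fin (d + 1) → ℝ) =
        (Fin.cons 0 y : Fin (d + 1) → ℝ) + x • (Pi.single 0 1 : Fin (d + 1) → ℝ) := by
      intro x
      funext i
      refine Fin.cases ?_ (fun j => ?_) i
      · simp
      · simp
    have hne : {x : ℝ | (Fin.cons x y : Fin (d + 1) → ℝ) ∈ Z}.Nonempty := by
      refine ⟨z 0, ?_⟩
      have : (Fin.cons (z 0) y : Fin (d + 1) → ℝ) = z := by
        funext i
        refine Fin.cases ?_ (fun j => ?_) i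
        · simp
        · simp only [Fin.cons_succ]
          rw [← hzy]; rfl
      simp only [mem_ofPred_eq]
      rw [this]; exact hz
    have hcv : Convex ℝ {x : ℝ | (Fin.cons x y : Fin (d + 1) → ℝ) ∈ Z} := by
      intro a ha b hb s t hs ht hst
      simp only [mem_ofPred_eq] at ha hb ⊢
      have h1 := hconv ha hb hs ht hst
      have h2 : (Fin.cons (s • a + t • b) y : Fin (d + 1) → ℝ) =
          s • (Fin.cons a y : Fin (d + 1) → ℝ) + t • (Fin.cons b y : Fin (d + 1) → ℝ) := by
        funext i
        refine Fin.cases ?_ (fun j => ?_) i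
        · simp
        · simp only [Fin.cons_succ, Pi.add_apply, Pi.smul_apply, smul_eq_mul]
          rw [← add_mul, hst, one_mul]
      rw [h2]; exact h1
    have hcont : Continuous fun x : ℝ => (Fin.cons x y : Fin (d + 1) → ℝ) := by
      have : (fun x : ℝ => (Fin.cons x y : Fin (d + 1) → ℝ)) = fun x =>
        (Fin.cons 0 y : Fin (d + 1) → ℝ) + x • (Pi.single 0 1 : Fin (d + 1) → ℝ) := by
        funext x; exact hcons x
      rw [this]; fun_prop
    have hcp : IsCompact {x : ℝ | (Fin.cons x y : Fin (d + 1) → ℝ) ∈ Z} := by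
      have hcl : IsClosed {x : ℝ | (Fin.cons x y : Fin (d + 1) → ℝ) ∈ Z} :=
        hc.isClosed.preimage hcont
      have himg : IsCompact ((fun z : Fin (d + 1) → ℝ => z 0) '' Z) :=
        hc.image (continuous_apply 0)
      refine himg.of_isClosed_subset hcl ?_
      intro x hx
      exact ⟨_, hx, by simp⟩
    rw [vol_Icc_add _ hcp hcv hne, indicator_of_mem (show y ∈ tl d '' Z from ⟨z, hz, hzy⟩)]
    rfl
  · have hempty : {x : ℝ | (Fin.cons x y : Fin (d + 1) → ℝ) ∈ Z} = ∅ := by
      rw [Set.eq_empty_iff_forall_notMem]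
      intro x hx
      apply hy
      exact ⟨_, hx, by funext i; simp [tl]⟩
    rw [hempty, indicator_of_notMem hy]
    simp

end Pool.Agent.J6H81.Cube
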